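import Pool.Agent.X217.S2Core

set_option autoImplicit false

/-!
# S2 (MP_217fdb_lc, exact order): the median hop and the statement (G)
-/

namespace Pool.Agent.X217

open Finset

attribute [local instance 10] Classical.propDecidable

variable {V : Type} [DecidableEq V]

/-- The `k` members of `S` with the smallest values of `e`. -/
theorem s2_lower (S : Finset V) (e : V → ℕ) :
    ∀ k ≤ S.card, ∃ B ⊆ S, B.card = k ∧ ∀ b ∈ B, ∀ a ∈ S \ B, e b ≤ e a := by
  intro k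
  induction k with
  | zero => intro _; exact ⟨∅, empty_subset _, rfl, by simp⟩
  | succ k ih =>
    intro hk
    obtain ⟨B, h1, h2, h3⟩ := ih (by omega)
    have hne : (S \ B).Nonempty := by
      rw [← card_pos]
      have := le_card_sdiff B S
      omega
    obtain ⟨v, hv, hmin⟩ := exists_min_image (S \ B) e hne
    have hv' := mem_sdiff.mp hv
    refine ⟨insert v B, ?_, ?_, ?_⟩
    · intro x hx
      rcases mem_insert.mp hx with rfl | hx
      · exact hv'.1
      · exact h1 hx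
    · rw [card_insert_of_notMem hv'.2, h2]
    · intro b hb a ha
      have ha' : a ∈ S \ B := by
        rw [mem_sdiff] at ha ⊢
        exact ⟨ha.1, fun h => ha.2 (mem_insert_of_mem h)⟩
      rcases mem_insert.mp hb with rfl | hb
      · exact hmin a ha'
      · exact h3 b hb a ha'

/-- The structure theorem of a run for a set `S` of processors which have completed it.
`e1 b` is the time at which `b` has finished pass 1 over list 0, `K1` the knowledge before this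
pass, `K2` the knowledge after pass 2 over list 0, `K3 p q`: `p` has heard from `q` in phase 3,
`Kf` the final knowledge. -/
theorem s2_run {Rn Q : ℕ} (g : Fin Rn → V → Fin Q) (S : Finset V) (e1 : V → ℕ)
    (K1 K2 K3 Kf : V → V → Prop) {h2 N1 gg j1 J2 F : ℕ}
    (he : ∀ q ∈ S, ∀ b ∈ S, e1 q = e1 b → q = b)
    (hop : ∀ q ∈ S, ∀ b ∈ S, e1 b < e1 q → (∃ r, g r q = g r b) → ∀ w ∈ S, K1 b w → K2 q w)
    (h3 : ∀ p ∈ S, ∀ q ∈ S, K3 p q → ∀ w ∈ S, K2 q w → Kf p w)
    (hA1 : ∀ S' ⊆ S, N1 ≤ S'.card → ∃ p ∈ S', 2 * h2 ≤ (S'.filter fun q => K1 p q).card)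
    (hA3 : ∀ S' ⊆ S, N1 ≤ S'.card → ∃ p ∈ S', 2 * h2 ≤ (S'.filter fun q => K3 p q).card)
    (sA : 2 * (N1 + 4 * (j1 * h2)) ≤ S.card)
    (sB : 2 * (2 * N1 + J2 * h2 + F * J2) ≤ S.card)
    (hF : 4 * gg ≤ F * J2) (hj : 1 ≤ j1) (hJ : 1 ≤ J2)
    (hg : ¬ S2Bad j1 J2 (2 * h2) h2 g) :
    ∃ p ∈ S, gg ≤ (S.filter fun q => Kf p q).card := by
  obtain ⟨B, hB1, hB2, hB3⟩ := s2_lower S e1 (S.card - S.card / 2) (by omega)
  have hAc : S.card / 2 ≤ (S \ B).card := by
    have := le_card_sdiff B S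
    omega
  obtain ⟨p, hp, hp2⟩ := s2_main g (S \ B) B sdiff_disjoint K1 K3 Kf (h2 := h2) (N1 := N1)
    (gg := gg) (j1 := j1) (J2 := J2) (F := F)
    (fun S' hS' h => hA1 S' (hS'.trans hB1) h)
    (fun S' hS' h => hA3 S' (hS'.trans sdiff_subset) h)
    (by
      intro p hp q hq h b hb hC w hw hk
      have hpS := (mem_sdiff.mp hp).1
      have hqS := (mem_sdiff.mp hq).1
      have hlt : e1 b < e1 q := by
        refine lt_of_le_of_ne (hB3 b hb q hq) fun heq => ?_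
        exact (mem_sdiff.mp hq).2 (he q hqS b (hB1 hb) heq.symm ▸ hb)
      exact h3 p hpS q hqS h w (hB1 hw) (hop q hqS b (hB1 hb) hlt hC w (hB1 hw) hk))
    (by
      have : 2 * j1 * (2 * h2) = 4 * (j1 * h2) := by ring
      omega)
    (by omega) hF hj hJ hg
  exact ⟨p, (mem_sdiff.mp hp).1, hp2.trans (card_le_card (filter_subset_filter _ hB1))⟩

/-- The statement (G): all but few members `p` of `S` finally know `gg` members of `S`. -/
theorem s2_few {Rn Q : ℕ} (g : Fin Rn → V → Fin Q) (S : Finset V) (e1 : V → ℕ)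
    (K1 K2 K3 Kf : V → V → Prop) {h2 N1 gg j1 J2 F : ℕ}
    (he : ∀ q ∈ S, ∀ b ∈ S, e1 q = e1 b → q = b)
    (hop : ∀ q ∈ S, ∀ b ∈ S, e1 b < e1 q → (∃ r, g r q = g r b) → ∀ w ∈ S, K1 b w → K2 q w)
    (h3 : ∀ p ∈ S, ∀ q ∈ S, K3 p q → ∀ w ∈ S, K2 q w → Kf p w)
    (hA1 : ∀ S' ⊆ S, N1 ≤ S'.card → ∃ p ∈ S', 2 * h2 ≤ (S'.filter fun q => K1 p q).card)
    (hA3 : ∀ S' ⊆ S, N1 ≤ S'.card → ∃ p ∈ S', 2 * h2 ≤ (S'.filter fun q => K3 p q).card)
    (hF : 4 * gg ≤ F * J2) (hj : 1 ≤ j1) (hJ : 1 ≤ J2)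
    (hg : ¬ S2Bad j1 J2 (2 * h2) h2 g) :
    (S.filter fun p => (S.filter fun q => Kf p q).card < gg).card
      < 4 * N1 + 8 * (j1 * h2) + 2 * (J2 * h2) + 2 * (F * J2) + 1 := by
  by_contra hcon
  set T := S.filter fun p => (S.filter fun q => Kf p q).card < gg with hT
  have hTS : T ⊆ S := filter_subset _ _
  obtain ⟨p, hp, hp2⟩ := s2_run g T e1 K1 K2 K3 Kf (h2 := h2) (N1 := N1) (gg := gg) (j1 := j1)
    (J2 := J2) (F := F)
    (fun q hq b hb => he q (hTS hq) b (hTS hb))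
    (fun q hq b hb h h' w hw => hop q (hTS hq) b (hTS hb) h h' w (hTS hw))
    (fun p hp q hq h w hw => h3 p (hTS hp) q (hTS hq) h w (hTS hw))
    (fun S' hS' => hA1 S' (hS'.trans hTS)) (fun S' hS' => hA3 S' (hS'.trans hTS))
    (by omega) (by omega) hF hj hJ hg
  have h1 := (mem_filter.mp hp).2
  have h4 : (T.filter fun q => Kf p q).card ≤ (S.filter fun q => Kf p q).card :=
    card_le_card (filter_subset_filter _ hTS)
  omega

end Pool.Agent.X217
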