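import Mathlib

set_option autoImplicit false

/-!
# Independent flips (MP_217fdb_lc, exact order, section 7)

`E`: the flips, flip `e` is successful iff its coin `c e : Fin (N e)` is `0`; probability
`1 / N e`.  Everything is counted over the finite type `∀ e, Fin (N e)`.
-/

namespace Pool.Agent.X217

open Finset

attribute [local instance 10] Classical.propDecidable

section

variable {E : Type} [Fintype E] [DecidableEq E] (N : E → ℕ)

/-- The coins. -/
abbrev FC : Type := ∀ e : E, Fin (N e)

/-- The table of the flips given by the coins. -/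
def flt {N : E → ℕ} (c : FC N) (e : E) : Bool := decide ((c e).val = 0)

/-- The mass of a set of flips. -/
noncomputable def fmass (A : Finset E) : ℝ := ∑ e ∈ A, 1 / (N e : ℝ)

theorem fmass_nonneg (A : Finset E) : 0 ≤ fmass N A :=
  sum_nonneg fun _ _ => by positivity

theorem fmass_mono {A B : Finset E} (h : A ⊆ B) : fmass N A ≤ fmass N B :=
  sum_le_sum_of_subset_of_nonneg h fun _ _ _ => by positivity

variable {N}

private theorem Fl1_card_zero {m : ℕ} (hm : 1 ≤ m) :
    (univ.filter fun v : Fin m => v.val = 0).card = 1 := by
  rw [card_eq_one]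
  refine ⟨⟨0, by omega⟩, ?_⟩
  ext v
  simp [Fin.ext_iff]

private theorem Fl1_card_ne {m : ℕ} (hm : 1 ≤ m) :
    (univ.filter fun v : Fin m => v.val ≠ 0).card = m - 1 := by
  have h := card_filter_add_card_filter_not (s := (univ : Finset (Fin m))) (fun v => v.val = 0)
  rw [Fl1_card_zero hm, card_univ, Fintype.card_fin] at h
  have h2 : (univ.filter fun v : Fin m => v.val ≠ 0) = univ.filter fun v : Fin m => ¬ v.val = 0 :=
    rfl
  rw [h2]
  omega

/-- The number of coins for which all flips of `A` fail. -/
theorem fl_none_card (hN : ∀ e, 1 ≤ N e) (A : Finset E) :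
    ((univ.filter fun c : FC N => ∀ e ∈ A, flt c e = false).card : ℝ) =
      (∏ e ∈ A, (1 - 1 / (N e : ℝ))) * Fintype.card (FC N) := by
  have h1 : (univ.filter fun c : FC N => ∀ e ∈ A, flt c e = false) =
      Fintype.piFinset fun e => if e ∈ A then univ.filter fun v : Fin (N e) => v.val ≠ 0
        else univ := by
    ext c
    simp only [mem_filter, mem_univ, true_and, Fintype.mem_piFinset, flt, decide_eq_false_iff_not]
    constructor
    · intro h e
      by_cases he : e ∈ A
      · simp only [he, if_true, mem_filter, mem_univ, true_and]; exact h e he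
      · simp only [he, if_false, mem_univ]
    · intro h e he
      have := h e
      simp only [he, if_true, mem_filter, mem_univ, true_and] at this
      exact this
  rw [h1, Fintype.card_piFinset]
  have h2 : ∀ e : E, (((if e ∈ A then univ.filter fun v : Fin (N e) => v.val ≠ 0
      else univ : Finset (Fin (N e))).card : ℕ) : ℝ) =
      (if e ∈ A then (1 - 1 / (N e : ℝ)) else 1) * (N e : ℝ) := by
    intro e
    have hNe := hN e
    have hpos : (0 : ℝ) < N e := by exact_mod_cast hNe
    by_cases he : e ∈ A
    · simp only [he, if_true]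
      rw [Fl1_card_ne hNe, Nat.cast_sub hNe]
      field_simp
      simp
    · simp only [he, if_false, card_univ, Fintype.card_fin, one_mul]
  rw [Nat.cast_prod, prod_congr rfl fun e _ => h2 e, prod_mul_distrib]
  congr 1
  · rw [prod_ite, prod_const_one, mul_one]
    congr 1
    ext e; simp
  · rw [Fintype.card_pi]
    push_cast
    simp

/-- (F1) The probability that all flips of `A` fail is at most `exp (- mass)`. -/
theorem fl_none (hN : ∀ e, 1 ≤ N e) (A : Finset E) :
    ((univ.filter fun c : FC N => ∀ e ∈ A, flt c e = false).card : ℝ) ≤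
      Real.exp (- fmass N A) * Fintype.card (FC N) := by
  rw [fl_none_card hN]
  refine mul_le_mul_of_nonneg_right ?_ (by positivity)
  rw [fmass, ← sum_neg_distrib, Real.exp_sum]
  refine prod_le_prod (fun e _ => ?_) (fun e _ => ?_)
  · have hpos : (1 : ℝ) ≤ N e := by exact_mod_cast hN e
    rw [sub_nonneg, div_le_one (by linarith)]
    exact hpos
  · have := Real.add_one_le_exp (-(1 / (N e : ℝ)))
    linarith

/-- The number of coins for which only the flip `e₀` of `A` is successful. -/
theorem fl_only_card (hN : ∀ e, 1 ≤ N e) (A : Finset E) (e₀ : E) :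
    ((univ.filter fun c : FC N => flt c e₀ = true ∧ ∀ e ∈ A.erase e₀, flt c e = false).card : ℝ) =
      (1 / (N e₀ : ℝ)) * (∏ e ∈ A.erase e₀, (1 - 1 / (N e : ℝ))) * Fintype.card (FC N) := by
  have h1 : (univ.filter fun c : FC N => flt c e₀ = true ∧ ∀ e ∈ A.erase e₀, flt c e = false) =
      Fintype.piFinset fun e => if e = e₀ then univ.filter fun v : Fin (N e) => v.val = 0 else
        if e ∈ A.erase e₀ then univ.filter fun v : Fin (N e) => v.val ≠ 0 else univ := by
    ext c
    simp only [mem_filter, mem_univ, true_and, Fintype.mem_piFinset, flt, decide_eq_false_iff_not,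
      decide_eq_true_eq]
    constructor
    · rintro ⟨h0, h⟩ e
      by_cases he0 : e = e₀
      · subst he0
        simp only [if_true, mem_filter, mem_univ, true_and]; exact h0
      · by_cases he : e ∈ A.erase e₀
        · simp only [he0, he, if_true, if_false, mem_filter, mem_univ, true_and]; exact h e he
        · simp only [he0, he, if_false, mem_univ]
    · intro h
      refine ⟨?_, fun e he => ?_⟩
      · have := h e₀
        simpa using this
      · have := h e
        have he0 : e ≠ e₀ := ne_of_mem_erase he
        simp only [he0, he, if_true, if_false, mem_filter, mem_univ, true_and] at this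
        exact this
  rw [h1, Fintype.card_piFinset]
  have h2 : ∀ e : E, (((if e = e₀ then univ.filter fun v : Fin (N e) => v.val = 0 else
        if e ∈ A.erase e₀ then univ.filter fun v : Fin (N e) => v.val ≠ 0 else univ :
          Finset (Fin (N e))).card : ℕ) : ℝ) =
      ((if e = e₀ then (1 / (N e : ℝ)) else 1) *
        (if e ∈ A.erase e₀ then (1 - 1 / (N e : ℝ)) else 1)) * (N e : ℝ) := by
    intro e
    have hNe := hN e
    have hpos : (0 : ℝ) < N e := by exact_mod_cast hNe
    by_cases he0 : e = e₀
    · subst he0
      simp only [if_true, mem_erase, ne_eq, not_true_eq_false, false_and, if_false, mul_one]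
      rw [Fl1_card_zero hNe]
      field_simp
      simp
    · by_cases he : e ∈ A.erase e₀
      · simp only [he0, he, if_true, if_false, one_mul]
        rw [Fl1_card_ne hNe, Nat.cast_sub hNe]
        field_simp
        simp
      · simp only [he0, he, if_false, card_univ, Fintype.card_fin, one_mul]
  rw [Nat.cast_prod, prod_congr rfl fun e _ => h2 e, prod_mul_distrib, prod_mul_distrib]
  congr 1
  · congr 1
    · rw [prod_ite_eq' univ e₀]; simp
    · rw [prod_ite, prod_const_one, mul_one]
      congr 1
      ext e; simp
  · rw [Fintype.card_pi]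
    push_cast
    simp

/-- (F2) The probability that only `e₀` of the flips of `A` is successful is at least
`exp (- 2 mass A) / N e₀`. -/
theorem fl_only (hN : ∀ e, 2 ≤ N e) (A : Finset E) (e₀ : E) :
    (1 / (N e₀ : ℝ)) * Real.exp (- (2 * fmass N A)) * Fintype.card (FC N) ≤
    ((univ.filter fun c : FC N => flt c e₀ = true ∧
      ∀ e ∈ A.erase e₀, flt c e = false).card : ℝ) := by
  rw [fl_only_card (fun e => by have := hN e; omega)]
  refine mul_le_mul_of_nonneg_right ?_ (by positivity)
  refine mul_le_mul_of_nonneg_left ?_ (by positivity)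
  have hfac : ∀ e, 0 ≤ (1 - 1 / (N e : ℝ)) := by
    intro e
    have hpos : (2 : ℝ) ≤ N e := by exact_mod_cast hN e
    rw [sub_nonneg, div_le_one (by linarith)]
    linarith
  calc Real.exp (- (2 * fmass N A)) ≤ Real.exp (- (2 * fmass N (A.erase e₀))) := by
        apply Real.exp_le_exp.mpr
        have := fmass_mono N (erase_subset e₀ A)
        linarith
    _ ≤ ∏ e ∈ A.erase e₀, (1 - 1 / (N e : ℝ)) := by
        rw [fmass, mul_sum, ← sum_neg_distrib, Real.exp_sum]
        refine prod_le_prod (fun e _ => (Real.exp_pos _).le) (fun e _ => ?_)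
        have hpos : (2 : ℝ) ≤ N e := by exact_mod_cast hN e
        -- exp (-2x) ≤ 1 - x for 0 ≤ x ≤ 1/2
        set x : ℝ := 1 / (N e : ℝ) with hx
        have hx0 : 0 ≤ x := by positivity
        have hx1 : x ≤ 1 / 2 := by
          rw [hx]; exact one_div_le_one_div_of_le (by norm_num) hpos
        have h1 : 1 + x / (1 - x) ≤ Real.exp (x / (1 - x)) := by
          have := Real.add_one_le_exp (x / (1 - x)); linarith
        have h2 : x / (1 - x) ≤ 2 * x := by
          rw [div_le_iff₀ (by linarith)]
          nlinarith
        have h3 : 1 / (1 - x) ≤ Real.exp (2 * x) := by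
          have hne : (1 - x) ≠ 0 := ne_of_gt (by linarith)
          have h4 : 1 + x / (1 - x) = 1 / (1 - x) := by
            rw [eq_div_iff hne, add_mul, div_mul_cancel₀ _ hne]
            ring
          rw [← h4]
          exact h1.trans (Real.exp_le_exp.mpr h2)
        rw [Real.exp_neg]
        rw [inv_le_comm₀ (Real.exp_pos _) (by linarith)]
        rw [← one_div]
        exact h3

end

end Pool.Agent.X217
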