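import Pool.Agent.MP217Area.CovCnt
import Pool.Agent.MP217Area.NestFull

set_option autoImplicit false

/-!
# The ext lists of the exact protocol, and their coverage
-/

namespace Pool.Agent.X217

open Finset
open Pool.Agent.A217 (Nest kap kap0 nsl sca cap)

attribute [local instance 10] Classical.propDecidable

section

variable {n L ν0 Q : ℕ} (G : Nest n L ν0 Q)

/-- The list of the ext pass of level `l` for the seeds `s`. -/
noncomputable def xl (g l : ℕ) (p : Fin n) (s : ℕ → ℕ) : List (Fin n) :=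
  if l ≤ ν0 then (univ : Finset (Fin n)).toList
  else (G.N l p).toList ++ List.replicate (Q / 2 ^ l - (G.N l p).card) p ++
    (List.range (nsl L g ν0 l)).map fun j => G.pick (sca L g ν0 l j) p (s j)

/-- The length of the ext lists of level `l`. -/
def xlen (n L ν0 Q g l : ℕ) : ℕ := if l ≤ ν0 then n else Q / 2 ^ l + nsl L g ν0 l

theorem xl_length {l : ℕ} (hl : l ≤ L) (g : ℕ) (p : Fin n) (s : ℕ → ℕ) :
    (xl G g l p s).length = xlen n L ν0 Q g l := by
  unfold xl xlen
  split_ifs with h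
  · simp
  · rw [List.length_append, List.length_append, Finset.length_toList, List.length_replicate,
      List.length_map, List.length_range]
    have h1 : (G.N l p).card ≤ Q / 2 ^ l := by
      rw [Nat.le_div_iff_mul_le (by positivity), mul_comm]
      exact G.deg l p hl
    omega

theorem xl_bot {g l : ℕ} (hl : l ≤ ν0) (p : Fin n) (s : ℕ → ℕ) (x : Fin n) : x ∈ xl G g l p s := by
  unfold xl
  rw [if_pos hl]
  exact Finset.mem_toList.mpr (mem_univ x)

/-- The neighbourhoods are contained in the ext lists. -/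
theorem xl_nb {g l : ℕ} (p : Fin n) (s : ℕ → ℕ) {x : Fin n} (hx : x ∈ G.N l p) :
    x ∈ xl G g l p s := by
  unfold xl
  split_ifs
  · exact Finset.mem_toList.mpr (mem_univ x)
  · rw [List.mem_append, List.mem_append]
    exact Or.inl (Or.inl (Finset.mem_toList.mpr hx))

/-- A bound for the lengths of the ext lists. -/
theorem xlen_le {g l : ℕ} (hn : 2 ^ L ≤ n) (hQ : Q = 4 * n * 2 ^ ν0) (h0 : 2 ^ ν0 ≤ 32 * (L + 1))
    (hg : 2 ^ g ≤ 2 * (L + 1)) (hl : l ≤ L) :
    2 ^ l * xlen n L ν0 Q g l ≤ 2 ^ 8 * ((L + 1) * n) := by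
  unfold xlen
  split_ifs with h
  · have h1 : 2 ^ l ≤ 2 ^ ν0 := Nat.pow_le_pow_right (by norm_num) h
    calc 2 ^ l * n ≤ 32 * (L + 1) * n := Nat.mul_le_mul_right _ (h1.trans h0)
      _ ≤ 2 ^ 8 * ((L + 1) * n) := by nlinarith [Nat.zero_le ((L + 1) * n)]
  · rw [mul_add]
    have h1 : 2 ^ l * (Q / 2 ^ l) ≤ 128 * ((L + 1) * n) := by
      refine (Nat.mul_div_le Q (2 ^ l)).trans ?_
      rw [hQ]
      calc 4 * n * 2 ^ ν0 ≤ 4 * n * (32 * (L + 1)) := Nat.mul_le_mul_left _ h0
        _ = 128 * ((L + 1) * n) := by ring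
    have h2 : 2 ^ l * nsl L g ν0 l ≤ 48 * ((L + 1) * n) := by
      unfold nsl kap0 kap
      rw [mul_add]
      have e1 : 2 ^ l * 2 ^ (L - l + g + 3) = 8 * (2 ^ g * 2 ^ L) := by
        rw [← pow_add, show l + (L - l + g + 3) = 3 + (g + L) by omega, pow_add, pow_add]
        norm_num
      have e2 : 2 ^ l * ((l - ν0 - 1) * 2 ^ (L - l + 5)) = 32 * ((l - ν0 - 1) * 2 ^ L) := by
        have : 2 ^ l * 2 ^ (L - l + 5) = 32 * 2 ^ L := by
          rw [← pow_add, show l + (L - l + 5) = 5 + L by omega, pow_add]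
          norm_num
        calc 2 ^ l * ((l - ν0 - 1) * 2 ^ (L - l + 5))
            = (l - ν0 - 1) * (2 ^ l * 2 ^ (L - l + 5)) := by ring
          _ = 32 * ((l - ν0 - 1) * 2 ^ L) := by rw [this]; ring
      rw [e1, e2]
      have h3 : 2 ^ g * 2 ^ L ≤ 2 * (L + 1) * n := Nat.mul_le_mul hg hn
      have h4 : (l - ν0 - 1) * 2 ^ L ≤ (L + 1) * n := Nat.mul_le_mul (by omega) hn
      calc 8 * (2 ^ g * 2 ^ L) + 32 * ((l - ν0 - 1) * 2 ^ L)
          ≤ 8 * (2 * (L + 1) * n) + 32 * ((L + 1) * n) :=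
            Nat.add_le_add (Nat.mul_le_mul_left _ h3) (Nat.mul_le_mul_left _ h4)
        _ = 48 * ((L + 1) * n) := by ring
    calc 2 ^ l * (Q / 2 ^ l) + 2 ^ l * nsl L g ν0 l
        ≤ 128 * ((L + 1) * n) + 48 * ((L + 1) * n) := Nat.add_le_add h1 h2
      _ ≤ 2 ^ 8 * ((L + 1) * n) := by nlinarith [Nat.zero_le ((L + 1) * n)]

/-- Every set with `2 ^ ν` elements meets the `ν`-neighbourhoods of all but fewer than `2 ^ ν`
names. -/
theorem nest_rich {ν : ℕ} (hν : ν ≤ L) (A : Finset (Fin n)) (hA : 2 ^ ν ≤ A.card) :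
    (univ.filter fun x => Disjoint (G.N ν x) A).card < 2 ^ ν := by
  refine lt_of_le_of_lt (card_le_card ?_) (G.rich ν hν A hA)
  intro x hx
  rw [mem_filter] at hx ⊢
  refine ⟨hx.1, ?_⟩
  have h0 : A ∩ G.N ν x = ∅ := by
    rw [← Finset.disjoint_iff_inter_eq_empty]
    exact hx.2.symm
  rw [h0, card_empty, mul_zero, mul_zero]
  have : 0 < A.card := lt_of_lt_of_le (by positivity) hA
  positivity

/-- The members of `A` cover the names by their ext passes of level `l` with the seeds `s`. -/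
def CvL (g l : ℕ) (s : Fin n → ℕ → ℕ) (A : Finset (Fin n)) : Prop :=
  (∀ x, ∃ a ∈ A, x ∈ xl G g l a (s a)) ∧ ∀ ν, ν0 < ν → ν ≤ l →
    (univ.filter fun x => ¬ ∃ a ∈ A, x ∈ xl G g l a (s a) ∧ x ∈ G.N ν a).card < 2 ^ (ν + 5)

theorem cvL_bot {g l : ℕ} (hl : l ≤ ν0) (s : Fin n → ℕ → ℕ) {A : Finset (Fin n)}
    (hA : A.Nonempty) : CvL G g l s A := by
  obtain ⟨a, ha⟩ := hA
  refine ⟨fun x => ⟨a, ha, xl_bot G hl a _ x⟩, ?_⟩
  intro ν h1 h2
  omega

end

/-- The seeds given by a table. -/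
def sdt {n K k : ℕ} (v : Fin K → Fin n → Fin k) (a : Fin n) (j : ℕ) : ℕ :=
  if h : j < K then (v ⟨j, h⟩ a).val else 0

/-- Restriction of tables to the first slots. -/
private theorem xc_restrict {n K K' k : ℕ} (hK : K' ≤ K) (B : Finset (Fin K' → Fin n → Fin k)) :
    (univ.filter fun v : Fin K → Fin n → Fin k =>
      (fun (j : Fin K') (a : Fin n) => v (Fin.castLE hK j) a) ∈ B).card =
      B.card * (k ^ n) ^ (K - K') := by
  classical
  obtain ⟨m, rfl⟩ := Nat.exists_eq_add_of_le hK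
  rw [Nat.add_sub_cancel_left]
  have e : (univ.filter fun v : Fin (K' + m) → Fin n → Fin k =>
      (fun (j : Fin K') (a : Fin n) => v (Fin.castLE hK j) a) ∈ B).card =
      (B ×ˢ (univ : Finset (Fin m → Fin n → Fin k))).card := by
    refine card_bij' (fun v _ => (fun j a => v (Fin.castAdd m j) a, fun j a => v (Fin.natAdd K' j) a))
      (fun z _ => Fin.append z.1 z.2) ?_ ?_ ?_ ?_
    · intro v hv
      rw [mem_filter] at hv
      rw [mem_product]
      exact ⟨hv.2, mem_univ _⟩
    · intro z hz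
      rw [mem_product] at hz
      rw [mem_filter]
      refine ⟨mem_univ _, ?_⟩
      have : (fun (j : Fin K') (a : Fin n) => Fin.append z.1 z.2 (Fin.castLE hK j) a) = z.1 := by
        funext j a
        have : Fin.castLE hK j = Fin.castAdd m j := rfl
        rw [this, Fin.append_left]
      rw [this]
      exact hz.1
    · intro v hv
      funext j
      refine Fin.addCases (fun i => ?_) (fun i => ?_) j
      · simp only [Fin.append_left]
      · simp only [Fin.append_right]
    · intro z hz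
      ext1
      · funext j a
        simp [Fin.append_left]
      · funext j a
        simp [Fin.append_right]
  rw [e, card_product, card_univ, Fintype.card_fun, Fintype.card_fun, Fintype.card_fin,
    Fintype.card_fin, Fintype.card_fin]

/-- Coverage for one level, with spare slots. -/
theorem xcov_one {n L ν0 : ℕ} (G : Nest n L ν0 (4 * n * 2 ^ ν0)) {g l K : ℕ}
    (hn : n < 2 ^ (L + 1)) (hg : L + 1 ≤ 2 ^ g) (hν0 : 16 * (L + 1) ≤ 2 ^ ν0)
    (hfull : ∀ ν ≤ ν0, ∀ x, G.N ν x = univ) (hl : l ≤ L) (hK : nsl L g ν0 l ≤ K)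
    (A : Finset (Fin n)) (hne : A.Nonempty) (hA : ν0 < l → 2 ^ (l + 5) ≤ A.card) :
    2 ^ (16 * (L + 1)) * (univ.filter fun v : Fin K → Fin n → Fin (2 ^ (L + 3)) =>
      ¬ CvL G g l (sdt v) A).card ≤ Fintype.card (Fin K → Fin n → Fin (2 ^ (L + 3))) := by
  classical
  by_cases hl0 : l ≤ ν0
  · have : (univ.filter fun v : Fin K → Fin n → Fin (2 ^ (L + 3)) =>
        ¬ CvL G g l (sdt v) A) = ∅ := by
      rw [filter_eq_empty_iff]
      intro v _
      rw [not_not]
      exact cvL_bot G hl0 _ hne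
    rw [this, card_empty, mul_zero]
    exact Nat.zero_le _
  · have hl0' : ν0 < l := not_le.mp hl0
    set B := univ.filter fun v : Fin (nsl L g ν0 l) → Fin n → Fin (2 ^ (L + 3)) =>
        ¬ ∀ ν ≤ l, (G.uncv g l ν A v).card < cap ν0 ν with hB
    have hc := G.cover_count hn hg hν0 hfull hl0' hl A (hA hl0')
    rw [← hB] at hc
    have hsub : (univ.filter fun v : Fin K → Fin n → Fin (2 ^ (L + 3)) =>
        ¬ CvL G g l (sdt v) A) ⊆ univ.filter fun v : Fin K → Fin n → Fin (2 ^ (L + 3)) =>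
        (fun (j : Fin (nsl L g ν0 l)) (a : Fin n) => v (Fin.castLE hK j) a) ∈ B := by
      intro v hv
      rw [mem_filter] at hv ⊢
      refine ⟨mem_univ _, ?_⟩
      rw [hB, mem_filter]
      refine ⟨mem_univ _, fun hall => hv.2 ?_⟩
      have key : ∀ ν ≤ l, (univ.filter fun x => ¬ ∃ a ∈ A, x ∈ xl G g l a (sdt v a) ∧
          x ∈ G.N ν a).card < cap ν0 ν := by
        intro ν hν
        refine lt_of_le_of_lt (card_le_card ?_) (hall ν hν)
        intro x hx
        rw [mem_filter] at hx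
        unfold Nest.uncv
        rw [mem_filter]
        refine ⟨mem_univ _, fun hex => hx.2 ?_⟩
        obtain ⟨a, ha, hx1, hx2⟩ := hex
        refine ⟨a, ha, ?_, hx1⟩
        unfold xl
        rw [if_neg hl0, List.mem_append, List.mem_append]
        rcases hx2 with hx2 | ⟨j, hj⟩
        · exact Or.inl (Or.inl (Finset.mem_toList.mpr hx2))
        · refine Or.inr (List.mem_map.mpr ⟨j.val, List.mem_range.mpr j.isLt, ?_⟩)
          have hjK : j.val < K := lt_of_lt_of_le j.isLt hK
          have hs : sdt v a j.val = (v (Fin.castLE hK j) a).val := by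
            unfold sdt
            rw [dif_pos hjK]
            rfl
          rw [hs]
          exact hj
      constructor
      · intro x
        have h0 := key 0 (Nat.zero_le _)
        have hcap : cap ν0 0 = 1 := by simp [cap]
        rw [hcap, Nat.lt_one_iff, card_eq_zero, filter_eq_empty_iff] at h0
        have := h0 (mem_univ x)
        rw [not_not] at this
        obtain ⟨a, ha, h1, _⟩ := this
        exact ⟨a, ha, h1⟩
      · intro ν h1 h2
        have h0 := key ν h2
        have hcap : cap ν0 ν = 2 ^ (ν + 5) := by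
          unfold cap
          rw [if_neg (by omega)]
        rwa [hcap] at h0
    calc 2 ^ (16 * (L + 1)) * (univ.filter fun v : Fin K → Fin n → Fin (2 ^ (L + 3)) =>
        ¬ CvL G g l (sdt v) A).card
        ≤ 2 ^ (16 * (L + 1)) * (B.card * ((2 ^ (L + 3)) ^ n) ^ (K - nsl L g ν0 l)) := by
          refine Nat.mul_le_mul_left _ ((card_le_card hsub).trans ?_)
          rw [xc_restrict hK B]
      _ = (2 ^ (16 * (L + 1)) * B.card) * ((2 ^ (L + 3)) ^ n) ^ (K - nsl L g ν0 l) := by ring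
      _ ≤ (2 ^ (L + 3)) ^ (n * nsl L g ν0 l) * ((2 ^ (L + 3)) ^ n) ^ (K - nsl L g ν0 l) :=
          Nat.mul_le_mul_right _ hc
      _ = Fintype.card (Fin K → Fin n → Fin (2 ^ (L + 3))) := by
          rw [Fintype.card_fun, Fintype.card_fun, Fintype.card_fin, Fintype.card_fin,
            Fintype.card_fin, pow_mul, ← pow_add, Nat.add_sub_cancel' hK]

/-- The seeds of run `ρ` given by a table for all runs. -/
def sdr {n R K k : ℕ} (w : Fin R → Fin K → Fin n → Fin k) (ρ : ℕ) (a : Fin n) (j : ℕ) : ℕ :=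
  if h : ρ < R then sdt (w ⟨ρ, h⟩) a j else 0

private theorem xc_fiber {R : ℕ} {T : Type} [Fintype T] [DecidableEq T] (i : Fin R)
    (B : Finset T) : (univ.filter fun w : Fin R → T => w i ∈ B).card * Fintype.card T =
      B.card * Fintype.card (Fin R → T) := by
  classical
  have h : (univ.filter fun w : Fin R → T => w i ∈ B) =
      Fintype.piFinset fun j => if j = i then B else univ := by
    ext w
    rw [mem_filter, Fintype.mem_piFinset]
    constructor
    · intro hw j
      split_ifs with hj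
      · rw [hj]; exact hw.2
      · exact mem_univ _
    · intro hw
      refine ⟨mem_univ _, ?_⟩
      have := hw i
      rwa [if_pos rfl] at this
  rw [h, Fintype.card_piFinset, Fintype.card_fun, Fintype.card_fin]
  rw [← Finset.mul_prod_erase univ _ (mem_univ i), if_pos rfl]
  have h2 : ∏ x ∈ univ.erase i, (if x = i then B else univ : Finset T).card =
      Fintype.card T ^ (R - 1) := by
    rw [prod_congr rfl (g := fun _ => Fintype.card T), prod_const, card_erase_of_mem (mem_univ i),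
      card_univ, Fintype.card_fin]
    intro x hx
    rw [if_neg (ne_of_mem_erase hx), card_univ]
  rw [h2]
  have hR : 0 < R := lt_of_le_of_lt (Nat.zero_le _) i.isLt
  calc B.card * Fintype.card T ^ (R - 1) * Fintype.card T
      = B.card * (Fintype.card T ^ (R - 1) * Fintype.card T) := by ring
    _ = B.card * Fintype.card T ^ R := by
        rw [← pow_succ]
        congr 2
        omega

/-- Coverage for all sets of a family. -/
theorem xcov_all {n L ν0 : ℕ} (G : Nest n L ν0 (4 * n * 2 ^ ν0)) {g K R : ℕ}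
    (hn : n < 2 ^ (L + 1)) (hg : L + 1 ≤ 2 ^ g) (hν0 : 16 * (L + 1) ≤ 2 ^ ν0)
    (hfull : ∀ ν ≤ ν0, ∀ x, G.N ν x = univ) (lv : ℕ → ℕ) (hl : ∀ ρ, lv ρ ≤ L)
    (hK : ∀ ρ, nsl L g ν0 (lv ρ) ≤ K) (Fs : Finset (ℕ × Finset (Fin n)))
    (hR : ∀ z ∈ Fs, z.1 < R) (hne : ∀ z ∈ Fs, z.2.Nonempty)
    (hA : ∀ z ∈ Fs, ν0 < lv z.1 → 2 ^ (lv z.1 + 5) ≤ z.2.card) :
    2 ^ (16 * (L + 1)) * (univ.filter fun w : Fin R → Fin K → Fin n → Fin (2 ^ (L + 3)) =>
      ∃ z ∈ Fs, ¬ CvL G g (lv z.1) (sdr w z.1) z.2).card ≤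
      Fs.card * Fintype.card (Fin R → Fin K → Fin n → Fin (2 ^ (L + 3))) := by
  classical
  set T := Fin K → Fin n → Fin (2 ^ (L + 3)) with hT
  have hsub : (univ.filter fun w : Fin R → T =>
      ∃ z ∈ Fs, ¬ CvL G g (lv z.1) (sdr w z.1) z.2) ⊆ Fs.biUnion fun z =>
        univ.filter fun w : Fin R → T => ¬ CvL G g (lv z.1) (sdr w z.1) z.2 := by
    intro w hw
    rw [mem_filter] at hw
    obtain ⟨z, hz, h⟩ := hw.2
    rw [mem_biUnion]
    exact ⟨z, hz, by rw [mem_filter]; exact ⟨mem_univ _, h⟩⟩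
  have hone : ∀ z ∈ Fs, 2 ^ (16 * (L + 1)) * (univ.filter fun w : Fin R → T =>
      ¬ CvL G g (lv z.1) (sdr w z.1) z.2).card ≤ Fintype.card (Fin R → T) := by
    intro z hz
    set B := univ.filter fun v : T => ¬ CvL G g (lv z.1) (sdt v) z.2 with hB
    have h1 : 2 ^ (16 * (L + 1)) * B.card ≤ Fintype.card T :=
      xcov_one G hn hg hν0 hfull (hl z.1) (hK z.1) z.2 (hne z hz) (hA z hz)
    have h2 := xc_fiber (⟨z.1, hR z hz⟩ : Fin R) B
    have h3 : (univ.filter fun w : Fin R → T => ¬ CvL G g (lv z.1) (sdr w z.1) z.2) =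
        univ.filter fun w : Fin R → T => w ⟨z.1, hR z hz⟩ ∈ B := by
      apply filter_congr
      intro w _
      rw [hB, mem_filter]
      have : sdr w z.1 = sdt (w ⟨z.1, hR z hz⟩) := by
        funext a j
        unfold sdr
        rw [dif_pos (hR z hz)]
      rw [this]
      simp
    rw [h3]
    have hTpos : 0 < Fintype.card T :=
      Fintype.card_pos_iff.mpr ⟨fun _ _ => ⟨0, by positivity⟩⟩
    refine Nat.le_of_mul_le_mul_right ?_ hTpos
    rw [mul_assoc, h2, ← mul_assoc, mul_comm (Fintype.card (Fin R → T))]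
    exact Nat.mul_le_mul_right _ h1
  calc 2 ^ (16 * (L + 1)) * (univ.filter fun w : Fin R → T =>
      ∃ z ∈ Fs, ¬ CvL G g (lv z.1) (sdr w z.1) z.2).card
      ≤ 2 ^ (16 * (L + 1)) * ∑ z ∈ Fs, (univ.filter fun w : Fin R → T =>
          ¬ CvL G g (lv z.1) (sdr w z.1) z.2).card :=
        Nat.mul_le_mul_left _ ((card_le_card hsub).trans card_biUnion_le)
    _ = ∑ z ∈ Fs, 2 ^ (16 * (L + 1)) * (univ.filter fun w : Fin R → T =>
          ¬ CvL G g (lv z.1) (sdr w z.1) z.2).card := mul_sum _ _ _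
    _ ≤ ∑ _z ∈ Fs, Fintype.card (Fin R → T) := sum_le_sum hone
    _ = Fs.card * Fintype.card (Fin R → T) := by rw [sum_const, smul_eq_mul]

end Pool.Agent.X217
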