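import Pool.Agent.X217.Tt2

set_option autoImplicit false

/-!
# Top levels (MP_217fdb_lc, exact order): numbers

Level `l` uses the lists for level `l + ttS I`.
-/

namespace Pool.Agent.X217

open Finset
open Pool.Agent.P217 (typ Lvl)

attribute [local instance 10] Classical.propDecidable

/-- `2 ^ 8 * I ^ 2 ≤ 2 ^ ttS I ≤ 2 ^ 9 * I ^ 2`. -/
def ttS (I : ℕ) : ℕ := Nat.log 2 (I ^ 2) + 9

/-- The exponent of the degree bound. -/
def ttZ (L : ℕ) : ℕ := 33 * Nat.log 2 (L + 1)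

theorem ttS_le {I : ℕ} (hI : 1 ≤ I) : 2 ^ ttS I ≤ 2 ^ 9 * I ^ 2 := by
  unfold ttS
  rw [pow_add, Nat.mul_comm]
  exact Nat.mul_le_mul_left _ (Nat.pow_log_le_self 2 (by positivity))

theorem le_ttS (I : ℕ) : 2 ^ 8 * I ^ 2 ≤ 2 ^ ttS I := by
  have h : I ^ 2 < 2 ^ (Nat.log 2 (I ^ 2) + 1) := Nat.lt_pow_succ_log_self (by norm_num) _
  calc 2 ^ 8 * I ^ 2 ≤ 2 ^ 8 * 2 ^ (Nat.log 2 (I ^ 2) + 1) := Nat.mul_le_mul_left _ h.le
    _ = 2 ^ ttS I := by
        rw [← pow_add]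
        congr 1
        unfold ttS
        omega

/-- The number of ticks of type `i`. -/
private theorem tt_typ_card {I i : ℕ} (hi : i ≤ I) :
    ((Icc 1 (2 ^ I)).filter fun t => typ I t = i).card ≤ 2 ^ i := by
  have hsub : ((Icc 1 (2 ^ I)).filter fun t => typ I t = i) ⊆
      (Icc 1 (2 ^ i)).image fun s => 2 ^ (I - i) * s := by
    intro t ht
    rw [mem_filter, mem_Icc] at ht
    obtain ⟨⟨h1, h2⟩, h3⟩ := ht
    unfold typ at h3
    have h4 : 2 ^ (I - i) ∣ t :=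
      (pow_dvd_pow 2 (by omega : I - i ≤ padicValNat 2 t)).trans pow_padicValNat_dvd
    obtain ⟨s, hs⟩ := h4
    rw [mem_image]
    refine ⟨s, ?_, hs.symm⟩
    rw [mem_Icc]
    have h5 : 2 ^ I = 2 ^ (I - i) * 2 ^ i := by rw [← pow_add]; congr 1; omega
    constructor
    · rcases Nat.eq_zero_or_pos s with h0 | h0
      · rw [h0, mul_zero] at hs; omega
      · exact h0
    · rw [hs, h5] at h2
      exact Nat.le_of_mul_le_mul_left h2 (by positivity)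
  refine (card_le_card hsub).trans (card_image_le.trans ?_)
  rw [Nat.card_Icc, Nat.add_sub_cancel]

/-- The cost of the lists. -/
theorem tt_len_sum {n L I l z0 : ℕ} (hI' : 2 ^ I ≤ 8 * (L + 5)) :
    2 ^ l * ∑ t ∈ Icc 1 (2 ^ I), ttLen n I l z0 (typ I t) ≤
      2 ^ l * (8 * (L + 5) * (1 + I * z0)) + I * (I + 1) * ((L + 5) * n) := by
  set F : ℕ → ℕ := fun i => 2 ^ (I + 4) * n / 2 ^ (l + 14 + i) with hF
  have htyp : ∀ t, typ I t ≤ I := fun t => Nat.sub_le _ _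
  have h1 : ∑ t ∈ Icc 1 (2 ^ I), ttLen n I l z0 (typ I t) ≤
      2 ^ I * (1 + I * z0) + I * ∑ i ∈ range (I + 1), 2 ^ i * F i := by
    calc _ = ∑ t ∈ Icc 1 (2 ^ I), ((1 + I * z0) + I * F (typ I t)) := rfl
      _ = 2 ^ I * (1 + I * z0) + I * ∑ t ∈ Icc 1 (2 ^ I), F (typ I t) := by
          rw [sum_add_distrib, sum_const, Nat.card_Icc, smul_eq_mul, ← mul_sum,
            Nat.add_sub_cancel]
      _ ≤ _ := by
          apply Nat.add_le_add_left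
          apply Nat.mul_le_mul_left
          rw [← sum_fiberwise_of_maps_to (t := range (I + 1)) (g := typ I)
            (fun t _ => by rw [mem_range]; have := htyp t; omega)]
          apply sum_le_sum
          intro i hi
          rw [mem_range] at hi
          calc ∑ t ∈ (Icc 1 (2 ^ I)).filter (fun t => typ I t = i), F (typ I t)
              = ∑ _t ∈ (Icc 1 (2 ^ I)).filter (fun t => typ I t = i), F i :=
                sum_congr rfl fun t ht => by rw [(mem_filter.1 ht).2]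
            _ = ((Icc 1 (2 ^ I)).filter fun t => typ I t = i).card * F i := by
                rw [sum_const, smul_eq_mul]
            _ ≤ 2 ^ i * F i := Nat.mul_le_mul_right _ (tt_typ_card (by omega))
  have h2 : ∀ i ∈ range (I + 1), 2 ^ l * (2 ^ i * F i) ≤ (L + 5) * n := by
    intro i _
    have h3 : F i * 2 ^ (l + 14 + i) ≤ 2 ^ (I + 4) * n := Nat.div_mul_le_self _ _
    have h4 : F i * 2 ^ (l + 14 + i) = (2 ^ l * (2 ^ i * F i)) * 2 ^ 14 := by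
      rw [pow_add, pow_add]; ring
    have h5 : 2 ^ (I + 4) * n ≤ ((L + 5) * n) * 2 ^ 14 := by
      calc 2 ^ (I + 4) * n = (2 ^ I * 16) * n := by rw [pow_add]; norm_num
        _ ≤ (8 * (L + 5) * 16) * n := Nat.mul_le_mul_right _ (Nat.mul_le_mul_right _ hI')
        _ = ((L + 5) * n) * 128 := by ring
        _ ≤ ((L + 5) * n) * 2 ^ 14 := Nat.mul_le_mul_left _ (by norm_num)
    rw [h4] at h3
    exact Nat.le_of_mul_le_mul_right (h3.trans h5) (by norm_num)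
  calc 2 ^ l * ∑ t ∈ Icc 1 (2 ^ I), ttLen n I l z0 (typ I t)
      ≤ 2 ^ l * (2 ^ I * (1 + I * z0) + I * ∑ i ∈ range (I + 1), 2 ^ i * F i) :=
        Nat.mul_le_mul_left _ h1
    _ = 2 ^ l * (2 ^ I * (1 + I * z0)) +
          I * ∑ i ∈ range (I + 1), 2 ^ l * (2 ^ i * F i) := by
        rw [mul_add, ← mul_sum]; ring
    _ ≤ 2 ^ l * (8 * (L + 5) * (1 + I * z0)) + I * ((I + 1) * ((L + 5) * n)) := by
        apply Nat.add_le_add
        · apply Nat.mul_le_mul_left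
          exact Nat.mul_le_mul_right _ hI'
        · apply Nat.mul_le_mul_left
          calc _ ≤ ∑ _i ∈ range (I + 1), (L + 5) * n := sum_le_sum h2
            _ = _ := by rw [sum_const, card_range, smul_eq_mul]
    _ = _ := by ring

/-- `log (L + 1) + 2 ≤ I ≤ log (L + 1) + 7`. -/
theorem tt_I {L I : ℕ} (hI : 4 * (L + 5) ≤ 2 ^ I) (hI' : 2 ^ I ≤ 8 * (L + 5)) :
    Nat.log 2 (L + 1) + 2 ≤ I ∧ I ≤ Nat.log 2 (L + 1) + 7 := by
  have h1 : 2 ^ Nat.log 2 (L + 1) ≤ L + 1 := Nat.pow_log_le_self 2 (by omega)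
  have h2 : L + 1 < 2 ^ (Nat.log 2 (L + 1) + 1) := Nat.lt_pow_succ_log_self (by norm_num) _
  constructor
  · have h3 : 2 ^ (Nat.log 2 (L + 1) + 2) ≤ 2 ^ I := by
      rw [pow_add]
      omega
    exact (Nat.pow_le_pow_iff_right (by norm_num)).1 h3
  · have h3 : 2 ^ I < 2 ^ (Nat.log 2 (L + 1) + 8) := by
      have h4 : 2 ^ (Nat.log 2 (L + 1) + 8) = 2 ^ (Nat.log 2 (L + 1) + 1) * 2 ^ 7 := by
        rw [← pow_add]
      rw [h4]
      omega
    have := (Nat.pow_lt_pow_iff_right (by norm_num : 1 < 2)).1 h3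
    omega

private theorem tt_two {k : ℕ} (hk : 8 ≤ k) : 31 * k + 2 ≤ 2 ^ k := by
  induction k, hk using Nat.le_induction with
  | base => norm_num
  | succ k hk ih =>
    rw [pow_succ]
    omega

/-- The tick lists of a top level `l`, `l + ttS I ≤ L < l + 30 log (L + 1)`. -/
theorem tt_top {n L I l : ℕ} (hn : n < 2 ^ (L + 1)) (hI : 4 * (L + 5) ≤ 2 ^ I)
    (hI' : 2 ^ I ≤ 8 * (L + 5)) (hs : l + ttS I ≤ L) (hℓ : 8 ≤ Nat.log 2 (L + 1))
    (h30 : L < l + 30 * Nat.log 2 (L + 1)) :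
    ∃ TL : ℕ → Fin n → Finset (Fin n),
      (∀ i p, p ∈ TL i p) ∧ (∀ i p q, q ∈ TL i p → p ∈ TL i q) ∧
      (∀ i j p, i ≤ j → TL j p ⊆ TL i p) ∧
      (∀ i ≤ I, ∀ p, (TL i p).card ≤ ttLen n I (l + ttS I) (ttZ L) i) ∧
      ∀ X : Lvl (Fin n), X.I = I → X.TL = TL →
        (∀ p ∈ X.S, (X.M p (2 ^ I)).card < 64 * 2 ^ l) →
        X.S.card ≤ 2 ^ 26 * I ^ 4 * 2 ^ l := by
  obtain ⟨hI1, hI2⟩ := tt_I hI hI'
  set ℓ := Nat.log 2 (L + 1) with hℓd
  have h31 := tt_two hℓ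
  have hL : 2 ^ ℓ ≤ L + 1 := Nat.pow_log_le_self 2 (by omega)
  have hll : ℓ ≤ l := by omega
  have hI3 : I + 1 ≤ 2 ^ ℓ := by omega
  have hB : 4 * (n * (I + 1)) ≤ 2 ^ (l - ℓ) * 2 ^ ttZ L := by
    calc 4 * (n * (I + 1)) ≤ 2 ^ 2 * (2 ^ (L + 1) * 2 ^ ℓ) :=
          Nat.mul_le_mul (by norm_num) (Nat.mul_le_mul hn.le hI3)
      _ = 2 ^ (2 + (L + 1 + ℓ)) := by simp only [← pow_add]
      _ ≤ 2 ^ (l - ℓ + ttZ L) := by
          refine Nat.pow_le_pow_right (by norm_num) ?_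
          have : ttZ L = 33 * ℓ := rfl
          omega
      _ = 2 ^ (l - ℓ) * 2 ^ ttZ L := pow_add _ _ _
  obtain ⟨TL, h1, h2, h3, h4, h5⟩ := tt_ticks n L I (l + ttS I) (ttZ L) (2 ^ (l - ℓ)) hn hs hI hB
  refine ⟨TL, h1, h2, h3, h4, ?_⟩
  intro X hXI hXT hX
  have hS1 : 1 ≤ I := by omega
  have h6 := h5 X hXI hXT (by
    intro p hp
    refine (hX p hp).trans_le ?_
    calc 64 * 2 ^ l = 2 ^ (6 + l) := by rw [pow_add]; norm_num
      _ ≤ 2 ^ (l + ttS I + 5) := by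
          refine Nat.pow_le_pow_right (by norm_num) ?_
          unfold ttS
          omega)
  refine h6.trans ?_
  have h7 : 2 ^ (l + ttS I) ≤ 2 ^ 9 * I ^ 2 * 2 ^ l := by
    rw [pow_add, Nat.mul_comm]
    exact Nat.mul_le_mul_right _ (ttS_le hS1)
  have h8 : I * 2 ^ (l - ℓ) ≤ 2 ^ l := by
    calc I * 2 ^ (l - ℓ) ≤ 2 ^ ℓ * 2 ^ (l - ℓ) := Nat.mul_le_mul_right _ (by omega)
      _ = 2 ^ l := by rw [← pow_add]; congr 1; omega
  have h9 : 1 ≤ I ^ 4 := Nat.one_le_pow _ _ (by omega)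
  calc 2 ^ 16 * I ^ 2 * 2 ^ (l + ttS I) + I * 2 ^ (l - ℓ)
      ≤ 2 ^ 16 * I ^ 2 * (2 ^ 9 * I ^ 2 * 2 ^ l) + 2 ^ l :=
        Nat.add_le_add (Nat.mul_le_mul_left _ h7) h8
    _ = 2 ^ 25 * I ^ 4 * 2 ^ l + 1 * 2 ^ l := by ring
    _ ≤ 2 ^ 25 * I ^ 4 * 2 ^ l + (2 ^ 25 * I ^ 4) * 2 ^ l := by
        apply Nat.add_le_add_left
        apply Nat.mul_le_mul_right
        omega
    _ = 2 ^ 26 * I ^ 4 * 2 ^ l := by ring

/-- The cost of the ticks of a top level. -/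
theorem tt_cost {n L I l : ℕ} (hn : 2 ^ L ≤ n) (hI : 4 * (L + 5) ≤ 2 ^ I)
    (hI' : 2 ^ I ≤ 8 * (L + 5)) (hs : l + ttS I ≤ L) :
    2 ^ l * ∑ t ∈ Icc 1 (2 ^ I), ttLen n I (l + ttS I) (ttZ L) (typ I t) ≤ 3 * ((L + 5) * n) := by
  obtain ⟨hI1, hI2⟩ := tt_I hI hI'
  have hsum := tt_len_sum (n := n) (l := l + ttS I) (z0 := ttZ L) hI'
  have hS := le_ttS I
  set SS := ∑ t ∈ Icc 1 (2 ^ I), ttLen n I (l + ttS I) (ttZ L) (typ I t) with hSS
  have h1 : 1 + I * ttZ L ≤ 34 * I ^ 2 := by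
    have h2 : ttZ L ≤ 33 * I := by
      unfold ttZ
      omega
    have h3 : I * ttZ L ≤ I * (33 * I) := Nat.mul_le_mul_left _ h2
    have h4 : 1 ≤ I ^ 2 := Nat.one_le_pow _ _ (by omega)
    calc 1 + I * ttZ L ≤ 1 + I * (33 * I) := by omega
      _ = 1 + 33 * I ^ 2 := by ring
      _ ≤ 34 * I ^ 2 := by omega
  have h2 : I * (I + 1) ≤ 2 * I ^ 2 := by
    have h3 : I + 1 ≤ 2 * I := by omega
    calc I * (I + 1) ≤ I * (2 * I) := Nat.mul_le_mul_left _ h3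
      _ = 2 * I ^ 2 := by ring
  -- multiply by `2 ^ ttS I`
  have h3 : 2 ^ ttS I * (2 ^ l * SS) ≤ 2 ^ ttS I * (3 * ((L + 5) * n)) := by
    calc 2 ^ ttS I * (2 ^ l * SS) = 2 ^ (l + ttS I) * SS := by rw [pow_add]; ring
      _ ≤ 2 ^ (l + ttS I) * (8 * (L + 5) * (1 + I * ttZ L)) + I * (I + 1) * ((L + 5) * n) := hsum
      _ ≤ 2 ^ L * (8 * (L + 5) * (34 * I ^ 2)) + 2 * I ^ 2 * ((L + 5) * n) :=
          Nat.add_le_add (Nat.mul_le_mul (Nat.pow_le_pow_right (by norm_num) hs)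
            (Nat.mul_le_mul_left _ h1)) (Nat.mul_le_mul_right _ h2)
      _ ≤ n * (8 * (L + 5) * (34 * I ^ 2)) + 2 * I ^ 2 * ((L + 5) * n) :=
          Nat.add_le_add_right (Nat.mul_le_mul_right _ hn) _
      _ = 274 * I ^ 2 * ((L + 5) * n) := by ring
      _ ≤ (3 * (2 ^ 8 * I ^ 2)) * ((L + 5) * n) := by
          apply Nat.mul_le_mul_right
          omega
      _ ≤ (3 * 2 ^ ttS I) * ((L + 5) * n) :=
          Nat.mul_le_mul_right _ (Nat.mul_le_mul_left _ hS)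
      _ = 2 ^ ttS I * (3 * ((L + 5) * n)) := by ring
  exact Nat.le_of_mul_le_mul_left h3 (by positivity)

end Pool.Agent.X217
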