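import Pool.Agent.X217.S2Run
import Pool.Agent.MP217Area.LabDeg

set_option autoImplicit false

/-!
# S2 (MP_217fdb_lc, exact order): existence of the labels of list 0
-/

namespace Pool.Agent.X217

open Finset

attribute [local instance 10] Classical.propDecidable

/-- The labels of list 0: `JOIN*` and small blocks.  `2 ^ b` is the size of the groups (all
together), `2 ^ J` the size of a cluster. -/
theorem s2_exists (n L b J : ℕ) (hn : n < 2 ^ (L + 1)) (hJ : 1 ≤ J) (hJb : J + 3 ≤ b)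
    (hbJ : b ≤ 2 * J) :
    ∃ g : Fin (16 * (L + 2)) → Fin n → Fin (2 ^ (b - 2)),
      ¬ S2Bad (2 ^ (b - 2 - J)) (2 ^ (b + 1 - J)) (2 * 2 ^ (J - 1)) (2 ^ (J - 1)) g ∧
      ∀ x, 2 ^ (b - 2) * ∑ r, (univ.filter fun y => y ≠ x ∧ g r y = g r x).card ≤
        2 * (16 * (L + 2) * n) + 2 ^ (b - 2) * (8 * (L + 1)) := by
  classical
  obtain ⟨c, rfl⟩ : ∃ c, b = c + 3 := ⟨b - 3, by omega⟩
  have e1 : c + 3 - 2 = c + 1 := by omega
  have e2 : c + 3 + 1 - J = (c + 1 - J) + 3 := by omega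
  rw [e1, e2]
  obtain ⟨h, rfl⟩ : ∃ h, J = h + 1 := ⟨J - 1, by omega⟩
  have e3 : h + 1 - 1 = h := by omega
  rw [e3]
  obtain ⟨d, rfl⟩ : ∃ d, c = h + d := ⟨c - h, by omega⟩
  have e4 : h + d + 1 - (h + 1) = d := by omega
  rw [e4]
  set Rn := 16 * (L + 2) with hRn
  have hd : d + 2 ≤ h + 1 := by omega
  -- JOIN*
  have hj := s2j_join (V := Fin n) (Rn := Rn) (Q2 := 2 ^ (h + d)) (j1 := 2 ^ d)
    (J2 := 2 ^ (d + 3)) (hx := 2 * 2 ^ h) (hy := 2 ^ h) (e := 2 ^ (h + d)) (ν := L + 1) (k := 2)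
    (by rw [Fintype.card_fin]; exact hn.le)
    (by
      have : 2 ^ (d + 3) * 2 ^ h = 2 * (2 * 2 ^ (h + d) + 2 * 2 ^ (h + d)) := by
        rw [← pow_add, show d + 3 + h = (h + d) + 3 by ring, pow_add]; ring
      omega)
    (by
      have : 2 ^ d * (2 * 2 ^ h) = 2 * 2 ^ (h + d) := by rw [pow_add]; ring
      omega)
    (by
      calc 2 ^ d + 1 ≤ 2 ^ (d + 1) := by
            have : 1 ≤ 2 ^ d := Nat.one_le_two_pow
            rw [pow_succ]; omega
        _ ≤ 2 ^ (2 ^ (h + d)) := by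
            refine Nat.pow_le_pow_right (by norm_num) ?_
            have h1 : h + d < 2 ^ (h + d) := Nat.lt_two_pow_self
            omega)
    (by
      have h1 : 2 ^ d * (2 * 2 ^ h) = 2 * 2 ^ (h + d) := by rw [pow_add]; ring
      have h2 : 2 ^ (d + 3) * 2 ^ h = 8 * 2 ^ (h + d) := by
        rw [← pow_add, show d + 3 + h = (h + d) + 3 by ring, pow_add]; ring
      have h3 : 2 ^ d * 2 ^ (d + 3) ≤ 4 * 2 ^ (h + d) := by
        rw [← pow_add, show (4 : ℕ) = 2 ^ 2 by norm_num, ← pow_add]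
        exact Nat.pow_le_pow_right (by norm_num) (by omega)
      have h4 : 1 ≤ 2 ^ (h + d) := Nat.one_le_two_pow
      rw [h1, h2, hRn]
      nlinarith)
  have hQ2 : 2 * 2 ^ (h + d) = 2 ^ (h + d + 1) := by rw [pow_succ]; ring
  rw [hQ2] at hj
  -- the two kinds of bad tables
  set T : ℕ := (2 ^ (h + d + 1)) ^ (Rn * n) with hT
  have hTe : ((2 ^ (h + d + 1)) ^ Fintype.card (Fin n)) ^ Rn = T := by
    rw [Fintype.card_fin, ← pow_mul, Nat.mul_comm n]
  rw [hTe] at hj
  set B := univ.filter fun g : Fin Rn → Fin n → Fin (2 ^ (h + d + 1)) =>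
    S2Bad (2 ^ d) (2 ^ (d + 3)) (2 * 2 ^ h) (2 ^ h) g with hB
  set D : Fin n → Finset (Fin Rn → Fin n → Fin (2 ^ (h + d + 1))) := fun x =>
    univ.filter fun g => 2 * (Rn * n) + 2 ^ (h + d + 1) * (8 * (L + 1)) <
      2 ^ (h + d + 1) * ∑ r, (univ.filter fun y => y ≠ x ∧
        (g r y).val % 2 ^ (h + d + 1) = (g r x).val % 2 ^ (h + d + 1)).card with hD
  have hDc : ∀ x, (D x).card * 2 ^ (8 * (L + 1)) ≤ T := by
    intro x
    have := Pool.Agent.A217.deg_one n (h + d + 1) Rn (h + d + 1) L le_rfl x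
    rw [hT]
    convert this using 2
  have hex : ∃ g, g ∉ B ∧ ∀ x, g ∉ D x := by
    by_contra hcon
    have hcov : (univ : Finset (Fin Rn → Fin n → Fin (2 ^ (h + d + 1)))) ⊆ B ∪ univ.biUnion D := by
      intro g _
      by_cases hg : g ∈ B
      · exact mem_union_left _ hg
      · refine mem_union_right _ ?_
        by_contra hg2
        exact hcon ⟨g, hg, fun x hx => hg2 (mem_biUnion.2 ⟨x, mem_univ _, hx⟩)⟩
    have hTc : (univ : Finset (Fin Rn → Fin n → Fin (2 ^ (h + d + 1)))).card = T := by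
      rw [card_univ, Fintype.card_fun, Fintype.card_fun, Fintype.card_fin, Fintype.card_fin,
        Fintype.card_fin, ← pow_mul, Nat.mul_comm n, hT]
    have h1 : T ≤ B.card + ∑ x, (D x).card := by
      calc T ≤ (B ∪ univ.biUnion D).card := by rw [← hTc]; exact card_le_card hcov
        _ ≤ B.card + (univ.biUnion D).card := card_union_le _ _
        _ ≤ B.card + ∑ x, (D x).card := Nat.add_le_add_left card_biUnion_le _
    have h2 : (∑ x, (D x).card) * 2 ^ (8 * (L + 1)) ≤ n * T := by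
      rw [sum_mul]
      calc ∑ x, (D x).card * 2 ^ (8 * (L + 1)) ≤ ∑ _x : Fin n, T := sum_le_sum fun x _ => hDc x
        _ = n * T := by rw [sum_const, card_univ, Fintype.card_fin, smul_eq_mul]
    have h3 : (∑ x, (D x).card) * 2 ≤ T := by
      have h5 : (∑ x, (D x).card) * 2 * 2 ^ (7 * (L + 1)) ≤ T * 2 ^ (7 * (L + 1)) := by
        calc (∑ x, (D x).card) * 2 * 2 ^ (7 * (L + 1))
            = (∑ x, (D x).card) * 2 ^ (7 * (L + 1) + 1) := by
              rw [pow_succ 2 (7 * (L + 1))]; ring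
          _ ≤ (∑ x, (D x).card) * 2 ^ (8 * (L + 1)) := by
              refine Nat.mul_le_mul_left _ (Nat.pow_le_pow_right (by norm_num) (by omega))
          _ ≤ n * T := h2
          _ ≤ 2 ^ (7 * (L + 1)) * T := by
              refine Nat.mul_le_mul_right _ (hn.le.trans ?_)
              exact Nat.pow_le_pow_right (by norm_num) (by omega)
          _ = T * 2 ^ (7 * (L + 1)) := Nat.mul_comm _ _
      exact Nat.le_of_mul_le_mul_right h5 (by positivity)
    have hTpos : 0 < T := by positivity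
    have h4 : 4 * B.card ≤ T := by simpa using hj
    omega
  obtain ⟨g, hg1, hg2⟩ := hex
  refine ⟨g, fun hbad => hg1 (mem_filter.mpr ⟨mem_univ _, hbad⟩), fun x => ?_⟩
  have h1 := hg2 x
  rw [hD, mem_filter] at h1
  have h2 : ¬ (2 * (Rn * n) + 2 ^ (h + d + 1) * (8 * (L + 1)) <
      2 ^ (h + d + 1) * ∑ r, (univ.filter fun y => y ≠ x ∧
        (g r y).val % 2 ^ (h + d + 1) = (g r x).val % 2 ^ (h + d + 1)).card) :=
    fun hc => h1 ⟨mem_univ _, hc⟩
  have h3 : ∀ r, (univ.filter fun y => y ≠ x ∧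
        (g r y).val % 2 ^ (h + d + 1) = (g r x).val % 2 ^ (h + d + 1)) =
        univ.filter fun y => y ≠ x ∧ g r y = g r x := by
    intro r
    ext y
    simp only [mem_filter, mem_univ, true_and]
    rw [Nat.mod_eq_of_lt (g r y).isLt, Nat.mod_eq_of_lt (g r x).isLt]
    constructor
    · rintro ⟨h4, h5⟩; exact ⟨h4, Fin.ext h5⟩
    · rintro ⟨h4, h5⟩; exact ⟨h4, by rw [h5]⟩
  simp only [h3] at h2
  exact not_lt.mp h2

end Pool.Agent.X217
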