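import Pool.Agent.X217.St5

set_option autoImplicit false

/-!
# Tick labels (MP_217fdb_lc, exact order): the middle levels, form for `Fam.main`

`D = 2 ^ q`, `Rn = stR q L l`, `Lam = 2 ^ stLam L l`, `w = 2 ^ stWe L l`, blocks `< 2 ^ stA l`.
See also `st_nb`, `st_w9`, `st_J`, `st_cost`, `st_R_pos`.
-/

namespace Pool.Agent.X217

open Finset

open Classical in
/-- The form with functions on `ℕ`. -/
theorem st_form {n Rn a lam we : ℕ} (g : Fin Rn → Fin n → Fin (2 ^ (a + lam)))
    (hg1 : ∀ r c, (univ.filter fun x => g r x = c).card < 2 ^ we) :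
    ∃ (bl : ℕ → Fin n → ℕ) (κ : ℕ → Fin n → Fin (2 ^ lam)) (ix : ℕ → Fin n → Fin (2 ^ we)),
      (∀ r x, bl r x < 2 ^ a) ∧
      (∀ r < Rn, ∀ x y, bl r x = bl r y → κ r x = κ r y → ix r x = ix r y → x = y) ∧
      (∀ r < Rn, ∀ x, (univ.filter fun y => bl r y = bl r x).card ≤ 2 ^ lam * 2 ^ we) ∧
      (∀ r, ∀ S : Finset (Fin n), (S.image (bl r)).card ≤ 2 ^ a) ∧
      (∀ U : Finset (Fin n), ∑ r ∈ range Rn, (U.image (bl r)).card =
        ∑ r, (U.image fun x => (g r x).val % 2 ^ a).card) ∧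
      ∀ U : Finset (Fin n), ∑ r ∈ range Rn, (U.image fun x => (bl r x, κ r x)).card =
        ∑ r, (U.image fun x => g r x).card := by
  have hsplit : ∀ v : Fin (2 ^ (a + lam)), v.val / 2 ^ a < 2 ^ lam := by
    intro v
    rw [Nat.div_lt_iff_lt_mul (by positivity), ← pow_add, Nat.add_comm lam a]
    exact v.isLt
  have hcell : ∀ u v : Fin (2 ^ (a + lam)), u.val % 2 ^ a = v.val % 2 ^ a →
      u.val / 2 ^ a = v.val / 2 ^ a → u = v := by
    intro u v h1 h2
    apply Fin.ext
    rw [← Nat.div_add_mod u.val (2 ^ a), ← Nat.div_add_mod v.val (2 ^ a), h1, h2]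
  have hrank : ∀ (r : Fin Rn) (x : Fin n),
      (univ.filter fun y => y < x ∧ g r y = g r x).card < 2 ^ we := by
    intro r x
    refine lt_of_le_of_lt (card_le_card ?_) (hg1 r (g r x))
    intro y hy
    rw [mem_filter] at hy ⊢
    exact ⟨mem_univ _, hy.2.2⟩
  have hpw : 0 < 2 ^ we := by positivity
  have hpl : 0 < 2 ^ lam := by positivity
  refine ⟨fun r x => if h : r < Rn then (g ⟨r, h⟩ x).val % 2 ^ a else 0,
    fun r x => if h : r < Rn then ⟨(g ⟨r, h⟩ x).val / 2 ^ a, hsplit _⟩ else ⟨0, hpl⟩,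
    fun r x => if h : r < Rn then
      ⟨(univ.filter fun y => y < x ∧ g ⟨r, h⟩ y = g ⟨r, h⟩ x).card, hrank ⟨r, h⟩ x⟩
      else ⟨0, hpw⟩, ?_, ?_, ?_, ?_, ?_, ?_⟩
  · intro r x
    by_cases h : r < Rn
    · simp only [dif_pos h]
      exact Nat.mod_lt _ (by positivity)
    · simp only [dif_neg h]
      positivity
  · intro r h x y hb hκ hi
    simp only [dif_pos h] at hb hκ hi
    have hκ' : (g ⟨r, h⟩ x).val / 2 ^ a = (g ⟨r, h⟩ y).val / 2 ^ a := congrArg Fin.val hκ
    have hg : g ⟨r, h⟩ x = g ⟨r, h⟩ y := hcell _ _ hb hκ'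
    have hi' : (univ.filter fun z => z < x ∧ g ⟨r, h⟩ z = g ⟨r, h⟩ x).card =
        (univ.filter fun z => z < y ∧ g ⟨r, h⟩ z = g ⟨r, h⟩ y).card := congrArg Fin.val hi
    rcases lt_trichotomy x y with hlt | heq | hlt
    · exfalso
      have : (univ.filter fun z => z < x ∧ g ⟨r, h⟩ z = g ⟨r, h⟩ x).card <
          (univ.filter fun z => z < y ∧ g ⟨r, h⟩ z = g ⟨r, h⟩ y).card := by
        refine card_lt_card ⟨?_, ?_⟩
        · intro z hz
          rw [mem_filter] at hz ⊢
          exact ⟨mem_univ _, hz.2.1.trans hlt, hz.2.2.trans hg⟩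
        · intro hsub
          have := hsub (mem_filter.2 ⟨mem_univ x, hlt, hg⟩)
          exact lt_irrefl _ (mem_filter.1 this).2.1
      omega
    · exact heq
    · exfalso
      have : (univ.filter fun z => z < y ∧ g ⟨r, h⟩ z = g ⟨r, h⟩ y).card <
          (univ.filter fun z => z < x ∧ g ⟨r, h⟩ z = g ⟨r, h⟩ x).card := by
        refine card_lt_card ⟨?_, ?_⟩
        · intro z hz
          rw [mem_filter] at hz ⊢
          exact ⟨mem_univ _, hz.2.1.trans hlt, hz.2.2.trans hg.symm⟩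
        · intro hsub
          have := hsub (mem_filter.2 ⟨mem_univ y, hlt, hg.symm⟩)
          exact lt_irrefl _ (mem_filter.1 this).2.1
      omega
  · intro r h x
    simp only [dif_pos h]
    have hsub : (univ.filter fun y => (g ⟨r, h⟩ y).val % 2 ^ a = (g ⟨r, h⟩ x).val % 2 ^ a) ⊆
        (univ.filter fun c : Fin (2 ^ (a + lam)) => c.val % 2 ^ a = (g ⟨r, h⟩ x).val % 2 ^ a).biUnion
          fun c => univ.filter fun y => g ⟨r, h⟩ y = c := by
      intro y hy
      rw [mem_biUnion]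
      exact ⟨g ⟨r, h⟩ y, mem_filter.2 ⟨mem_univ _, (mem_filter.1 hy).2⟩,
        mem_filter.2 ⟨mem_univ _, rfl⟩⟩
    have hc : (univ.filter fun c : Fin (2 ^ (a + lam)) =>
        c.val % 2 ^ a = (g ⟨r, h⟩ x).val % 2 ^ a).card ≤ 2 ^ lam := by
      calc _ ≤ (range (2 ^ lam)).card := by
            refine card_le_card_of_injOn (fun c => c.val / 2 ^ a) ?_ ?_
            · intro c _
              exact mem_coe.2 (mem_range.2 (hsplit c))
            · intro c hc c' hc' heq
              have h1 := (mem_filter.1 (mem_coe.1 hc)).2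
              have h2 := (mem_filter.1 (mem_coe.1 hc')).2
              exact hcell c c' (h1.trans h2.symm) heq
        _ = 2 ^ lam := card_range _
    calc _ ≤ ((univ.filter fun c : Fin (2 ^ (a + lam)) =>
          c.val % 2 ^ a = (g ⟨r, h⟩ x).val % 2 ^ a).biUnion
            fun c => univ.filter fun y => g ⟨r, h⟩ y = c).card := card_le_card hsub
      _ ≤ ∑ c ∈ univ.filter fun c : Fin (2 ^ (a + lam)) =>
          c.val % 2 ^ a = (g ⟨r, h⟩ x).val % 2 ^ a,
            (univ.filter fun y => g ⟨r, h⟩ y = c).card := card_biUnion_le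
      _ ≤ ∑ _c ∈ univ.filter fun c : Fin (2 ^ (a + lam)) =>
          c.val % 2 ^ a = (g ⟨r, h⟩ x).val % 2 ^ a, 2 ^ we :=
            sum_le_sum fun c _ => (hg1 ⟨r, h⟩ c).le
      _ ≤ 2 ^ lam * 2 ^ we := by
            rw [sum_const, smul_eq_mul]
            exact Nat.mul_le_mul_right _ hc
  · intro r S
    calc _ ≤ (range (2 ^ a)).card := by
          refine card_le_card ?_
          intro v hv
          rw [mem_image] at hv
          obtain ⟨x, -, rfl⟩ := hv
          rw [mem_range]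
          by_cases h : r < Rn
          · simp only [dif_pos h]
            exact Nat.mod_lt _ (by positivity)
          · simp only [dif_neg h]
            positivity
      _ = 2 ^ a := card_range _
  · intro U
    rw [Finset.sum_range]
    refine sum_congr rfl fun r _ => ?_
    congr 1
    refine image_congr fun x _ => ?_
    simp only [r.isLt, dif_pos]
  · intro U
    rw [Finset.sum_range]
    refine sum_congr rfl fun r _ => ?_
    have h2 : (U.image fun x => ((if h : r.val < Rn then (g ⟨r.val, h⟩ x).val % 2 ^ a else 0),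
        (if h : r.val < Rn then (⟨(g ⟨r.val, h⟩ x).val / 2 ^ a, hsplit _⟩ : Fin (2 ^ lam))
          else ⟨0, hpl⟩))) =
        (U.image fun x => g r x).image fun v => (v.val % 2 ^ a, (⟨v.val / 2 ^ a, hsplit v⟩ :
          Fin (2 ^ lam))) := by
      rw [image_image]
      refine image_congr fun x _ => ?_
      simp only [r.isLt, dif_pos, Function.comp]
    refine (congrArg Finset.card h2).trans ?_
    refine card_image_of_injective _ ?_
    intro u v huv
    have h3 := congrArg Prod.fst huv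
    have h4 := congrArg (fun p : ℕ × Fin (2 ^ lam) => p.2.val) huv
    exact hcell u v h3 h4

open Classical in
/-- The tick labels of a middle level. -/
theorem st_mid {q n L l : ℕ} (hn : n < 2 ^ (L + 1)) (hq : q + 10 ≤ Nat.log 2 (L + 1))
    (hl : 16 ≤ l) (h30 : l + 30 * Nat.log 2 (L + 1) ≤ L) :
    ∃ (bl : ℕ → Fin n → ℕ) (κ : ℕ → Fin n → Fin (2 ^ stLam L l))
      (ix : ℕ → Fin n → Fin (2 ^ stWe L l)),
      (∀ r x, bl r x < 2 ^ stA l) ∧
      (∀ r < stR q L l, ∀ x y, bl r x = bl r y → κ r x = κ r y → ix r x = ix r y → x = y) ∧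
      (∀ r < stR q L l, ∀ x, (univ.filter fun y => bl r y = bl r x).card ≤
        2 ^ stLam L l * 2 ^ stWe L l) ∧
      (∀ r, ∀ S : Finset (Fin n), (S.image (bl r)).card ≤ 2 ^ stA l) ∧
      (∀ J ≤ l / 2 + 10, ∀ U : Finset (Fin n), U.card ≤ 4 * 2 ^ J →
        15 * (stR q L l * U.card) ≤ 16 * ∑ r ∈ range (stR q L l), (U.image (bl r)).card) ∧
      ∀ U : Finset (Fin n), 2 ^ l ≤ U.card → U.card ≤ (L + 1) ^ 3 * 2 ^ l →
        64 * 2 ^ q * (stR q L l * U.card) ≤
          64 * 2 ^ q * ∑ r ∈ range (stR q L l), (U.image fun x => (bl r x, κ r x)).card +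
            stR q L l * U.card := by
  obtain ⟨g, hg1, hg2, hg3⟩ := st_mid0 hn hq hl h30
  obtain ⟨bl, κ, ix, h1, h2, h3, h4, h5, h6⟩ := st_form g hg1
  refine ⟨bl, κ, ix, h1, h2, h3, h4, ?_, ?_⟩
  · intro J hJ U hU
    rw [h5 U]
    exact hg2 U (hU.trans (Nat.mul_le_mul_left _ (Nat.pow_le_pow_right (by norm_num) hJ)))
  · intro U hU1 hU2
    rw [h6 U]
    exact hg3 U hU1 hU2

end Pool.Agent.X217
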