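import Pool.Agent.X217.PhM3
import Pool.Agent.X217.S2Ex
import Pool.Agent.X217.St6

set_option autoImplicit false

/-!
# The statement `(G')` for a middle level
-/

namespace Pool.Agent.X217

open Finset

attribute [local instance 10] Classical.propDecidable

/-- The number of passes of a tick phase. -/
def mdN (q L l : ℕ) : ℕ := 256 * 2 ^ q * 2 ^ stWe L l

/-- The number of steps of the peeling. -/
def mdJ (l : ℕ) : ℕ := (l + 1) / 2

/-- The static tables of a middle level: blocks, classes and indices of the ticks, labels of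
list 0. -/
structure MTab (q L l n : ℕ) where
  bl : ℕ → Fin n → ℕ
  κ : ℕ → Fin n → Fin (2 ^ stLam L l)
  ix : ℕ → Fin n → Fin (2 ^ stWe L l)
  g : Fin (16 * (L + 2)) → Fin n → Fin (2 ^ (l - 2))
  inj : ∀ r < stR q L l, ∀ x y, bl r x = bl r y → κ r x = κ r y → ix r x = ix r y → x = y
  card : ∀ r < stR q L l, ∀ x, (univ.filter fun y => bl r y = bl r x).card ≤
    2 ^ stLam L l * 2 ^ stWe L l
  nb : ∀ r, ∀ S : Finset (Fin n), (S.image (bl r)).card ≤ 2 ^ stA l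
  los : ∀ U : Finset (Fin n), U.card ≤ 4 * 2 ^ mdJ l →
    15 * (stR q L l * U.card) ≤ 16 * ∑ r ∈ range (stR q L l), (U.image (bl r)).card
  hll : ∀ U : Finset (Fin n), 2 ^ l ≤ U.card → U.card ≤ (L + 1) ^ 3 * 2 ^ l →
    64 * 2 ^ q * (stR q L l * U.card) ≤
      64 * 2 ^ q * ∑ r ∈ range (stR q L l), (U.image fun x => (bl r x, κ r x)).card +
        stR q L l * U.card
  join : ¬ S2Bad (2 ^ (l - 2 - mdJ l)) (2 ^ (l + 1 - mdJ l)) (2 * 2 ^ (mdJ l - 1))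
    (2 ^ (mdJ l - 1)) g
  deg : ∀ x, 2 ^ (l - 2) * ∑ r, (univ.filter fun y => y ≠ x ∧ g r y = g r x).card ≤
    2 * (16 * (L + 2) * n) + 2 ^ (l - 2) * (8 * (L + 1))

/-- The tables exist. -/
theorem exists_mtab {q n L l : ℕ} (hn : n < 2 ^ (L + 1)) (hq : q + 10 ≤ Nat.log 2 (L + 1))
    (hl : 16 ≤ l) (h30 : l + 30 * Nat.log 2 (L + 1) ≤ L) : Nonempty (MTab q L l n) := by
  obtain ⟨bl, κ, ix, -, h2, h3, h4, h5, h6⟩ := st_mid (q := q) hn hq hl h30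
  obtain ⟨g, g1, g2⟩ := s2_exists n L l (mdJ l) hn (by unfold mdJ; omega) (by unfold mdJ; omega)
    (by unfold mdJ; omega)
  refine ⟨⟨bl, κ, ix, g, h2, ?_, ?_, ?_, ?_, g1, ?_⟩⟩
  · intro r hr x
    convert h3 r hr x
  · intro r S
    exact h4 r S
  · intro U hU
    exact h5 (mdJ l) (by unfold mdJ; omega) U hU
  · intro U h1 h2
    convert h6 U h1 h2
  · intro x
    convert g2 x

theorem gp_nb {l : ℕ} (hl : 16 ≤ l) : 2 ^ (l + 19) ≤ 2 ^ stA l * mdJ l := by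
  have h1 := st_log_le hl
  have h2 : 2 ^ Nat.log 2 l ≤ l := Nat.pow_log_le_self 2 (by omega)
  have h3 : 2 ^ (l + 20) ≤ 2 ^ stA l * l := by
    calc 2 ^ (l + 20) = 2 ^ stA l * 2 ^ Nat.log 2 l := by
          rw [← pow_add]
          congr 1
          unfold stA
          omega
      _ ≤ _ := Nat.mul_le_mul_left _ h2
  have h4 : l ≤ 2 * mdJ l := by unfold mdJ; omega
  have h5 : 2 ^ stA l * l ≤ 2 * (2 ^ stA l * mdJ l) := by
    calc 2 ^ stA l * l ≤ 2 ^ stA l * (2 * mdJ l) := Nat.mul_le_mul_left _ h4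
      _ = _ := by ring
  have h6 : 2 ^ (l + 20) = 2 * 2 ^ (l + 19) := by rw [pow_succ]; ring
  omega

/-- One tick phase. -/
theorem gp_phase {q L l n N : ℕ} (T : MTab q L l n)
    (F : Fam (Fin n) N (stR q L l) (2 ^ stLam L l) (2 ^ stWe L l)) (hF : F.Ok)
    (hbl : F.bl = T.bl) (hκ : F.κ = T.κ) (hN : N = mdN q L l)
    (hq : q + 10 ≤ Nat.log 2 (L + 1)) (hl : 16 ≤ l) (h30 : l + 30 * Nat.log 2 (L + 1) ≤ L)
    {k : ℕ} {a b : Tb (Fin n) N (stR q L l) (2 ^ stLam L l) (2 ^ stWe L l)}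
    (hE : F.Ev (2 ^ q) (mdJ l) k a b) (hk : k ≤ 2 ^ (l + 19)) {y : ℕ}
    (hy : (F.R a b).card ≤ y) (hy3 : y ≤ (L + 1) ^ 3 * 2 ^ l)
    {S : Finset (Fin n)} (hS : S ⊆ F.R a b ∩ F.C0)
    (hc : 3 * (2 ^ stA l * mdJ l) + y / 2 ^ q + 1 ≤ S.card) :
    ∃ p ∈ S, 2 ^ mdJ l ≤ (S.filter fun x => (F.ph a b).kn p N x).card := by
  have hnb := gp_nb hl
  have hSR : S.card ≤ (F.R a b).card := card_le_card fun x hx => (mem_inter.1 (hS hx)).1
  have h19 : 2 ^ l ≤ 2 ^ (l + 19) := Nat.pow_le_pow_right (by norm_num) (by omega)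
  have hyd : y < 2 ^ q * (y / 2 ^ q + 1) := Nat.lt_mul_div_succ y (by positivity)
  have hS1 : 2 ^ (l + 19) ≤ S.card := by
    obtain ⟨d, hd⟩ : ∃ d, d = y / 2 ^ q := ⟨_, rfl⟩
    rw [← hd] at hc
    omega
  refine Fam.main hF (D := 2 ^ q) (J := mdJ l) (k := k) (nb := 2 ^ stA l) Nat.one_le_two_pow hN
    (st_w9 hq hl h30) Nat.one_le_two_pow Nat.one_le_two_pow
    ((by unfold mdJ; omega : mdJ l ≤ l / 2 + 10).trans (st_J hq hl h30)) (st_R_pos q L l) hE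
    (by omega) (fun r _ S' => by rw [hbl]; exact T.nb r S') ?_ ?_ hS ?_
  · rw [hbl, hκ]
    exact T.hll _ (by omega) (hy.trans hy3)
  · rw [hbl]
    exact T.los
  · have h1 : 2 ^ q * (3 * (2 ^ stA l * mdJ l) + y / 2 ^ q + 1) ≤ 2 ^ q * S.card :=
      Nat.mul_le_mul_left _ hc
    have h2 : 2 ^ q * (3 * (2 ^ stA l * mdJ l) + y / 2 ^ q + 1) =
        3 * (2 ^ q * (2 ^ stA l * mdJ l)) + 2 ^ q * (y / 2 ^ q + 1) := by ring
    rw [h2] at h1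
    exact lt_of_lt_of_le (Nat.add_lt_add_left (lt_of_le_of_lt hy hyd) _) h1

/-- The statement `(G')` for a middle level: `X` is a set of finishers of the run which know few
members of `X`; `e1 b` is a time between the two passes over list 0, `K2 q w`: `q` knows after
the second pass that `w` has begun the run. -/
theorem gp_mid {L l n N : ℕ} (T : MTab 12 L l n)
    (F1 F3 : Fam (Fin n) N (stR 12 L l) (2 ^ stLam L l) (2 ^ stWe L l)) (h1 : F1.Ok) (h3 : F3.Ok)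
    (hbl1 : F1.bl = T.bl) (hκ1 : F1.κ = T.κ) (hbl3 : F3.bl = T.bl) (hκ3 : F3.κ = T.κ)
    (hN : N = mdN 12 L l)
    (hq : 22 ≤ Nat.log 2 (L + 1)) (hl : 16 ≤ l) (h30 : l + 30 * Nat.log 2 (L + 1) ≤ L)
    {k : ℕ} {a1 b1 a3 b3 : Tb (Fin n) N (stR 12 L l) (2 ^ stLam L l) (2 ^ stWe L l)}
    (hE1 : F1.Ev (2 ^ 12) (mdJ l) k a1 b1) (hE3 : F3.Ev (2 ^ 12) (mdJ l) k a3 b3)
    (hk : k ≤ 2 ^ (l + 19)) {y : ℕ}
    (hy1 : (F1.R a1 b1).card ≤ y) (hy3 : (F3.R a3 b3).card ≤ y) (hy : y ≤ (L + 1) ^ 3 * 2 ^ l)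
    {X : Finset (Fin n)} (hX1 : X ⊆ F1.R a1 b1 ∩ F1.C0) (hX3 : X ⊆ F3.R a3 b3 ∩ F3.C0)
    (e1 : Fin n → ℕ) (K2 : Fin n → Fin n → Prop) (M : Fin n → Finset (Fin n))
    (he : ∀ p ∈ X, ∀ b ∈ X, e1 p = e1 b → p = b)
    (hop : ∀ p ∈ X, ∀ b ∈ X, e1 b < e1 p → (∃ r, T.g r p = T.g r b) → ∀ w ∈ X,
      (F1.ph a1 b1).kn b N w → K2 p w)
    (hf : ∀ p ∈ X, ∀ x ∈ X, (F3.ph a3 b3).kn p N x → ∀ w ∈ X, K2 x w → w ∈ M p)
    (few : ∀ b ∈ X, (M b ∩ X).card < 64 * 2 ^ l) :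
    1024 * X.card ≤ 1024 * (2 ^ 25 * 2 ^ l) + y := by
  classical
  obtain ⟨J, hJ⟩ : ∃ J, J = mdJ l := ⟨_, rfl⟩
  have hJ1 : 1 ≤ J ∧ J + 3 ≤ l ∧ l ≤ 2 * J := by rw [hJ]; unfold mdJ; omega
  have h2J : 2 * 2 ^ (J - 1) = 2 ^ J := by
    rw [← pow_succ']
    congr 1
    omega
  have hfew := s2_few T.g X e1 (fun b w => (F1.ph a1 b1).kn b N w) K2
    (fun p x => (F3.ph a3 b3).kn p N x) (fun p w => w ∈ M p) (h2 := 2 ^ (J - 1))
    (N1 := 3 * (2 ^ stA l * mdJ l) + y / 2 ^ 12 + 1) (gg := 64 * 2 ^ l)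
    (j1 := 2 ^ (l - 2 - J)) (J2 := 2 ^ (l + 1 - J)) (F := 2 ^ (7 + J)) he
    (fun p hp b hb h hr w hw hk => hop p hp b hb h hr w hw hk)
    (fun p hp x hx hk w hw hk2 => hf p hp x hx hk w hw hk2)
    (fun S' hS' hc => by
      rw [h2J, hJ]
      convert gp_phase T F1 h1 hbl1 hκ1 hN hq hl h30 hE1 hk hy1 hy (hS'.trans hX1) hc)
    (fun S' hS' hc => by
      rw [h2J, hJ]
      convert gp_phase T F3 h3 hbl3 hκ3 hN hq hl h30 hE3 hk hy3 hy (hS'.trans hX3) hc)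
    (by
      have : 2 ^ (7 + J) * 2 ^ (l + 1 - J) = 2 ^ 8 * 2 ^ l := by
        rw [← pow_add, ← pow_add]
        congr 1
        omega
      rw [this]
      omega)
    Nat.one_le_two_pow Nat.one_le_two_pow
    (by rw [hJ]; exact T.join)
  replace hfew := lt_of_le_of_lt (card_le_card (s := X) (by
    intro p hp
    simp only [mem_filter]
    refine ⟨hp, lt_of_le_of_lt (card_le_card ?_) (few p hp)⟩
    intro w hw
    simp only [mem_filter] at hw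
    exact mem_inter.2 ⟨hw.2, hw.1⟩)) hfew
  have e1' : 8 * (2 ^ (l - 2 - J) * 2 ^ (J - 1)) = 2 ^ l := by
    rw [← pow_add, show (8 : ℕ) = 2 ^ 3 by norm_num, ← pow_add]
    congr 1
    omega
  have e2' : 2 ^ (l + 1 - J) * 2 ^ (J - 1) = 2 ^ l := by
    rw [← pow_add]
    congr 1
    omega
  have e3' : 2 ^ (7 + J) * 2 ^ (l + 1 - J) = 2 ^ 8 * 2 ^ l := by
    rw [← pow_add, ← pow_add]
    congr 1
    omega
  rw [e1', e2', e3'] at hfew
  have hnb : 2 ^ stA l * mdJ l ≤ 2 ^ 21 * 2 ^ l :=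
    (Nat.mul_le_mul_left _ (by unfold mdJ; omega : mdJ l ≤ l)).trans (st_nb hl)
  have hpos : 1 ≤ 2 ^ l := Nat.one_le_two_pow
  have hdiv : 2 ^ 12 * (y / 2 ^ 12) ≤ y := Nat.mul_div_le y _
  norm_num at hfew hnb hdiv ⊢
  omega

end Pool.Agent.X217
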