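import Mathlib

set_option autoImplicit false

/-!
# The numbers (MP_217fdb_lc, exact order)

`L = log n`, `ℓ = log (L + 1) ≥ 100`.
-/

namespace Pool.Agent.X217

open Finset

/-- `L + 1 ≤ 2 ^ eC L ≤ 2 (L + 1)`. -/
def eC (L : ℕ) : ℕ := Nat.clog 2 (L + 1)

/-- `4 (L + 5) ≤ 2 ^ eI L ≤ 8 (L + 5)`: number of ticks of the top levels. -/
def eI (L : ℕ) : ℕ := Nat.clog 2 (4 * (L + 5))

/-- The level of the bottom runs: `16 (L + 1) ≤ 2 ^ eV L ≤ 32 (L + 1)`. -/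
def eV (L : ℕ) : ℕ := eC L + 4

/-- The flip probability of level `l` is `2 ^ (- (l + eH L))`. -/
def eH (L : ℕ) : ℕ := eC L + 60

/-- The constants of `(G')` for run `ρ` (level `L - ρ`). -/
def eN (L ρ : ℕ) : ℕ :=
  if L < L - ρ + 30 * Nat.log 2 (L + 1) then 2 ^ 26 * eI L ^ 4 else 2 ^ 25

/-- The number of bottom runs. -/
def eB (L : ℕ) : ℕ := 128 * (L + 1) * 2 ^ (eV L + eH L)

private theorem ne_clog {m : ℕ} (hm : 1 ≤ m) : m ≤ 2 ^ Nat.clog 2 m ∧ 2 ^ Nat.clog 2 m ≤ 2 * m := by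
  refine ⟨Nat.le_pow_clog (by norm_num) m, ?_⟩
  rcases Nat.lt_or_ge 1 m with h | h
  · have h1 : 2 ^ (Nat.clog 2 m).pred < m := Nat.pow_pred_clog_lt_self (by norm_num) h
    have h2 : 0 < Nat.clog 2 m := Nat.clog_pos (by norm_num) h
    obtain ⟨c, hc⟩ : ∃ c, Nat.clog 2 m = c + 1 := ⟨Nat.clog 2 m - 1, by omega⟩
    rw [hc] at h1 ⊢
    rw [Nat.pred_succ] at h1
    rw [pow_succ]
    omega
  · have : m = 1 := le_antisymm h hm
    subst this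
    norm_num

theorem eC_le (L : ℕ) : L + 1 ≤ 2 ^ eC L ∧ 2 ^ eC L ≤ 2 * (L + 1) := ne_clog (by omega)

theorem eI_le (L : ℕ) : 4 * (L + 5) ≤ 2 ^ eI L ∧ 2 ^ eI L ≤ 8 * (L + 5) := by
  have := ne_clog (m := 4 * (L + 5)) (by omega)
  unfold eI
  omega

theorem eV_le (L : ℕ) : 16 * (L + 1) ≤ 2 ^ eV L ∧ 2 ^ eV L ≤ 32 * (L + 1) := by
  have := eC_le L
  unfold eV
  rw [pow_add]
  omega

theorem eC_log {L : ℕ} (h : 1 ≤ L) : Nat.log 2 (L + 1) ≤ eC L ∧ eC L ≤ Nat.log 2 (L + 1) + 1 := by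
  have h1 := eC_le L
  have h2 : 2 ^ Nat.log 2 (L + 1) ≤ L + 1 := Nat.pow_log_le_self 2 (by omega)
  have h3 : L + 1 < 2 ^ (Nat.log 2 (L + 1) + 1) := Nat.lt_pow_succ_log_self (by norm_num) _
  constructor
  · exact (Nat.pow_le_pow_iff_right (by norm_num : 1 < 2)).1 (h2.trans h1.1)
  · have h4 : 2 ^ eC L < 2 ^ (Nat.log 2 (L + 1) + 2) := by
      have h5 : 2 ^ (Nat.log 2 (L + 1) + 2) = 2 * 2 ^ (Nat.log 2 (L + 1) + 1) := by
        rw [pow_succ 2 (Nat.log 2 (L + 1) + 1)]; ring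
      omega
    have := (Nat.pow_lt_pow_iff_right (by norm_num : 1 < 2)).1 h4
    omega

theorem eI_log (L : ℕ) : Nat.log 2 (L + 1) + 2 ≤ eI L ∧ eI L ≤ Nat.log 2 (L + 1) + 7 := by
  have h0 := eI_le L
  have h1 : 2 ^ Nat.log 2 (L + 1) ≤ L + 1 := Nat.pow_log_le_self 2 (by omega)
  have h2 : L + 1 < 2 ^ (Nat.log 2 (L + 1) + 1) := Nat.lt_pow_succ_log_self (by norm_num) _
  constructor
  · have h3 : 2 ^ (Nat.log 2 (L + 1) + 2) ≤ 2 ^ eI L := by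
      rw [pow_add]
      omega
    exact (Nat.pow_le_pow_iff_right (by norm_num)).1 h3
  · have h3 : 2 ^ eI L < 2 ^ (Nat.log 2 (L + 1) + 8) := by
      have h4 : 2 ^ (Nat.log 2 (L + 1) + 8) = 2 ^ (Nat.log 2 (L + 1) + 1) * 2 ^ 7 := by
        rw [← pow_add]
      rw [h4]
      omega
    have := (Nat.pow_lt_pow_iff_right (by norm_num : 1 < 2)).1 h3
    omega

private theorem ne_pow {k : ℕ} (hk : 100 ≤ k) : 2 ^ 7 * (k + 7) ^ 5 ≤ 2 ^ k := by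
  induction k, hk using Nat.le_induction with
  | base => norm_num
  | succ k hk ih =>
    obtain ⟨m, hm⟩ : ∃ m, m = k + 7 := ⟨_, rfl⟩
    have hm2 : k + 1 + 7 = m + 1 := by omega
    rw [hm2]
    rw [← hm] at ih
    have hm3 : 107 ≤ m := by omega
    have h1 : (m + 1) ^ 5 ≤ 2 * m ^ 5 := by
      have e0 : 1 ≤ m := by omega
      have e1 : m ^ 3 ≤ m ^ 4 := Nat.pow_le_pow_right e0 (by norm_num)
      have e2 : m ^ 2 ≤ m ^ 4 := Nat.pow_le_pow_right e0 (by norm_num)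
      have e3 : m ≤ m ^ 4 := by
        calc m = m ^ 1 := (pow_one m).symm
          _ ≤ m ^ 4 := Nat.pow_le_pow_right e0 (by norm_num)
      have e4 : 1 ≤ m ^ 4 := Nat.one_le_pow _ _ (by omega)
      have e5 : 107 * m ^ 4 ≤ m ^ 5 := by
        calc 107 * m ^ 4 ≤ m * m ^ 4 := Nat.mul_le_mul_right _ hm3
          _ = m ^ 5 := by ring
      calc (m + 1) ^ 5 = m ^ 5 + 5 * m ^ 4 + 10 * m ^ 3 + 10 * m ^ 2 + 5 * m + 1 := by ring
        _ ≤ 2 * m ^ 5 := by omega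
    calc 2 ^ 7 * (m + 1) ^ 5 ≤ 2 ^ 7 * (2 * m ^ 5) := Nat.mul_le_mul_left _ h1
      _ = 2 * (2 ^ 7 * m ^ 5) := by ring
      _ ≤ 2 * 2 ^ k := Nat.mul_le_mul_left _ ih
      _ = 2 ^ (k + 1) := by rw [pow_succ]; ring

/-- `128 * (ℓ + 7) ^ 5 ≤ L + 1`. -/
theorem eI_pow {L : ℕ} (hℓ : 100 ≤ Nat.log 2 (L + 1)) :
    2 ^ 7 * (Nat.log 2 (L + 1) + 7) ^ 5 ≤ L + 1 :=
  (ne_pow hℓ).trans (Nat.pow_log_le_self 2 (by omega))

theorem eL_big {L : ℕ} (hℓ : 100 ≤ Nat.log 2 (L + 1)) : 2 ^ 100 ≤ L + 1 :=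
  (Nat.pow_le_pow_right (by norm_num) hℓ).trans (Nat.pow_log_le_self 2 (by omega))

/-- Bounds for the levels. -/
theorem eV_L {L : ℕ} (hℓ : 100 ≤ Nat.log 2 (L + 1)) :
    eV L + 8 ≤ L ∧ eV L + 31 * Nat.log 2 (L + 1) + eH L ≤ L ∧ 100 ≤ eV L := by
  have h1 := eI_pow hℓ
  have h2 := eL_big hℓ
  have h3 := eC_log (L := L) (by omega)
  set k := Nat.log 2 (L + 1)
  have h4 : k + 7 ≤ (k + 7) ^ 5 := Nat.le_self_pow (by norm_num) _
  unfold eV eH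
  refine ⟨by omega, by omega, by omega⟩

theorem eN_le (L ρ : ℕ) : eN L ρ ≤ 2 ^ 26 * eI L ^ 4 := by
  unfold eN
  split_ifs
  · exact le_rfl
  · have h1 := eI_log L
    have h2 : 1 ≤ eI L ^ 4 := Nat.one_le_pow _ _ (by omega)
    calc 2 ^ 25 ≤ 2 ^ 26 * 1 := by norm_num
      _ ≤ _ := Nat.mul_le_mul_left _ h2

/-- The condition `hnum`. -/
theorem e_num {L : ℕ} (hℓ : 100 ≤ Nat.log 2 (L + 1)) :
    2 * (2 ^ 15 * ((L + 1) * 2 ^ eH L) + 2 ^ 12 + 2 ^ 7 * (2 ^ 26 * eI L ^ 4)) ≤ (L + 1) ^ 3 := by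
  have h1 := eI_pow hℓ
  have h2 := eL_big hℓ
  have h3 := (eC_le L).2
  have h4 := (eI_log L).2
  have h5 : 2 ^ eH L ≤ 2 ^ 61 * (L + 1) := by
    unfold eH
    rw [pow_add]
    calc 2 ^ eC L * 2 ^ 60 ≤ 2 * (L + 1) * 2 ^ 60 := Nat.mul_le_mul_right _ h3
      _ = 2 ^ 61 * (L + 1) := by ring
  have h6 : eI L ^ 4 ≤ L + 1 := by
    calc eI L ^ 4 ≤ (Nat.log 2 (L + 1) + 7) ^ 4 := Nat.pow_le_pow_left h4 4
      _ ≤ (Nat.log 2 (L + 1) + 7) ^ 5 := Nat.pow_le_pow_right (by omega) (by norm_num)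
      _ ≤ 2 ^ 7 * (Nat.log 2 (L + 1) + 7) ^ 5 := Nat.le_mul_of_pos_left _ (by norm_num)
      _ ≤ L + 1 := h1
  set M := L + 1 with hM
  have hM1 : 1 ≤ M := by omega
  have h7 : M ≤ M ^ 2 := Nat.le_self_pow (by norm_num) _
  calc 2 * (2 ^ 15 * (M * 2 ^ eH L) + 2 ^ 12 + 2 ^ 7 * (2 ^ 26 * eI L ^ 4))
      ≤ 2 * (2 ^ 15 * (M * (2 ^ 61 * M)) + 2 ^ 12 * M ^ 2 + 2 ^ 7 * (2 ^ 26 * M ^ 2)) := by
        refine Nat.mul_le_mul_left _ (Nat.add_le_add (Nat.add_le_add ?_ ?_) ?_)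
        · exact Nat.mul_le_mul_left _ (Nat.mul_le_mul_left _ h5)
        · exact Nat.le_mul_of_pos_right _ (by positivity)
        · exact Nat.mul_le_mul_left _ (Nat.mul_le_mul_left _ (h6.trans h7))
    _ = (2 ^ 77 + 2 ^ 13 + 2 ^ 34) * M ^ 2 := by ring
    _ ≤ M * M ^ 2 := Nat.mul_le_mul_right _ (le_trans (by norm_num) h2)
    _ = M ^ 3 := by ring

/-- The sum of the constants of `(G')`. -/
theorem eN_sum {L : ℕ} (hℓ : 100 ≤ Nat.log 2 (L + 1)) {H : ℕ} (hH : H ≤ L) :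
    H + ∑ ρ ∈ range H, eN L ρ + 1 ≤ 2 ^ 28 * (L + 1) := by
  have h1 := eI_pow hℓ
  have h4 := (eI_log L).2
  set k := Nat.log 2 (L + 1) with hk
  have h2 : ∑ ρ ∈ range H, eN L ρ ≤ ∑ ρ ∈ range H, 2 ^ 25 +
      ∑ ρ ∈ (range H).filter (fun ρ => ρ < 30 * k), 2 ^ 26 * eI L ^ 4 := by
    rw [sum_filter, ← sum_add_distrib]
    refine sum_le_sum fun ρ hρ => ?_
    rw [mem_range] at hρ
    unfold eN
    rw [← hk]
    by_cases h : L < L - ρ + 30 * k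
    · rw [if_pos h, if_pos (by omega)]
      exact Nat.le_add_left _ _
    · rw [if_neg h]
      exact Nat.le_add_right _ _
  have h3 : ((range H).filter (fun ρ => ρ < 30 * k)).card ≤ 30 * k := by
    calc _ ≤ (range (30 * k)).card := card_le_card fun ρ hρ => mem_range.2 (mem_filter.1 hρ).2
      _ = 30 * k := card_range _
  rw [sum_const, sum_const, smul_eq_mul, smul_eq_mul, card_range] at h2
  have h5 : 30 * k * (2 ^ 26 * eI L ^ 4) ≤ 2 ^ 26 * (L + 1) := by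
    have h6 : 30 * k * eI L ^ 4 ≤ L + 1 := by
      calc 30 * k * eI L ^ 4 ≤ 2 ^ 7 * (k + 7) * (k + 7) ^ 4 :=
            Nat.mul_le_mul (by omega) (Nat.pow_le_pow_left h4 4)
        _ = 2 ^ 7 * (k + 7) ^ 5 := by ring
        _ ≤ L + 1 := h1
    calc 30 * k * (2 ^ 26 * eI L ^ 4) = 2 ^ 26 * (30 * k * eI L ^ 4) := by ring
      _ ≤ 2 ^ 26 * (L + 1) := Nat.mul_le_mul_left _ h6
  have h7 := Nat.mul_le_mul_right (2 ^ 26 * eI L ^ 4) h3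
  have h8 : H * 2 ^ 25 ≤ (L + 1) * 2 ^ 25 := Nat.mul_le_mul_right _ (by omega)
  omega

/-- The error terms are small: `Err ≤ 2 ^ (L + h - 18)`. -/
theorem e_err {L : ℕ} (hℓ : 100 ≤ Nat.log 2 (L + 1)) {H : ℕ} (hH : H ≤ L) :
    2 ^ 18 * (2 ^ (L + 14) * (H + ∑ ρ ∈ range H, eN L ρ + 1)) ≤ 2 ^ (L + eH L) := by
  have h1 := eN_sum hℓ hH
  have h2 := (eC_le L).1
  calc 2 ^ 18 * (2 ^ (L + 14) * (H + ∑ ρ ∈ range H, eN L ρ + 1))
      ≤ 2 ^ 18 * (2 ^ (L + 14) * (2 ^ 28 * 2 ^ eC L)) :=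
        Nat.mul_le_mul_left _ (Nat.mul_le_mul_left _ (h1.trans (Nat.mul_le_mul_left _ h2)))
    _ = 2 ^ (L + eH L) := by
        unfold eH
        simp only [← pow_add]
        congr 1
        omega

/-- The bottom runs have enough mass: `128 (L + 1)` each. -/
theorem e_bot {L : ℕ} (hV : eV L ≤ L) : 128 * (L + 1) * 2 ^ (L + eH L) = eB L * 2 ^ (L - eV L) := by
  unfold eB
  have h : 2 ^ (L + eH L) = 2 ^ (eV L + eH L) * 2 ^ (L - eV L) := by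
    rw [← pow_add]
    congr 1
    omega
  rw [h]
  ring

end Pool.Agent.X217
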