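import Pool.Agent.X217.CWFd

set_option autoImplicit false

/-!
# The conciliator (MP_217fdb_lc, exact order): the probability of an agreement
-/

namespace Pool.Agent.X217

open Finset

attribute [local instance 10] Classical.propDecidable

namespace CWF

variable {V Ω : Type} [Fintype V] [DecidableEq V] [Fintype Ω]

variable {X : CWF V Ω} {Nc : ℕ → ℕ} {η : ℝ}

theorem exp_lower : (1 / 5 : ℝ) ≤ Real.exp (-(2 * (3 / 5))) := by
  have h1 : Real.exp 1 < 2.7182818286 := Real.exp_one_lt_d9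
  have h2 := Real.add_one_le_exp (-(1 / 5 : ℝ))
  have h3 : Real.exp (1 / 5 : ℝ) * Real.exp (-(1 / 5 : ℝ)) = 1 := by
    rw [← Real.exp_add]; norm_num
  have h4 : Real.exp (1 / 5 : ℝ) ≤ 5 / 4 := by
    nlinarith [Real.exp_pos (1 / 5 : ℝ)]
  have h5 : Real.exp (2 * (3 / 5) : ℝ) ≤ 5 := by
    have : (2 * (3 / 5) : ℝ) = 1 + 1 / 5 := by norm_num
    rw [this, Real.exp_add]
    nlinarith [Real.exp_pos (1 : ℝ), Real.exp_pos (1 / 5 : ℝ)]
  rw [Real.exp_neg, one_div]
  exact inv_anti₀ (Real.exp_pos _) h5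

/-- Agreement with constant probability. -/
theorem agree [Nonempty V] (hX : X.Ok Nc) (hP : X.Pr Nc η) :
    (1 / 2 ^ 10 : ℝ) * ((Fintype.card Ω : ℝ) * Fintype.card (FC X.N)) ≤
      ((univ.filter fun y : Ω × FC X.N => X.Suc y.1 (flt y.2)).card : ℝ) := by
  rcases isEmpty_or_nonempty Ω with hΩ | ⟨⟨ω₀⟩⟩
  · have h1 : (Fintype.card Ω : ℝ) = 0 := by
      rw [Fintype.card_eq_zero]; simp
    rw [h1, zero_mul, mul_zero]
    positivity
  set U : ℕ := 2 ^ (X.L + X.h) with hU
  have hUpos : 0 < U := by positivity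
  have hUr : (0 : ℝ) < (2 : ℝ) ^ (X.L + X.h) := by positivity
  have hUcast : ((U : ℕ) : ℝ) = (2 : ℝ) ^ (X.L + X.h) := by rw [hU]; push_cast; rfl
  have hHs := H_small hX
  rw [← hU] at hHs
  set a : ℕ := 2 ^ (X.L + X.h - 4) with ha
  have haU : 16 * a = U := by
    rw [ha, hU]
    have h4 := hX.h4
    have : X.L + X.h = 4 + (X.L + X.h - 4) := by omega
    conv_rhs => rw [this, pow_add]
    norm_num
  have hUx : U ≤ (X.L + 1) * U := Nat.le_mul_of_pos_left _ (by omega)
  obtain ⟨t, ht1, ht2⟩ := thr hX inferInstance ω₀ (a := a) (by rw [← hU]; omega)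
  have hm : ∀ ω, (X.W ω fun _ => false).m t = (X.W ω₀ fun _ => false).m t := fun ω => rfl
  have hmain := fl_agree (N := X.N) (Ω := Ω) (fun e => N_two hX e)
    (fun ω => X.G2 Nc t ω) X.mf X.Suc (mf_loc hX) (fun ω => X.Typ t ω) (3 / 512) (3 / 5)
    (by
      intro ω hg
      have h1 := typm hX hg.2.1 (t := t) (by rw [hm, ← hU]; omega)
      have h2 := err hX ω fun _ => false
      rw [hm] at h1
      rw [fmass_typ, le_div_iff₀ hUr, ← hUcast]
      rw [← hU] at h2
      have h4 : 3 * U ≤ 512 * (X.W ω fun _ => false).mt t := by omega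
      have h5 : (3 : ℝ) * U ≤ 512 * ((X.W ω fun _ => false).mt t : ℝ) := by exact_mod_cast h4
      linarith)
    (by
      intro ω hg e he
      exact (suc_find hX e hg.1 (by rw [hm]; omega) he).2.1)
    (by
      intro ω hg e he
      have h0 := (suc_find hX e hg.1 (t := t) (by rw [hm]; omega) he).1
      have h1 := flips hX hg.1 (hg.2.2 e) (t := t) (by rw [hm, ← hU]; omega) h0
      have h2 := err hX ω (find e)
      rw [hm] at h1
      rw [← hU] at h2
      rw [fmass_mf, div_le_iff₀ hUr, ← hUcast]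
      have h4 : 5 * (X.W ω (find e)).Fm ≤ 3 * U := by omega
      have h5 : (5 : ℝ) * ((X.W ω (find e)).Fm : ℝ) ≤ 3 * U := by exact_mod_cast h4
      linarith)
    (by
      intro ω hg e he
      exact (suc_find hX e hg.1 (by rw [hm]; omega) he).2.2)
  refine le_trans ?_ hmain
  have hb := bad3 hP t
  have hcard : ((univ.filter fun ω : Ω => X.G2 Nc t ω).card : ℝ) +
      ((univ.filter fun ω : Ω => ¬ X.G2 Nc t ω).card : ℝ) = Fintype.card Ω := by
    have := card_filter_add_card_filter_not (s := (univ : Finset Ω)) (fun ω => X.G2 Nc t ω)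
    rw [card_univ] at this
    exact_mod_cast this
  set x : ℕ := X.L + 1 with hx
  have hx9 : 9 ≤ x := by have := hX.hL; omega
  have hsmall : ((Fintype.card (V × Fin X.rn) : ℝ) + 2) * η ≤ 1 / 10 := by
    have h1 : ((Fintype.card (V × Fin X.rn) : ℝ) + 2) ≤ 2 * 2 ^ (3 * x) := by
      have h2 := flips_card hX ω₀
      rw [← hx] at h2
      have h3 : 2 ≤ 2 ^ (3 * x) := by
        calc 2 = 2 ^ 1 := rfl
          _ ≤ 2 ^ (3 * x) := Nat.pow_le_pow_right (by norm_num) (by omega)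
      have h4 : Fintype.card (V × Fin X.rn) + 2 ≤ 2 * 2 ^ (3 * x) := by omega
      exact_mod_cast h4
    have h2 : (20 : ℝ) ≤ 2 ^ (5 * x) := by
      calc (20 : ℝ) ≤ 2 ^ 5 := by norm_num
        _ ≤ 2 ^ (5 * x) := pow_le_pow_right₀ (by norm_num) (by omega)
    have h3 : (2 : ℝ) ^ (8 * x) = 2 ^ (3 * x) * 2 ^ (5 * x) := by rw [← pow_add]; congr 1; omega
    have h4 := hP.ηs
    have h0 := hP.η0
    have h5 : (2 * 2 ^ (3 * x)) * η * 10 ≤ 1 := by
      have h6 : 0 ≤ 2 ^ (3 * x) * η := by positivity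
      calc (2 * 2 ^ (3 * x)) * η * 10 = (2 ^ (3 * x) * η) * 20 := by ring
        _ ≤ (2 ^ (3 * x) * η) * 2 ^ (5 * x) := mul_le_mul_of_nonneg_left h2 h6
        _ = η * 2 ^ (8 * x) := by rw [h3]; ring
        _ ≤ 1 := h4
    have h7 : ((Fintype.card (V × Fin X.rn) : ℝ) + 2) * η ≤ (2 * 2 ^ (3 * x)) * η :=
      mul_le_mul_of_nonneg_right h1 h0
    linarith
  have hgood : (9 / 10 : ℝ) * Fintype.card Ω ≤ ((univ.filter fun ω : Ω => X.G2 Nc t ω).card : ℝ) := by
    have h1 : ((Fintype.card (V × Fin X.rn) : ℝ) + 2) * (η * Fintype.card Ω) ≤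
        1 / 10 * Fintype.card Ω := by
      rw [← mul_assoc]
      exact mul_le_mul_of_nonneg_right hsmall (by positivity)
    linarith
  have hexp := exp_lower
  calc (1 / 2 ^ 10 : ℝ) * ((Fintype.card Ω : ℝ) * Fintype.card (FC X.N))
      ≤ (3 / 512 * (1 / 5) * (9 / 10)) * ((Fintype.card Ω : ℝ) * Fintype.card (FC X.N)) :=
        mul_le_mul_of_nonneg_right (by norm_num) (by positivity)
    _ = (3 / 512 * (1 / 5)) * ((9 / 10) * (Fintype.card Ω : ℝ)) * Fintype.card (FC X.N) := by ring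
    _ ≤ (3 / 512 * Real.exp (-(2 * (3 / 5)))) *
        ((univ.filter fun ω : Ω => X.G2 Nc t ω).card : ℝ) * Fintype.card (FC X.N) := by
        refine mul_le_mul_of_nonneg_right ?_ (by positivity)
        refine mul_le_mul ?_ hgood (by positivity) (by positivity)
        exact mul_le_mul_of_nonneg_left hexp (by norm_num)

end CWF

end Pool.Agent.X217
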