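import Pool.Agent.X217.CWDefs

set_option autoImplicit false

/-!
# The fixed sets of the coverage conditions
-/

namespace Pool.Agent.X217

open Finset

attribute [local instance 10] Classical.propDecidable

namespace CW

variable {V : Type} [Fintype V] [DecidableEq V]

omit [Fintype V] [DecidableEq V] in
private theorem xf_lev {X : CW V} (hL : X.ν0 ≤ X.L) {ρ : ℕ} (hρ : ρ < X.H) :
    16 * 2 ^ X.lev ρ = 2 ^ (X.lev (ρ + 1) + 5) := by
  have h1 : X.lev ρ = X.lev (ρ + 1) + 1 := by
    unfold lev
    unfold H at *
    omega
  rw [h1, pow_add, pow_add]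
  ring

/-- Started after the cut. -/
private def xf_cut (X : CW V) (ρ : ℕ) (c : Option V) (a : V) : Prop :=
  ∀ b, c = some b → X.S b ρ < X.S a ρ

/-- The sets for which the coverage conditions are needed: they depend on the teams in the
skeleton and on the times only. -/
theorem cov_fam (X : CW V) (hL : X.ν0 ≤ X.L) : ∃ Fs : Finset (ℕ × Finset V),
    Fs.card ≤ Fintype.card V * X.H * (Fintype.card V + 2) ∧
    (∀ z ∈ Fs, z.1 ≤ X.H) ∧ (∀ z ∈ Fs, z.2.Nonempty) ∧
    (∀ z ∈ Fs, 2 ^ (X.lev z.1 + 5) ≤ z.2.card) ∧
    ∀ X' : CW V, X'.L = X.L → X'.ν0 = X.ν0 → X'.MS = X.MS → X'.S = X.S → X'.F = X.F →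
      (∀ z ∈ Fs, X'.Cv z.1 z.2) → X'.Cov := by
  classical
  set g1 : V × ℕ → ℕ × Finset V := fun z =>
    (z.2 + 1, X.DD z.1 z.2 (sInf {t | X.Pub z.1 z.2 t})) with hg1
  set g2 : V × ℕ × Option V → ℕ × Finset V := fun z =>
    (z.2.1, (X.MS z.1 z.2.1).filter fun a => xf_cut X z.2.1 z.2.2 a) with hg2
  set F1 : Finset (ℕ × Finset V) := (univ ×ˢ range X.H : Finset (V × ℕ)).image g1 with hF1
  set F2 : Finset (ℕ × Finset V) :=
    (univ ×ˢ (range X.H ×ˢ univ) : Finset (V × ℕ × Option V)).image g2 with hF2
  have hHL : X.H ≤ X.L := by unfold H; omega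
  refine ⟨(F1 ∪ F2).filter fun z => 2 ^ (X.lev z.1 + 5) ≤ z.2.card, ?_, ?_, ?_, ?_, ?_⟩
  · refine (card_le_card (filter_subset _ _)).trans ((card_union_le _ _).trans ?_)
    have h1 : F1.card ≤ Fintype.card V * X.H := by
      refine card_image_le.trans ?_
      rw [card_product, card_univ, card_range]
    have h2 : F2.card ≤ Fintype.card V * (X.H * (Fintype.card V + 1)) := by
      refine card_image_le.trans ?_
      rw [card_product, card_product, card_univ, card_range, card_univ, Fintype.card_option]
    calc F1.card + F2.card ≤ Fintype.card V * X.H + Fintype.card V * (X.H * (Fintype.card V + 1)) :=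
          Nat.add_le_add h1 h2
      _ = Fintype.card V * X.H * (Fintype.card V + 2) := by ring
  · intro z hz
    rw [mem_filter, mem_union, hF1, hF2, mem_image, mem_image] at hz
    rcases hz.1 with ⟨w, hw, rfl⟩ | ⟨w, hw, rfl⟩
    · rw [mem_product, mem_range] at hw
      exact hw.2
    · rw [mem_product, mem_product, mem_range] at hw
      exact hw.2.1.le
  · intro z hz
    rw [mem_filter] at hz
    exact card_pos.mp (lt_of_lt_of_le (by positivity) hz.2)
  · intro z hz
    rw [mem_filter] at hz
    exact hz.2
  · intro X' e1 e2 e3 e4 e5 hcv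
    have eH : X'.H = X.H := by unfold H; rw [e1, e2]
    have elev : ∀ ρ, X'.lev ρ = X.lev ρ := by
      intro ρ
      unfold lev
      rw [eH, e1]
    have eDD : ∀ x ρ t, X'.DD x ρ t = X.DD x ρ t := by
      intro x ρ t
      unfold DD
      rw [e3, e5]
    have ePub : ∀ x ρ t, X'.Pub x ρ t ↔ X.Pub x ρ t := by
      intro x ρ t
      unfold Pub
      rw [elev, eDD]
    constructor
    · intro x ρ t hρ hp hmin
      rw [eH] at hρ
      rw [ePub] at hp
      have ht : t = sInf {t | X.Pub x ρ t} := by
        refine le_antisymm ?_ (Nat.sInf_le hp)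
        by_contra hcon
        push Not at hcon
        have h1 := Nat.sInf_mem (⟨t, hp⟩ : {t | X.Pub x ρ t}.Nonempty)
        exact hmin _ hcon ((ePub x ρ _).mpr h1)
      rw [eDD, ht]
      rw [ht] at hp
      refine hcv (ρ + 1, X.DD x ρ (sInf {t | X.Pub x ρ t})) ?_
      rw [mem_filter]
      constructor
      · rw [mem_union]
        left
        rw [hF1, mem_image]
        exact ⟨(x, ρ), by rw [mem_product, mem_range]; exact ⟨mem_univ _, hρ⟩, rfl⟩
      · change 2 ^ (X.lev (ρ + 1) + 5) ≤ (X.DD x ρ (sInf {t | X.Pub x ρ t})).card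
        rw [← xf_lev hL hρ]
        exact hp
    · intro b ρ t hρ hc
      rw [eH] at hρ
      rw [elev, e3, e4] at hc
      rw [e3, e4]
      set A := (X.MS b ρ).filter fun a => t < X.S a ρ with hA
      -- the cut
      obtain ⟨c, hc2⟩ : ∃ c : Option V, A = (X.MS b ρ).filter fun a => xf_cut X ρ c a := by
        by_cases hex : ∃ a ∈ X.MS b ρ, X.S a ρ ≤ t
        · have hne : ((X.MS b ρ).filter fun a => X.S a ρ ≤ t).Nonempty := by
            obtain ⟨a, ha, h⟩ := hex
            exact ⟨a, mem_filter.mpr ⟨ha, h⟩⟩
          obtain ⟨c, hc, hmax⟩ := exists_max_image _ (fun a => X.S a ρ) hne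
          rw [mem_filter] at hc
          refine ⟨some c, ?_⟩
          rw [hA]
          apply filter_congr
          intro a ha
          constructor
          · intro h b hb
            rw [Option.some.injEq] at hb
            rw [← hb]
            exact lt_of_le_of_lt hc.2 h
          · intro h
            by_contra hcon
            push Not at hcon
            have := hmax a (mem_filter.mpr ⟨ha, hcon⟩)
            have h2 := h c rfl
            omega
        · push Not at hex
          refine ⟨none, ?_⟩
          rw [hA]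
          apply filter_congr
          intro a ha
          constructor
          · intro _ b hb
            exact absurd hb (by simp)
          · intro _
            exact hex a ha
      refine hcv (ρ, A) ?_
      rw [mem_filter]
      constructor
      · rw [mem_union]
        right
        rw [hF2, mem_image]
        refine ⟨(b, ρ, c), ?_, ?_⟩
        · rw [mem_product, mem_product, mem_range]
          exact ⟨mem_univ _, hρ, mem_univ _⟩
        · rw [hg2]
          simp only
          rw [hc2]
      · simp only
        refine le_trans ?_ hc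
        rw [pow_add]
        omega

end CW

end Pool.Agent.X217
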