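import Pool.Agent.X217.XCov1
import Pool.Agent.X217.XCov2

set_option autoImplicit false

/-!
# The coverage conditions fail for few tables of seeds
-/

namespace Pool.Agent.X217

open Finset
open Pool.Agent.A217 (Nest kap kap0 nsl sca cap)

attribute [local instance 10] Classical.propDecidable

/-- The worlds `X w` have the teams `MS` and the times of `X0`, and the ext lists given by the
seeds `w`: the coverage conditions fail for few `w`. -/
theorem cov_bad {n L ν0 : ℕ} (G : Nest n L ν0 (4 * n * 2 ^ ν0)) {g K R : ℕ}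
    (hn : n < 2 ^ (L + 1)) (hg : L + 1 ≤ 2 ^ g) (hν0 : 16 * (L + 1) ≤ 2 ^ ν0)
    (hfull : ∀ ν ≤ ν0, ∀ x, G.N ν x = univ) (hL : ν0 ≤ L) (hR : L - ν0 < R)
    (hK : ∀ l ≤ L, nsl L g ν0 l ≤ K)
    (X : (Fin R → Fin K → Fin n → Fin (2 ^ (L + 3))) → CW (Fin n)) (X0 : CW (Fin n))
    (h0L : X0.L = L) (h0ν : X0.ν0 = ν0) (hXL : ∀ w, (X w).L = L) (hXν : ∀ w, (X w).ν0 = ν0)
    (hMS : ∀ w, (X w).MS = X0.MS) (hS : ∀ w, (X w).S = X0.S) (hF : ∀ w, (X w).F = X0.F)
    (hE : ∀ w p ρ x, x ∈ (X w).Ext p ρ ↔ x ∈ xl G g (L - min ρ (L - ν0)) p (sdr w ρ p))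
    (hN : ∀ w ν x, (X w).Nb ν x = G.N ν x) :
    2 ^ (16 * (L + 1)) * (univ.filter fun w => ¬ (X w).Cov).card ≤
      (n * (L - ν0) * (n + 2)) * Fintype.card (Fin R → Fin K → Fin n → Fin (2 ^ (L + 3))) := by
  classical
  obtain ⟨Fs, h1, h2, h3, h4, h5⟩ := X0.cov_fam (by rw [h0L, h0ν]; exact hL)
  have e0 : X0.H = L - ν0 := by unfold CW.H; rw [h0L, h0ν]
  have elev : ∀ ρ, X0.lev ρ = L - min ρ (L - ν0) := by
    intro ρ
    unfold CW.lev
    rw [e0, h0L]
  have h6 := xcov_all G (K := K) (R := R) hn hg hν0 hfull (fun ρ => L - min ρ (L - ν0))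
    (fun ρ => Nat.sub_le _ _) (fun ρ => hK _ (Nat.sub_le _ _)) Fs
    (fun z hz => lt_of_le_of_lt (by rw [← e0]; exact h2 z hz) hR) h3
    (fun z hz _ => by rw [← elev]; exact h4 z hz)
  rw [e0, Fintype.card_fin] at h1
  have hsub : (univ.filter fun w => ¬ (X w).Cov) ⊆
      univ.filter fun w : Fin R → Fin K → Fin n → Fin (2 ^ (L + 3)) =>
        ∃ z ∈ Fs, ¬ CvL G g (L - min z.1 (L - ν0)) (sdr w z.1) z.2 := by
    intro w hw
    rw [mem_filter] at hw ⊢
    refine ⟨mem_univ _, ?_⟩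
    by_contra hcon
    push Not at hcon
    refine hw.2 (h5 (X w) (by rw [hXL, h0L]) (by rw [hXν, h0ν]) (hMS w) (hS w) (hF w) ?_)
    intro z hz
    have hc := hcon z hz
    have elw : (X w).lev z.1 = L - min z.1 (L - ν0) := by
      unfold CW.lev CW.H
      rw [hXL, hXν]
    constructor
    · intro x
      obtain ⟨a, ha, hx⟩ := hc.1 x
      exact ⟨a, ha, (hE w a z.1 x).mpr hx⟩
    · intro ν hν1 hν2
      rw [hXν] at hν1
      rw [elw] at hν2
      refine lt_of_le_of_lt (card_le_card ?_) (hc.2 ν hν1 hν2)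
      intro x hx
      simp only [mem_filter, mem_univ, true_and] at hx ⊢
      refine fun hex => hx ?_
      obtain ⟨a, ha, hx1, hx2⟩ := hex
      exact ⟨a, ha, (hE w a z.1 x).mpr hx1, by rw [hN]; exact hx2⟩
  calc 2 ^ (16 * (L + 1)) * (univ.filter fun w => ¬ (X w).Cov).card
      ≤ 2 ^ (16 * (L + 1)) * (univ.filter fun w : Fin R → Fin K → Fin n → Fin (2 ^ (L + 3)) =>
        ∃ z ∈ Fs, ¬ CvL G g (L - min z.1 (L - ν0)) (sdr w z.1) z.2).card :=
        Nat.mul_le_mul_left _ (card_le_card hsub)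
    _ ≤ Fs.card * Fintype.card (Fin R → Fin K → Fin n → Fin (2 ^ (L + 3))) := h6
    _ ≤ _ := Nat.mul_le_mul_right _ h1

end Pool.Agent.X217
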