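import Pool.Agent.X217.CW1

set_option autoImplicit false

namespace Pool.Agent.X217

open Finset

attribute [local instance 10] Classical.propDecidable

namespace CW

variable {V : Type} [Fintype V] [DecidableEq V] {X : CW V} {N : ℕ → ℕ}

private theorem w4_lev (hX : X.Ok) {ρ : ℕ} (hρ : ρ < X.H) : X.ν0 < X.lev ρ := by
  have h1 := hX.hL
  unfold CW.lev CW.H at *
  omega

private theorem w4_lev_anti {ι ρ : ℕ} (h : ι ≤ ρ) : X.lev ρ ≤ X.lev ι := by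
  unfold CW.lev
  omega

/-- Direct contact at a scale which is not below the level of the source.
PROOF: `lev ρ ≤ lev ι`, `ν0 < lev ρ`; `b` with `b ∈ Ext d ι`, `b ∈ Nb (lev ρ) d` for some `d ∈ A`
has `d ∈ Nb (lev ρ) b ⊆ Ext b ρ`, so `awf b ρ` by `W3`.  The others are fewer than
`2 ^ (lev ρ + 5)` by `cv`. -/
theorem src_cover (hX : X.Ok) {ι t ρ : ℕ} {A : Finset V} (hs : X.Src ι A t) (hι : ι ≤ ρ)
    (hρ : ρ < X.H) :
    (univ.filter fun b => X.go b ρ ∧ t < X.S b ρ ∧ ¬ X.awf b ρ).card < 2 ^ (X.lev ρ + 5) := by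
  refine lt_of_le_of_lt (card_le_card ?_)
    (hs.cv.2 (X.lev ρ) (w4_lev hX hρ) (w4_lev_anti hι))
  intro b hb
  simp only [mem_filter, mem_univ, true_and] at hb ⊢
  rintro ⟨d, hd, h1, h2⟩
  obtain ⟨hb1, hb2, hb3⟩ := hb
  obtain ⟨m1, m2, m3⟩ := hs.mem d hd
  exact hb3 (hX.W3 d ι b ρ m1 hb1 h1 (hX.ext_nb b ρ (hX.nb_symm _ _ _ h2))
    (lt_of_le_of_lt m3 hb2) m2)

/-- PROOF: `Ext b ρ = univ`, and some `d ∈ A` has `b ∈ Ext d ι`. -/
theorem src_bot (hX : X.Ok) {ι t ρ : ℕ} {A : Finset V} (hs : X.Src ι A t) (hρ : X.H ≤ ρ) {b : V}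
    (hb : X.go b ρ) (ht : t < X.S b ρ) : X.awf b ρ := by
  obtain ⟨d, hd, h1⟩ := hs.cv.1 b
  obtain ⟨m1, m2, m3⟩ := hs.mem d hd
  refine hX.W3 d ι b ρ m1 hb h1 ?_ (lt_of_le_of_lt m3 ht) m2
  rw [hX.ext_bot b ρ hρ]
  exact mem_univ _

/-- Contact with a source of a deeper level.
PROOF: `A' = {a ∈ MS b ρ : t < S a ρ}` satisfies `Cv ρ A'` (`c2`).  If `ι < H`: at scale
`ν = lev ι` (`ν0 < ν ≤ lev ρ`) fewer than `2 ^ (ν + 5) ≤ |A|` names are not covered, so there are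
`d ∈ A`, `a ∈ A'` with `d ∈ Ext a ρ`, `d ∈ Nb ν a`, hence `a ∈ Nb ν d ⊆ Ext d ι`.  If `H ≤ ι`:
`Ext d ι = univ`, `A` is not empty (`cv`, there is a name: `b`), and some `a ∈ A'` has
`d ∈ Ext a ρ`.  `W3` (from `d` to `a`, `F d ι ≤ t < S a ρ`, `go a ρ` by `W2`): `awf a ρ`;
`a ∈ M b ρ`: `awe b ρ` by `W2`. -/
theorem src_deep (hX : X.Ok) (hc : X.Cov) {ι t ρ : ℕ} {A : Finset V} (hs : X.Src ι A t)
    (hι : ρ < ι) (hρ : ρ < X.H) {b : V} (hb : X.go b ρ) (hM : X.M b ρ = X.MS b ρ)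
    (hA : 64 * 2 ^ X.lev ρ ≤ ((X.MS b ρ).filter fun a => t < X.S a ρ).card) : X.awe b ρ := by
  have hcv := hc.c2 b ρ t hρ hA
  have key : ∃ d ∈ A, ∃ a ∈ (X.MS b ρ).filter fun a => t < X.S a ρ,
      d ∈ X.Ext a ρ ∧ a ∈ X.Ext d ι := by
    by_cases hιH : ι < X.H
    · have hcard := hs.card hιH
      have h1 := hcv.2 (X.lev ι) (w4_lev hX hιH) (w4_lev_anti hι.le)
      by_contra hcon
      push Not at hcon
      have hsub : A ⊆ univ.filter fun x => ¬ ∃ a ∈ (X.MS b ρ).filter fun a => t < X.S a ρ,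
          x ∈ X.Ext a ρ ∧ x ∈ X.Nb (X.lev ι) a := by
        intro d hd
        simp only [mem_filter, mem_univ, true_and]
        rintro ⟨a, ha, h2, h3⟩
        refine hcon d hd a ?_ h2 (hX.ext_nb d ι (hX.nb_symm _ _ _ h3))
        simpa only [mem_filter] using ha
      have := card_le_card hsub
      omega
    · push Not at hιH
      obtain ⟨d, hd, _⟩ := hs.cv.1 b
      obtain ⟨a, ha, h2⟩ := hcv.1 d
      exact ⟨d, hd, a, ha, h2, by rw [hX.ext_bot d ι hιH]; exact mem_univ _⟩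
  obtain ⟨d, hd, a, ha, h1, h2⟩ := key
  rw [mem_filter] at ha
  obtain ⟨ha1, ha2⟩ := ha
  rw [← hM] at ha1
  obtain ⟨g1, g2, g3⟩ := hX.W2 b ρ hρ hb a ha1
  obtain ⟨m1, m2, m3⟩ := hs.mem d hd
  exact g3 (hX.W3 d ι a ρ m1 g1 h2 h1 (lt_of_le_of_lt m3 ha2) m2)

end CW

end Pool.Agent.X217
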