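import Pool.Agent.X217.CW1b
import Pool.Agent.X217.CW1d

set_option autoImplicit false

namespace Pool.Agent.X217

open Finset

attribute [local instance 10] Classical.propDecidable

namespace CW

variable {V : Type} [Fintype V] [DecidableEq V] {X : CW V} {N : ℕ → ℕ}

/-- After `β` a bottom run makes aware.  PROOF: `src_beta`, `src_bot`. -/
theorem bot_awf (hX : X.Ok) (hc : X.Cov) {β : ℕ} (hβ : X.Beta β) {b : V} {ρ : ℕ} (hρ : X.H ≤ ρ)
    (hb : X.go b ρ) (ht : β < X.S b ρ) : X.awf b ρ := by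
  obtain ⟨ι, A, _, hs⟩ := src_beta hX hc hβ
  exact src_bot hX hs hρ hb ht

/-- At most two bottom runs are started after `β`.  PROOF: `go b (ρ + 2)` gives `go b ρ`,
`awf b ρ` (`bot_awf`), `awe`, `aw b (ρ + 1)`, `lv b (ρ + 1)` (`W4b`), contradiction to `goS`. -/
theorem bot_two (hX : X.Ok) (hc : X.Cov) {β : ℕ} (hβ : X.Beta β) {b : V} {ρ : ℕ} (hρ : X.H ≤ ρ)
    (ht : β < X.S b ρ) : ¬ X.go b (ρ + 2) := by
  intro h2
  have h1 : X.go b (ρ + 1) := go_mono hX h2 (by omega)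
  have h0 : X.go b ρ := go_mono hX h2 (by omega)
  have hf : X.awf b ρ := bot_awf hX hc hβ hρ h0 ht
  have he : X.awe b ρ := hX.awf_awe b ρ h0 hf
  have ha : X.aw b (ρ + 1) := (hX.awS b ρ h1).2 (Or.inl he)
  have hl : X.lv b (ρ + 1) := hX.W4b b (ρ + 1) (by omega) h1 ha
  exact not_lv hX h2 (by omega) hl

end CW

end Pool.Agent.X217
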