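import Pool.Agent.X217.CW1

set_option autoImplicit false

namespace Pool.Agent.X217

open Finset

attribute [local instance 10] Classical.propDecidable

namespace CW

variable {V : Type} [Fintype V] [DecidableEq V] {X : CW V} {N : ℕ → ℕ}

/-- A participant of run `ρ` has started it before `β`, or it is its `(j + 1)`-st run after `β`,
`j ≤ 6`, or run `ρ - 7` was started after `β`.
PROOF: `S p` is increasing; take the largest `j ≤ ρ` with `β < S p (ρ - j)`. -/
theorem split7 (hX : X.Ok) (β ρ : ℕ) :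
    X.y ρ ≤ (univ.filter fun p => X.go p ρ ∧ X.S p ρ ≤ β).card +
      ∑ j ∈ range 7, (univ.filter fun p => X.go p ρ ∧ j ≤ ρ ∧ β < X.S p (ρ - j) ∧
        (ρ = j ∨ X.S p (ρ - j - 1) ≤ β)).card +
      (univ.filter fun p => X.go p ρ ∧ 7 ≤ ρ ∧ β < X.S p (ρ - 7)).card := by
  have hsub : (univ.filter fun p => X.go p ρ) ⊆
      ((univ.filter fun p => X.go p ρ ∧ X.S p ρ ≤ β) ∪
        (range 7).biUnion (fun j => univ.filter fun p => X.go p ρ ∧ j ≤ ρ ∧ β < X.S p (ρ - j) ∧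
          (ρ = j ∨ X.S p (ρ - j - 1) ≤ β))) ∪
      (univ.filter fun p => X.go p ρ ∧ 7 ≤ ρ ∧ β < X.S p (ρ - 7)) := by
    intro p hp
    have hgo : X.go p ρ := (mem_filter.1 hp).2
    rcases le_or_gt (X.S p ρ) β with h0 | h0
    · exact mem_union_left _ (mem_union_left _ (mem_filter.2 ⟨mem_univ _, hgo, h0⟩))
    · have hex : ∃ k, ρ = k ∨ X.S p (ρ - k - 1) ≤ β := ⟨ρ, Or.inl rfl⟩
      have hk1 := Nat.find_spec hex
      have hk2 : ∀ j < Nat.find hex, ¬ (ρ = j ∨ X.S p (ρ - j - 1) ≤ β) :=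
        fun j hj => Nat.find_min hex hj
      have hk3 : Nat.find hex ≤ ρ := Nat.find_min' hex (Or.inl rfl)
      generalize Nat.find hex = k at hk1 hk2 hk3
      have hk4 : β < X.S p (ρ - k) := by
        rcases Nat.eq_zero_or_pos k with rfl | hpos
        · simpa using h0
        · have := hk2 (k - 1) (by omega)
          have h5 : ¬ X.S p (ρ - (k - 1) - 1) ≤ β := fun h => this (Or.inr h)
          have h6 : ρ - (k - 1) - 1 = ρ - k := by omega
          rw [h6] at h5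
          omega
      rcases Nat.lt_or_ge k 7 with hk | hk
      · refine mem_union_left _ (mem_union_right _ (mem_biUnion.2 ⟨k, mem_range.2 hk, ?_⟩))
        exact mem_filter.2 ⟨mem_univ _, hgo, hk3, hk4, hk1⟩
      · have := hk2 6 (by omega)
        have h5 : ¬ X.S p (ρ - 6 - 1) ≤ β := fun h => this (Or.inr h)
        have h6 : ρ - 6 - 1 = ρ - 7 := by omega
        rw [h6] at h5
        exact mem_union_right _ (mem_filter.2 ⟨mem_univ _, hgo, by omega, by omega⟩)
  calc X.y ρ = (univ.filter fun p => X.go p ρ).card := rfl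
    _ ≤ _ := card_le_card hsub
    _ ≤ _ := card_union_le _ _
    _ ≤ _ := Nat.add_le_add_right ((card_union_le _ _).trans
      (Nat.add_le_add_left card_biUnion_le _)) _

/-- PROOF: `p` with `go p ρ`, `β < S p (ρ - 7)`, `8 ≤ ρ ≤ H` or `ρ = 7`: `go p (ρ - 1)`,
`¬ lv p (ρ - 1)` (`not_lv`), `β < S p (ρ - 6)`: `p ∈ ZZ β (ρ - 1)`, because `ρ - 1 - 5 = ρ - 6`. -/
theorem late_sub (hX : X.Ok) {β ρ : ℕ} (h7 : 7 ≤ ρ) :
    (univ.filter fun p => X.go p ρ ∧ 7 ≤ ρ ∧ β < X.S p (ρ - 7)) ⊆ X.ZZ β (ρ - 1) := by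
  intro p hp
  obtain ⟨_, hgo, _, hβ⟩ := mem_filter.1 hp
  refine mem_filter.2 ⟨mem_univ _, go_mono hX hgo (by omega), ?_, not_lv hX hgo (by omega)⟩
  have h1 := S_lt hX p (show ρ - 7 < ρ - 6 by omega)
  have h2 := hX.SF p (ρ - 7)
  have h3 := hX.FE p (ρ - 7)
  have h4 : ρ - 1 - 5 = ρ - 6 := by omega
  rw [h4]
  omega

end CW

end Pool.Agent.X217
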