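import Pool.Agent.X217.CW2d
import Pool.Agent.X217.CW3b

set_option autoImplicit false

namespace Pool.Agent.X217

open Finset

attribute [local instance 10] Classical.propDecidable

namespace CW

variable {V : Type} [Fintype V] [DecidableEq V] {X : CW V} {N : ℕ → ℕ}

private theorem CW3d_shift (b : ℕ → ℕ) (c H : ℕ) :
    ∑ τ ∈ Ico c H, b (τ - c) ≤ ∑ ρ ∈ range H, b ρ := by
  rw [sum_Ico_eq_sum_range]
  have h1 : ∑ i ∈ range (H - c), b (c + i - c) = ∑ i ∈ range (H - c), b i :=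
    sum_congr rfl fun i _ => by rw [Nat.add_sub_cancel_left]
  rw [h1]
  exact sum_le_sum_of_subset (range_subset_range.2 (Nat.sub_le _ _))

/-- The bound for one run. -/
private theorem CW3d_one (hX : X.Ok) (hc : X.Cov) (hG : X.Gr N) {β : ℕ} (hβ : X.Beta β)
    (hy : ∀ ρ < X.H, X.y ρ ≤ (X.L + 1) ^ 3 * 2 ^ X.lev ρ) {τ : ℕ} (h5 : 5 ≤ τ) (hτ : τ < X.H) :
    1024 * (2 ^ (τ + 1) * (X.ZZ β τ).card) ≤ 1024 * (2 ^ X.L * 3072) +
      64 * (1024 * (2 ^ X.L * N (τ - 5)) + X.wt (τ - 5) * X.y (τ - 5)) +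
      32 * (1024 * (2 ^ X.L * N (τ - 3)) + X.wt (τ - 3) * X.y (τ - 3)) +
      2 * (1024 * (2 ^ X.L * N τ) + X.wt τ * X.y τ) := by
  have h1 := ZZ_card hX hc hG hβ h5 hτ fun ρ hρ => hy ρ (lt_of_le_of_lt hρ hτ)
  have hHL : X.H ≤ X.L := Nat.sub_le _ _
  obtain ⟨s, rfl⟩ := Nat.exists_eq_add_of_le' h5
  obtain ⟨e, he⟩ := Nat.exists_eq_add_of_le (show s + 5 ≤ X.L by omega)
  have l5 : X.lev (s + 5 - 5) = e + 5 := by unfold lev; omega
  have l4 : X.lev (s + 5 - 4) = e + 4 := by unfold lev; omega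
  have l3 : X.lev (s + 5 - 3) = e + 3 := by unfold lev; omega
  have l0 : X.lev (s + 5) = e := by unfold lev; omega
  have w5 : X.wt (s + 5 - 5) = 2 ^ s := by
    unfold wt
    congr 1
    omega
  have w3 : X.wt (s + 5 - 3) = 2 ^ (s + 2) := by
    unfold wt
    congr 1
    omega
  have w0 : X.wt (s + 5) = 2 ^ (s + 5) := by
    unfold wt
    congr 1
    omega
  rw [l5, l4, l3, l0] at h1
  rw [w5, w3, w0, he]
  have h2 := Nat.mul_le_mul_left (2 ^ (s + 6)) h1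
  refine le_trans (le_of_eq (by ring)) (h2.trans (le_of_eq (by ring)))

/-- The mass of the late runs.
PROOF: `R ρ = wt ρ * #{go p ρ, 7 ≤ ρ, β < S p (ρ - 7)}`.  `ρ < 7`: `0`.  `7 ≤ ρ ≤ H`, `τ = ρ - 1`:
`late_sub`, `ZZ_card`: `wt (τ + 1) = 2 ^ (τ + 1)`, `2 ^ (τ + 1) * 2 ^ lev (τ - c) = 2 ^ (L + 1 + c)`:
`1024 * R ρ ≤ 1024 * 2 ^ L * (2 ^ 10 + 2 ^ 11 + 64 * N (τ - 5) + 32 * N (τ - 3) + 2 * N τ) +
64 * (wt (τ - 5) * y (τ - 5)) + 32 * (wt (τ - 3) * y (τ - 3)) + 2 * (wt τ * y τ)`; the sum over `τ < H` is at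
most `Q = 1024 * 2 ^ L * (3072 * H + 98 * ∑ N) + 98 * Ytot`.  `ρ = H + 1`: these `p` are in
`ZZ β (H - 1)` too (`go p H`, `β < S p (H - 6)`), and `wt (H + 1) = wt H`: the same bound as for
`ρ = H`, at most `Q`.  `ρ ≥ H + 2`: `0` by `bot_two` for run `ρ - 2` (`go p ρ`). -/
theorem mass_late (hX : X.Ok) (hc : X.Cov) (hG : X.Gr N) {β : ℕ} (hβ : X.Beta β)
    (hy : ∀ ρ < X.H, X.y ρ ≤ (X.L + 1) ^ 3 * 2 ^ X.lev ρ) :
    1024 * ∑ ρ ∈ range X.rn, X.wt ρ *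
      (univ.filter fun p => X.go p ρ ∧ 7 ≤ ρ ∧ β < X.S p (ρ - 7)).card ≤
    2 * (1024 * (2 ^ X.L * (3072 * X.H + 98 * ∑ ρ ∈ range X.H, N ρ)) + 98 * X.Ytot) := by
  set c : ℕ → ℕ := fun ρ =>
    (univ.filter fun p => X.go p ρ ∧ 7 ≤ ρ ∧ β < X.S p (ρ - 7)).card with hcdef
  set b : ℕ → ℕ := fun ρ => 1024 * (2 ^ X.L * N ρ) + X.wt ρ * X.y ρ with hb
  set B : ℕ → ℕ := fun τ => 1024 * (2 ^ X.L * 3072) + 64 * b (τ - 5) + 32 * b (τ - 3) + 2 * b τ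
    with hB
  have hH8 : 8 ≤ X.H := by
    have := hX.hL
    unfold H
    omega
  have hr := hX.hr
  have hone : ∀ τ, 5 ≤ τ → τ < X.H → 1024 * (2 ^ (τ + 1) * (X.ZZ β τ).card) ≤ B τ :=
    fun τ h5 hτ => CW3d_one hX hc hG hβ hy h5 hτ
  have hmono : ∀ p : V, ∀ ρ ρ' : ℕ, ρ ≤ ρ' → X.S p ρ ≤ X.S p ρ' := by
    intro p ρ ρ' h
    rcases Nat.eq_or_lt_of_le h with h | h
    · rw [h]
    · have h1 := S_lt hX p h
      have h2 := hX.SF p ρ
      have h3 := hX.FE p ρ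
      omega
  -- the classes
  have c1 : ∀ ρ < 7, 1024 * (X.wt ρ * c ρ) = 0 := by
    intro ρ hρ
    have : c ρ = 0 := by
      rw [hcdef]
      dsimp only
      rw [card_eq_zero, filter_eq_empty_iff]
      rintro p - ⟨-, h, -⟩
      omega
    rw [this]
    simp
  have c2 : ∀ ρ, 7 ≤ ρ → ρ ≤ X.H → 1024 * (X.wt ρ * c ρ) ≤ B (ρ - 1) := by
    intro ρ h7 hρ
    have h1 : c ρ ≤ (X.ZZ β (ρ - 1)).card := card_le_card (late_sub hX h7)
    have h2 := hone (ρ - 1) (by omega) (by omega)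
    have h3 : X.wt ρ = 2 ^ (ρ - 1 + 1) := by
      unfold wt
      congr 1
      omega
    rw [h3]
    exact (Nat.mul_le_mul_left _ (Nat.mul_le_mul_left _ h1)).trans h2
  have c3 : 1024 * (X.wt (X.H + 1) * c (X.H + 1)) ≤ B (X.H - 1) := by
    have h1 : c (X.H + 1) ≤ (X.ZZ β (X.H - 1)).card := by
      refine card_le_card fun p hp => ?_
      rw [mem_filter] at hp
      obtain ⟨-, h1, -, h2⟩ := hp
      unfold ZZ
      rw [mem_filter]
      refine ⟨mem_univ _, go_mono hX h1 (by omega), ?_, not_lv hX h1 (by omega)⟩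
      have h3 : X.H - 1 - 5 = X.H + 1 - 7 := by omega
      rw [h3]
      exact h2
    have h2 := hone (X.H - 1) (by omega) (by omega)
    have h3 : X.wt (X.H + 1) = 2 ^ (X.H - 1 + 1) := by
      unfold wt
      congr 1
      omega
    rw [h3]
    exact (Nat.mul_le_mul_left _ (Nat.mul_le_mul_left _ h1)).trans h2
  have c4 : ∀ ρ, X.H + 2 ≤ ρ → 1024 * (X.wt ρ * c ρ) = 0 := by
    intro ρ hρ
    have : c ρ = 0 := by
      rw [hcdef]
      dsimp only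
      rw [card_eq_zero, filter_eq_empty_iff]
      rintro p - ⟨h1, -, h2⟩
      have h3 := hmono p (ρ - 7) (ρ - 2) (by omega)
      refine bot_two hX hc hβ (show X.H ≤ ρ - 2 by omega) (lt_of_lt_of_le h2 h3) ?_
      rw [Nat.sub_add_cancel (by omega)]
      exact h1
    rw [this]
    simp
  -- the sum of the bounds
  have hQ : ∑ τ ∈ Ico 5 X.H, B τ ≤
      1024 * (2 ^ X.L * (3072 * X.H + 98 * ∑ ρ ∈ range X.H, N ρ)) + 98 * X.Ytot := by
    have s0 : ∑ ρ ∈ range X.H, b ρ ≤ 1024 * (2 ^ X.L * ∑ ρ ∈ range X.H, N ρ) + X.Ytot := by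
      rw [hb]
      dsimp only
      rw [sum_add_distrib, ← mul_sum, ← mul_sum]
      refine Nat.add_le_add_left ?_ _
      unfold Ytot
      exact sum_le_sum_of_subset (range_subset_range.2 (by omega))
    have s5 : ∑ τ ∈ Ico 5 X.H, b (τ - 5) ≤ ∑ ρ ∈ range X.H, b ρ := CW3d_shift b 5 X.H
    have s3 : ∑ τ ∈ Ico 5 X.H, b (τ - 3) ≤ ∑ ρ ∈ range X.H, b ρ :=
      (sum_le_sum_of_subset (Ico_subset_Ico_left (by norm_num))).trans (CW3d_shift b 3 X.H)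
    have s1 : ∑ τ ∈ Ico 5 X.H, b τ ≤ ∑ ρ ∈ range X.H, b ρ := by
      rw [range_eq_Ico]
      exact sum_le_sum_of_subset (Ico_subset_Ico_left (by norm_num))
    have s2 : ∑ _τ ∈ Ico 5 X.H, 1024 * (2 ^ X.L * 3072) ≤ 1024 * (2 ^ X.L * (3072 * X.H)) := by
      rw [sum_const, Nat.card_Ico, smul_eq_mul]
      calc (X.H - 5) * (1024 * (2 ^ X.L * 3072)) ≤ X.H * (1024 * (2 ^ X.L * 3072)) :=
            Nat.mul_le_mul_right _ (Nat.sub_le _ _)
        _ = _ := by ring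
    have e2 : ∑ τ ∈ Ico 5 X.H, B τ = ∑ _τ ∈ Ico 5 X.H, 1024 * (2 ^ X.L * 3072) +
        64 * ∑ τ ∈ Ico 5 X.H, b (τ - 5) + 32 * ∑ τ ∈ Ico 5 X.H, b (τ - 3) +
        2 * ∑ τ ∈ Ico 5 X.H, b τ := by
      rw [mul_sum, mul_sum, mul_sum, ← sum_add_distrib, ← sum_add_distrib, ← sum_add_distrib]
    rw [e2]
    have e1 : 1024 * (2 ^ X.L * (3072 * X.H + 98 * ∑ ρ ∈ range X.H, N ρ)) =
        1024 * (2 ^ X.L * (3072 * X.H)) + 98 * (1024 * (2 ^ X.L * ∑ ρ ∈ range X.H, N ρ)) := by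
      ring
    rw [e1]
    omega
  -- the total
  have t1 : 1024 * ∑ ρ ∈ range X.rn, X.wt ρ * c ρ = ∑ ρ ∈ range X.rn, 1024 * (X.wt ρ * c ρ) :=
    mul_sum _ _ _
  have t2 : ∑ ρ ∈ range X.rn, 1024 * (X.wt ρ * c ρ) =
      ∑ ρ ∈ range (X.H + 2), 1024 * (X.wt ρ * c ρ) := by
    symm
    refine sum_subset (range_subset_range.2 (by omega)) fun ρ _ h2 => ?_
    rw [mem_range] at h2
    exact c4 ρ (by omega)
  have t3 : ∑ ρ ∈ range (X.H + 1), 1024 * (X.wt ρ * c ρ) ≤ ∑ τ ∈ Ico 5 X.H, B τ := by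
    have u1 : ∑ ρ ∈ range (X.H + 1), 1024 * (X.wt ρ * c ρ) =
        ∑ ρ ∈ Ico 7 (X.H + 1), 1024 * (X.wt ρ * c ρ) := by
      symm
      refine sum_subset (fun ρ hρ => ?_) fun ρ h1 h2 => ?_
      · rw [mem_Ico] at hρ
        rw [mem_range]
        omega
      · rw [mem_range] at h1
        rw [mem_Ico] at h2
        exact c1 ρ (by omega)
    have u2 : ∑ ρ ∈ Ico 7 (X.H + 1), 1024 * (X.wt ρ * c ρ) ≤ ∑ ρ ∈ Ico 7 (X.H + 1), B (ρ - 1) := by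
      refine sum_le_sum fun ρ hρ => ?_
      rw [mem_Ico] at hρ
      exact c2 ρ hρ.1 (by omega)
    have u3 : ∑ ρ ∈ Ico 7 (X.H + 1), B (ρ - 1) = ∑ τ ∈ Ico 6 X.H, B τ := by
      rw [sum_Ico_eq_sum_range, sum_Ico_eq_sum_range]
      have e1 : X.H + 1 - 7 = X.H - 6 := by omega
      rw [e1]
      refine sum_congr rfl fun i _ => ?_
      congr 1
      omega
    rw [u1]
    refine u2.trans ?_
    rw [u3]
    exact sum_le_sum_of_subset (Ico_subset_Ico_left (by norm_num))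
  have t4 : B (X.H - 1) ≤ ∑ τ ∈ Ico 5 X.H, B τ := by
    refine single_le_sum (f := B) (fun _ _ => Nat.zero_le _) ?_
    rw [mem_Ico]
    omega
  rw [t1, t2, sum_range_succ]
  omega

end CW

end Pool.Agent.X217
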