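import Pool.Agent.X217.CW3c
import Pool.Agent.X217.CW3d

set_option autoImplicit false

namespace Pool.Agent.X217

open Finset

attribute [local instance 10] Classical.propDecidable

namespace CW

variable {V : Type} [Fintype V] [DecidableEq V] {X : CW V} {N : ℕ → ℕ}

/-- TOTAL MASS.
PROOF: `split7`, `mass_u`, `mass_j` for `j ≤ 6`, `mass_late`: with `n = |V| ≤ 2 ^ (L + 1)`:
`1024 * Ytot ≤ 1024 * (382 * n + 510 * m β) + 2048 * 2 ^ L * (3072 * H + 98 * ∑ N) + 196 * Ytot`,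
so `828 * Ytot ≤ ..` and `Ytot ≤ 631 * m β + 2 ^ L * (950 + 7600 * H + 244 * ∑ N)`. -/
theorem mass_total (hX : X.Ok) (hc : X.Cov) (hG : X.Gr N) {β h Nm : ℕ} (hβ : X.Beta β)
    (hm : X.m β ≤ 64 * ((X.L + 1) * 2 ^ (X.L + h))) (hN : ∀ ρ, N ρ ≤ Nm)
    (hnum : 2 * (2 ^ 15 * ((X.L + 1) * 2 ^ h) + 2 ^ 12 + 2 ^ 7 * Nm) ≤ (X.L + 1) ^ 3) :
    X.Ytot ≤ 1024 * X.m β + X.Err N := by
  have hy := y_bound hX hc hG hβ hm hN hnum
  have hl := mass_late hX hc hG hβ hy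
  have hu := mass_u hX β
  have hj := fun j => mass_j hX β j
  have hn := hX.hn
  have hY : X.Ytot ≤
      (∑ ρ ∈ range X.rn, X.wt ρ * (univ.filter fun p => X.go p ρ ∧ X.S p ρ ≤ β).card) +
      (∑ j ∈ range 7, ∑ ρ ∈ range X.rn, X.wt ρ *
        (univ.filter fun p => X.go p ρ ∧ j ≤ ρ ∧ β < X.S p (ρ - j) ∧
        (ρ = j ∨ X.S p (ρ - j - 1) ≤ β)).card) +
      ∑ ρ ∈ range X.rn, X.wt ρ *
        (univ.filter fun p => X.go p ρ ∧ 7 ≤ ρ ∧ β < X.S p (ρ - 7)).card := by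
    rw [sum_comm (s := range 7), ← sum_add_distrib, ← sum_add_distrib]
    unfold Ytot
    refine sum_le_sum fun ρ _ => ?_
    rw [← mul_sum, ← mul_add, ← mul_add]
    exact Nat.mul_le_mul_left _ (split7 hX β ρ)
  have hJ : (∑ j ∈ range 7, ∑ ρ ∈ range X.rn, X.wt ρ *
        (univ.filter fun p => X.go p ρ ∧ j ≤ ρ ∧ β < X.S p (ρ - j) ∧
        (ρ = j ∨ X.S p (ρ - j - 1) ≤ β)).card) ≤ 381 * Fintype.card V + 508 * X.m β := by
    refine (sum_le_sum fun j _ => hj j).trans ?_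
    simp only [sum_range_succ, range_zero, sum_empty]
    omega
  have h2 : 2 ^ (X.L + 1) = 2 * 2 ^ X.L := by rw [pow_succ]; ring
  have h14 : 2 ^ (X.L + 14) = 16384 * 2 ^ X.L := by rw [pow_add]; norm_num; ring
  have hE : X.Err N = 16384 * (2 ^ X.L * X.H) + 16384 * (2 ^ X.L * ∑ ρ ∈ range X.H, N ρ) +
      16384 * 2 ^ X.L := by
    unfold Err
    rw [h14]; ring
  have hd : 2 ^ X.L * (3072 * X.H + 98 * ∑ ρ ∈ range X.H, N ρ) =
      3072 * (2 ^ X.L * X.H) + 98 * (2 ^ X.L * ∑ ρ ∈ range X.H, N ρ) := by ring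
  rw [hd] at hl
  rw [h2] at hn
  rw [hE]
  generalize 2 ^ X.L * X.H = a1 at *
  generalize 2 ^ X.L * ∑ ρ ∈ range X.H, N ρ = a2 at *
  omega

end CW

end Pool.Agent.X217
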