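import Pool.Agent.X217.CW3e

set_option autoImplicit false

namespace Pool.Agent.X217

open Finset

attribute [local instance 10] Classical.propDecidable

namespace CW

variable {V : Type} [Fintype V] [DecidableEq V] {X : CW V} {N : ℕ → ℕ}

/-- The flips made after `β` in run `ρ`. -/
private noncomputable def cw3f_A (X : CW V) (β ρ : ℕ) : Finset V :=
  univ.filter fun p => X.go p ρ ∧ ¬ X.awe p ρ ∧ β < X.E p ρ

private noncomputable def cw3f_1 (X : CW V) (β ρ : ℕ) : Finset V :=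
  univ.filter fun p => X.go p ρ ∧ X.S p ρ ≤ β

private noncomputable def cw3f_2 (X : CW V) (β ρ : ℕ) : Finset V :=
  univ.filter fun p => X.go p ρ ∧ 0 ≤ ρ ∧ β < X.S p (ρ - 0) ∧ (ρ = 0 ∨ X.S p (ρ - 0 - 1) ≤ β)

private noncomputable def cw3f_G (X : CW V) (N : ℕ → ℕ) (ρ : ℕ) : ℕ :=
  if 1 ≤ ρ ∧ ρ < X.H then
    1024 * (2 ^ X.L * (96 + 2 * N (ρ - 1))) + 2 * (X.wt (ρ - 1) * X.y (ρ - 1)) else 0

private theorem cw3f_point (hX : X.Ok) (hc : X.Cov) (hG : X.Gr N) {β : ℕ} (hβ : X.Beta β)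
    (hy : ∀ ρ < X.H, X.y ρ ≤ (X.L + 1) ^ 3 * 2 ^ X.lev ρ) (ρ : ℕ) :
    1024 * (X.wt ρ * (cw3f_A X β ρ).card) ≤
      1024 * (X.wt ρ * (cw3f_1 X β ρ).card) + 1024 * (X.wt ρ * (cw3f_2 X β ρ).card) +
        cw3f_G X N ρ := by
  have hH : X.H ≤ X.L := Nat.sub_le _ _
  by_cases h : 1 ≤ ρ ∧ ρ < X.H
  · -- a tick run with a predecessor
    have hsub : cw3f_A X β ρ ⊆ cw3f_1 X β ρ ∪ cw3f_2 X β ρ ∪ X.XX β ρ := by
      intro p hp
      unfold cw3f_A at hp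
      obtain ⟨-, h1, h2, h3⟩ := mem_filter.1 hp
      rw [mem_union, mem_union]
      by_cases h4 : X.S p ρ ≤ β
      · exact Or.inl (Or.inl (mem_filter.2 ⟨mem_univ _, h1, h4⟩))
      · rw [not_le] at h4
        by_cases h5 : X.S p (ρ - 1) ≤ β
        · exact Or.inl (Or.inr (mem_filter.2 ⟨mem_univ _, h1, Nat.zero_le _, h4, Or.inr h5⟩))
        · exact Or.inr (mem_filter.2 ⟨mem_univ _, h1, not_le.1 h5, h2⟩)
    have hcard : (cw3f_A X β ρ).card ≤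
        (cw3f_1 X β ρ).card + (cw3f_2 X β ρ).card + (X.XX β ρ).card :=
      (card_le_card hsub).trans ((card_union_le _ _).trans
        (Nat.add_le_add_right (card_union_le _ _) _))
    have hXX := XX_card hX hc hG hβ h.1 h.2 (hy (ρ - 1) (by omega))
    obtain ⟨τ, rfl⟩ : ∃ τ, ρ = τ + 1 := ⟨ρ - 1, by omega⟩
    have hτ : τ + 1 < X.H := h.2
    rw [Nat.add_sub_cancel] at hXX
    unfold cw3f_G
    rw [if_pos h, Nat.add_sub_cancel]
    have hw : X.wt (τ + 1) = 2 ^ (τ + 1) := by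
      unfold wt
      rw [min_eq_left hτ.le]
    have hw' : X.wt τ = 2 ^ τ := by
      unfold wt
      rw [min_eq_left (by omega)]
    have hl : X.lev (τ + 1) = X.L - (τ + 1) := by
      unfold lev
      rw [min_eq_left hτ.le]
    have hl' : X.lev τ = X.L - τ := by
      unfold lev
      rw [min_eq_left (by omega)]
    have e1 : 2 ^ (τ + 1) * 2 ^ (X.lev (τ + 1) + 5) = 32 * 2 ^ X.L := by
      rw [hl, ← pow_add, show (32 : ℕ) = 2 ^ 5 by norm_num, ← pow_add]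
      congr 1
      omega
    have e2 : 2 ^ (τ + 1) * 2 ^ (X.lev τ + 5) = 64 * 2 ^ X.L := by
      rw [hl', ← pow_add, show (64 : ℕ) = 2 ^ 6 by norm_num, ← pow_add]
      congr 1
      omega
    have e3 : 2 ^ (τ + 1) * 2 ^ X.lev τ = 2 * 2 ^ X.L := by
      rw [hl', ← pow_add, ← pow_succ']
      congr 1
      omega
    have hmul := Nat.mul_le_mul_left (2 ^ (τ + 1)) hXX
    have hmul' : 1024 * (2 ^ (τ + 1) * (X.XX β (τ + 1)).card) ≤
        1024 * (2 ^ X.L * (96 + 2 * N τ)) + 2 * (2 ^ τ * X.y τ) := by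
      calc 1024 * (2 ^ (τ + 1) * (X.XX β (τ + 1)).card)
          = 2 ^ (τ + 1) * (1024 * (X.XX β (τ + 1)).card) := by ring
        _ ≤ _ := hmul
        _ = 1024 * (2 ^ (τ + 1) * 2 ^ (X.lev (τ + 1) + 5) + 2 ^ (τ + 1) * 2 ^ (X.lev τ + 5) +
              N τ * (2 ^ (τ + 1) * 2 ^ X.lev τ)) + 2 ^ (τ + 1) * X.y τ := by ring
        _ = 1024 * (2 ^ X.L * (96 + 2 * N τ)) + 2 * (2 ^ τ * X.y τ) := by
            rw [e1, e2, e3, pow_succ 2 τ]
            ring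
    rw [hw, hw']
    have hc2 := Nat.mul_le_mul_left (2 ^ (τ + 1)) hcard
    rw [Nat.mul_add, Nat.mul_add] at hc2
    omega
  · have hsub : cw3f_A X β ρ ⊆ cw3f_1 X β ρ ∪ cw3f_2 X β ρ := by
      intro p hp
      unfold cw3f_A at hp
      obtain ⟨-, h1, h2, h3⟩ := mem_filter.1 hp
      rw [mem_union]
      by_cases h4 : X.S p ρ ≤ β
      · exact Or.inl (mem_filter.2 ⟨mem_univ _, h1, h4⟩)
      · rw [not_le] at h4
        by_cases h5 : ρ = 0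
        · exact Or.inr (mem_filter.2 ⟨mem_univ _, h1, Nat.zero_le _, h4, Or.inl h5⟩)
        · have h6 : X.H ≤ ρ := by
            by_contra hc'
            exact h ⟨by omega, by omega⟩
          exact absurd (hX.awf_awe p ρ h1 (bot_awf hX hc hβ h6 h1 h4)) h2
    have hcard : (cw3f_A X β ρ).card ≤ (cw3f_1 X β ρ).card + (cw3f_2 X β ρ).card :=
      (card_le_card hsub).trans (card_union_le _ _)
    have hc2 := Nat.mul_le_mul_left (X.wt ρ) hcard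
    rw [Nat.mul_add] at hc2
    omega

private theorem cw3f_sum (hX : X.Ok) (N : ℕ → ℕ) :
    ∑ ρ ∈ range X.rn, cw3f_G X N ρ ≤
      1024 * (2 ^ X.L * (96 * X.H + 2 * ∑ ρ ∈ range X.H, N ρ)) + 2 * X.Ytot := by
  obtain ⟨r, hr⟩ : ∃ r, X.rn = r + 1 := ⟨X.rn - 1, by have := hX.hr; omega⟩
  have h0 : cw3f_G X N 0 = 0 := by
    unfold cw3f_G
    rw [if_neg (by omega)]
  rw [hr, Finset.sum_range_succ', h0, Nat.add_zero]
  have h1 : ∀ ρ ∈ range r, cw3f_G X N (ρ + 1) ≤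
      (if ρ < X.H then 1024 * (2 ^ X.L * (96 + 2 * N ρ)) else 0) + 2 * (X.wt ρ * X.y ρ) := by
    intro ρ _
    unfold cw3f_G
    rw [Nat.add_sub_cancel]
    by_cases h2 : 1 ≤ ρ + 1 ∧ ρ + 1 < X.H
    · rw [if_pos h2, if_pos (by omega)]
    · rw [if_neg h2]
      exact Nat.zero_le _
  have h3 : ∑ ρ ∈ range r, (if ρ < X.H then 1024 * (2 ^ X.L * (96 + 2 * N ρ)) else 0) ≤
      ∑ ρ ∈ range X.H, 1024 * (2 ^ X.L * (96 + 2 * N ρ)) := by
    rw [← sum_filter]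
    refine sum_le_sum_of_subset ?_
    intro ρ hρ
    exact mem_range.2 (mem_filter.1 hρ).2
  have h4 : ∑ ρ ∈ range X.H, 1024 * (2 ^ X.L * (96 + 2 * N ρ)) =
      1024 * (2 ^ X.L * (96 * X.H + 2 * ∑ ρ ∈ range X.H, N ρ)) := by
    rw [← mul_sum, ← mul_sum, sum_add_distrib, sum_const, card_range, smul_eq_mul, ← mul_sum,
      Nat.mul_comm X.H 96]
  have h5 : ∑ ρ ∈ range r, 2 * (X.wt ρ * X.y ρ) ≤ 2 * X.Ytot := by
    rw [← mul_sum]
    refine Nat.mul_le_mul_left _ ?_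
    unfold Ytot
    refine sum_le_sum_of_subset ?_
    rw [hr]
    exact range_subset_range.2 (Nat.le_succ r)
  calc _ ≤ ∑ ρ ∈ range r, ((if ρ < X.H then 1024 * (2 ^ X.L * (96 + 2 * N ρ)) else 0) +
        2 * (X.wt ρ * X.y ρ)) := sum_le_sum h1
    _ = ∑ ρ ∈ range r, (if ρ < X.H then 1024 * (2 ^ X.L * (96 + 2 * N ρ)) else 0) +
        ∑ ρ ∈ range r, 2 * (X.wt ρ * X.y ρ) := sum_add_distrib
    _ ≤ _ := Nat.add_le_add (h3.trans h4.le) h5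

/-- FLIPS AFTER `β`.
PROOF: a flip made with `β < E p ρ`: (1) `S p ρ ≤ β`: `mass_u`.  (2) `β < S p ρ` and (`ρ = 0` or
`S p (ρ - 1) ≤ β`): `mass_j` with `j = 0`.  (3) `1 ≤ ρ < H`, `β < S p (ρ - 1)`: `p ∈ XX β ρ`:
`XX_card` and `y_bound`: `1024 * wt ρ * |XX β ρ| ≤ 1024 * 2 ^ L * (96 + 2 * N (ρ - 1)) +
2 * (wt (ρ - 1) * y (ρ - 1))`.  (4) `H ≤ ρ`, `β < S p ρ`: `awf`, so `awe`: not possible (`bot_awf`).
Total `≤ 3 * (n + 2 m) + n + 2 ^ L * (96 * H + 2 * ∑ N) + Ytot / 512`, `mass_total`. -/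
theorem flips_after (hX : X.Ok) (hc : X.Cov) (hG : X.Gr N) {β h Nm : ℕ} (hβ : X.Beta β)
    (hm : X.m β ≤ 64 * ((X.L + 1) * 2 ^ (X.L + h))) (hN : ∀ ρ, N ρ ≤ Nm)
    (hnum : 2 * (2 ^ 15 * ((X.L + 1) * 2 ^ h) + 2 ^ 12 + 2 ^ 7 * Nm) ≤ (X.L + 1) ^ 3) :
    X.Fa β ≤ 8 * X.m β + X.Err N := by
  have hy := y_bound hX hc hG hβ hm hN hnum
  have hY := mass_total hX hc hG hβ hm hN hnum
  have h1 : 1024 * X.Fa β ≤ 1024 * ∑ ρ ∈ range X.rn, X.wt ρ * (cw3f_1 X β ρ).card +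
      1024 * ∑ ρ ∈ range X.rn, X.wt ρ * (cw3f_2 X β ρ).card + ∑ ρ ∈ range X.rn, cw3f_G X N ρ := by
    have h2 : X.Fa β = ∑ ρ ∈ range X.rn, X.wt ρ * (cw3f_A X β ρ).card := rfl
    rw [h2, mul_sum, mul_sum, mul_sum, ← sum_add_distrib, ← sum_add_distrib]
    exact sum_le_sum fun ρ _ => cw3f_point hX hc hG hβ hy ρ
  have h3 : ∑ ρ ∈ range X.rn, X.wt ρ * (cw3f_1 X β ρ).card ≤ Fintype.card V + 2 * X.m β :=
    mass_u hX β
  have h4 : ∑ ρ ∈ range X.rn, X.wt ρ * (cw3f_2 X β ρ).card ≤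
      2 ^ (0 + 1) * (Fintype.card V + 2 * X.m β) + 2 ^ 0 * Fintype.card V := mass_j hX β 0
  have h5 := cw3f_sum hX N
  have hn := hX.hn
  have hpow : 2 ^ (X.L + 1) = 2 * 2 ^ X.L := by rw [pow_succ]; ring
  set A : ℕ := 2 ^ X.L with hA
  set SN : ℕ := ∑ ρ ∈ range X.H, N ρ with hSN
  have hErr : X.Err N = 2 ^ 14 * (A * (X.H + SN + 1)) := by
    unfold Err
    rw [pow_add, ← hA, ← hSN]
    ring
  rw [hErr] at hY ⊢
  have h6 : A * (96 * X.H + 2 * SN) + 8 * A ≤ 96 * (A * (X.H + SN + 1)) := by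
    have : A * (96 * X.H + 2 * SN) + 8 * A + A * (94 * SN + 88) = 96 * (A * (X.H + SN + 1)) := by
      ring
    omega
  generalize A * (X.H + SN + 1) = Z at *
  generalize A * (96 * X.H + 2 * SN) = W at *
  rw [hpow] at hn
  norm_num at h4 h1 h5 hY h6 ⊢
  omega

/-- ALL FLIPS.  PROOF: the flips with `E p ρ ≤ β` have mass `≤ m β`. -/
theorem flips_all (hX : X.Ok) (hc : X.Cov) (hG : X.Gr N) {β h Nm : ℕ} (hβ : X.Beta β)
    (hm : X.m β ≤ 64 * ((X.L + 1) * 2 ^ (X.L + h))) (hN : ∀ ρ, N ρ ≤ Nm)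
    (hnum : 2 * (2 ^ 15 * ((X.L + 1) * 2 ^ h) + 2 ^ 12 + 2 ^ 7 * Nm) ≤ (X.L + 1) ^ 3) :
    X.Fm ≤ 9 * X.m β + X.Err N := by
  have h1 := flips_after hX hc hG hβ hm hN hnum
  have h2 : X.Fm ≤ X.m β + X.Fa β := by
    unfold Fm m Fa
    rw [← sum_add_distrib]
    refine sum_le_sum fun ρ _ => ?_
    rw [← Nat.mul_add]
    refine Nat.mul_le_mul_left _ ?_
    refine le_trans (card_le_card ?_) (card_union_le _ _)
    intro p hp
    obtain ⟨-, h3, h4⟩ := mem_filter.1 hp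
    rw [mem_union]
    by_cases h5 : X.E p ρ ≤ β
    · exact Or.inl (mem_filter.2 ⟨mem_univ _, h5⟩)
    · exact Or.inr (mem_filter.2 ⟨mem_univ _, h3, h4, not_le.1 h5⟩)
  omega

end CW

end Pool.Agent.X217
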