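import Pool.Agent.X217.CW1

set_option autoImplicit false

namespace Pool.Agent.X217

open Finset

attribute [local instance 10] Classical.propDecidable

namespace CW

variable {V : Type} [Fintype V] [DecidableEq V] {X : CW V} {N : ℕ → ℕ}

private theorem w10_wt_le {a b : ℕ} (h : a ≤ b) : X.wt b ≤ 2 ^ (b - a) * X.wt a := by
  unfold CW.wt
  rw [← pow_add]
  apply Nat.pow_le_pow_right (by norm_num)
  omega

private theorem w10_shift (f g : ℕ → ℕ) (C K j : ℕ) (h0 : ∀ ρ < j, f ρ = 0) (h1 : f j ≤ C)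
    (h2 : ∀ ρ, j < ρ → f ρ ≤ K * g (ρ - j - 1)) (n : ℕ) :
    ∑ ρ ∈ range n, f ρ ≤ K * (∑ ρ ∈ range n, g ρ) + C := by
  have key : ∑ ρ ∈ range n, f ρ ≤ K * (∑ ρ ∈ range (n - j - 1), g ρ) + (if j < n then C else 0) := by
    induction n with
    | zero => simp
    | succ n ih =>
      rw [sum_range_succ]
      rcases lt_trichotomy n j with h | h | h
      · rw [h0 n h]
        rw [if_neg (by omega)] at ih
        rw [if_neg (by omega)]
        have e : n + 1 - j - 1 = n - j - 1 := by omega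
        rw [e]
        omega
      · subst h
        rw [if_neg (by omega)] at ih
        rw [if_pos (by omega)]
        have e : n + 1 - n - 1 = n - n - 1 := by omega
        rw [e]
        omega
      · rw [if_pos h] at ih
        rw [if_pos (by omega)]
        have e : n + 1 - j - 1 = (n - j - 1) + 1 := by omega
        rw [e, sum_range_succ, mul_add]
        have := h2 n h
        omega
  refine key.trans (Nat.add_le_add (Nat.mul_le_mul_left _ ?_) ?_)
  · exact sum_le_sum_of_subset (range_subset_range.2 (by omega))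
  · split_ifs <;> omega

/-- The number of processors which have started run `ρ` at time `t`, in terms of the mass.
PROOF: they have finished run `ρ - 1` (`ES`): `wt (ρ - 1) * #{S p ρ ≤ t} ≤ m t` (one term of the sum),
`wt (ρ - 1) = 2 ^ (ρ - 1)`. -/
theorem start_card (hX : X.Ok) {ρ t : ℕ} (h1 : 1 ≤ ρ) (hρ : ρ ≤ X.H) :
    2 ^ (ρ - 1) * (univ.filter fun p => X.S p ρ ≤ t).card ≤ X.m t := by
  have hr := hX.hr
  have hmem : ρ - 1 ∈ range X.rn := mem_range.2 (by omega)
  have h2 : X.wt (ρ - 1) * (univ.filter fun p => X.E p (ρ - 1) ≤ t).card ≤ X.m t := by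
    unfold CW.m
    exact single_le_sum (f := fun ρ => X.wt ρ * (univ.filter fun p => X.E p ρ ≤ t).card)
      (fun _ _ => Nat.zero_le _) hmem
  refine le_trans (Nat.mul_le_mul ?_ (card_le_card ?_)) h2
  · unfold CW.wt
    exact Nat.pow_le_pow_right (by norm_num) (by omega)
  · intro p hp
    simp only [mem_filter, mem_univ, true_and] at hp ⊢
    have h3 := hX.ES p (ρ - 1)
    have e : ρ - 1 + 1 = ρ := by omega
    rw [e] at h3
    omega

/-- The mass of the runs started before `β`.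
PROOF: run `0`: `≤ |V|`.  Run `ρ ≥ 1`: `#{S p ρ ≤ β} ≤ #{E p (ρ - 1) ≤ β}`, `wt ρ ≤ 2 * wt (ρ - 1)`. -/
theorem mass_u (hX : X.Ok) (β : ℕ) :
    ∑ ρ ∈ range X.rn, X.wt ρ * (univ.filter fun p => X.go p ρ ∧ X.S p ρ ≤ β).card ≤
      Fintype.card V + 2 * X.m β := by
  have hr := hX.hr
  obtain ⟨r, hrn⟩ : ∃ r, X.rn = r + 1 := ⟨X.rn - 1, by omega⟩
  rw [hrn, sum_range_succ', add_comm]
  refine Nat.add_le_add ?_ ?_
  · have h0 : X.wt 0 = 1 := by simp [CW.wt]
    rw [h0, one_mul]
    exact card_le_univ _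
  · have h1 : ∑ ρ ∈ range r, X.wt ρ * (univ.filter fun p => X.E p ρ ≤ β).card ≤ X.m β := by
      unfold CW.m
      exact sum_le_sum_of_subset (range_subset_range.2 (by omega))
    refine le_trans ?_ (Nat.mul_le_mul_left 2 h1)
    rw [mul_sum]
    refine sum_le_sum fun ρ _ => ?_
    rw [← mul_assoc]
    refine Nat.mul_le_mul ?_ (card_le_card ?_)
    · have := w10_wt_le (X := X) (Nat.le_succ ρ)
      simpa using this
    · intro p hp
      simp only [mem_filter, mem_univ, true_and] at hp ⊢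
      have h3 := hX.ES p ρ
      omega

/-- The mass of the `(j + 1)`-st runs after `β`.
PROOF: `ρ = j`: `wt j * |V| ≤ 2 ^ j * |V|`.  `ρ > j`: these `p` are counted in `mass_u` for the run
`ρ - j - 1` (`go_mono`), `wt ρ ≤ 2 ^ (j + 1) * wt (ρ - j - 1)`. -/
theorem mass_j (hX : X.Ok) (β j : ℕ) :
    ∑ ρ ∈ range X.rn, X.wt ρ * (univ.filter fun p => X.go p ρ ∧ j ≤ ρ ∧ β < X.S p (ρ - j) ∧
      (ρ = j ∨ X.S p (ρ - j - 1) ≤ β)).card ≤
      2 ^ (j + 1) * (Fintype.card V + 2 * X.m β) + 2 ^ j * Fintype.card V := by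
  refine le_trans (w10_shift _ (fun ρ => X.wt ρ * (univ.filter fun p => X.go p ρ ∧
    X.S p ρ ≤ β).card) (2 ^ j * Fintype.card V) (2 ^ (j + 1)) j ?_ ?_ ?_ X.rn) ?_
  · intro ρ hρ
    have : (univ.filter fun p => X.go p ρ ∧ j ≤ ρ ∧ β < X.S p (ρ - j) ∧
        (ρ = j ∨ X.S p (ρ - j - 1) ≤ β)) = ∅ := by
      ext p
      simp only [mem_filter, mem_univ, true_and, notMem_empty, iff_false]
      rintro ⟨_, h, _⟩
      omega
    rw [this]
    simp
  · refine Nat.mul_le_mul ?_ (card_le_univ _)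
    unfold CW.wt
    exact Nat.pow_le_pow_right (by norm_num) (by omega)
  · intro ρ hρ
    show _ ≤ 2 ^ (j + 1) * (X.wt (ρ - j - 1) * _)
    rw [← mul_assoc]
    refine Nat.mul_le_mul ?_ (card_le_card ?_)
    · have := w10_wt_le (X := X) (show ρ - j - 1 ≤ ρ by omega)
      have e : ρ - (ρ - j - 1) = j + 1 := by omega
      rwa [e] at this
    · intro p hp
      simp only [mem_filter, mem_univ, true_and] at hp ⊢
      obtain ⟨h1, h2, h3, h4⟩ := hp
      exact ⟨go_mono hX h1 (by omega), by rcases h4 with h4 | h4 <;> omega⟩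
  · exact Nat.add_le_add_right (Nat.mul_le_mul_left _ (mass_u hX β)) _

end CW

end Pool.Agent.X217
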