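import Pool.Agent.X217.CW2
import Pool.Agent.X217.CW3a

set_option autoImplicit false

namespace Pool.Agent.X217

open Finset

attribute [local instance 10] Classical.propDecidable

namespace CW

variable {V : Type} [Fintype V] [DecidableEq V] {X : CW V} {N : ℕ → ℕ}

private theorem w16_E_anti (hX : X.Ok) (p : V) (ρ : ℕ) : X.E p ρ ≤ X.S p (ρ + 1) :=
  (hX.ES p ρ).le

/-- One run. -/
private theorem w16_one (hX : X.Ok) {t h Nm : ℕ} (hG : X.GrS N t)
    (hm : X.m t ≤ 128 * ((X.L + 1) * 2 ^ (X.L + h)))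
    (hnum : 2 * (2 ^ 15 * ((X.L + 1) * 2 ^ h) + 2 ^ 12 + 2 ^ 7 * Nm) ≤ (X.L + 1) ^ 3)
    {ρ : ℕ} (hρ : ρ + 2 < X.rn) :
    1024 * (X.wt ρ * (univ.filter fun p => X.E p (ρ + 2) ≤ t).card) ≤
      1024 * (X.wt ρ * (univ.filter fun p => X.Typ p ρ t).card) +
      2048 * (2 ^ X.L * (if ρ + 1 < X.H then N (ρ + 1) else 0)) +
      2 * (X.wt ρ * (univ.filter fun p => X.E p ρ ≤ t).card) := by
  by_cases hH : ρ + 1 < X.H
  · rw [if_pos hH]
    set A : Finset V := univ.filter fun p => X.F p (ρ + 2) ≤ t with hA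
    set B : Finset V := A.filter fun p => ¬ X.Typ p ρ t with hB
    have hHL : X.H ≤ X.L := by unfold H; omega
    have hlev : X.lev (ρ + 1) = X.L - (ρ + 1) := by
      unfold lev
      rw [min_eq_left hH.le]
    have hwt : X.wt ρ = 2 ^ ρ := by
      unfold wt
      rw [min_eq_left (by omega)]
    -- start
    have hs1 : (univ.filter fun p => X.S p (ρ + 1) ≤ t).card ≤
        (univ.filter fun p => X.E p ρ ≤ t).card := by
      refine card_le_card fun p hp => ?_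
      rw [mem_filter] at hp ⊢
      exact ⟨mem_univ _, (w16_E_anti hX p ρ).trans hp.2⟩
    have hs2 := start_card hX (t := t) (ρ := ρ + 1) (by omega) hH.le
    rw [Nat.add_sub_cancel] at hs2
    have hs3 : (univ.filter fun p => X.S p (ρ + 1) ≤ t).card ≤
        (X.L + 1) ^ 3 * 2 ^ X.lev (ρ + 1) := by
      have e1 : 2 ^ ρ * 2 ^ X.lev (ρ + 1) * 2 = 2 ^ X.L := by
        rw [hlev, ← pow_add, ← pow_succ]
        congr 1
        omega
      have h1 : 2 ^ ρ * (univ.filter fun p => X.S p (ρ + 1) ≤ t).card ≤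
          2 ^ ρ * ((X.L + 1) ^ 3 * 2 ^ X.lev (ρ + 1)) := by
        calc 2 ^ ρ * (univ.filter fun p => X.S p (ρ + 1) ≤ t).card
            ≤ 128 * ((X.L + 1) * 2 ^ (X.L + h)) := hs2.trans hm
          _ = 128 * ((X.L + 1) * (2 ^ ρ * 2 ^ X.lev (ρ + 1) * 2 * 2 ^ h)) := by
              rw [e1, ← pow_add]
          _ = 256 * ((X.L + 1) * 2 ^ h) * (2 ^ ρ * 2 ^ X.lev (ρ + 1)) := by ring
          _ ≤ (X.L + 1) ^ 3 * (2 ^ ρ * 2 ^ X.lev (ρ + 1)) := by
              refine Nat.mul_le_mul_right _ (le_trans ?_ hnum)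
              generalize (X.L + 1) * 2 ^ h = z
              omega
          _ = 2 ^ ρ * ((X.L + 1) ^ 3 * 2 ^ X.lev (ρ + 1)) := by ring
      exact Nat.le_of_mul_le_mul_left h1 (by positivity)
    -- the bad set is small
    have hr := reach_few (fun b => X.MS b (ρ + 1)) B (D := 1024)
      (c := 1024 * (N (ρ + 1) * 2 ^ X.lev (ρ + 1)) + (univ.filter fun p => X.S p (ρ + 1) ≤ t).card)
      (g := 32 * 2 ^ X.lev (ρ + 1)) (by
        intro A' hA' hK
        refine hG (ρ + 1) hH hs3 A' (fun b hb => ?_) (fun b hb => ?_)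
        · have := hA' hb
          rw [hB, mem_filter, hA, mem_filter] at this
          have h1 := hX.ES b (ρ + 1)
          have h2 := hX.SF b (ρ + 1 + 1)
          have h3 : X.F b (ρ + 1 + 1) ≤ t := this.1.2
          change X.E b (ρ + 1) ≤ t
          omega
        · have := hK b hb
          omega) (by
        intro a ha
        have ha2 := ha
        rw [hB, mem_filter] at ha2
        have hnp : ¬ X.Pub a (ρ + 1) t := by
          intro hp
          exact ha2.2 ⟨by omega, Or.inl ⟨hH, hp⟩⟩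
        unfold Pub at hnp
        push Not at hnp
        refine lt_of_le_of_lt (card_le_card ?_) (lt_of_lt_of_le hnp ?_)
        · intro b hb
          rw [mem_filter] at hb
          have hb1 := hb.1
          rw [hB, mem_filter, hA, mem_filter] at hb1
          unfold DD
          rw [mem_filter]
          exact ⟨mem_univ _, hb.2, hb1.1.2⟩
        · omega)
    have hsplit : (univ.filter fun p => X.E p (ρ + 2) ≤ t).card ≤
        (univ.filter fun p => X.Typ p ρ t).card + B.card := by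
      rw [← card_union_add_card_inter]
      refine le_trans ?_ (Nat.le_add_right _ _)
      refine card_le_card fun p hp => ?_
      rw [mem_filter] at hp
      rw [mem_union]
      by_cases hT : X.Typ p ρ t
      · exact Or.inl (mem_filter.mpr ⟨mem_univ _, hT⟩)
      · right
        rw [hB, mem_filter, hA, mem_filter]
        exact ⟨⟨mem_univ _, (hX.FE p (ρ + 2)).trans hp.2⟩, hT⟩
    have hw : X.wt ρ * 2 ^ X.lev (ρ + 1) ≤ 2 ^ X.L := by
      rw [hwt, hlev, ← pow_add]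
      exact Nat.pow_le_pow_right (by norm_num) (by omega)
    calc 1024 * (X.wt ρ * (univ.filter fun p => X.E p (ρ + 2) ≤ t).card)
        ≤ 1024 * (X.wt ρ * ((univ.filter fun p => X.Typ p ρ t).card + B.card)) :=
          Nat.mul_le_mul_left _ (Nat.mul_le_mul_left _ hsplit)
      _ = 1024 * (X.wt ρ * (univ.filter fun p => X.Typ p ρ t).card) +
            X.wt ρ * (1024 * B.card) := by ring
      _ ≤ 1024 * (X.wt ρ * (univ.filter fun p => X.Typ p ρ t).card) +
            X.wt ρ * (2 * (1024 * (N (ρ + 1) * 2 ^ X.lev (ρ + 1)) +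
              (univ.filter fun p => X.E p ρ ≤ t).card)) := by
          refine Nat.add_le_add_left (Nat.mul_le_mul_left _ (hr.trans ?_)) _
          omega
      _ = 1024 * (X.wt ρ * (univ.filter fun p => X.Typ p ρ t).card) +
            2048 * ((X.wt ρ * 2 ^ X.lev (ρ + 1)) * N (ρ + 1)) +
            2 * (X.wt ρ * (univ.filter fun p => X.E p ρ ≤ t).card) := by ring
      _ ≤ _ := by
          refine Nat.add_le_add_right (Nat.add_le_add_left (Nat.mul_le_mul_left _ ?_) _) _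
          exact Nat.mul_le_mul_right _ hw
  · rw [if_neg hH]
    have hsub : (univ.filter fun p => X.E p (ρ + 2) ≤ t).card ≤
        (univ.filter fun p => X.Typ p ρ t).card := by
      refine card_le_card fun p hp => ?_
      rw [mem_filter] at hp ⊢
      refine ⟨mem_univ _, by omega, Or.inr ⟨by omega, ?_⟩⟩
      have h1 := hX.FE p (ρ + 1)
      have h2 := hX.ES p (ρ + 1)
      have h3 := hX.SF p (ρ + 1 + 1)
      have h4 := hX.FE p (ρ + 1 + 1)
      have h5 : X.E p (ρ + 2) ≤ t := hp.2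
      have h6 : X.E p (ρ + 2) = X.E p (ρ + 1 + 1) := rfl
      omega
    have := Nat.mul_le_mul_left (X.wt ρ) hsub
    omega

/-- Most of the mass is typical.
PROOF.  `e ρ = #{E p ρ ≤ t}`, `m t = ∑ wt ρ * e ρ`.  For `ρ + 1 < H`: `A = {p : F p (ρ + 2) ≤ t}`,
`e (ρ + 2) ≤ |A|`; members of `A` which are not typical form a set `B` with: for `a ∈ B`,
`#{b ∈ B : a ∈ MS b (ρ + 1)} < 16 * 2 ^ lev (ρ + 1) ≤ 32 * 2 ^ lev (ρ + 1)` (this set is contained in
`DD a (ρ + 1) t`); `reach_few`, `GrS` for run `ρ + 1` (`E b (ρ + 1) ≤ t` for `b ∈ A`):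
`1024 * |B| ≤ 2 * (1024 * (N (ρ + 1) * 2 ^ lev (ρ + 1)) + #{S p (ρ + 1) ≤ t})`, and
`#{S p (ρ + 1) ≤ t} ≤ e ρ`; the condition of `GrS`: `start_card` and `hm`, `hnum` (run `0`: `hn`).
For `ρ + 1 ≥ H`, `ρ + 1 < rn`: all `p` with `F p (ρ + 1) ≤ t` are typical, at least `e (ρ + 2)` if
`ρ + 2 < rn`.  `wt ρ * 2 ^ lev (ρ + 1) ≤ 2 ^ L`, `wt (ρ + 2) ≤ 4 * wt ρ`.  So
`1024 * (m t - 3 * |V|) ≤ 4 * (1024 * mt t + 2 * 1024 * 2 ^ L * ∑ N + 2 * m t)`, hence
`1016 * m t ≤ 4096 * mt t + 3072 * |V| + 8192 * 2 ^ L * ∑ N`. -/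
theorem typ_mass (hX : X.Ok) {t h Nm : ℕ} (hG : X.GrS N t)
    (hm : X.m t ≤ 128 * ((X.L + 1) * 2 ^ (X.L + h))) (hN : ∀ ρ, N ρ ≤ Nm)
    (hnum : 2 * (2 ^ 15 * ((X.L + 1) * 2 ^ h) + 2 ^ 12 + 2 ^ 7 * Nm) ≤ (X.L + 1) ^ 3) :
    X.m t ≤ 8 * X.mt t + X.Err N := by
  obtain ⟨r, hr⟩ : ∃ r, X.rn = r + 2 := ⟨X.rn - 2, by have := hX.hr; omega⟩
  set e : ℕ → ℕ := fun ρ => (univ.filter fun p => X.E p ρ ≤ t).card with he
  set τ : ℕ → ℕ := fun ρ => (univ.filter fun p => X.Typ p ρ t).card with hτ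
  set c : ℕ → ℕ := fun ρ => if ρ + 1 < X.H then N (ρ + 1) else 0 with hc
  have hsum : ∑ ρ ∈ range r, 1024 * (X.wt ρ * e (ρ + 2)) ≤
      ∑ ρ ∈ range r, (1024 * (X.wt ρ * τ ρ) + 2048 * (2 ^ X.L * c ρ) + 2 * (X.wt ρ * e ρ)) :=
    sum_le_sum fun ρ hρ => by
      rw [mem_range] at hρ
      exact w16_one hX hG hm hnum (by omega)
  rw [sum_add_distrib, sum_add_distrib, ← mul_sum, ← mul_sum, ← mul_sum, ← mul_sum, ← mul_sum]
    at hsum
  -- the masses
  have hmt : ∑ ρ ∈ range r, X.wt ρ * τ ρ ≤ X.mt t := by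
    unfold mt
    refine sum_le_sum_of_subset_of_nonneg ?_ (fun _ _ _ => Nat.zero_le _)
    rw [range_subset_range]
    omega
  have hme : ∑ ρ ∈ range r, X.wt ρ * e ρ ≤ X.m t := by
    unfold m
    refine sum_le_sum_of_subset_of_nonneg ?_ (fun _ _ _ => Nat.zero_le _)
    rw [range_subset_range]
    omega
  have hcN : ∑ ρ ∈ range r, c ρ ≤ ∑ ρ ∈ range X.H, N ρ := by
    have h1 : ∑ ρ ∈ range r, c ρ = ∑ ρ ∈ (range r).filter (fun ρ => ρ + 1 < X.H), N (ρ + 1) := by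
      rw [sum_filter]
    rw [h1]
    have h2 : ∑ ρ ∈ (range r).filter (fun ρ => ρ + 1 < X.H), N (ρ + 1) =
        ∑ ρ ∈ ((range r).filter (fun ρ => ρ + 1 < X.H)).image (fun ρ => ρ + 1), N ρ := by
      rw [sum_image (fun a _ b _ h => by omega)]
    rw [h2]
    refine sum_le_sum_of_subset_of_nonneg ?_ (fun _ _ _ => Nat.zero_le _)
    intro ρ hρ
    rw [mem_image] at hρ
    obtain ⟨a, ha, rfl⟩ := hρ
    rw [mem_filter] at ha
    rw [mem_range]
    exact ha.2
  have hcard : ∀ ρ, e ρ ≤ Fintype.card V := fun ρ => card_le_univ _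
  have hmm : X.m t ≤ 3 * Fintype.card V + 4 * ∑ ρ ∈ range r, X.wt ρ * e (ρ + 2) := by
    have h1 : X.m t = ∑ ρ ∈ range (r + 2), X.wt ρ * e ρ := by
      unfold m
      rw [hr]
    rw [h1, sum_range_succ', sum_range_succ', mul_sum]
    have h2 : ∑ ρ ∈ range r, X.wt (ρ + 1 + 1) * e (ρ + 1 + 1) ≤
        ∑ ρ ∈ range r, 4 * (X.wt ρ * e (ρ + 2)) := by
      refine sum_le_sum fun ρ _ => ?_
      have h3 : X.wt (ρ + 1 + 1) ≤ 4 * X.wt ρ := by
        unfold wt
        calc 2 ^ min (ρ + 1 + 1) X.H ≤ 2 ^ (min ρ X.H + 2) :=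
              Nat.pow_le_pow_right (by norm_num) (by omega)
          _ = 4 * 2 ^ min ρ X.H := by rw [pow_add]; ring
      calc X.wt (ρ + 1 + 1) * e (ρ + 1 + 1) ≤ 4 * X.wt ρ * e (ρ + 2) := Nat.mul_le_mul_right _ h3
        _ = 4 * (X.wt ρ * e (ρ + 2)) := by ring
    have h4 : X.wt (0 + 1) * e (0 + 1) ≤ 2 * Fintype.card V := by
      refine Nat.mul_le_mul ?_ (hcard _)
      unfold wt
      calc 2 ^ min (0 + 1) X.H ≤ 2 ^ 1 := Nat.pow_le_pow_right (by norm_num) (by omega)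
        _ = 2 := by norm_num
    have h5 : X.wt 0 * e 0 ≤ 1 * Fintype.card V := by
      refine Nat.mul_le_mul ?_ (hcard _)
      unfold wt
      simp
    omega
  have hn := hX.hn
  unfold Err
  set n := Fintype.card V
  set sN := ∑ ρ ∈ range X.H, N ρ
  set s1 := ∑ ρ ∈ range r, X.wt ρ * e (ρ + 2)
  set s2 := ∑ ρ ∈ range r, X.wt ρ * τ ρ
  set s3 := ∑ ρ ∈ range r, X.wt ρ * e ρ
  set s4 := ∑ ρ ∈ range r, c ρ
  have e1 : 2 ^ (X.L + 14) = 16384 * 2 ^ X.L := by rw [pow_add]; ring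
  have e2 : 2 ^ (X.L + 1) = 2 * 2 ^ X.L := by rw [pow_succ]; ring
  rw [e1]
  rw [e2] at hn
  set P := 2 ^ X.L
  have h7 : P * s4 ≤ P * sN := Nat.mul_le_mul_left _ hcN
  have h8 : 16384 * P * (X.H + sN + 1) = 16384 * (P * X.H) + 16384 * (P * sN) + 16384 * P := by
    ring
  rw [h8]
  omega

end CW

end Pool.Agent.X217
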