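import Pool.Agent.X217.CW1

set_option autoImplicit false

namespace Pool.Agent.X217

open Finset

attribute [local instance 10] Classical.propDecidable

namespace CW

variable {V : Type} [Fintype V] [DecidableEq V] {X : CW V} {N : ℕ → ℕ}

/-- If nothing is published at time `t` then all typical flips have failed.
PROOF: `PUB_mono`, so `no_leave` and `go_before` hold with `β = t + 1`.  Let `Typ p ρ t`.  Then
`S p (ρ + 1) ≤ t`: if `ρ + 1 < H` there is `b` with `p ∈ MS b (ρ + 1)`, `F b (ρ + 2) ≤ t`, and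
`F p (ρ + 1) < E b (ρ + 1)` by `past`.  So `go p (ρ + 1)`, `go p ρ`.  If `awe p ρ` or `fl p ρ` then
`aw p (ρ + 1)` and `PUB t`. -/
theorem typ_fail (hX : X.Ok) {t : ℕ} (ht : ¬ X.PUB t) {p : V} {ρ : ℕ} (hp : X.Typ p ρ t) :
    X.go p ρ ∧ ¬ X.awe p ρ ∧ ¬ X.fl p ρ := by
  obtain ⟨hr, hcase⟩ := hp
  have hβ : ∀ t' < t + 1, ¬ X.PUB t' := fun t' ht' h => ht (PUB_mono (by omega) h)
  have hS : X.S p (ρ + 1) ≤ t + 1 := by
    have h1 := hX.SF p (ρ + 1)
    rcases hcase with ⟨hH, hpub⟩ | ⟨_, hF⟩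
    · have hne : (X.DD p (ρ + 1) t).Nonempty := by
        rw [← Finset.card_pos]
        have : 0 < 16 * 2 ^ X.lev (ρ + 1) := by positivity
        exact lt_of_lt_of_le this hpub
      obtain ⟨b, hb⟩ := hne
      simp only [DD, Finset.mem_filter, Finset.mem_univ, true_and] at hb
      have h2 := hX.past b (ρ + 1) hH p hb.1
      have h3 := hX.ES b (ρ + 1)
      have h4 := hX.SF b (ρ + 1 + 1)
      have h5 := hb.2
      omega
    · omega
  have hgo : X.go p (ρ + 1) := go_before hX hβ hr hS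
  have hgo' : X.go p ρ := go_mono hX hgo (by omega)
  have hno : ¬ X.aw p (ρ + 1) := by
    intro haw
    apply ht
    exact ⟨p, ρ + 1, hr, hgo, haw, hcase⟩
  rw [hX.awS p ρ hgo] at hno
  exact ⟨hgo', fun h => hno (Or.inl h), fun h => hno (Or.inr h)⟩

/-- In the world in which only the flip `(p0, ρ0)` is successful it is made, and published in
time if it is typical.
PROOF: if not `PUB t` then `¬ fl p0 ρ0` by `typ_fail`, contradiction.  `PUB t` gives `x, ρ` with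
`go x ρ`, `aw x ρ`, `ρ ≥ 1` (`aw0`), and `awe x (ρ - 1)` or `fl x (ρ - 1)` (`awS`).  If somebody has
`go q ρ'`, `awe q ρ'` then `W7` gives a made successful flip, it is `(p0, ρ0)`.  If `fl x (ρ - 1)`, then
`x = p0`, `ρ - 1 = ρ0`, `go p0 ρ0`; and if `awe p0 ρ0` then `W7` again. -/
theorem only_pub (hX : X.Ok) {t : ℕ} {p0 : V} {ρ0 : ℕ} (hfl : ∀ p ρ, X.fl p ρ ↔ p = p0 ∧ ρ = ρ0)
    (hp : X.Typ p0 ρ0 t) : X.PUB t ∧ X.go p0 ρ0 ∧ ¬ X.awe p0 ρ0 := by
  have hpub : X.PUB t := by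
    by_contra hno
    exact (typ_fail hX hno hp).2.2 ((hfl p0 ρ0).2 ⟨rfl, rfl⟩)
  have key : ∀ q ρ, X.go q ρ → X.awe q ρ → X.go p0 ρ0 ∧ ¬ X.awe p0 ρ0 := by
    intro q ρ hq ha
    obtain ⟨q', ρ', h1, h2, h3, _⟩ := hX.W7 q ρ hq ha
    obtain ⟨rfl, rfl⟩ := (hfl q' ρ').1 h3
    exact ⟨h1, h2⟩
  refine ⟨hpub, ?_⟩
  obtain ⟨x, ρ, _, hgo, haw, _⟩ := hpub
  cases ρ with
  | zero => exact absurd haw (hX.aw0 x)
  | succ ρ =>
    have hgo' : X.go x ρ := go_mono hX hgo (by omega)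
    rcases (hX.awS x ρ hgo).1 haw with h | h
    · exact key x ρ hgo' h
    · obtain ⟨rfl, rfl⟩ := (hfl x ρ).1 h
      by_cases ha : X.awe x ρ
      · exact key x ρ hgo' ha
      · exact ⟨hgo', ha⟩

end CW

end Pool.Agent.X217
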