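import Pool.Agent.X217.Fl1

set_option autoImplicit false

/-!
# Agreement from a single successful flip (MP_217fdb_lc, exact order, section 7.2)

`Ω`: all other tables (seeds, picks).  `mk ω f`: the flips which are made in the world of `ω` and
the flip table `f`.  `ind e`: the table in which only the flip `e` is successful.
-/

namespace Pool.Agent.X217

open Finset

attribute [local instance 10] Classical.propDecidable

section

variable {E : Type} [Fintype E] [DecidableEq E] {N : E → ℕ}
variable {Ω : Type} [Fintype Ω]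

/-- The table with the single successful flip `e`. -/
def find (e : E) : E → Bool := fun e' => decide (e' = e)

/-- For fixed other tables. -/
theorem fl_agree_one (hN : ∀ e, 2 ≤ N e) (mk : (E → Bool) → Finset E) (Suc : (E → Bool) → Prop)
    (hloc : ∀ f f', (∀ e ∈ mk f, f e = f' e) → mk f' = mk f ∧ (Suc f → Suc f'))
    (Typ : Finset E) (m0 z : ℝ) (hm : m0 ≤ fmass N Typ)
    (hmk : ∀ e ∈ Typ, e ∈ mk (find e)) (hmass : ∀ e ∈ Typ, fmass N (mk (find e)) ≤ z)
    (hS : ∀ e ∈ Typ, Suc (find e)) :
    m0 * Real.exp (- (2 * z)) * Fintype.card (FC N) ≤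
      ((univ.filter fun c : FC N => Suc (flt c)).card : ℝ) := by
  set A : E → Finset (FC N) := fun e => univ.filter fun c : FC N =>
    flt c e = true ∧ ∀ e' ∈ (mk (find e)).erase e, flt c e' = false with hA
  -- agreement on the flips made
  have hagree : ∀ e ∈ Typ, ∀ c ∈ A e, mk (flt c) = mk (find e) ∧ Suc (flt c) := by
    intro e he c hc
    rw [hA] at hc
    simp only [mem_filter, mem_univ, true_and] at hc
    have h := hloc (find e) (flt c) (by
      intro e' he'
      by_cases hee : e' = e
      · subst hee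
        rw [hc.1]; simp [find]
      · rw [hc.2 e' (mem_erase.mpr ⟨hee, he'⟩)]
        simp [find, hee])
    exact ⟨h.1, h.2 (hS e he)⟩
  have hsub : Typ.biUnion A ⊆ univ.filter fun c : FC N => Suc (flt c) := by
    intro c hc
    obtain ⟨e, he, hce⟩ := mem_biUnion.mp hc
    exact mem_filter.mpr ⟨mem_univ _, (hagree e he c hce).2⟩
  have hdisj : (Typ : Set E).PairwiseDisjoint A := by
    intro e he e' he' hne
    rw [Function.onFun, disjoint_left]
    intro c hc hc'
    have h1 := (hagree e he c hc).1
    have h2 := (hagree e' he' c hc').1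
    have h3 : e ∈ mk (find e') := by rw [← h2, h1]; exact hmk e he
    rw [hA] at hc hc'
    simp only [mem_filter, mem_univ, true_and] at hc hc'
    have h4 := hc'.2 e (mem_erase.mpr ⟨hne, h3⟩)
    rw [hc.1] at h4
    exact absurd h4 (by simp)
  have h1 : ((Typ.biUnion A).card : ℝ) ≤
      ((univ.filter fun c : FC N => Suc (flt c)).card : ℝ) := by
    exact_mod_cast card_le_card hsub
  refine le_trans ?_ h1
  rw [card_biUnion hdisj, Nat.cast_sum]
  have h2 : ∀ e ∈ Typ, (1 / (N e : ℝ)) * (Real.exp (- (2 * z)) * Fintype.card (FC N)) ≤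
      ((A e).card : ℝ) := by
    intro e he
    refine le_trans ?_ (fl_only hN (mk (find e)) e)
    rw [mul_assoc]
    refine mul_le_mul_of_nonneg_left ?_ (by positivity)
    refine mul_le_mul_of_nonneg_right ?_ (by positivity)
    apply Real.exp_le_exp.mpr
    have := hmass e he
    linarith
  refine le_trans ?_ (sum_le_sum h2)
  rw [← sum_mul, mul_assoc]
  exact mul_le_mul_of_nonneg_right hm (by positivity)

/-- (F4) Agreement: if for every good `ω` the mass of `Typ ω` is at least `m0`, and for every
`e ∈ Typ ω` the world of the table `find e` makes the flip `e`, makes flips of total mass at most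
`z`, and is a success, then the probability of a success is at least
`P(good) m0 exp (- 2 z)`. -/
theorem fl_agree (hN : ∀ e, 2 ≤ N e) (Good : Ω → Prop) (mk : Ω → (E → Bool) → Finset E)
    (Suc : Ω → (E → Bool) → Prop)
    (hloc : ∀ ω f f', (∀ e ∈ mk ω f, f e = f' e) → mk ω f' = mk ω f ∧ (Suc ω f → Suc ω f'))
    (Typ : Ω → Finset E) (m0 z : ℝ) (hm : ∀ ω, Good ω → m0 ≤ fmass N (Typ ω))
    (hmk : ∀ ω, Good ω → ∀ e ∈ Typ ω, e ∈ mk ω (find e))
    (hmass : ∀ ω, Good ω → ∀ e ∈ Typ ω, fmass N (mk ω (find e)) ≤ z)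
    (hS : ∀ ω, Good ω → ∀ e ∈ Typ ω, Suc ω (find e)) :
    m0 * Real.exp (- (2 * z)) * (univ.filter fun ω : Ω => Good ω).card * Fintype.card (FC N) ≤
      ((univ.filter fun x : Ω × FC N => Suc x.1 (flt x.2)).card : ℝ) := by
  have h1 : ((univ.filter fun x : Ω × FC N => Suc x.1 (flt x.2)).card : ℝ) =
      ∑ ω : Ω, ((univ.filter fun c : FC N => Suc ω (flt c)).card : ℝ) := by
    rw [← Nat.cast_sum]
    congr 1
    simp only [card_filter]
    rw [← univ_product_univ, sum_product]
  rw [h1]
  have h2 : ∀ ω ∈ univ.filter fun ω : Ω => Good ω,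
      m0 * Real.exp (- (2 * z)) * Fintype.card (FC N) ≤
        ((univ.filter fun c : FC N => Suc ω (flt c)).card : ℝ) := by
    intro ω hω
    have hg := (mem_filter.mp hω).2
    exact fl_agree_one hN (mk ω) (Suc ω) (hloc ω) (Typ ω) m0 z (hm ω hg) (hmk ω hg) (hmass ω hg)
      (hS ω hg)
  calc m0 * Real.exp (- (2 * z)) * (univ.filter fun ω : Ω => Good ω).card * Fintype.card (FC N)
      = ∑ _ω ∈ univ.filter fun ω : Ω => Good ω,
          m0 * Real.exp (- (2 * z)) * Fintype.card (FC N) := by
        rw [sum_const, nsmul_eq_mul]; ring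
    _ ≤ ∑ ω ∈ univ.filter fun ω : Ω => Good ω,
          ((univ.filter fun c : FC N => Suc ω (flt c)).card : ℝ) := sum_le_sum h2
    _ ≤ _ := sum_le_sum_of_subset_of_nonneg (filter_subset _ _) fun _ _ _ => by positivity

end

end Pool.Agent.X217
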