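import Pool.Agent.X217.Fl1

set_option autoImplicit false

/-!
# Tail and expectation (MP_217fdb_lc, exact order, section 7.1)

`Ω`: all other tables (seeds, picks).  `Late k ω f`: in the world of `ω` and the flip table `f`
the time `beta` comes after the fixed time `t_k`.
-/

namespace Pool.Agent.X217

open Finset

attribute [local instance 10] Classical.propDecidable

section

variable {E : Type} [Fintype E] [DecidableEq E] {N : E → ℕ}
variable {Ω : Type} [Fintype Ω]

/-- (F3a) If for every good `ω` the event `Late` forces all flips of `Typ ω` to fail, its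
probability (inside the good `ω`) is at most `exp (- mass)`. -/
theorem fl_tail (hN : ∀ e, 1 ≤ N e) (Good : Ω → Prop) (Typ : Ω → Finset E)
    (Late : Ω → (E → Bool) → Prop) (x : ℝ)
    (hm : ∀ ω, Good ω → x ≤ fmass N (Typ ω))
    (hL : ∀ ω, Good ω → ∀ f, Late ω f → ∀ e ∈ Typ ω, f e = false) :
    ((univ.filter fun y : Ω × FC N => Good y.1 ∧ Late y.1 (flt y.2)).card : ℝ) ≤
      Real.exp (- x) * ((Fintype.card Ω : ℝ) * Fintype.card (FC N)) := by
  have h1 : ((univ.filter fun y : Ω × FC N => Good y.1 ∧ Late y.1 (flt y.2)).card : ℝ) =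
      ∑ ω : Ω, ((univ.filter fun c : FC N => Good ω ∧ Late ω (flt c)).card : ℝ) := by
    rw [← Nat.cast_sum]
    congr 1
    simp only [card_filter]
    rw [← univ_product_univ, sum_product]
  rw [h1]
  have h2 : ∀ ω ∈ (univ : Finset Ω),
      ((univ.filter fun c : FC N => Good ω ∧ Late ω (flt c)).card : ℝ) ≤
        Real.exp (- x) * Fintype.card (FC N) := by
    intro ω _
    by_cases hg : Good ω
    · have h3 : (univ.filter fun c : FC N => Good ω ∧ Late ω (flt c)).card ≤
          (univ.filter fun c : FC N => ∀ e ∈ Typ ω, flt c e = false).card := by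
        apply card_le_card
        intro c hc
        simp only [mem_filter, mem_univ, true_and] at hc ⊢
        exact hL ω hg _ hc.2
      have h4 : (((univ.filter fun c : FC N => Good ω ∧ Late ω (flt c)).card : ℕ) : ℝ) ≤
          ((univ.filter fun c : FC N => ∀ e ∈ Typ ω, flt c e = false).card : ℝ) := by
        exact_mod_cast h3
      refine h4.trans ((fl_none hN (Typ ω)).trans ?_)
      refine mul_le_mul_of_nonneg_right ?_ (by positivity)
      apply Real.exp_le_exp.mpr
      have := hm ω hg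
      linarith
    · have h3 : (univ.filter fun c : FC N => Good ω ∧ Late ω (flt c)) = ∅ := by
        apply filter_eq_empty_iff.mpr
        intro c _ hc
        exact hg hc.1
      rw [h3, card_empty, Nat.cast_zero]
      positivity
  refine (sum_le_sum h2).trans (le_of_eq ?_)
  rw [sum_const, card_univ, nsmul_eq_mul]
  ring

/-- The geometric sum. -/
theorem fl_geom (κ a : ℝ) (hκ : 0 < κ) (K : ℕ) :
    ∑ k ∈ Icc 1 K, Real.exp (a - κ * k) ≤ Real.exp a / κ := by
  have h1 : ∀ K : ℕ, ∑ k ∈ Icc 1 K, Real.exp (a - κ * k) ≤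
      (Real.exp a / κ) * (1 - Real.exp (- (κ * K))) := by
    intro K
    induction K with
    | zero => simp
    | succ K ih =>
      rw [sum_Icc_succ_top (by omega)]
      have h2 : Real.exp (a - κ * ((K + 1 : ℕ) : ℝ)) ≤
          (Real.exp a / κ) * (Real.exp (- (κ * K)) - Real.exp (- (κ * ((K + 1 : ℕ) : ℝ)))) := by
        push_cast
        have h3 : Real.exp (a - κ * ((K : ℝ) + 1)) =
            Real.exp a * Real.exp (- (κ * ((K : ℝ) + 1))) := by
          rw [← Real.exp_add]; congr 1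
        have h4 : Real.exp (- (κ * (K : ℝ))) =
            Real.exp κ * Real.exp (- (κ * ((K : ℝ) + 1))) := by
          rw [← Real.exp_add]; congr 1; ring
        rw [h3, h4]
        have h5 : κ ≤ Real.exp κ - 1 := by
          have := Real.add_one_le_exp κ; linarith
        have h6 : Real.exp a / κ * (Real.exp κ * Real.exp (-(κ * ((K : ℝ) + 1))) -
            Real.exp (-(κ * ((K : ℝ) + 1)))) =
            Real.exp a * Real.exp (-(κ * ((K : ℝ) + 1))) * ((Real.exp κ - 1) / κ) := by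
          field_simp
        rw [h6]
        have h7 : 1 ≤ (Real.exp κ - 1) / κ := by
          rw [le_div_iff₀ hκ]; linarith
        have h8 : 0 ≤ Real.exp a * Real.exp (-(κ * ((K : ℝ) + 1))) := by positivity
        nlinarith
      calc _ ≤ (Real.exp a / κ) * (1 - Real.exp (- (κ * K))) +
            (Real.exp a / κ) * (Real.exp (- (κ * K)) - Real.exp (- (κ * ((K + 1 : ℕ) : ℝ)))) :=
            add_le_add ih h2
        _ = _ := by ring
  refine (h1 K).trans ?_
  have h2 : 0 ≤ Real.exp a / κ := by positivity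
  have h3 : 0 ≤ Real.exp (- (κ * K)) := (Real.exp_pos _).le
  nlinarith

/-- The indicator. -/
private noncomputable def Fl3_ind (P : Prop) : ℝ := if P then 1 else 0

private theorem Fl3_ind_nonneg (P : Prop) : 0 ≤ Fl3_ind P := by
  unfold Fl3_ind; split_ifs <;> norm_num

private theorem Fl3_ind_pos {P : Prop} (h : P) : Fl3_ind P = 1 := by
  unfold Fl3_ind; rw [if_pos h]

private theorem Fl3_ind_sum {α : Type} [Fintype α] (P : α → Prop) (h : DecidablePred P) :
    ∑ y : α, Fl3_ind (P y) = ((univ.filter P).card : ℝ) := by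
  rw [← sum_boole]
  exact sum_congr rfl fun y _ => by unfold Fl3_ind; congr

/-- Layers: if `Y ≤ C4 * k + 1` whenever `Late k` does not hold, `1 ≤ k ≤ K`, and `Y ≤ Ymax`. -/
private theorem fl_layers (K : ℕ) (C4 Ymax Y : ℝ) (hC : 0 ≤ C4) (hYm : 0 ≤ Ymax) (Late : ℕ → Prop)
    (hK : 1 ≤ K) (hY : ∀ k ∈ Icc 1 K, ¬ Late k → Y ≤ C4 * k + 1) (hmax : Y ≤ Ymax) :
    Y ≤ C4 + 1 + C4 * (∑ k ∈ Icc 1 K, Fl3_ind (Late k)) + Ymax * Fl3_ind (Late K) := by
  have hs0 : ∀ s : Finset ℕ, 0 ≤ ∑ k ∈ s, Fl3_ind (Late k) := fun s =>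
    sum_nonneg fun _ _ => Fl3_ind_nonneg _
  by_cases hall : ∀ k ∈ Icc 1 K, Late k
  · have hK' : Late K := hall K (mem_Icc.mpr ⟨hK, le_rfl⟩)
    rw [Fl3_ind_pos hK', mul_one]
    have := mul_nonneg hC (hs0 (Icc 1 K))
    linarith
  · push Not at hall
    have hex : ∃ k, k ∈ Icc 1 K ∧ ¬ Late k := hall
    obtain ⟨hm1, hm2⟩ := Nat.find_spec hex
    set m := Nat.find hex with hm
    have hmin : ∀ j, j < m → ¬ (j ∈ Icc 1 K ∧ ¬ Late j) := fun j hj => Nat.find_min hex hj
    rw [mem_Icc] at hm1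
    have h1 := hY m (mem_Icc.mpr hm1) hm2
    have h2 : ∑ k ∈ Icc 1 (m - 1), Fl3_ind (Late k) = ((m - 1 : ℕ) : ℝ) := by
      rw [sum_congr rfl (g := fun _ => (1 : ℝ))]
      · rw [sum_const, Nat.card_Icc, nsmul_eq_mul, mul_one]; simp
      · intro j hj
        rw [mem_Icc] at hj
        have := hmin j (by omega)
        have hl : Late j := by
          by_contra hl
          exact this ⟨mem_Icc.mpr ⟨hj.1, by omega⟩, hl⟩
        exact Fl3_ind_pos hl
    have h3 : ((m - 1 : ℕ) : ℝ) ≤ ∑ k ∈ Icc 1 K, Fl3_ind (Late k) := by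
      rw [← h2]
      exact sum_le_sum_of_subset_of_nonneg (Icc_subset_Icc le_rfl (by omega))
        fun k _ _ => Fl3_ind_nonneg _
    have h4 : (m : ℝ) = ((m - 1 : ℕ) : ℝ) + 1 := by
      rw [Nat.cast_sub hm1.1]; push_cast; ring
    have h5 : 0 ≤ Ymax * Fl3_ind (Late K) := mul_nonneg hYm (Fl3_ind_nonneg _)
    have h6 : C4 * (m : ℝ) ≤ C4 * (∑ k ∈ Icc 1 K, Fl3_ind (Late k)) + C4 := by
      rw [h4]
      nlinarith
    linarith

/-- (F3b) The expectation of `Y` over the tables and the coins.  `Good`: good other tables;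
`GoodF`: good worlds. -/
theorem fl_expect (hN : ∀ e, 1 ≤ N e) (K : ℕ) (hK : 1 ≤ K) (κ a C4 Ymax : ℝ) (hκ : 0 < κ)
    (hC : 0 ≤ C4) (hYm : 0 ≤ Ymax)
    (Good : Ω → Prop) (GoodF : Ω → (E → Bool) → Prop)
    (Typ : ℕ → Ω → Finset E) (Late : ℕ → Ω → (E → Bool) → Prop) (Y : Ω → (E → Bool) → ℝ)
    (hm : ∀ ω, Good ω → ∀ k ∈ Icc 1 K, κ * k - a ≤ fmass N (Typ k ω))
    (hL : ∀ ω, Good ω → ∀ k ∈ Icc 1 K, ∀ f, Late k ω f → ∀ e ∈ Typ k ω, f e = false)
    (hY : ∀ ω f, Good ω → GoodF ω f → ∀ k ∈ Icc 1 K, ¬ Late k ω f → Y ω f ≤ C4 * k + 1)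
    (hmax : ∀ ω f, Y ω f ≤ Ymax) :
    ∑ y : Ω × FC N, Y y.1 (flt y.2) ≤
      (C4 + 1 + C4 * (Real.exp a / κ) + Ymax * Real.exp (a - κ * K)) *
          ((Fintype.card Ω : ℝ) * Fintype.card (FC N)) +
        Ymax * ((univ.filter fun ω : Ω => ¬ Good ω).card * Fintype.card (FC N)) +
        Ymax * (univ.filter fun y : Ω × FC N => ¬ GoodF y.1 (flt y.2)).card := by
  set T : ℝ := (Fintype.card Ω : ℝ) * Fintype.card (FC N) with hT
  have hT0 : 0 ≤ T := by positivity
  -- pointwise
  have hpt : ∀ y : Ω × FC N, Y y.1 (flt y.2) ≤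
      (C4 + 1) + C4 * (∑ k ∈ Icc 1 K, Fl3_ind (Good y.1 ∧ Late k y.1 (flt y.2))) +
        Ymax * Fl3_ind (Good y.1 ∧ Late K y.1 (flt y.2)) +
        Ymax * Fl3_ind (¬ Good y.1) +
        Ymax * Fl3_ind (¬ GoodF y.1 (flt y.2)) := by
    intro y
    have e1 : 0 ≤ Ymax * Fl3_ind (Good y.1 ∧ Late K y.1 (flt y.2)) :=
      mul_nonneg hYm (Fl3_ind_nonneg _)
    have e2 : 0 ≤ Ymax * Fl3_ind (¬ Good y.1) := mul_nonneg hYm (Fl3_ind_nonneg _)
    have e3 : 0 ≤ Ymax * Fl3_ind (¬ GoodF y.1 (flt y.2)) := mul_nonneg hYm (Fl3_ind_nonneg _)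
    have e4 : 0 ≤ C4 * (∑ k ∈ Icc 1 K, Fl3_ind (Good y.1 ∧ Late k y.1 (flt y.2))) :=
      mul_nonneg hC (sum_nonneg fun _ _ => Fl3_ind_nonneg _)
    have hmx := hmax y.1 (flt y.2)
    by_cases hg : Good y.1
    · by_cases hf : GoodF y.1 (flt y.2)
      · have h := fl_layers K C4 Ymax (Y y.1 (flt y.2)) hC hYm
          (fun k => Good y.1 ∧ Late k y.1 (flt y.2)) hK
          (fun k hk hnl => hY _ _ hg hf k hk fun hl => hnl ⟨hg, hl⟩) hmx
        linarith
      · have e5 : Ymax * Fl3_ind (¬ GoodF y.1 (flt y.2)) = Ymax := by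
          rw [Fl3_ind_pos hf, mul_one]
        linarith
    · have e5 : Ymax * Fl3_ind (¬ Good y.1) = Ymax := by
        rw [Fl3_ind_pos hg, mul_one]
      linarith
  have hcard : ((Fintype.card (Ω × FC N) : ℕ) : ℝ) = T := by
    rw [Fintype.card_prod, Nat.cast_mul]
  calc ∑ y : Ω × FC N, Y y.1 (flt y.2) ≤ ∑ y : Ω × FC N,
        ((C4 + 1) +
          C4 * (∑ k ∈ Icc 1 K, Fl3_ind (Good y.1 ∧ Late k y.1 (flt y.2))) +
        Ymax * Fl3_ind (Good y.1 ∧ Late K y.1 (flt y.2)) +
        Ymax * Fl3_ind (¬ Good y.1) +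
        Ymax * Fl3_ind (¬ GoodF y.1 (flt y.2))) := sum_le_sum fun y _ => hpt y
    _ = (C4 + 1) * T + C4 * (∑ k ∈ Icc 1 K,
          ((univ.filter fun y : Ω × FC N => Good y.1 ∧ Late k y.1 (flt y.2)).card : ℝ)) +
        Ymax * (univ.filter fun y : Ω × FC N => Good y.1 ∧ Late K y.1 (flt y.2)).card +
        Ymax * (univ.filter fun y : Ω × FC N => ¬ Good y.1).card +
        Ymax * (univ.filter fun y : Ω × FC N => ¬ GoodF y.1 (flt y.2)).card := by
        rw [sum_add_distrib, sum_add_distrib, sum_add_distrib, sum_add_distrib]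
        rw [sum_const, card_univ, nsmul_eq_mul, hcard]
        rw [← mul_sum, ← mul_sum, ← mul_sum, ← mul_sum, sum_comm]
        rw [Fl3_ind_sum (fun y : Ω × FC N => Good y.1 ∧ Late K y.1 (flt y.2)) inferInstance,
          Fl3_ind_sum (fun y : Ω × FC N => ¬ Good y.1) inferInstance,
          Fl3_ind_sum (fun y : Ω × FC N => ¬ GoodF y.1 (flt y.2)) inferInstance]
        have hk : ∀ k, ∑ y : Ω × FC N, Fl3_ind (Good y.1 ∧ Late k y.1 (flt y.2)) =
            ((univ.filter fun y : Ω × FC N => Good y.1 ∧ Late k y.1 (flt y.2)).card : ℝ) :=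
          fun k => Fl3_ind_sum (fun y : Ω × FC N => Good y.1 ∧ Late k y.1 (flt y.2)) inferInstance
        simp only [hk]
        ring
    _ ≤ (C4 + 1) * T + C4 * (∑ k ∈ Icc 1 K, Real.exp (a - κ * k) * T) +
        Ymax * (Real.exp (a - κ * K) * T) +
        Ymax * ((univ.filter fun ω : Ω => ¬ Good ω).card * Fintype.card (FC N)) +
        Ymax * (univ.filter fun y : Ω × FC N => ¬ GoodF y.1 (flt y.2)).card := by
        have ht : ∀ k ∈ Icc 1 K,
            ((univ.filter fun y : Ω × FC N => Good y.1 ∧ Late k y.1 (flt y.2)).card : ℝ) ≤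
              Real.exp (a - κ * k) * T := by
          intro k hk
          have := fl_tail hN Good (Typ k) (Late k) (κ * k - a) (fun ω hg => hm ω hg k hk)
            (fun ω hg f hl => hL ω hg k hk f hl)
          rw [neg_sub] at this
          exact this
        have h1 : C4 * (∑ k ∈ Icc 1 K,
            ((univ.filter fun y : Ω × FC N => Good y.1 ∧ Late k y.1 (flt y.2)).card : ℝ)) ≤
            C4 * (∑ k ∈ Icc 1 K, Real.exp (a - κ * k) * T) :=
          mul_le_mul_of_nonneg_left (sum_le_sum ht) hC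
        have h2 : Ymax *
            ((univ.filter fun y : Ω × FC N => Good y.1 ∧ Late K y.1 (flt y.2)).card : ℝ) ≤
            Ymax * (Real.exp (a - κ * K) * T) :=
          mul_le_mul_of_nonneg_left (ht K (mem_Icc.mpr ⟨hK, le_rfl⟩)) hYm
        have h3 : ((univ.filter fun y : Ω × FC N => ¬ Good y.1).card : ℝ) =
            (univ.filter fun ω : Ω => ¬ Good ω).card * Fintype.card (FC N) := by
          rw [show (univ.filter fun y : Ω × FC N => ¬ Good y.1) =
            (univ.filter fun ω : Ω => ¬ Good ω) ×ˢ (univ : Finset (FC N)) from by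
              ext y; simp]
          rw [card_product, Nat.cast_mul, card_univ]
        rw [h3]
        linarith
    _ ≤ _ := by
        have h1 : C4 * (∑ k ∈ Icc 1 K, Real.exp (a - κ * k) * T) ≤
            C4 * (Real.exp a / κ) * T := by
          rw [← sum_mul, ← mul_assoc]
          refine mul_le_mul_of_nonneg_right ?_ hT0
          exact mul_le_mul_of_nonneg_left (fl_geom κ a hκ K) hC
        nlinarith

end

end Pool.Agent.X217
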