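import Pool.Agent.X217.CW1
import Pool.Agent.X217.CW2a
import Pool.Agent.X217.CW3e
import Pool.Agent.X217.CW3f
import Pool.Agent.X217.CW4a
import Pool.Agent.X217.CW4b
import Pool.Agent.X217.Fl2
import Pool.Agent.X217.Fl3

set_option autoImplicit false

/-!
# The conciliator (MP_217fdb_lc, exact order): families of worlds

`Ω`: the other tables (seeds and picks); the flip tables are `V × Fin rn → Bool`, given by coins
`c e : Fin (N e)`, `N (p, ρ) = 2 ^ (L + h - min ρ H)`.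
-/

namespace Pool.Agent.X217

open Finset

attribute [local instance 10] Classical.propDecidable

/-- A family of worlds. -/
structure CWF (V Ω : Type) where
  L : ℕ
  ν0 : ℕ
  rn : ℕ
  h : ℕ
  who : ℕ → V
  Nb : ℕ → V → Finset V
  S : V → ℕ → ℕ
  F : V → ℕ → ℕ
  E : V → ℕ → ℕ
  Ext : Ω → V → ℕ → Finset V
  MS : Ω → V → ℕ → Finset V
  M : Ω → (V × Fin rn → Bool) → V → ℕ → Finset V
  go : Ω → (V × Fin rn → Bool) → V → ℕ → Prop
  aw : Ω → (V × Fin rn → Bool) → V → ℕ → Prop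
  awf : Ω → (V × Fin rn → Bool) → V → ℕ → Prop
  awe : Ω → (V × Fin rn → Bool) → V → ℕ → Prop
  lv : Ω → (V × Fin rn → Bool) → V → ℕ → Prop

namespace CWF

variable {V Ω : Type} (X : CWF V Ω)

/-- The world of the tables `ω` and the flip table `f`. -/
def W (ω : Ω) (f : V × Fin X.rn → Bool) : CW V where
  L := X.L
  ν0 := X.ν0
  rn := X.rn
  who := X.who
  Nb := X.Nb
  Ext := X.Ext ω
  S := X.S
  F := X.F
  E := X.E
  MS := X.MS ω
  M := X.M ω f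
  go := X.go ω f
  aw := X.aw ω f
  awf := X.awf ω f
  awe := X.awe ω f
  lv := X.lv ω f
  fl := fun p ρ => ∃ hρ : ρ < X.rn, f (p, ⟨ρ, hρ⟩) = true

/-- The number of tick runs. -/
def H : ℕ := X.L - X.ν0

/-- The inverse flip probabilities. -/
def N (e : V × Fin X.rn) : ℕ := 2 ^ (X.L + X.h - min e.2.val X.H)

/-- The flips made. -/
noncomputable def mf [Fintype V] (ω : Ω) (f : V × Fin X.rn → Bool) : Finset (V × Fin X.rn) :=
  univ.filter fun e => X.go ω f e.1 e.2.val ∧ ¬ X.awe ω f e.1 e.2.val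

/-- Success: exactly one flip made is successful, and everybody who reaches the last run is aware at
its end. -/
def Suc (ω : Ω) (f : V × Fin X.rn → Bool) : Prop :=
  (∃ e₀ : V × Fin X.rn, X.go ω f e₀.1 e₀.2.val ∧ ¬ X.awe ω f e₀.1 e₀.2.val ∧ f e₀ = true ∧
    ∀ e : V × Fin X.rn, X.go ω f e.1 e.2.val → ¬ X.awe ω f e.1 e.2.val → f e = true → e = e₀) ∧
  ∀ p, X.go ω f p (X.rn - 1) → X.awe ω f p (X.rn - 1)

/-- The facts about a family. -/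
structure Ok [Fintype V] [DecidableEq V] (Nc : ℕ → ℕ) : Prop where
  ok : ∀ ω f, (X.W ω f).Ok
  loc : ∀ ω f f', (∀ e : V × Fin X.rn, X.go ω f e.1 e.2.val → ¬ X.awe ω f e.1 e.2.val →
    f e = f' e) → ∀ p ρ, (X.go ω f' p ρ ↔ X.go ω f p ρ) ∧ (X.awe ω f' p ρ ↔ X.awe ω f p ρ)
  hL : X.ν0 + 8 ≤ X.L
  h4 : 4 ≤ X.h
  h11 : 11 ≤ X.ν0 + X.h
  hcap : 64 * ((X.L + 1) * 2 ^ (X.L + X.h)) ≤ (X.rn - X.H) * 2 ^ X.H
  hrn : X.rn ≤ 2 ^ (2 * (X.L + 1))
  hnum : ∃ Nm, (∀ ρ, Nc ρ ≤ Nm) ∧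
    2 * (2 ^ 15 * ((X.L + 1) * 2 ^ X.h) + 2 ^ 12 + 2 ^ 7 * Nm) ≤ (X.L + 1) ^ 3
  herr : 64 * (2 ^ (X.L + 14) * (X.H + ∑ ρ ∈ range X.H, Nc ρ + 1)) ≤ 2 ^ (X.L + X.h)

end CWF

end Pool.Agent.X217
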