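import Mathlib

set_option autoImplicit false

/-!
# The conciliator (MP_217fdb_lc, exact order): definitions

One world (all tables fixed, fair schedule) of object 0.  Run `ρ` of a processor consists of an
ext pass and of ticks; the runs `ρ ≥ H` (bottom runs) consist of an ext pass over all processors.
`S p ρ`, `F p ρ`, `E p ρ`: first step of run `ρ`, last step of its ext pass, last step of the run
(these times are fixed, they do not depend on the tables).  `MS b ρ` is the set of processors whose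
run `ρ` is known to `b` at the end of run `ρ` in the skeleton (nobody leaves), `M b ρ` the same in the
real run.  `go p ρ`: `p` takes part in run `ρ`; `lv p ρ`: it leaves at the end of run `ρ`;
`aw`, `awf`, `awe p ρ`: it is aware of a candidate at the beginning of run `ρ`, at the end of the
ext pass, at the end of the run; `fl p ρ`: its flip at the end of run `ρ` is successful.
-/

namespace Pool.Agent.X217

open Finset

attribute [local instance 10] Classical.propDecidable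

/-- A world of the conciliator. -/
structure CW (V : Type) where
  L : ℕ
  ν0 : ℕ
  /-- number of runs -/
  rn : ℕ
  /-- the schedule -/
  who : ℕ → V
  /-- nested graphs -/
  Nb : ℕ → V → Finset V
  /-- the lists of the ext passes -/
  Ext : V → ℕ → Finset V
  S : V → ℕ → ℕ
  F : V → ℕ → ℕ
  E : V → ℕ → ℕ
  MS : V → ℕ → Finset V
  M : V → ℕ → Finset V
  go : V → ℕ → Prop
  aw : V → ℕ → Prop
  awf : V → ℕ → Prop
  awe : V → ℕ → Prop
  lv : V → ℕ → Prop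
  fl : V → ℕ → Prop

namespace CW

variable {V : Type} [Fintype V] [DecidableEq V] (X : CW V)

/-- Number of tick runs. -/
def H : ℕ := X.L - X.ν0

/-- The level of run `ρ`. -/
def lev (ρ : ℕ) : ℕ := X.L - min ρ X.H

/-- The weight of run `ρ` (the flip probability is `wt ρ / 2 ^ (L + h)`). -/
def wt (ρ : ℕ) : ℕ := 2 ^ min ρ X.H

/-- The processors `b` whose run `ρ` is reached by run `ρ` of `x` in the skeleton, and which have
finished their next ext pass at time `t`. -/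
noncomputable def DD (x : V) (ρ t : ℕ) : Finset V :=
  univ.filter fun b => x ∈ X.MS b ρ ∧ X.F b (ρ + 1) ≤ t

/-- Run `ρ` of `x` is published at time `t`. -/
def Pub (x : V) (ρ t : ℕ) : Prop := 16 * 2 ^ X.lev ρ ≤ (X.DD x ρ t).card

/-- A candidate is published at time `t`. -/
def PUB (t : ℕ) : Prop := ∃ x ρ, ρ < X.rn ∧ X.go x ρ ∧ X.aw x ρ ∧
  ((ρ < X.H ∧ X.Pub x ρ t) ∨ (X.H ≤ ρ ∧ X.F x ρ ≤ t))

/-- The facts about a world. -/
structure Ok : Prop where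
  hL : X.ν0 + 8 ≤ X.L
  hr : X.H + 2 ≤ X.rn
  hn : Fintype.card V < 2 ^ (X.L + 1)
  tS : ∀ p ρ, X.who (X.S p ρ) = p
  tF : ∀ p ρ, X.who (X.F p ρ) = p
  tE : ∀ p ρ, X.who (X.E p ρ) = p
  SF : ∀ p ρ, X.S p ρ < X.F p ρ
  FE : ∀ p ρ, X.F p ρ ≤ X.E p ρ
  ES : ∀ p ρ, X.E p ρ < X.S p (ρ + 1)
  nb_symm : ∀ ν x y, y ∈ X.Nb ν x → x ∈ X.Nb ν y
  nb_anti : ∀ ν ν' x, ν ≤ ν' → X.Nb ν' x ⊆ X.Nb ν x
  rich : ∀ ν ≤ X.L, ∀ A : Finset V, 2 ^ ν ≤ A.card →
    (univ.filter fun x => Disjoint (X.Nb ν x) A).card < 2 ^ ν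
  ext_nb : ∀ p ρ, X.Nb (X.lev ρ) p ⊆ X.Ext p ρ
  ext_bot : ∀ p ρ, X.H ≤ ρ → X.Ext p ρ = univ
  go0 : ∀ p, X.go p 0
  goS : ∀ p ρ, X.go p (ρ + 1) ↔ X.go p ρ ∧ ¬ X.lv p ρ ∧ ρ + 1 < X.rn
  lv_go : ∀ p ρ, X.lv p ρ → X.go p ρ
  aw0 : ∀ p, ¬ X.aw p 0
  awS : ∀ p ρ, X.go p (ρ + 1) → (X.aw p (ρ + 1) ↔ X.awe p ρ ∨ X.fl p ρ)
  aw_awf : ∀ p ρ, X.go p ρ → X.aw p ρ → X.awf p ρ
  awf_awe : ∀ p ρ, X.go p ρ → X.awf p ρ → X.awe p ρ
  /-- knowledge by ticks -/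
  W2 : ∀ b ρ, ρ < X.H → X.go b ρ → ∀ a ∈ X.M b ρ, X.go a ρ ∧ X.F a ρ < X.E b ρ ∧
    (X.awf a ρ → X.awe b ρ)
  /-- knowledge by ext passes -/
  W3 : ∀ d ρ' b ρ, X.go d ρ' → X.go b ρ → b ∈ X.Ext d ρ' → d ∈ X.Ext b ρ →
    X.F d ρ' < X.S b ρ → X.aw d ρ' → X.awf b ρ
  /-- evidence -/
  W4 : ∀ p ρ, X.lv p ρ → (∃ x ρ', ρ' + 1 ≤ ρ ∧ ρ' < X.H ∧ X.go x ρ' ∧ X.aw x ρ' ∧
      16 * 2 ^ X.lev ρ' ≤ (univ.filter fun b => X.go b (ρ' + 1) ∧ x ∈ X.M b ρ' ∧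
        X.F b (ρ' + 1) ≤ X.E p ρ).card) ∨ (X.H ≤ ρ ∧ X.aw p ρ)
  W4b : ∀ p ρ, X.H ≤ ρ → X.go p ρ → X.aw p ρ → X.lv p ρ
  /-- enough evidence is seen -/
  W5 : ∀ q ρ x ρ', X.go q ρ → ρ < X.H → ρ' + 1 ≤ ρ → X.go x ρ' → X.aw x ρ' →
    16 * 2 ^ X.lev ρ' ≤ (univ.filter fun d => x ∈ X.M d ρ' ∧ X.go d (ρ' + 2) ∧
      ∃ a ∈ X.M q ρ, a ∈ X.Ext d (ρ' + 2) ∧ d ∈ X.Ext a ρ ∧ X.F d (ρ' + 2) < X.S a ρ).card →
    X.lv q ρ
  /-- knowledge by ticks in the skeleton -/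
  past : ∀ b ρ, ρ < X.H → ∀ a ∈ X.MS b ρ, X.F a ρ < X.E b ρ
  /-- comparison with the skeleton -/
  W6 : ∀ b ρ, ρ < X.H → X.go b ρ → (∀ q ρ', ρ' < ρ → X.lv q ρ' → X.E b ρ ≤ X.E q ρ') →
    X.M b ρ = X.MS b ρ
  /-- awareness comes from a successful flip -/
  W7 : ∀ p ρ, X.go p ρ → X.awe p ρ → ∃ q ρ', X.go q ρ' ∧ ¬ X.awe q ρ' ∧ X.fl q ρ' ∧
    X.E q ρ' < X.E p ρ

/-- The number of participants of run `ρ`. -/
noncomputable def y (ρ : ℕ) : ℕ := (univ.filter fun p => X.go p ρ).card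

/-- The statement `(G')`: in every set of finishers of a tick run, which know few members of the
set, there are few members. -/
def Gr (N : ℕ → ℕ) : Prop := ∀ ρ < X.H, X.y ρ ≤ (X.L + 1) ^ 3 * 2 ^ X.lev ρ →
  ∀ A : Finset V, (∀ b ∈ A, X.go b ρ) → (∀ b ∈ A, (X.M b ρ ∩ A).card < 64 * 2 ^ X.lev ρ) →
    1024 * A.card ≤ 1024 * (N ρ * 2 ^ X.lev ρ) + X.y ρ

/-- The members of `A` cover the names by their ext passes of run `ρ`. -/
def Cv (ρ : ℕ) (A : Finset V) : Prop :=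
  (∀ x, ∃ a ∈ A, x ∈ X.Ext a ρ) ∧ ∀ ν, X.ν0 < ν → ν ≤ X.lev ρ →
    (univ.filter fun x => ¬ ∃ a ∈ A, x ∈ X.Ext a ρ ∧ x ∈ X.Nb ν a).card < 2 ^ (ν + 5)

/-- The coverage conditions for the fixed sets. -/
structure Cov : Prop where
  c1 : ∀ x ρ t, ρ < X.H → X.Pub x ρ t → (∀ t' < t, ¬ X.Pub x ρ t') → X.Cv (ρ + 1) (X.DD x ρ t)
  c2 : ∀ b ρ t, ρ < X.H → 64 * 2 ^ X.lev ρ ≤ ((X.MS b ρ).filter fun a => t < X.S a ρ).card →
    X.Cv ρ ((X.MS b ρ).filter fun a => t < X.S a ρ)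

/-- `A` is a source of awareness at time `t`: aware members which have finished their ext passes
of run `ι` at time `t`, and which cover the names. -/
structure Src (ι : ℕ) (A : Finset V) (t : ℕ) : Prop where
  mem : ∀ d ∈ A, X.go d ι ∧ X.aw d ι ∧ X.F d ι ≤ t
  cv : X.Cv ι A
  card : ι < X.H → 2 ^ (X.lev ι + 5) ≤ A.card

/-- `t` is the time of the first publication. -/
def Beta (β : ℕ) : Prop := X.PUB β ∧ ∀ t < β, ¬ X.PUB t

/-- The participants of run `ρ` which are not aware at its end, although run `ρ - 1` was started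
after `β`. -/
noncomputable def XX (β ρ : ℕ) : Finset V :=
  univ.filter fun b => X.go b ρ ∧ β < X.S b (ρ - 1) ∧ ¬ X.awe b ρ

/-- The participants of run `ρ` which do not leave at its end, although run `ρ - 5` was started
after `β`. -/
noncomputable def ZZ (β ρ : ℕ) : Finset V :=
  univ.filter fun b => X.go b ρ ∧ β < X.S b (ρ - 5) ∧ ¬ X.lv b ρ

/-- The mass of the runs finished at time `t`, in the skeleton. -/
noncomputable def m (t : ℕ) : ℕ :=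
  ∑ ρ ∈ range X.rn, X.wt ρ * (univ.filter fun p => X.E p ρ ≤ t).card

/-- The mass of all runs of the world. -/
noncomputable def Ytot : ℕ := ∑ ρ ∈ range X.rn, X.wt ρ * X.y ρ

/-- The mass of the flips made after `β`. -/
noncomputable def Fa (β : ℕ) : ℕ :=
  ∑ ρ ∈ range X.rn, X.wt ρ * (univ.filter fun p => X.go p ρ ∧ ¬ X.awe p ρ ∧ β < X.E p ρ).card

/-- The mass of all flips made. -/
noncomputable def Fm : ℕ :=
  ∑ ρ ∈ range X.rn, X.wt ρ * (univ.filter fun p => X.go p ρ ∧ ¬ X.awe p ρ).card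

/-- The error terms. -/
def Err (N : ℕ → ℕ) : ℕ := 2 ^ (X.L + 14) * (X.H + ∑ ρ ∈ range X.H, N ρ + 1)

/-- Run `ρ + 1` of `p` is published at time `t` in the skeleton: the flip at the end of run `ρ` is
typical. -/
def Typ (p : V) (ρ t : ℕ) : Prop :=
  ρ + 1 < X.rn ∧ ((ρ + 1 < X.H ∧ X.Pub p (ρ + 1) t) ∨ (X.H ≤ ρ + 1 ∧ X.F p (ρ + 1) ≤ t))

/-- The mass of the typical flips. -/
noncomputable def mt (t : ℕ) : ℕ :=
  ∑ ρ ∈ range X.rn, X.wt ρ * (univ.filter fun p => X.Typ p ρ t).card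

/-- The statement `(G')` for the skeleton up to time `t`. -/
def GrS (N : ℕ → ℕ) (t : ℕ) : Prop := ∀ ρ < X.H,
  (univ.filter fun p => X.S p ρ ≤ t).card ≤ (X.L + 1) ^ 3 * 2 ^ X.lev ρ →
  ∀ A : Finset V, (∀ b ∈ A, X.E b ρ ≤ t) → (∀ b ∈ A, (X.MS b ρ ∩ A).card < 64 * 2 ^ X.lev ρ) →
    1024 * A.card ≤ 1024 * (N ρ * 2 ^ X.lev ρ) + (univ.filter fun p => X.S p ρ ≤ t).card

end CW

end Pool.Agent.X217
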