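import Pool.Agent.X217.PhA2

set_option autoImplicit false

namespace Pool.Agent.X217

open Finset

attribute [local instance 10] Classical.propDecidable

namespace Ph

variable {V : Type*} {X : Ph V}

private theorem phA3_tgt_unique (h : X.Ok) {r : ℕ} {y : V} {s : ℕ} {x x' : V}
    (h1 : X.Tgt r y s x) (h2 : X.Tgt r y s x') : x = x' := by
  rcases lt_trichotomy (X.be x 1) (X.be x' 1) with hlt | heq | hlt
  · exact absurd (h2.old x h1.xR h1.bl hlt) h1.nk
  · exact h.inj x h1.xR x' h2.xR heq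
  · exact absurd (h1.old x' h2.xR h2.bl hlt) h2.nk

private theorem phA3_be_al (h : X.Ok) {y : V} (hy : y ∈ X.C) {s t : ℕ} (h1 : 1 ≤ s)
    (hst : s < t) (ht : t ≤ X.N) : X.be y s < X.al y t := by
  induction t, hst using Nat.le_induction with
  | base => exact h.be_al y hy s h1 (by omega)
  | succ t hst ih =>
    exact (ih (by omega)).trans ((h.al_be y hy t (by omega) (by omega)).trans
      (h.be_al y hy t (by omega) (by omega)))

private theorem phA3_cr {r : ℕ} {p x : V} (hb : X.bl r p = X.bl r x) (hc : ¬ X.Cr r p) :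
    ¬ X.Cr r x := by
  have : X.blk r x = X.blk r p := by
    unfold blk
    rw [hb]
  unfold Cr at hc ⊢
  rw [this]
  exact hc

private theorem phA3_mem_ux {r : ℕ} {x : V} {q : V × ℕ} (hq : q ∈ X.Ux r x) :
    q.1 ∈ X.C ∧ 2 ≤ q.2 ∧ q.2 ≤ X.N ∧ ¬ X.Cr r q.1 ∧ X.Tgt r q.1 q.2 x := by
  simp only [Ux, mem_filter, mem_product, mem_Icc] at hq
  exact ⟨hq.1.1, hq.1.2.1, hq.1.2.2, hq.2.1, hq.2.2⟩

/-- Few ticks are exposed.
PROOF: for fixed `y ∈ C` (block not crowded) the sets `dur r x y s` for the different `s` (with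
`x` the target of `(y, s)`) are subsets of the ticks of members of `blk r y`, at most
`N * card (blk r y)` ticks, and pairwise disjoint (`al y (s + 1) ≤ al q.1 q.2 ≤ be y (s + 1)`, and
`be y (s + 1) < al y (s + 2)`).  So at most `N * c / g0` passes of `y` are exposed; sum over `y`,
`c ≤ 2 * Lam`. -/
theorem exposed_card (h : X.Ok) (g0 : ℕ) {r : ℕ} (hr : r < X.Rn) :
    g0 * ∑ x ∈ X.R, ((X.Ux r x).filter fun q => q.2 < X.N ∧ g0 < (X.dur r x q.1 q.2).card).card ≤
      2 * X.Lam * X.N * X.R.card := by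
  set E : V → Finset (V × ℕ) := fun x => (X.Ux r x).filter fun q =>
    q.2 < X.N ∧ g0 < (X.dur r x q.1 q.2).card with hE
  set D : Finset (Σ _ : V, Σ _ : V × ℕ, V × ℕ) :=
    X.R.sigma fun x => (E x).sigma fun q => X.dur r x q.1 q.2 with hD
  set T : Finset (Σ _ : V, V × ℕ) :=
    (X.C.filter fun y => ¬ X.Cr r y).sigma fun y => X.blk r y ×ˢ Icc 2 X.N with hT
  have h1 : g0 * ∑ x ∈ X.R, (E x).card ≤ D.card := by
    rw [hD, card_sigma, mul_sum]
    refine sum_le_sum fun x _ => ?_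
    rw [card_sigma, mul_comm, ← smul_eq_mul]
    refine card_nsmul_le_sum _ _ _ fun q hq => ?_
    exact ((mem_filter.mp hq).2.2).le
  have h2 : D.card ≤ T.card := by
    refine card_le_card_of_injOn (fun t => ⟨t.2.1.1, t.2.2⟩) ?_ ?_
    · rintro ⟨x, ⟨⟨y, s⟩, q⟩⟩ ht
      simp only [hD, hE, coe_sigma, Set.mem_sigma_iff, mem_coe, mem_filter] at ht
      obtain ⟨-, ⟨hu, -, -⟩, hd⟩ := ht
      obtain ⟨hy, -, -, hc, htg⟩ := phA3_mem_ux hu
      simp only [dur, mem_filter, mem_product, mem_Icc] at hd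
      simp only [hT, coe_sigma, Set.mem_sigma_iff, mem_coe, mem_filter, mem_product, mem_Icc,
        blk]
      exact ⟨⟨hy, hc⟩, ⟨X.CR hd.1.1, hd.2.1.trans htg.bl⟩, hd.1.2⟩
    · rintro ⟨x, ⟨⟨y, s⟩, q⟩⟩ ht ⟨x', ⟨⟨y', s'⟩, q'⟩⟩ ht' heq
      simp only [hD, hE, coe_sigma, Set.mem_sigma_iff, mem_coe, mem_filter] at ht ht'
      obtain ⟨-, ⟨hu, hsN, -⟩, hd⟩ := ht
      obtain ⟨-, ⟨hu', hsN', -⟩, hd'⟩ := ht'
      have hyy : y = y' := by
        have := congrArg Sigma.fst heq
        exact this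
      subst hyy
      have hqq : q = q' := by
        simpa using heq
      subst hqq
      obtain ⟨hy, hs2, -, -, htg⟩ := phA3_mem_ux hu
      obtain ⟨-, hs2', -, -, htg'⟩ := phA3_mem_ux hu'
      simp only [dur, mem_filter] at hd hd'
      obtain ⟨-, -, -, ha1, ha2⟩ := hd
      obtain ⟨-, -, -, hb1, hb2⟩ := hd'
      have hss : s = s' := by
        rcases lt_trichotomy s s' with hlt | heq' | hlt
        · have hlt' : X.be y (s + 1) < X.al y (s' + 1) :=
            phA3_be_al h hy (s := s + 1) (t := s' + 1) (by omega) (by omega) (by omega)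
          omega
        · exact heq'
        · have hlt' : X.be y (s' + 1) < X.al y (s + 1) :=
            phA3_be_al h hy (s := s' + 1) (t := s + 1) (by omega) (by omega) (by omega)
          omega
      subst hss
      have hxx : x = x' := phA3_tgt_unique h htg htg'
      subst hxx
      rfl
  have h3 : T.card ≤ 2 * X.Lam * X.N * X.R.card := by
    rw [hT, card_sigma]
    calc ∑ y ∈ X.C.filter (fun y => ¬ X.Cr r y), (X.blk r y ×ˢ Icc 2 X.N).card
        ≤ ∑ y ∈ X.C.filter (fun y => ¬ X.Cr r y), 2 * X.Lam * X.N := by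
          refine sum_le_sum fun y hy => ?_
          rw [card_product]
          refine Nat.mul_le_mul ?_ ?_
          · exact not_lt.mp (mem_filter.mp hy).2
          · rw [Nat.card_Icc]
            omega
      _ = (X.C.filter (fun y => ¬ X.Cr r y)).card * (2 * X.Lam * X.N) := by
          rw [sum_const, smul_eq_mul]
      _ ≤ X.R.card * (2 * X.Lam * X.N) :=
          Nat.mul_le_mul_right _ ((card_filter_le _ _).trans (card_le_card X.CR))
      _ = 2 * X.Lam * X.N * X.R.card := mul_comm _ _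
  exact h1.trans (h2.trans h3)

/-- All ticks which are not aware in one label.
PROOF: `Un C r ⊆ ⋃ x ∈ R, Ux r x` (`exists_tgt`); `ux_card` for the `x` with `Ux r x ≠ ∅` (their
block is not crowded, so `card (blk r x) ≤ 2 * Lam`), `exposed_card`. -/
theorem un_card (h : X.Ok) (g0 : ℕ) {r : ℕ} (hr : r < X.Rn) :
    g0 * (X.Un X.C r).card ≤ g0 * ∑ x ∈ X.R, (X.Gs g0 r x).card +
      2 * X.Lam * X.N * X.R.card + g0 * (X.R.card * (g0 + 8 * X.Lam)) := by
  have h1 : (X.Un X.C r).card ≤ ∑ x ∈ X.R, (X.Ux r x).card := by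
    refine (card_le_card ?_).trans card_biUnion_le
    intro q hq
    simp only [Un, mem_filter] at hq
    obtain ⟨x, hx⟩ := exists_tgt hq.2.2
    rw [mem_biUnion]
    exact ⟨x, hx.xR, by simp only [Ux, mem_filter]; exact ⟨hq.1, hq.2.1, hx⟩⟩
  have h2 : ∀ x ∈ X.R, (X.Ux r x).card ≤ (X.Gs g0 r x).card +
      ((X.Ux r x).filter fun q => q.2 < X.N ∧ g0 < (X.dur r x q.1 q.2).card).card +
      (g0 + 8 * X.Lam) := by
    intro x hx
    rcases (X.Ux r x).eq_empty_or_nonempty with he | ⟨q, hq⟩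
    · rw [he, card_empty]
      exact Nat.zero_le _
    · obtain ⟨-, -, -, hc, ht⟩ := phA3_mem_ux hq
      have hb : (X.blk r x).card ≤ 2 * X.Lam := not_lt.mp (phA3_cr ht.bl.symm hc)
      have := ux_card h g0 hr hx
      omega
  calc g0 * (X.Un X.C r).card ≤ g0 * ∑ x ∈ X.R, ((X.Gs g0 r x).card +
      ((X.Ux r x).filter fun q => q.2 < X.N ∧ g0 < (X.dur r x q.1 q.2).card).card +
      (g0 + 8 * X.Lam)) := Nat.mul_le_mul_left _ (h1.trans (sum_le_sum h2))
    _ = g0 * ∑ x ∈ X.R, (X.Gs g0 r x).card + g0 * ∑ x ∈ X.R, ((X.Ux r x).filter fun q =>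
      q.2 < X.N ∧ g0 < (X.dur r x q.1 q.2).card).card + g0 * (X.R.card * (g0 + 8 * X.Lam)) := by
        rw [sum_add_distrib, sum_add_distrib, sum_const, smul_eq_mul, mul_add, mul_add]
    _ ≤ _ := by
        have := exposed_card h g0 hr
        omega
end Ph

end Pool.Agent.X217
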