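import Pool.Agent.X217.PhC3

set_option autoImplicit false

namespace Pool.Agent.X217

open Finset

attribute [local instance 10] Classical.propDecidable

namespace Ph

variable {V : Type*} {X : Ph V}

/-- The median: for at least half of the labels `ev r p ≥ min (tt (j + 1) p) (N + 1)`, see
`Pool.Agent.A217.Peel.med_sum` for the proof; then `min N .. - tt j p ≤ 1 + card (Ws S r j p)`
for these labels. -/
theorem median (S : Finset V) (j : ℕ) (p : V) (hp : X.tt S j p ≤ X.N) :
    X.Rn * (min (X.tt S (j + 1) p) X.N - X.tt S j p) ≤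
      2 * ∑ r ∈ range X.Rn, (1 + (X.Ws S r j p).card) := by
  classical
  rcases Nat.eq_or_lt_of_le (X.tt_mono S j p) with h | h
  · have : min (X.tt S (j + 1) p) X.N - X.tt S j p = 0 := by omega
    rw [this, mul_zero]
    exact Nat.zero_le _
  · obtain ⟨τ, hτ⟩ : ∃ τ, τ = X.tt S (j + 1) p := ⟨_, rfl⟩
    have hmd : τ = Nat.find (X.md_ex S (X.tt S j) p) := hτ
    have h1 : ¬ (X.tt S j p ≤ τ - 1 ∧ (X.N < τ - 1 ∨
        X.Rn ≤ 2 * ((range X.Rn).filter fun r => X.ev S (X.tt S j) r p ≤ τ - 1).card)) :=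
      Nat.find_min (X.md_ex S (X.tt S j) p) (by rw [← hmd]; omega)
    push Not at h1
    obtain ⟨h2, h3⟩ := h1 (by omega)
    have hsplit := card_filter_add_card_filter_not (s := range X.Rn)
      (fun r => X.ev S (X.tt S j) r p ≤ τ - 1)
    rw [card_range] at hsplit
    have h1t := one_le_tt (X := X) S j p
    have h4 : ((range X.Rn).filter fun r => ¬ X.ev S (X.tt S j) r p ≤ τ - 1).card *
        (min τ X.N - X.tt S j p) ≤ ∑ r ∈ range X.Rn, (1 + (X.Ws S r j p).card) := by
      calc ((range X.Rn).filter fun r => ¬ X.ev S (X.tt S j) r p ≤ τ - 1).card *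
            (min τ X.N - X.tt S j p)
          = ∑ _r ∈ (range X.Rn).filter fun r => ¬ X.ev S (X.tt S j) r p ≤ τ - 1,
            (min τ X.N - X.tt S j p) := by
            rw [sum_const, smul_eq_mul]
        _ ≤ ∑ r ∈ (range X.Rn).filter fun r => ¬ X.ev S (X.tt S j) r p ≤ τ - 1,
            (1 + (X.Ws S r j p).card) := by
            apply sum_le_sum
            intro r hr
            have hev := (mem_filter.mp hr).2
            have hsub : Ioc (X.tt S j p) (min (τ - 1) X.N) ⊆ X.Ws S r j p := by
              intro s hs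
              rw [mem_Ioc] at hs
              unfold Ws
              rw [mem_filter, mem_Icc, ← hτ]
              have hs2 := hs.2
              rw [le_min_iff] at hs2
              refine ⟨⟨by omega, hs2.2⟩, hs.1, by omega, by omega⟩
            have hc := card_le_card hsub
            rw [Nat.card_Ioc] at hc
            omega
        _ ≤ _ := sum_le_sum_of_subset (filter_subset _ _)
    rw [← hτ]
    calc X.Rn * (min τ X.N - X.tt S j p)
        ≤ (2 * ((range X.Rn).filter fun r => ¬ X.ev S (X.tt S j) r p ≤ τ - 1).card) *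
            (min τ X.N - X.tt S j p) := Nat.mul_le_mul_right _ (by omega)
      _ = 2 * (((range X.Rn).filter fun r => ¬ X.ev S (X.tt S j) r p ≤ τ - 1).card *
            (min τ X.N - X.tt S j p)) := by ring
      _ ≤ _ := Nat.mul_le_mul_left _ h4

/-- If nobody of `S` finishes `J` steps.
PROOF: `N - 1 = ∑ j < J, (min (tt (j+1) p) N - min (tt j p) N)` for `p ∈ S` (`tt 0 = 1`, telescope,
`Pool.Agent.A217.Peel.tt_main`), `median`, `wait_label`. -/
theorem master (h : X.Ok) {S : Finset V} (hS : S ⊆ X.C) {J e0 : ℕ}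
    (hJ : ∀ p ∈ S, X.N < X.tt S J p) :
    X.Rn * (S.card * (X.N - 1)) ≤ 2 * ∑ r ∈ range X.Rn,
      ((S.image (X.bl r)).card * (J * (X.N + e0)) + 2 * J * S.card +
      X.N * (S.filter fun p => X.Cr r p ∨ X.Unl S J e0 r p).card + (X.Un S r).card) := by
  classical
  have htel : ∀ p j, ∑ i ∈ range j, (min (X.tt S (i + 1) p) X.N - min (X.tt S i p) X.N) +
      min (X.tt S 0 p) X.N = min (X.tt S j p) X.N := by
    intro p j
    induction j with
    | zero => simp
    | succ j ih =>
      rw [sum_range_succ]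
      have hm := X.tt_mono S j p
      have h2 : min (X.tt S j p) X.N ≤ min (X.tt S (j + 1) p) X.N := min_le_min hm le_rfl
      omega
  have hN1 : ∀ p ∈ S, X.N - 1 ≤
      ∑ i ∈ range J, (min (X.tt S (i + 1) p) X.N - min (X.tt S i p) X.N) := by
    intro p hp
    have h1 := htel p J
    have h2 := hJ p hp
    have h3 : X.tt S 0 p = 1 := rfl
    rw [h3] at h1
    have h4 : min (X.tt S J p) X.N = X.N := min_eq_right h2.le
    have h5 : min 1 X.N ≤ 1 := min_le_left _ _
    omega
  have hstep : ∀ p ∈ S, ∀ j ∈ range J,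
      X.Rn * (min (X.tt S (j + 1) p) X.N - min (X.tt S j p) X.N) ≤
      2 * ∑ r ∈ range X.Rn, (1 + (X.Ws S r j p).card) := by
    intro p _ j _
    by_cases hle : X.tt S j p ≤ X.N
    · rw [min_eq_left hle]
      exact X.median S j p hle
    · have h1 := X.tt_mono S j p
      have h2 : min (X.tt S (j + 1) p) X.N - min (X.tt S j p) X.N = 0 := by omega
      rw [h2, mul_zero]
      exact Nat.zero_le _
  calc X.Rn * (S.card * (X.N - 1)) = ∑ _p ∈ S, X.Rn * (X.N - 1) := by
        rw [sum_const, smul_eq_mul]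
        ring
    _ ≤ ∑ p ∈ S, X.Rn *
        ∑ i ∈ range J, (min (X.tt S (i + 1) p) X.N - min (X.tt S i p) X.N) :=
        sum_le_sum fun p hp => Nat.mul_le_mul_left _ (hN1 p hp)
    _ = ∑ p ∈ S, ∑ i ∈ range J,
        X.Rn * (min (X.tt S (i + 1) p) X.N - min (X.tt S i p) X.N) :=
        sum_congr rfl fun p _ => mul_sum _ _ _
    _ ≤ ∑ p ∈ S, ∑ j ∈ range J, 2 * ∑ r ∈ range X.Rn, (1 + (X.Ws S r j p).card) :=
        sum_le_sum fun p hp => sum_le_sum fun j hj => hstep p hp j hj
    _ = 2 * ∑ r ∈ range X.Rn, ∑ p ∈ S, ∑ j ∈ range J, (1 + (X.Ws S r j p).card) := by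
        have e1 : ∀ p, ∑ j ∈ range J, 2 * ∑ r ∈ range X.Rn, (1 + (X.Ws S r j p).card) =
            2 * ∑ r ∈ range X.Rn, ∑ j ∈ range J, (1 + (X.Ws S r j p).card) := by
          intro p
          rw [← mul_sum, sum_comm]
        simp only [e1]
        rw [← mul_sum, sum_comm]
    _ ≤ _ := by
        refine Nat.mul_le_mul_left _ (sum_le_sum fun r hr => ?_)
        have hw := wait_label h hS (r := r) (J := J) (e0 := e0) (mem_range.1 hr)
        have e2 : ∑ p ∈ S, ∑ j ∈ range J, (1 + (X.Ws S r j p).card) =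
            S.card * J + ∑ p ∈ S, ∑ j ∈ range J, (X.Ws S r j p).card := by
          simp only [sum_add_distrib, sum_const, card_range, smul_eq_mul, mul_one]
        rw [e2]
        have e3 : S.card * J = J * S.card := mul_comm _ _
        have e4 : 2 * J * S.card = J * S.card + J * S.card := by ring
        rw [e3, e4]
        omega
end Ph

end Pool.Agent.X217
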