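import Pool.Agent.X217.PhC1
import Pool.Agent.MP217Area.Peel

set_option autoImplicit false

/-!
# The tick phase: growth
-/

namespace Pool.Agent.X217

open Finset

attribute [local instance 10] Classical.propDecidable

namespace Ph

variable {V : Type*} {X : Ph V}

private theorem phG1_mono (h : X.Ok) {y : V} (hy : y ∈ X.C) {s t : ℕ} (hst : s ≤ t)
    (ht : t ≤ X.N) : X.K y s ⊆ X.K y t := by
  induction t, hst using Nat.le_induction with
  | base => exact Subset.rfl
  | succ t hst ih => exact (ih (by omega)).trans (h.mono y hy t (by omega))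

private theorem phG1_med {S : Finset V} {s : V → ℕ} {p : V} (h : X.md S s p ≤ X.N) :
    X.Rn ≤ 2 * ((range X.Rn).filter fun r => X.ev S s r p ≤ X.md S s p).card := by
  rcases (Nat.find_spec (X.md_ex S s p)).2 with h' | h'
  · exact absurd h (not_le.mpr h')
  · exact h'

/-- The growth of the team, going back in time.
PROOF: as `Pool.Agent.A217.Peel.growth`, one family of labels; `A_0 = {p}`, `A_(i+1)` = the `q ∈ S`
with `tt S (J - i - 1) q ≤ N` and `(q, tt S (J - i - 1) q) ∈ K p N`. -/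
theorem grow [DecidableEq V] (h : X.Ok) {S : Finset V} (hS : S ⊆ X.C) {J : ℕ} (hR : 0 < X.Rn)
    (lossless : ∀ U : Finset V, U.card ≤ 4 * 2 ^ J →
      15 * (X.Rn * U.card) ≤ 16 * ∑ r ∈ range X.Rn, (U.image (X.bl r)).card)
    {p : V} (hp : p ∈ S) (htp : X.tt S J p ≤ X.N) :
    ∀ i ≤ J, ∃ A ⊆ S, 2 ^ i ≤ A.card ∧ ∀ q ∈ A, X.tt S (J - i) q ≤ X.N ∧
      (q, X.tt S (J - i) q) ∈ X.K p X.N := by
  intro i
  induction i with
  | zero =>
    intro _
    refine ⟨{p}, by simpa using hp, by simp, ?_⟩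
    intro x hx
    rw [mem_singleton] at hx
    subst hx
    rw [Nat.sub_zero]
    exact ⟨htp, phG1_mono h (hS hp) htp le_rfl (h.own x (hS hp) _ htp)⟩
  | succ i ih =>
    intro hi
    obtain ⟨A, hAS, hAc, hA⟩ := ih (by omega)
    obtain ⟨Y, hYA, hYc⟩ := exists_subset_card_eq hAc
    obtain ⟨j, hj⟩ : ∃ j, J - i = j + 1 := ⟨J - i - 1, by omega⟩
    have hj' : J - (i + 1) = j := by omega
    rw [hj] at hA
    rw [hj']
    obtain ⟨A', hA'⟩ : ∃ A' : Finset V, A' = S.filter fun q => X.tt S j q ≤ X.N ∧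
      (q, X.tt S j q) ∈ X.K p X.N := ⟨_, rfl⟩
    refine ⟨A', by rw [hA']; exact filter_subset _ _, ?_, fun x hx => by
      rw [hA', mem_filter] at hx
      exact hx.2⟩
    by_contra hcon
    push Not at hcon
    obtain ⟨U, hU⟩ : ∃ U : Finset V, U = Y ∪ A' := ⟨_, rfl⟩
    have hUc : U.card ≤ Y.card + A'.card := hU ▸ card_union_le _ _
    have hpi : (2 : ℕ) ^ (i + 1) = 2 * 2 ^ i := by rw [pow_succ, mul_comm]
    have hle : (2 : ℕ) ^ i ≤ 2 ^ J := Nat.pow_le_pow_right (by norm_num) (by omega)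
    have h1 := lossless U (by omega)
    -- one label
    have h2 : ∀ r ∈ range X.Rn, 2 * (U.image (X.bl r)).card +
        (Y.filter fun x => X.ev S (X.tt S j) r x ≤ X.tt S (j + 1) x).card ≤ 2 * U.card := by
      intro r _
      apply Pool.Agent.A217.Peel.classes
      · exact (filter_subset _ _).trans (hU ▸ subset_union_left)
      · intro x hx
        rw [mem_filter] at hx
        have hxA := hA x (hYA hx.1)
        obtain ⟨q, hq, hqx, hc, hsq, hM⟩ := ev_spec (hx.2.trans hxA.1)
        refine ⟨q, ?_, hqx, hc⟩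
        rw [hU, mem_union]
        right
        rw [hA', mem_filter]
        have hxS : x ∈ S := hAS (hYA hx.1)
        exact ⟨hq, hsq, h.trans p (hS hp) X.N le_rfl x (hS hxS) _ hxA.2
          (phG1_mono h (hS hxS) hx.2 hxA.1 hM)⟩
    have h3 : ∑ r ∈ range X.Rn, (2 * (U.image (X.bl r)).card +
        (Y.filter fun x => X.ev S (X.tt S j) r x ≤ X.tt S (j + 1) x).card) ≤
          X.Rn * (2 * U.card) := by
      calc _ ≤ ∑ _r ∈ range X.Rn, 2 * U.card := sum_le_sum h2
        _ = X.Rn * (2 * U.card) := by rw [sum_const, card_range, smul_eq_mul]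
    rw [sum_add_distrib, ← mul_sum] at h3
    have h4 : Y.card * X.Rn ≤
        2 * ∑ r ∈ range X.Rn,
          (Y.filter fun x => X.ev S (X.tt S j) r x ≤ X.tt S (j + 1) x).card := by
      have e1 : ∑ r ∈ range X.Rn,
          (Y.filter fun x => X.ev S (X.tt S j) r x ≤ X.tt S (j + 1) x).card =
          ∑ x ∈ Y, ((range X.Rn).filter fun r => X.ev S (X.tt S j) r x ≤
            X.tt S (j + 1) x).card :=
        sum_card_bipartiteAbove_eq_sum_card_bipartiteBelow _
      rw [e1, mul_sum, ← smul_eq_mul, ← sum_const]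
      apply sum_le_sum
      intro x hx
      exact phG1_med (hA x (hYA hx)).1
    generalize (∑ r ∈ range X.Rn,
          (Y.filter fun x => X.ev S (X.tt S j) r x ≤ X.tt S (j + 1) x).card) = G at h3 h4
    generalize (∑ r ∈ range X.Rn, (U.image (X.bl r)).card) = C at h1 h3
    have h5 : 4 * (Y.card * X.Rn) ≤ X.Rn * U.card := by
      have e2 : X.Rn * (2 * U.card) = 2 * (X.Rn * U.card) := by ring
      rw [e2] at h3
      generalize X.Rn * U.card = RU at h1 h3 ⊢
      generalize Y.card * X.Rn = YR at h4 ⊢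
      omega
    have h6 : 4 * Y.card ≤ U.card := by
      have e1 : 4 * (Y.card * X.Rn) = X.Rn * (4 * Y.card) := by ring
      rw [e1] at h5
      exact Nat.le_of_mul_le_mul_left h5 hR
    omega

/-- If some member of `S` finishes `J` steps then it knows `2 ^ J` members of `S`. -/
theorem grow_card [DecidableEq V] (h : X.Ok) {S : Finset V} (hS : S ⊆ X.C) {J : ℕ}
    (hR : 0 < X.Rn)
    (lossless : ∀ U : Finset V, U.card ≤ 4 * 2 ^ J →
      15 * (X.Rn * U.card) ≤ 16 * ∑ r ∈ range X.Rn, (U.image (X.bl r)).card)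
    {p : V} (hp : p ∈ S) (htp : X.tt S J p ≤ X.N) :
    2 ^ J ≤ (S.filter fun q => X.kn p X.N q).card := by
  obtain ⟨A, hAS, hAc, hA⟩ := grow h hS hR lossless hp htp J le_rfl
  refine hAc.trans (card_le_card fun q hq => ?_)
  rw [mem_filter]
  exact ⟨hAS hq, _, (hA q hq).2⟩

end Ph

end Pool.Agent.X217
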