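import Mathlib

set_option autoImplicit false

/-!
# Random picks revealed adaptively by columns: number of unlucky participants
-/

namespace Pool.Agent.X217

open Finset

attribute [local instance 10] Classical.propDecidable

variable {ι V : Type*} [Fintype ι] [DecidableEq ι] [Fintype V] [DecidableEq V] {Rn Lam w : ℕ}

/-- Data for the adaptive lemma.  `bi r i` is the block of row `i`, `bv r x` the block of `x`,
`κ r x` the class and `ix r x` the index of `x`; `Rs ω` are the participants; `Y ω S r x` are the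
relevant rows for `x ∈ S` in label `r`.  The coordinate `(i, r, c)` is revealed before `x` if some
participant `z` with `st z < st x` has `bv r z = bi r i` and `κ r z = c`. -/
structure Ad (ι V : Type*) (Rn Lam w : ℕ) where
  bi : Fin Rn → ι → ℕ
  bv : Fin Rn → V → ℕ
  κ : Fin Rn → V → Fin Lam
  ix : Fin Rn → V → Fin w
  st : V → ℕ
  Rs : (ι → Fin Rn → Fin Lam → Fin w) → Finset V
  Y : (ι → Fin Rn → Fin Lam → Fin w) → Finset V → Fin Rn → V → Finset ι

namespace Ad

variable (A : Ad ι V Rn Lam w)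

/-- `ω` and `ω'` agree on the coordinates revealed before `x` in `ω`. -/
def Agree (x : V) (ω ω' : ι → Fin Rn → Fin Lam → Fin w) : Prop :=
  ∀ i r c, (∃ z ∈ A.Rs ω, A.st z < A.st x ∧ A.bv r z = A.bi r i ∧ A.κ r z = c) →
    ω i r c = ω' i r c

/-- The locality hypotheses. -/
structure Loc : Prop where
  inj : Function.Injective A.st
  mem : ∀ x ω ω', A.Agree x ω ω' → x ∈ A.Rs ω → x ∈ A.Rs ω'
  yy : ∀ x ω ω', A.Agree x ω ω' → ∀ S S' : Finset V, (∀ z, A.st z < A.st x → (z ∈ S ↔ z ∈ S')) →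
    S ⊆ A.Rs ω → S' ⊆ A.Rs ω' → ∀ r, A.Y ω S r x = A.Y ω' S' r x
  bl : ∀ ω S r x, ∀ i ∈ A.Y ω S r x, A.bi r i = A.bv r x

/-- `x` is unlucky. -/
def Un (e0 : ℕ) (ω : ι → Fin Rn → Fin Lam → Fin w) (S : Finset V) (r : Fin Rn) (x : V) : Prop :=
  e0 ≤ (A.Y ω S r x).card ∧ ∀ i ∈ A.Y ω S r x, ω i r (A.κ r x) ≠ A.ix r x

/-- `x` is alone in its class among the participants. -/
def Alone (ω : ι → Fin Rn → Fin Lam → Fin w) (r : Fin Rn) (x : V) : Prop :=
  ∀ z ∈ A.Rs ω, A.bv r z = A.bv r x → A.κ r z = A.κ r x → z = x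

/-- No earlier participant has the class of `x` in label `r`. -/
private def Pr2_Fr (ω : ι → Fin Rn → Fin Lam → Fin w) (r : Fin Rn) (x : V) : Prop :=
  ∀ z ∈ A.Rs ω, A.st z < A.st x → A.bv r z = A.bv r x → A.κ r z ≠ A.κ r x

private noncomputable def Pr2_F (e0 lam : ℕ) (ω : ι → Fin Rn → Fin Lam → Fin w) (S : Finset V)
    (r : Fin Rn) (x : V) : ℝ :=
  if A.Pr2_Fr ω r x then (if A.Un e0 ω S r x then 2 ^ lam / 2 else 1 / 2) else 1

private noncomputable def Pr2_R (τ : ℕ) (ω : ι → Fin Rn → Fin Lam → Fin w) : Finset V :=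
  (A.Rs ω).filter fun z => A.st z < τ

private noncomputable def Pr2_P (e0 lam : ℕ) (ω : ι → Fin Rn → Fin Lam → Fin w)
    (S : Finset V) : ℝ :=
  ∏ x ∈ S, ∏ r, A.Pr2_F e0 lam ω S r x

private noncomputable def Pr2_Z (e0 lam τ : ℕ) (ω : ι → Fin Rn → Fin Lam → Fin w) : ℝ :=
  (1 / 2) ^ (A.Pr2_R τ ω).card * ∑ S ∈ (A.Pr2_R τ ω).powerset, A.Pr2_P e0 lam ω S

private noncomputable def Pr2_up (x : V) (ω : ι → Fin Rn → Fin Lam → Fin w)
    (v : Fin Rn → ι → Fin w) : ι → Fin Rn → Fin Lam → Fin w := fun i r c =>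
  if A.bi r i = A.bv r x ∧ A.Pr2_Fr ω r x ∧ c = A.κ r x then v r i else ω i r c

variable {A}

omit [Fintype ι] [DecidableEq ι] [Fintype V] [DecidableEq V] in
private theorem Pr2_mem (hA : A.Loc) {x : V} {ω ω' : ι → Fin Rn → Fin Lam → Fin w}
    (h : A.Agree x ω ω') : ∀ n, ∀ z, A.st z = n → A.st z ≤ A.st x →
      (z ∈ A.Rs ω ↔ z ∈ A.Rs ω') := by
  intro n
  induction n using Nat.strong_induction_on with
  | _ n ih =>
    intro z hz hzx
    have h1 : A.Agree z ω ω' := fun i r c ⟨y, hy, hlt, hb, hk⟩ =>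
      h i r c ⟨y, hy, lt_of_lt_of_le hlt hzx, hb, hk⟩
    have h2 : A.Agree z ω' ω := by
      rintro i r c ⟨y, hy, hlt, hb, hk⟩
      have hy' : y ∈ A.Rs ω :=
        (ih (A.st y) (hz ▸ hlt) y rfl (hlt.le.trans hzx)).2 hy
      exact (h i r c ⟨y, hy', lt_of_lt_of_le hlt hzx, hb, hk⟩).symm
    exact ⟨hA.mem z _ _ h1, hA.mem z _ _ h2⟩

omit [Fintype ι] [DecidableEq ι] [Fintype V] [DecidableEq V] in
private theorem Pr2_fr (hA : A.Loc) {x : V} {ω ω' : ι → Fin Rn → Fin Lam → Fin w}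
    (h : A.Agree x ω ω') {y : V} (hy : A.st y ≤ A.st x) (r : Fin Rn) :
    A.Pr2_Fr ω r y ↔ A.Pr2_Fr ω' r y := by
  constructor
  · intro hf z hz hlt hb
    exact hf z ((Pr2_mem hA h _ z rfl (hlt.le.trans hy)).2 hz) hlt hb
  · intro hf z hz hlt hb
    exact hf z ((Pr2_mem hA h _ z rfl (hlt.le.trans hy)).1 hz) hlt hb

omit [Fintype ι] [DecidableEq ι] [Fintype V] [DecidableEq V] in
private theorem Pr2_re (hA : A.Loc) {x : V} {ω ω' : ι → Fin Rn → Fin Lam → Fin w}
    (h : A.Agree x ω ω') : A.Pr2_R (A.st x) ω = A.Pr2_R (A.st x) ω' := by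
  ext z
  simp only [Pr2_R, mem_filter]
  constructor
  · rintro ⟨h1, h2⟩
    exact ⟨(Pr2_mem hA h _ z rfl h2.le).1 h1, h2⟩
  · rintro ⟨h1, h2⟩
    exact ⟨(Pr2_mem hA h _ z rfl h2.le).2 h1, h2⟩

omit [Fintype ι] [DecidableEq ι] [Fintype V] [DecidableEq V] in
private theorem Pr2_yy (hA : A.Loc) {x : V} {ω ω' : ι → Fin Rn → Fin Lam → Fin w}
    (h : A.Agree x ω ω') {y : V} (hy : A.st y ≤ A.st x) {S : Finset V}
    (hS : S ⊆ A.Pr2_R (A.st x) ω) (r : Fin Rn) : A.Y ω S r y = A.Y ω' S r y := by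
  refine hA.yy y ω ω' (fun i r c ⟨z, hz, hlt, hb, hk⟩ =>
      h i r c ⟨z, hz, lt_of_lt_of_le hlt hy, hb, hk⟩) S S (fun _ _ => Iff.rfl) ?_ ?_ r
  · exact hS.trans (filter_subset _ _)
  · rw [Pr2_re hA h] at hS
    exact hS.trans (filter_subset _ _)

omit [Fintype ι] [DecidableEq ι] [Fintype V] [DecidableEq V] in
private theorem Pr2_ff (hA : A.Loc) {e0 lam : ℕ} {x : V} {ω ω' : ι → Fin Rn → Fin Lam → Fin w}
    (h : A.Agree x ω ω') {y : V} {S : Finset V}
    (hS : S ⊆ A.Pr2_R (A.st x) ω) (hy : y ∈ S) (r : Fin Rn) :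
    A.Pr2_F e0 lam ω S r y = A.Pr2_F e0 lam ω' S r y := by
  obtain ⟨hyR, hyx⟩ := mem_filter.1 (hS hy)
  have h1 : A.Pr2_Fr ω r y ↔ A.Pr2_Fr ω' r y := Pr2_fr hA h hyx.le r
  have h2 : A.Un e0 ω S r y ↔ A.Un e0 ω' S r y := by
    simp only [Un]
    rw [← Pr2_yy hA h hyx.le hS r]
    refine and_congr_right fun _ => ?_
    refine forall₂_congr fun i hi => ?_
    rw [h i r (A.κ r y) ⟨y, hyR, hyx, (hA.bl ω S r y i hi).symm, rfl⟩]
  simp only [Pr2_F, h1, h2]

omit [Fintype ι] [DecidableEq ι] [Fintype V] [DecidableEq V] in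
private theorem Pr2_pp (hA : A.Loc) {e0 lam : ℕ} {x : V} {ω ω' : ι → Fin Rn → Fin Lam → Fin w}
    (h : A.Agree x ω ω') {S : Finset V} (hS : S ⊆ A.Pr2_R (A.st x) ω) :
    A.Pr2_P e0 lam ω S = A.Pr2_P e0 lam ω' S :=
  prod_congr rfl fun _ hy => prod_congr rfl fun r _ => Pr2_ff hA h hS hy r

omit [Fintype ι] [DecidableEq ι] [Fintype V] [DecidableEq V] in
private theorem Pr2_up_agree (x : V) (ω : ι → Fin Rn → Fin Lam → Fin w)
    (v : Fin Rn → ι → Fin w) : A.Agree x ω (A.Pr2_up x ω v) := by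
  rintro i r c ⟨z, hz, hlt, hb, hk⟩
  have h1 : ¬ (A.bi r i = A.bv r x ∧ A.Pr2_Fr ω r x ∧ c = A.κ r x) := by
    rintro ⟨h2, h3, h4⟩
    exact h3 z hz hlt (hb.trans h2) (hk.trans h4)
  simp only [Pr2_up, if_neg h1]

omit [Fintype V] [DecidableEq V] in
private theorem Pr2_swap (hA : A.Loc) (x : V) (g : (ι → Fin Rn → Fin Lam → Fin w) → ℝ) :
    ∑ ω : ι → Fin Rn → Fin Lam → Fin w, ∑ v : Fin Rn → ι → Fin w, g (A.Pr2_up x ω v) =
      (Fintype.card (Fin Rn → ι → Fin w) : ℝ) * ∑ ω, g ω := by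
  have h0 : ∀ (ω : ι → Fin Rn → Fin Lam → Fin w) (v : Fin Rn → ι → Fin w) (r : Fin Rn),
      A.Pr2_Fr (A.Pr2_up x ω v) r x ↔ A.Pr2_Fr ω r x := fun ω v r =>
    (Pr2_fr hA (Pr2_up_agree x ω v) le_rfl r).symm
  let T : (ι → Fin Rn → Fin Lam → Fin w) × (Fin Rn → ι → Fin w) →
      (ι → Fin Rn → Fin Lam → Fin w) × (Fin Rn → ι → Fin w) := fun p =>
    (A.Pr2_up x p.1 p.2, fun r i => if A.bi r i = A.bv r x ∧ A.Pr2_Fr p.1 r x then
      p.1 i r (A.κ r x) else p.2 r i)
  have hT : ∀ p, T (T p) = p := by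
    rintro ⟨ω, v⟩
    refine Prod.ext ?_ ?_
    · funext i r c
      change (if A.bi r i = A.bv r x ∧ A.Pr2_Fr (A.Pr2_up x ω v) r x ∧ c = A.κ r x then
        (if A.bi r i = A.bv r x ∧ A.Pr2_Fr ω r x then ω i r (A.κ r x) else v r i) else
          A.Pr2_up x ω v i r c) = ω i r c
      rw [h0]
      by_cases h1 : A.bi r i = A.bv r x ∧ A.Pr2_Fr ω r x ∧ c = A.κ r x
      · rw [if_pos h1, if_pos ⟨h1.1, h1.2.1⟩, h1.2.2]
      · rw [if_neg h1]
        simp only [Pr2_up, if_neg h1]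
    · funext r i
      change (if A.bi r i = A.bv r x ∧ A.Pr2_Fr (A.Pr2_up x ω v) r x then
        A.Pr2_up x ω v i r (A.κ r x) else
          (if A.bi r i = A.bv r x ∧ A.Pr2_Fr ω r x then ω i r (A.κ r x) else v r i)) = v r i
      rw [h0]
      by_cases h1 : A.bi r i = A.bv r x ∧ A.Pr2_Fr ω r x
      · rw [if_pos h1]
        simp only [Pr2_up]
        rw [if_pos ⟨h1.1, h1.2, trivial⟩]
      · rw [if_neg h1, if_neg h1]
  have h1 : ∑ ω : ι → Fin Rn → Fin Lam → Fin w, ∑ v : Fin Rn → ι → Fin w, g (A.Pr2_up x ω v) =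
      ∑ p : (ι → Fin Rn → Fin Lam → Fin w) × (Fin Rn → ι → Fin w), g (T p).1 := by
    rw [Fintype.sum_prod_type]
  have h2 : ∑ p : (ι → Fin Rn → Fin Lam → Fin w) × (Fin Rn → ι → Fin w), g (T p).1 =
      ∑ p : (ι → Fin Rn → Fin Lam → Fin w) × (Fin Rn → ι → Fin w), g p.1 := by
    refine Finset.sum_nbij' T T (fun p _ => mem_univ _) (fun p _ => mem_univ _)
      (fun p _ => hT p) (fun p _ => hT p) (fun p _ => rfl)
  rw [h1, h2, Fintype.sum_prod_type]
  simp [Finset.mul_sum]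

/-- Mean of one factor. -/
private theorem Pr2_mean (hw : 0 < w) {e0 lam : ℕ} (he : lam * w ≤ e0) (Y : Finset ι)
    (a : Fin w) :
    ∑ u : ι → Fin w, (if e0 ≤ Y.card ∧ ∀ i ∈ Y, u i ≠ a then (2 : ℝ) ^ lam / 2 else 1 / 2) ≤
      Fintype.card (ι → Fin w) := by
  have hwR : (0 : ℝ) < w := by exact_mod_cast hw
  have hcard : (Fintype.card (ι → Fin w) : ℝ) = (w : ℝ) ^ Fintype.card ι := by
    rw [Fintype.card_fun, Fintype.card_fin]; push_cast; rfl
  by_cases hY : e0 ≤ Y.card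
  · have h1 : ∀ u : ι → Fin w, (if e0 ≤ Y.card ∧ ∀ i ∈ Y, u i ≠ a then (2 : ℝ) ^ lam / 2
        else 1 / 2) ≤ 1 / 2 + (2 : ℝ) ^ lam / 2 * (if ∀ i ∈ Y, u i ≠ a then 1 else 0) := by
      intro u
      by_cases h2 : ∀ i ∈ Y, u i ≠ a
      · rw [if_pos ⟨hY, h2⟩, if_pos h2]; linarith
      · rw [if_neg (fun h => h2 h.2), if_neg h2]; simp
    have h3 : ∑ u : ι → Fin w, (if ∀ i ∈ Y, u i ≠ a then (1 : ℝ) else 0) =
        (w : ℝ) ^ Fintype.card ι * (1 - 1 / w) ^ Y.card := by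
      have h4 : ∀ u : ι → Fin w, (if ∀ i ∈ Y, u i ≠ a then (1 : ℝ) else 0) =
          ∏ i, (if i ∈ Y then (if u i ≠ a then (1 : ℝ) else 0) else 1) := by
        intro u
        by_cases h2 : ∀ i ∈ Y, u i ≠ a
        · rw [if_pos h2]
          symm
          refine prod_eq_one fun i _ => ?_
          by_cases hi : i ∈ Y
          · rw [if_pos hi, if_pos (h2 i hi)]
          · rw [if_neg hi]
        · rw [if_neg h2]
          push Not at h2
          obtain ⟨i, hi, hia⟩ := h2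
          symm
          refine prod_eq_zero (mem_univ i) ?_
          rw [if_pos hi, if_neg (by simpa using hia)]
      rw [sum_congr rfl fun u _ => h4 u]
      have h5 : ∑ u : ι → Fin w, ∏ i, (if i ∈ Y then (if u i ≠ a then (1 : ℝ) else 0) else 1) =
          ∏ i, ∑ b : Fin w, (if i ∈ Y then (if b ≠ a then (1 : ℝ) else 0) else 1) := by
        rw [Finset.prod_univ_sum]
        simp [Fintype.piFinset_univ]
      rw [h5]
      have h6 : ∀ i, ∑ b : Fin w, (if i ∈ Y then (if b ≠ a then (1 : ℝ) else 0) else 1) =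
          (w : ℝ) * (if i ∈ Y then (1 - 1 / (w : ℝ)) else 1) := by
        intro i
        by_cases hi : i ∈ Y
        · simp only [if_pos hi]
          rw [Finset.sum_ite]
          simp only [sum_const, nsmul_eq_mul, mul_one, sum_const_zero, add_zero]
          have h7 : (univ.filter fun b : Fin w => b ≠ a).card = w - 1 := by
            rw [Finset.filter_ne' univ a, card_erase_of_mem (mem_univ a), card_univ,
              Fintype.card_fin]
          rw [h7, Nat.cast_sub hw]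
          field_simp
          push_cast
          ring
        · simp [hi]
      rw [prod_congr rfl fun i _ => h6 i, prod_mul_distrib, prod_const, card_univ,
        prod_ite_mem, univ_inter, prod_const]
    have h8 : (1 - 1 / (w : ℝ)) ^ Y.card * 2 ^ lam ≤ 1 := by
      have hq0 : (0 : ℝ) ≤ 1 - 1 / w := by
        rw [sub_nonneg, div_le_one hwR]; exact_mod_cast hw
      have hq1 : (1 - 1 / (w : ℝ)) ≤ 1 := by
        have : (0 : ℝ) ≤ 1 / w := by positivity
        linarith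
      have h9 : (1 - 1 / (w : ℝ)) ^ w ≤ 1 / 2 := by
        have h10 := Real.one_sub_div_pow_le_exp_neg (n := w) (t := 1) (by exact_mod_cast hw)
        have h11 : Real.exp (-1) ≤ 1 / 2 := by
          have := Real.exp_neg_one_lt_d9
          linarith
        exact h10.trans h11
      calc (1 - 1 / (w : ℝ)) ^ Y.card * 2 ^ lam
          ≤ (1 - 1 / (w : ℝ)) ^ (w * lam) * 2 ^ lam := by
            refine mul_le_mul_of_nonneg_right ?_ (by positivity)
            exact pow_le_pow_of_le_one hq0 hq1 (by rw [mul_comm]; exact he.trans hY)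
        _ = ((1 - 1 / (w : ℝ)) ^ w * 2) ^ lam := by rw [mul_pow, pow_mul]
        _ ≤ 1 := by
            refine pow_le_one₀ (by positivity) ?_
            linarith
    calc _ ≤ ∑ u : ι → Fin w, (1 / 2 + (2 : ℝ) ^ lam / 2 *
          (if ∀ i ∈ Y, u i ≠ a then 1 else 0)) := sum_le_sum fun u _ => h1 u
      _ = (w : ℝ) ^ Fintype.card ι * (1 / 2 + (1 - 1 / (w : ℝ)) ^ Y.card * 2 ^ lam / 2) := by
          rw [sum_add_distrib, ← mul_sum, h3, sum_const, card_univ, nsmul_eq_mul, hcard]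
          ring
      _ ≤ (w : ℝ) ^ Fintype.card ι * 1 := by
          refine mul_le_mul_of_nonneg_left ?_ (by positivity)
          linarith
      _ = _ := by rw [mul_one, hcard]
  · have h1 : ∀ u : ι → Fin w, (if e0 ≤ Y.card ∧ ∀ i ∈ Y, u i ≠ a then (2 : ℝ) ^ lam / 2
        else 1 / 2) = 1 / 2 := fun u => if_neg fun h => hY h.1
    rw [sum_congr rfl fun u _ => h1 u, sum_const, card_univ, nsmul_eq_mul]
    have : (0 : ℝ) ≤ Fintype.card (ι → Fin w) := by positivity
    linarith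

/-- Mean of the factor of `x` over the new columns. -/
private theorem Pr2_key (hw : 0 < w) (hA : A.Loc) {e0 lam : ℕ} (he : lam * w ≤ e0) (x : V)
    (ω : ι → Fin Rn → Fin Lam → Fin w) {S : Finset V} (hS : S ⊆ A.Pr2_R (A.st x) ω) :
    ∑ v : Fin Rn → ι → Fin w, ∏ r, A.Pr2_F e0 lam (A.Pr2_up x ω v) S r x ≤
      Fintype.card (Fin Rn → ι → Fin w) := by
  let G : Fin Rn → (ι → Fin w) → ℝ := fun r u => if A.Pr2_Fr ω r x then
    (if e0 ≤ (A.Y ω S r x).card ∧ ∀ i ∈ A.Y ω S r x, u i ≠ A.ix r x then 2 ^ lam / 2 else 1 / 2)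
    else 1
  have h1 : ∀ (v : Fin Rn → ι → Fin w) (r : Fin Rn),
      A.Pr2_F e0 lam (A.Pr2_up x ω v) S r x = G r (v r) := by
    intro v r
    have hag := Pr2_up_agree x ω v (A := A)
    have h2 : A.Pr2_Fr (A.Pr2_up x ω v) r x ↔ A.Pr2_Fr ω r x := (Pr2_fr hA hag le_rfl r).symm
    have h3 : A.Y (A.Pr2_up x ω v) S r x = A.Y ω S r x := (Pr2_yy hA hag le_rfl hS r).symm
    by_cases hf : A.Pr2_Fr ω r x
    · have h4 : A.Un e0 (A.Pr2_up x ω v) S r x ↔
          (e0 ≤ (A.Y ω S r x).card ∧ ∀ i ∈ A.Y ω S r x, v r i ≠ A.ix r x) := by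
        simp only [Un]
        rw [h3]
        refine and_congr_right fun _ => ?_
        refine forall₂_congr fun i hi => ?_
        simp only [Pr2_up]
        rw [if_pos ⟨hA.bl ω S r x i hi, hf, trivial⟩]
      simp only [Pr2_F, h2, h4, G, if_pos hf]
    · simp only [Pr2_F, h2, G, if_neg hf]
  have h5 : ∑ v : Fin Rn → ι → Fin w, ∏ r, A.Pr2_F e0 lam (A.Pr2_up x ω v) S r x =
      ∏ r, ∑ u : ι → Fin w, G r u := by
    rw [Finset.prod_univ_sum]
    simp only [Fintype.piFinset_univ]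
    exact sum_congr rfl fun v _ => prod_congr rfl fun r _ => h1 v r
  rw [h5]
  have h6 : (Fintype.card (Fin Rn → ι → Fin w) : ℝ) =
      ∏ _r : Fin Rn, (Fintype.card (ι → Fin w) : ℝ) := by
    rw [prod_const, card_univ, Fintype.card_fun (α := Fin Rn)]
    push_cast
    rfl
  rw [h6]
  refine prod_le_prod (fun r _ => sum_nonneg fun u _ => ?_) fun r _ => ?_
  · simp only [G]
    split_ifs <;> positivity
  · by_cases hf : A.Pr2_Fr ω r x
    · have := Pr2_mean hw he (A.Y ω S r x) (A.ix r x)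
      simpa only [G, if_pos hf] using this
    · simp [G, if_neg hf]

omit [Fintype ι] [DecidableEq ι] [Fintype V] [DecidableEq V] in
private theorem Pr2_F_pos {e0 lam : ℕ} (ω : ι → Fin Rn → Fin Lam → Fin w) (S : Finset V)
    (r : Fin Rn) (x : V) : 1 / 2 ≤ A.Pr2_F e0 lam ω S r x := by
  have h : (1 : ℝ) ≤ 2 ^ lam := one_le_pow₀ (by norm_num)
  simp only [Pr2_F]
  split_ifs <;> linarith

omit [Fintype ι] [DecidableEq ι] [Fintype V] [DecidableEq V] in
private theorem Pr2_P_nonneg {e0 lam : ℕ} (ω : ι → Fin Rn → Fin Lam → Fin w) (S : Finset V) :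
    0 ≤ A.Pr2_P e0 lam ω S :=
  prod_nonneg fun x _ => prod_nonneg fun r _ => by
    have := Pr2_F_pos (A := A) (e0 := e0) (lam := lam) ω S r x
    linarith

omit [Fintype ι] [DecidableEq ι] [Fintype V] in
private theorem Pr2_split (hA : A.Loc) {e0 lam : ℕ} (x : V)
    (ω : ι → Fin Rn → Fin Lam → Fin w) :
    A.Pr2_Z e0 lam (A.st x + 1) ω = if x ∈ A.Rs ω then
      1 / 2 * (A.Pr2_Z e0 lam (A.st x) ω + (1 / 2) ^ (A.Pr2_R (A.st x) ω).card *
        ∑ S ∈ (A.Pr2_R (A.st x) ω).powerset, A.Pr2_P e0 lam ω S *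
          ∏ r, A.Pr2_F e0 lam ω S r x) else A.Pr2_Z e0 lam (A.st x) ω := by
  by_cases hx : x ∈ A.Rs ω
  · rw [if_pos hx]
    have hxR : x ∉ A.Pr2_R (A.st x) ω := fun h => lt_irrefl _ (mem_filter.1 h).2
    have hR : A.Pr2_R (A.st x + 1) ω = insert x (A.Pr2_R (A.st x) ω) := by
      ext z
      simp only [Pr2_R, mem_filter, mem_insert]
      constructor
      · rintro ⟨h1, h2⟩
        rcases Nat.lt_succ_iff_lt_or_eq.1 h2 with h3 | h3
        · exact Or.inr ⟨h1, h3⟩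
        · exact Or.inl (hA.inj h3)
      · rintro (rfl | ⟨h1, h2⟩)
        · exact ⟨hx, Nat.lt_succ_self _⟩
        · exact ⟨h1, h2.trans (Nat.lt_succ_self _)⟩
    have hag : ∀ y, A.Agree y ω ω := fun y i r c _ => rfl
    have hI : ∀ S ∈ (A.Pr2_R (A.st x) ω).powerset, A.Pr2_P e0 lam ω (insert x S) =
        A.Pr2_P e0 lam ω S * ∏ r, A.Pr2_F e0 lam ω S r x := by
      intro S hS
      rw [mem_powerset] at hS
      have hxS : x ∉ S := fun h => hxR (hS h)
      have hSR : S ⊆ A.Rs ω := hS.trans (filter_subset _ _)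
      have hF : ∀ y, A.st y ≤ A.st x → ∀ r, A.Pr2_F e0 lam ω (insert x S) r y =
          A.Pr2_F e0 lam ω S r y := by
        intro y hy r
        have h1 : A.Y ω (insert x S) r y = A.Y ω S r y := by
          refine hA.yy y ω ω (hag y) _ _ (fun z hz => ?_) (insert_subset hx hSR) hSR r
          rw [mem_insert]
          refine ⟨fun h => h.resolve_left ?_, Or.inr⟩
          rintro rfl
          exact absurd hz (not_lt.2 hy)
        have h2 : A.Un e0 ω (insert x S) r y ↔ A.Un e0 ω S r y := by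
          simp only [Un, h1]
        simp only [Pr2_F, h2]
      simp only [Pr2_P]
      rw [prod_insert hxS, mul_comm]
      congr 1
      · refine prod_congr rfl fun y hy => prod_congr rfl fun r _ => ?_
        exact hF y (mem_filter.1 (hS hy)).2.le r
      · exact prod_congr rfl fun r _ => hF x le_rfl r
    simp only [Pr2_Z]
    rw [hR, card_insert_of_notMem hxR, sum_powerset_insert hxR, sum_congr rfl hI, pow_succ]
    ring
  · rw [if_neg hx]
    have hR : A.Pr2_R (A.st x + 1) ω = A.Pr2_R (A.st x) ω := by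
      ext z
      simp only [Pr2_R, mem_filter]
      refine and_congr_right fun hz => ?_
      refine ⟨fun h => ?_, fun h => h.trans (Nat.lt_succ_self _)⟩
      rcases Nat.lt_succ_iff_lt_or_eq.1 h with h3 | h3
      · exact h3
      · exact absurd (hA.inj h3 ▸ hz) hx
    simp only [Pr2_Z, hR]

private theorem Pr2_step (hw : 0 < w) (hA : A.Loc) {e0 lam : ℕ} (he : lam * w ≤ e0) (τ : ℕ) :
    ∑ ω, A.Pr2_Z e0 lam (τ + 1) ω ≤ ∑ ω, A.Pr2_Z e0 lam τ ω := by
  by_cases hτ : ∃ x, A.st x = τ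
  · obtain ⟨x, rfl⟩ := hτ
    let g : (ι → Fin Rn → Fin Lam → Fin w) → ℝ := fun ω => if x ∈ A.Rs ω then
      (1 / 2) ^ (A.Pr2_R (A.st x) ω).card * ∑ S ∈ (A.Pr2_R (A.st x) ω).powerset,
        A.Pr2_P e0 lam ω S * ∏ r, A.Pr2_F e0 lam ω S r x else 0
    let g' : (ι → Fin Rn → Fin Lam → Fin w) → ℝ := fun ω => if x ∈ A.Rs ω then
      A.Pr2_Z e0 lam (A.st x) ω else 0
    have h1 : ∀ ω, A.Pr2_Z e0 lam (A.st x + 1) ω =
        A.Pr2_Z e0 lam (A.st x) ω + 1 / 2 * (g ω - g' ω) := by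
      intro ω
      rw [Pr2_split hA x ω]
      by_cases hx : x ∈ A.Rs ω
      · simp only [g, g', if_pos hx]; ring
      · simp only [g, g', if_neg hx]; ring
    have h2 : ∑ ω, g ω ≤ ∑ ω, g' ω := by
      have hpos : (0 : ℝ) < Fintype.card (Fin Rn → ι → Fin w) := by
        haveI : Nonempty (Fin w) := ⟨⟨0, hw⟩⟩
        exact_mod_cast Fintype.card_pos
      refine le_of_mul_le_mul_left ?_ hpos
      rw [← Pr2_swap hA x g, mul_sum]
      refine sum_le_sum fun ω _ => ?_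
      have hag := fun v => Pr2_up_agree x ω v (A := A)
      by_cases hx : x ∈ A.Rs ω
      · have h3 : ∀ v : Fin Rn → ι → Fin w, g (A.Pr2_up x ω v) =
            (1 / 2) ^ (A.Pr2_R (A.st x) ω).card * ∑ S ∈ (A.Pr2_R (A.st x) ω).powerset,
              A.Pr2_P e0 lam ω S * ∏ r, A.Pr2_F e0 lam (A.Pr2_up x ω v) S r x := by
          intro v
          have hx' : x ∈ A.Rs (A.Pr2_up x ω v) := (Pr2_mem hA (hag v) _ x rfl le_rfl).1 hx
          simp only [g, if_pos hx']
          rw [← Pr2_re hA (hag v)]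
          congr 1
          refine sum_congr rfl fun S hS => ?_
          rw [← Pr2_pp hA (hag v) (mem_powerset.1 hS)]
        rw [sum_congr rfl fun v _ => h3 v, ← mul_sum, sum_comm]
        simp only [g', if_pos hx, Pr2_Z]
        rw [mul_left_comm]
        refine mul_le_mul_of_nonneg_left ?_ (by positivity)
        rw [mul_sum]
        refine sum_le_sum fun S hS => ?_
        rw [← mul_sum, mul_comm]
        refine mul_le_mul_of_nonneg_right ?_ (Pr2_P_nonneg ω S)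
        exact Pr2_key hw hA he x ω (mem_powerset.1 hS)
      · have h3 : ∀ v : Fin Rn → ι → Fin w, g (A.Pr2_up x ω v) = 0 := by
          intro v
          have hx' : x ∉ A.Rs (A.Pr2_up x ω v) := fun h =>
            hx ((Pr2_mem hA (hag v) _ x rfl le_rfl).2 h)
          simp only [g, if_neg hx']
        rw [sum_congr rfl fun v _ => h3 v]
        simp only [g', if_neg hx, sum_const_zero, mul_zero]
        exact le_rfl
    rw [sum_congr rfl fun ω _ => h1 ω, sum_add_distrib, ← mul_sum, sum_sub_distrib]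
    linarith
  · refine sum_le_sum fun ω _ => ?_
    have hR : A.Pr2_R (τ + 1) ω = A.Pr2_R τ ω := by
      ext z
      simp only [Pr2_R, mem_filter]
      refine and_congr_right fun hz => ?_
      refine ⟨fun h => ?_, fun h => h.trans (Nat.lt_succ_self _)⟩
      rcases Nat.lt_succ_iff_lt_or_eq.1 h with h3 | h3
      · exact h3
      · exact absurd ⟨z, h3⟩ hτ
    simp only [Pr2_Z, hR]
    exact le_rfl

private theorem Pr2_total (hw : 0 < w) (hA : A.Loc) {e0 lam : ℕ} (he : lam * w ≤ e0) (τ : ℕ) :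
    ∑ ω, A.Pr2_Z e0 lam τ ω ≤ Fintype.card (ι → Fin Rn → Fin Lam → Fin w) := by
  induction τ with
  | zero =>
    have h1 : ∀ ω, A.Pr2_Z e0 lam 0 ω = 1 := by
      intro ω
      have hR : A.Pr2_R 0 ω = ∅ := by simp [Pr2_R]
      simp [Pr2_Z, hR, Pr2_P]
    rw [sum_congr rfl fun ω _ => h1 ω]
    simp
  | succ τ ih => exact (Pr2_step hw hA he τ).trans ih

variable (A)

/-- With probability `1 - 2^-k` every subset `S` of the participants has few unlucky pairs.
PROOF: order the names by `st`.  For `ω` and a time `τ` let `R_τ ω` be the participants with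
`st < τ`, and `Z_τ ω = 2 ^ (- |R_τ|) * ∑ S ⊆ R_τ, ∏ x ∈ S, ∏ r, F`, where `F = 1` if some
participant `z` with `st z < st x` has the class of `x` in label `r` (`x` is not fresh), otherwise
`F = 2 ^ lam / 2` if `Un` and `F = 1 / 2` if not.  If `τ' = τ + 1` and `x` is the name with `st x = τ`
(nothing to do if there is none or `x ∉ Rs ω`): `Z_τ' = Z_τ / 2 * (1 + mean of the factor of x)`,
where the factor of `x` depends on `S` (`yy`: only on the part with `st < st x`).  Claim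
`∑ ω, Z_τ' ω ≤ ∑ ω, Z_τ ω`: the set of the `ω` with `x ∈ Rs ω`, `Z_τ ω`, the freshness and
`Y ω S r x` do not change (`Agree`) when the coordinates `(i, r, κ r x)`, `bi r i = bv r x`,
for the fresh `r` are changed; these coordinates are independent and uniform, so the mean of
`∏ r fresh, F` is at most `1`: `P(Un) ≤ (1 - 1/w) ^ e0 ≤ 2 ^ (-lam)` if `e0 ≤ |Y|`, so the mean of `F` is
at most `(2 ^ lam * 2 ^ (-lam) + 1) / 2 ≤ 1`.  Hence `∑ ω, Z_∞ ≤ |Ω|`.  For every `S ⊆ Rs ω`: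
`Z_∞ ≥ 2 ^ (lam * #unlucky alone pairs - Rn * |S| - |Rs ω|)`.
Hint: sum over the names in the order of `st`; a convenient induction is on `τ ≤ max st + 1`. -/
theorem pr2 (hw : 0 < w) (hA : A.Loc) {e0 lam : ℕ} (he : lam * w ≤ e0) (k : ℕ) :
    (univ.filter fun ω => ∃ S ⊆ A.Rs ω, (Rn + 1) * (A.Rs ω).card + k <
      lam * (((univ : Finset (Fin Rn)) ×ˢ S).filter fun q =>
        A.Alone ω q.1 q.2 ∧ A.Un e0 ω S q.1 q.2).card).card * 2 ^ k ≤
      Fintype.card (ι → Fin Rn → Fin Lam → Fin w) := by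
  let τ : ℕ := (univ.sup A.st) + 1
  have hRτ : ∀ ω, A.Pr2_R τ ω = A.Rs ω := by
    intro ω
    refine filter_true_of_mem fun z _ => ?_
    exact Nat.lt_succ_of_le (le_sup (f := A.st) (mem_univ z))
  have hbig : ∀ ω ∈ (univ.filter fun ω => ∃ S ⊆ A.Rs ω, (Rn + 1) * (A.Rs ω).card + k <
      lam * (((univ : Finset (Fin Rn)) ×ˢ S).filter fun q =>
        A.Alone ω q.1 q.2 ∧ A.Un e0 ω S q.1 q.2).card), (2 : ℝ) ^ k ≤ A.Pr2_Z e0 lam τ ω := by
    intro ω hω
    obtain ⟨S, hS, hlt⟩ := (mem_filter.1 hω).2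
    set n := (((univ : Finset (Fin Rn)) ×ˢ S).filter fun q =>
        A.Alone ω q.1 q.2 ∧ A.Un e0 ω S q.1 q.2).card with hn
    have hP : (2 : ℝ) ^ (lam * n) * (1 / 2) ^ (Rn * S.card) ≤ A.Pr2_P e0 lam ω S := by
      have h1 : A.Pr2_P e0 lam ω S = ∏ q ∈ (univ : Finset (Fin Rn)) ×ˢ S,
          A.Pr2_F e0 lam ω S q.1 q.2 := by
        rw [Pr2_P, prod_product_right]
      have h2 : ∀ q ∈ (univ : Finset (Fin Rn)) ×ˢ S,
          (if A.Alone ω q.1 q.2 ∧ A.Un e0 ω S q.1 q.2 then (2 : ℝ) ^ lam else 1) * (1 / 2) ≤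
            A.Pr2_F e0 lam ω S q.1 q.2 := by
        intro q hq
        by_cases hc : A.Alone ω q.1 q.2 ∧ A.Un e0 ω S q.1 q.2
        · rw [if_pos hc]
          have hf : A.Pr2_Fr ω q.1 q.2 := by
            intro z hz hzlt hb hk
            have := hc.1 z hz hb hk
            rw [this] at hzlt
            exact lt_irrefl _ hzlt
          simp only [Pr2_F, if_pos hf, if_pos hc.2]
          linarith
        · rw [if_neg hc, one_mul]
          exact Pr2_F_pos ω S q.1 q.2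
      calc (2 : ℝ) ^ (lam * n) * (1 / 2) ^ (Rn * S.card)
          = ∏ q ∈ (univ : Finset (Fin Rn)) ×ˢ S,
            ((if A.Alone ω q.1 q.2 ∧ A.Un e0 ω S q.1 q.2 then (2 : ℝ) ^ lam else 1) *
              (1 / 2)) := by
            rw [prod_mul_distrib, prod_const, card_product, card_univ, Fintype.card_fin,
              prod_ite, prod_const, prod_const_one, mul_one, pow_mul, ← hn]
        _ ≤ _ := by
            rw [h1]
            refine prod_le_prod (fun q _ => ?_) h2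
            split_ifs <;> positivity
    have h3 : A.Pr2_P e0 lam ω S ≤ ∑ S' ∈ (A.Pr2_R τ ω).powerset, A.Pr2_P e0 lam ω S' := by
      refine single_le_sum (f := fun S' => A.Pr2_P e0 lam ω S')
        (fun S' _ => Pr2_P_nonneg ω S') ?_
      rw [mem_powerset, hRτ]
      exact hS
    have h4 : S.card ≤ (A.Rs ω).card := card_le_card hS
    have h5 : k + ((A.Rs ω).card + Rn * S.card) ≤ lam * n := by
      have : Rn * S.card ≤ Rn * (A.Rs ω).card := Nat.mul_le_mul_left _ h4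
      nlinarith
    calc (2 : ℝ) ^ k = 2 ^ (k + ((A.Rs ω).card + Rn * S.card)) *
          ((1 / 2) ^ (A.Rs ω).card * (1 / 2) ^ (Rn * S.card)) := by
          rw [← pow_add, pow_add, mul_assoc, ← mul_pow]
          norm_num
      _ ≤ 2 ^ (lam * n) * ((1 / 2) ^ (A.Rs ω).card * (1 / 2) ^ (Rn * S.card)) := by
          refine mul_le_mul_of_nonneg_right ?_ (by positivity)
          exact pow_le_pow_right₀ (by norm_num) h5
      _ = (1 / 2) ^ (A.Rs ω).card * (2 ^ (lam * n) * (1 / 2) ^ (Rn * S.card)) := by ring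
      _ ≤ (1 / 2) ^ (A.Rs ω).card * A.Pr2_P e0 lam ω S :=
          mul_le_mul_of_nonneg_left hP (by positivity)
      _ ≤ A.Pr2_Z e0 lam τ ω := by
          rw [Pr2_Z, hRτ]
          rw [hRτ] at h3
          exact mul_le_mul_of_nonneg_left h3 (by positivity)
  have hZ0 : ∀ ω, 0 ≤ A.Pr2_Z e0 lam τ ω := fun ω =>
    mul_nonneg (by positivity) (sum_nonneg fun S _ => Pr2_P_nonneg ω S)
  have hfin := Pr2_total (A := A) hw hA he τ
  have h6 : (((univ.filter fun ω => ∃ S ⊆ A.Rs ω, (Rn + 1) * (A.Rs ω).card + k <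
      lam * (((univ : Finset (Fin Rn)) ×ˢ S).filter fun q =>
        A.Alone ω q.1 q.2 ∧ A.Un e0 ω S q.1 q.2).card).card : ℝ)) * 2 ^ k ≤
      ∑ ω, A.Pr2_Z e0 lam τ ω := by
    calc _ = ∑ _ω ∈ (univ.filter fun ω => ∃ S ⊆ A.Rs ω, (Rn + 1) * (A.Rs ω).card + k <
      lam * (((univ : Finset (Fin Rn)) ×ˢ S).filter fun q =>
        A.Alone ω q.1 q.2 ∧ A.Un e0 ω S q.1 q.2).card), (2 : ℝ) ^ k := by
          rw [sum_const, nsmul_eq_mul]
      _ ≤ _ := sum_le_sum hbig
      _ ≤ ∑ ω, A.Pr2_Z e0 lam τ ω :=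
          sum_le_sum_of_subset_of_nonneg (subset_univ _) fun ω _ _ => hZ0 ω
  exact_mod_cast h6.trans hfin

end Ad

end Pool.Agent.X217
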