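import Pool.Agent.X217.Fam2
import Pool.Agent.X217.Pr2

set_option autoImplicit false

namespace Pool.Agent.X217

open Finset

attribute [local instance 10] Classical.propDecidable

namespace Fam

variable {V : Type} [Fintype V] [DecidableEq V] {N Rn Lam w : ℕ} {F : Fam V N Rn Lam w}

/-! ### private helpers -/

private theorem fam3_al_mono (hF : F.Ok) (y : V) {u v : ℕ} (hu : 1 ≤ u) (huv : u ≤ v)
    (hv : v ≤ N + 1) : F.al y u ≤ F.al y v := by
  induction v, huv using Nat.le_induction with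
  | base => exact le_rfl
  | succ v h ih =>
    have h1 := hF.al_be y v (hu.trans h) (by omega)
    have h2 := hF.be_al y v (hu.trans h) (by omega)
    exact (ih (by omega)).trans (h1.trans h2).le

private theorem fam3_be_lt (hF : F.Ok) (y : V) {u : ℕ} (hu : 1 ≤ u) (hv : u ≤ N) :
    F.be y 1 < F.al y (u + 1) := by
  have h1 := hF.be_al y 1 le_rfl (by omega)
  exact lt_of_lt_of_le h1 (fam3_al_mono hF y (by omega) (by omega) (by omega))

private theorem fam3_mem_Ys {W : Type} {X : Ph W} {S : Finset W} {r j : ℕ} {x y : W} {s : ℕ} :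
    (y, s) ∈ X.Ys S r j x ↔ (y ∈ S ∧ 2 ≤ s ∧ s ≤ X.N) ∧ y ≠ x ∧ X.bl r y = X.bl r x ∧
      X.tt S j y < s ∧ X.be y s < X.be x 1 := by
  simp only [Ph.Ys, mem_filter, mem_product, mem_Icc]

/-- The rows of `Ys`. -/
private noncomputable def fam3_rows (F : Fam V N Rn Lam w) (b a : Tb V N Rn Lam w)
    (S : Finset V) (r : ℕ) (x : V) (j : ℕ) : Finset (V × Fin (N + 1)) :=
  univ.filter fun i => (i.1, i.2.val) ∈ (F.ph a b).Ys (S ∩ F.C0) r j x

private theorem fam3_mem_rows {b a : Tb V N Rn Lam w} {S : Finset V} {r : ℕ} {x : V} {j : ℕ}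
    {y : V} {s : Fin (N + 1)} : (y, s) ∈ fam3_rows F b a S r x j ↔
      y ∈ S ∧ y ∈ F.C0 ∧ 2 ≤ s.val ∧ y ≠ x ∧ F.bl r y = F.bl r x ∧
        (F.ph a b).tt (S ∩ F.C0) j y < s.val ∧ F.be y s.val < F.be x 1 := by
  have hs : s.val ≤ N := Nat.lt_succ_iff.1 s.2
  unfold fam3_rows
  rw [mem_filter, fam3_mem_Ys, mem_inter]
  constructor
  · rintro ⟨-, ⟨⟨h1, h2⟩, h3, -⟩, h4, h5, h6, h7⟩
    exact ⟨h1, h2, h3, h4, h5, h6, h7⟩
  · rintro ⟨h1, h2, h3, h4, h5, h6, h7⟩
    exact ⟨mem_univ _, ⟨⟨h1, h2⟩, h3, hs⟩, h4, h5, h6, h7⟩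

private theorem fam3_rows_image (b a : Tb V N Rn Lam w) (S : Finset V) (r : ℕ) (x : V) (j : ℕ) :
    (fam3_rows F b a S r x j).image (fun i => (i.1, i.2.val)) =
      (F.ph a b).Ys (S ∩ F.C0) r j x := by
  ext ⟨y, s⟩
  rw [mem_image]
  constructor
  · rintro ⟨⟨y', s'⟩, hm, he⟩
    have hm' := (mem_filter.1 hm).2
    rw [← he]
    exact hm'
  · intro hm
    have h2 : s ≤ N := (fam3_mem_Ys.1 hm).1.2.2
    refine ⟨(y, ⟨s, Nat.lt_succ_of_le h2⟩), ?_, rfl⟩
    exact mem_filter.2 ⟨mem_univ _, hm⟩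

private theorem fam3_rows_card (b a : Tb V N Rn Lam w) (S : Finset V) (r : ℕ) (x : V) (j : ℕ) :
    (fam3_rows F b a S r x j).card = ((F.ph a b).Ys (S ∩ F.C0) r j x).card := by
  rw [← fam3_rows_image, card_image_of_injective]
  rintro ⟨y, s⟩ ⟨y', s'⟩ h
  have h' : (y, s.val) = (y', s'.val) := h
  rw [Prod.mk.injEq] at h'
  exact Prod.ext h'.1 (Fin.ext h'.2)

omit [Fintype V] in
private theorem fam3_tt_le (b a : Tb V N Rn Lam w) (S : Finset V) (y : V) {j j' : ℕ}
    (h : j ≤ j') : (F.ph a b).tt S j y ≤ (F.ph a b).tt S j' y := by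
  induction j', h using Nat.le_induction with
  | base => exact le_rfl
  | succ j' h ih => exact ih.trans (Ph.tt_mono _ _ _)

private theorem fam3_rows_anti (b a : Tb V N Rn Lam w) (S : Finset V) (r : ℕ) (x : V)
    {j j' : ℕ} (h : j ≤ j') : fam3_rows F b a S r x j' ⊆ fam3_rows F b a S r x j := by
  rintro ⟨y, s⟩ hm
  rw [fam3_mem_rows] at hm ⊢
  obtain ⟨h1, h2, h3, h4, h5, h6, h7⟩ := hm
  exact ⟨h1, h2, h3, h4, h5, lt_of_le_of_lt (fam3_tt_le b a _ y h) h6, h7⟩

private theorem fam3_rows_loc (hF : F.Ok) {x : V} (hx : F.be x 1 ≤ F.hz)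
    {a a' b : Tb V N Rn Lam w} (hag : F.AgW a a' b (F.be x 1)) {S S' : Finset V}
    (hS : S ⊆ F.R a b) (hS' : S' ⊆ F.R a' b)
    (hSS : ∀ z, F.be z 1 < F.be x 1 → (z ∈ S ↔ z ∈ S')) (r j : ℕ) :
    fam3_rows F b a S r x j = fam3_rows F b a' S' r x j := by
  have h1 : S ∩ F.C0 ⊆ F.R a b ∩ F.C0 := inter_subset_inter_right hS
  have h2 : S' ∩ F.C0 ⊆ F.R a' b ∩ F.C0 := inter_subset_inter_right hS'
  have h3 : ∀ z, F.be z 1 < F.be x 1 → (z ∈ S ∩ F.C0 ↔ z ∈ S' ∩ F.C0) := by
    intro z hz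
    rw [mem_inter, mem_inter, hSS z hz]
  ext ⟨y, s⟩
  rw [fam3_mem_rows, fam3_mem_rows]
  have hs : s.val ≤ N := Nat.lt_succ_iff.1 s.2
  have key : y ∈ S → y ∈ F.C0 → 2 ≤ s.val → F.be y s.val < F.be x 1 →
      ((F.ph a b).tt (S ∩ F.C0) j y < s.val ↔ (F.ph a' b).tt (S' ∩ F.C0) j y < s.val) := by
    intro hy hc h2s hb
    have e : s.val - 1 + 1 = s.val := by omega
    have hal : F.al y (s.val - 1 + 1) ≤ F.be x 1 := by
      rw [e]
      exact ((hF.al_be y s.val (by omega) hs).trans hb).le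
    have hb1 : F.be y 1 < F.be x 1 := by
      have h := fam3_be_lt hF y (u := s.val - 1) (by omega) (by omega)
      exact h.trans_le hal
    have h := tt_loc hF hx hag h1 h2 h3 j y (mem_inter.2 ⟨hy, hc⟩) hb1 (s.val - 1) (by omega) hal
    omega
  have kb : 2 ≤ s.val → F.be y s.val < F.be x 1 → F.be y 1 < F.be x 1 := by
    intro h2s hb
    have e : s.val - 1 + 1 = s.val := by omega
    have h := fam3_be_lt hF y (u := s.val - 1) (by omega) (by omega)
    rw [e] at h
    exact h.trans ((hF.al_be y s.val (by omega) hs).trans hb)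
  constructor
  · rintro ⟨g1, g2, g3, g4, g5, g6, g7⟩
    exact ⟨(hSS y (kb g3 g7)).1 g1, g2, g3, g4, g5, (key g1 g2 g3 g7).1 g6, g7⟩
  · rintro ⟨g1, g2, g3, g4, g5, g6, g7⟩
    have g1' := (hSS y (kb g3 g7)).2 g1
    exact ⟨g1', g2, g3, g4, g5, (key g1' g2 g3 g7).2 g6, g7⟩

/-- The rows for the largest `j < J` with at least `e0` rows. -/
private noncomputable def fam3_sel (J e0 : ℕ) (rows : ℕ → Finset (V × Fin (N + 1))) :
    Finset (V × Fin (N + 1)) :=
  if ∃ j, j < J ∧ e0 ≤ (rows j).card then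
    rows (Nat.findGreatest (fun j => j < J ∧ e0 ≤ (rows j).card) J) else ∅

omit [Fintype V] [DecidableEq V] in
private theorem fam3_sel_spec {J e0 : ℕ} {rows : ℕ → Finset (V × Fin (N + 1))} {j : ℕ}
    (hj : j < J) (hc : e0 ≤ (rows j).card) : ∃ j0, j ≤ j0 ∧ e0 ≤ (rows j0).card ∧
      fam3_sel J e0 rows = rows j0 := by
  have hp : j < J ∧ e0 ≤ (rows j).card := ⟨hj, hc⟩
  refine ⟨Nat.findGreatest (fun j => j < J ∧ e0 ≤ (rows j).card) J, ?_, ?_, ?_⟩
  · exact Nat.le_findGreatest hj.le hp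
  · exact (Nat.findGreatest_spec (P := fun j => j < J ∧ e0 ≤ (rows j).card) hj.le hp).2
  · unfold fam3_sel
    rw [if_pos ⟨j, hp⟩]

omit [Fintype V] [DecidableEq V] in
private theorem fam3_sel_sub {J e0 : ℕ} {rows : ℕ → Finset (V × Fin (N + 1))}
    {i : V × Fin (N + 1)} (h : i ∈ fam3_sel J e0 rows) : ∃ j, i ∈ rows j := by
  unfold fam3_sel at h
  split_ifs at h with h1
  · exact ⟨_, h⟩
  · exact absurd h (notMem_empty _)

/-- The data for `Ad.pr2`. -/
private noncomputable def fam3_ad (F : Fam V N Rn Lam w) (b : Tb V N Rn Lam w) (J e0 : ℕ) :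
    Ad (V × Fin (N + 1)) V Rn Lam w where
  bi := fun r i => F.bl r.val i.1
  bv := fun r x => F.bl r.val x
  κ := fun r x => F.κ r.val x
  ix := fun r x => F.ix r.val x
  st := fun x => F.be x 1
  Rs := fun a => F.R a b
  Y := fun a S r x => if F.be x 1 ≤ F.hz then
    fam3_sel J e0 (fun j => fam3_rows F b a S r.val x j) else ∅

private theorem fam3_agW {b : Tb V N Rn Lam w} {J e0 : ℕ} {x : V} {a a' : Tb V N Rn Lam w}
    (h : (fam3_ad F b J e0).Agree x a a') {τ : ℕ} (hτ : τ ≤ F.be x 1) : F.AgW a a' b τ := by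
  intro q r c hz
  obtain ⟨z, hz1, hz2, hz3, hz4⟩ := hz
  exact h q r c ⟨z, hz1, lt_of_lt_of_le hz2 hτ, hz3, hz4⟩

private theorem fam3_loc (hF : F.Ok) (hN : 1 ≤ N) (b : Tb V N Rn Lam w) (J e0 : ℕ) :
    (fam3_ad F b J e0).Loc where
  inj := fun y y' h => hF.be_inj y y' h
  mem := by
    intro x a a' hag hx
    have hx' : x ∈ F.R a b := hx
    show x ∈ F.R a' b
    have h1 := hF.hzR a b x hx'
    have h2 := hF.al_be x 1 le_rfl hN
    rcases le_total (F.be x 1) F.hz with hle | hle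
    · exact (hF.locW a a' b (F.be x 1) hle (fam3_agW hag le_rfl)).1 x h2.le hx'
    · exact (hF.locW a a' b F.hz le_rfl (fam3_agW hag hle)).1 x h1 hx'
  yy := by
    intro x a a' hag S S' hSS hS hS' r
    show (if F.be x 1 ≤ F.hz then _ else _) = (if F.be x 1 ≤ F.hz then _ else _)
    by_cases hx : F.be x 1 ≤ F.hz
    · rw [if_pos hx, if_pos hx]
      have e : (fun j => fam3_rows F b a S r.val x j) = fun j => fam3_rows F b a' S' r.val x j := by
        funext j
        exact fam3_rows_loc hF hx (fam3_agW hag le_rfl) hS hS' hSS r.val j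
      rw [e]
    · rw [if_neg hx, if_neg hx]
  bl := by
    intro a S r x i hi
    have hi' : i ∈ (if F.be x 1 ≤ F.hz then
      fam3_sel J e0 (fun j => fam3_rows F b a S r.val x j) else ∅) := hi
    split_ifs at hi' with h1
    · obtain ⟨j, hj⟩ := fam3_sel_sub hi'
      obtain ⟨y, s⟩ := i
      exact (fam3_mem_rows.1 hj).2.2.2.2.1
    · exact absurd hi' (notMem_empty _)

private theorem fam3_un (hF : F.Ok) (hN : 1 ≤ N) {b a : Tb V N Rn Lam w} {J e0 : ℕ}
    {S : Finset V} (hS : S ⊆ F.R a b ∩ F.C0) {r : Fin Rn} {x : V} (hx : x ∈ S)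
    (h : (F.ph a b).Unl S J e0 r.val x) : (fam3_ad F b J e0).Un e0 a S r x := by
  have hxC : x ∈ F.C0 := (mem_inter.1 (hS hx)).2
  have hSC : S ∩ F.C0 = S := inter_eq_left.2 fun z hz => (mem_inter.1 (hS hz)).2
  have hhz : F.be x 1 ≤ F.hz := by
    have h1 := hF.hzC x hxC
    have h2 := fam3_be_lt hF x (u := N) hN le_rfl
    exact (h2.trans_le h1).le
  obtain ⟨j, hj, hc, hmiss⟩ := h
  have hc' : e0 ≤ (fam3_rows F b a S r.val x j).card := by
    rw [fam3_rows_card, hSC]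
    exact hc
  obtain ⟨j0, hj0, hc0, hsel⟩ := fam3_sel_spec
    (rows := fun j => fam3_rows F b a S r.val x j) hj hc'
  have hY : (fam3_ad F b J e0).Y a S r x = fam3_rows F b a S r.val x j0 := by
    show (if F.be x 1 ≤ F.hz then
      fam3_sel J e0 (fun j => fam3_rows F b a S r.val x j) else ∅) = _
    rw [if_pos hhz, hsel]
  refine ⟨?_, ?_⟩
  · rw [hY]
    exact hc0
  · rw [hY]
    rintro ⟨y, s⟩ hi
    have hi' := fam3_rows_anti b a S r.val x hj0 hi
    have hm : (y, s.val) ∈ (F.ph a b).Ys S r.val j x := by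
      have h1 := (mem_filter.1 hi').2
      rw [hSC] at h1
      exact h1
    have hw := hmiss _ hm
    intro he
    exact hw ⟨s.2, r.2, he⟩

/-- The number of unlucky pairs.
PROOF: `Ad.pr2` for fixed `b`, `Rs a = F.R a b`; `Y a S r x` = `Ys (S ∩ C0) r j x` (as rows) for the
largest `j < J` with `e0 ≤ card`, and `∅` if there is none; `Unl` for some `j` implies `Ad.Un` (the
sets `Ys S r j x` decrease in `j`, `tt_mono`).  Locality: for `x` with `be x 1 ≤ hz` use `locW` and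
`tt_loc` with `τ = be x 1` (ticks `(y, s)` with `be y s < be x 1`: `tt S j y < s` iff
`tt S j y ≤ s - 1`, and `al y s < be y s < τ`).  For `x` with `hz < be x 1` put `Y = ∅`; they can be
participants (`hzR` is only `al x 1 ≤ hz`), `Loc.mem` for them: `Agree x` gives `AgW` at `τ = hz`, use
`locW` with `τ = hz`; they are never in `C0` (`be x 1 < al x (N + 1) ≤ hz` if `1 ≤ N`; if `N = 0` there
are no ticks). -/
theorem unl_sum (hF : F.Ok) (hw : 0 < w) (J e0 lam k : ℕ) (he : lam * w ≤ e0)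
    (b : Tb V N Rn Lam w) :
    (univ.filter fun a => ∃ S ⊆ F.R a b ∩ F.C0, (Rn + 1) * (F.R a b).card + k <
      lam * ∑ r ∈ range Rn, (S.filter fun x => (∀ z ∈ F.R a b, F.bl r z = F.bl r x →
        F.κ r z = F.κ r x → z = x) ∧ (F.ph a b).Unl S J e0 r x).card).card * 2 ^ k ≤
      Fintype.card (Tb V N Rn Lam w) := by
  rcases Nat.eq_zero_or_pos N with hN | hN
  · -- there are no ticks
    have hemp : (univ.filter fun a : Tb V N Rn Lam w => ∃ S ⊆ F.R a b ∩ F.C0,
        (Rn + 1) * (F.R a b).card + k <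
        lam * ∑ r ∈ range Rn, (S.filter fun x => (∀ z ∈ F.R a b, F.bl r z = F.bl r x →
        F.κ r z = F.κ r x → z = x) ∧ (F.ph a b).Unl S J e0 r x).card) = ∅ := by
      rw [filter_eq_empty_iff]
      rintro a - ⟨S, hS, hlt⟩
      rcases Nat.eq_zero_or_pos lam with hl | hl
      · rw [hl, Nat.zero_mul] at hlt
        exact absurd hlt (Nat.not_lt_zero _)
      · have he1 : 0 < e0 := lt_of_lt_of_le (Nat.mul_pos hl hw) he
        have hz : ∑ r ∈ range Rn, (S.filter fun x => (∀ z ∈ F.R a b, F.bl r z = F.bl r x →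
            F.κ r z = F.κ r x → z = x) ∧ (F.ph a b).Unl S J e0 r x).card = 0 := by
          refine sum_eq_zero fun r _ => ?_
          rw [card_eq_zero, filter_eq_empty_iff]
          rintro x - ⟨-, j, -, hc, -⟩
          have hY : (F.ph a b).Ys S r j x = ∅ := by
            refine eq_empty_of_forall_notMem ?_
            rintro ⟨y, s⟩ hys
            have h1 := (fam3_mem_Ys.1 hys).1
            have h2 : s ≤ N := h1.2.2
            have h3 : 2 ≤ s := h1.2.1
            omega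
          rw [hY, card_empty] at hc
          omega
        rw [hz, Nat.mul_zero] at hlt
        exact absurd hlt (Nat.not_lt_zero _)
    rw [hemp, card_empty, Nat.zero_mul]
    exact Nat.zero_le _
  · have h := Ad.pr2 (A := fam3_ad F b J e0) hw (fam3_loc hF hN b J e0) he k
    refine le_trans (Nat.mul_le_mul_right _ (card_le_card ?_)) h
    intro a ha
    obtain ⟨S, hS, hlt⟩ := (mem_filter.1 ha).2
    refine mem_filter.2 ⟨mem_univ _, S, fun z hz => (mem_inter.1 (hS hz)).1, ?_⟩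
    refine lt_of_lt_of_le hlt (Nat.mul_le_mul_left _ ?_)
    rw [sum_range]
    have e : (((univ : Finset (Fin Rn)) ×ˢ S).filter fun q =>
        (fam3_ad F b J e0).Alone a q.1 q.2 ∧ (fam3_ad F b J e0).Un e0 a S q.1 q.2).card =
        ∑ r : Fin Rn, (S.filter fun x => (fam3_ad F b J e0).Alone a r x ∧
          (fam3_ad F b J e0).Un e0 a S r x).card := by
      rw [card_filter, sum_product]
      refine sum_congr rfl fun r _ => ?_
      rw [card_filter]
    rw [e]
    refine sum_le_sum fun r _ => card_le_card ?_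
    intro x hx
    obtain ⟨hxS, h1, h2⟩ := mem_filter.1 hx
    exact mem_filter.2 ⟨hxS, fun z hz hb hk => h1 z hz hb hk, fam3_un hF hN hS hxS h2⟩

end Fam

end Pool.Agent.X217
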