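import Pool.Agent.X217.Fam1
import Pool.Agent.X217.Fam3

set_option autoImplicit false

namespace Pool.Agent.X217

open Finset

attribute [local instance 10] Classical.propDecidable

namespace Fam

variable {V : Type} [Fintype V] [DecidableEq V] {N Rn Lam w : ℕ} (F : Fam V N Rn Lam w)

/-- The good event: few failed tests, few unlucky pairs. -/
def Ev (D J k : ℕ) (a b : Tb V N Rn Lam w) : Prop :=
  (∑ r ∈ range Rn, ∑ x ∈ F.R a b, ((F.ph a b).Gs (64 * D * Lam) r x).card ≤
    2 * w * (Rn * (F.R a b).card + k)) ∧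
  ∀ S ⊆ F.R a b ∩ F.C0, 64 * D * ∑ r ∈ range Rn, (S.filter fun x =>
    (∀ z ∈ F.R a b, F.bl r z = F.bl r x → F.κ r z = F.κ r x → z = x) ∧
      (F.ph a b).Unl S J (64 * D * w) r x).card ≤ (Rn + 1) * (F.R a b).card + k

/-- Counting pairs. -/
private theorem phm2_card {α β : Type} [Fintype α] [Fintype β] (P : α → β → Prop) (c m : ℕ)
    (h : ∀ a, (univ.filter fun b => P a b).card * m ≤ c) :
    (univ.filter fun q : α × β => P q.1 q.2).card * m ≤ Fintype.card α * c := by
  have e : (univ.filter fun q : α × β => P q.1 q.2).card = ∑ a, (univ.filter fun b => P a b).card := by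
    simp only [card_filter, Fintype.sum_prod_type]
  rw [e, sum_mul]
  calc ∑ a, (univ.filter fun b => P a b).card * m ≤ ∑ _a : α, c := sum_le_sum fun a _ => h a
    _ = Fintype.card α * c := by rw [sum_const, card_univ, smul_eq_mul]

/-- Counting pairs. -/
private theorem phm2_card' {α β : Type} [Fintype α] [Fintype β] (P : α → β → Prop) (c m : ℕ)
    (h : ∀ b, (univ.filter fun a => P a b).card * m ≤ c) :
    (univ.filter fun q : α × β => P q.1 q.2).card * m ≤ Fintype.card β * c := by
  have e : (univ.filter fun q : α × β => P q.1 q.2).card = ∑ b, (univ.filter fun a => P a b).card := by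
    simp only [card_filter, Fintype.sum_prod_type]
    exact sum_comm
  rw [e, sum_mul]
  calc ∑ b, (univ.filter fun a => P a b).card * m ≤ ∑ _b : β, c := sum_le_sum fun b _ => h b
    _ = Fintype.card β * c := by rw [sum_const, card_univ, smul_eq_mul]

/-- The good event is likely. -/
theorem ev_card (hF : F.Ok) (hw : 0 < w) (D J k : ℕ) :
    ((univ : Finset (Tb V N Rn Lam w × Tb V N Rn Lam w)).filter fun q =>
      ¬ F.Ev D J k q.1 q.2).card * 2 ^ k ≤
      2 * (Fintype.card (Tb V N Rn Lam w) * Fintype.card (Tb V N Rn Lam w)) := by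
  have h1 := phm2_card (α := Tb V N Rn Lam w) (β := Tb V N Rn Lam w)
    (fun a b => 2 * w * (Rn * (F.R a b).card + k) <
      ∑ r ∈ range Rn, ∑ x ∈ F.R a b, ((F.ph a b).Gs (64 * D * Lam) r x).card) (Fintype.card (Tb V N Rn Lam w)) (2 ^ k)
    (fun a => by convert gs_sum hF hw (64 * D * Lam) k a)
  have h2 := phm2_card' (α := Tb V N Rn Lam w) (β := Tb V N Rn Lam w)
    (fun a b => ∃ S ⊆ F.R a b ∩ F.C0, (Rn + 1) * (F.R a b).card + k <
      64 * D * ∑ r ∈ range Rn, (S.filter fun x => (∀ z ∈ F.R a b, F.bl r z = F.bl r x →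
        F.κ r z = F.κ r x → z = x) ∧ (F.ph a b).Unl S J (64 * D * w) r x).card) (Fintype.card (Tb V N Rn Lam w)) (2 ^ k)
    (fun b => by convert unl_sum hF hw J (64 * D * w) (64 * D) k le_rfl b)
  have h3 : ((univ : Finset (Tb V N Rn Lam w × Tb V N Rn Lam w)).filter fun q =>
      ¬ F.Ev D J k q.1 q.2).card ≤
      (univ.filter fun q : Tb V N Rn Lam w × Tb V N Rn Lam w =>
        2 * w * (Rn * (F.R q.1 q.2).card + k) <
        ∑ r ∈ range Rn, ∑ x ∈ F.R q.1 q.2, ((F.ph q.1 q.2).Gs (64 * D * Lam) r x).card).card +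
      (univ.filter fun q : Tb V N Rn Lam w × Tb V N Rn Lam w =>
        ∃ S ⊆ F.R q.1 q.2 ∩ F.C0, (Rn + 1) * (F.R q.1 q.2).card + k <
        64 * D * ∑ r ∈ range Rn, (S.filter fun x => (∀ z ∈ F.R q.1 q.2, F.bl r z = F.bl r x →
          F.κ r z = F.κ r x → z = x) ∧ (F.ph q.1 q.2).Unl S J (64 * D * w) r x).card).card := by
    refine (card_le_card fun q hq => ?_).trans (card_union_le _ _)
    rw [mem_filter] at hq
    rw [mem_union, mem_filter, mem_filter]
    by_contra hc
    rw [not_or] at hc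
    refine hq.2 ⟨?_, fun S hS => ?_⟩
    · by_contra hh
      exact hc.1 ⟨mem_univ _, not_le.1 hh⟩
    · by_contra hh
      exact hc.2 ⟨mem_univ _, S, hS, not_le.1 hh⟩
  refine (Nat.mul_le_mul_right (2 ^ k) h3).trans ?_
  rw [add_mul, two_mul (Fintype.card (Tb V N Rn Lam w) * Fintype.card (Tb V N Rn Lam w))]
  exact Nat.add_le_add (by convert h1) (by convert h2)

end Fam

end Pool.Agent.X217
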