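import Pool.Agent.X217.PhDefs

set_option autoImplicit false

/-!
# The tick phase: crowded blocks and collisions
-/

namespace Pool.Agent.X217

open Finset

attribute [local instance 10] Classical.propDecidable

/-- Elements which are not alone in their cell.
PROOF: a cell with `k ≥ 2` elements of `U` contributes `k ≤ 2 (k - 1)`. -/
theorem collide_card {V : Type*} (U : Finset V) (cell : V → ℕ × ℕ) :
    (U.filter fun x => ∃ z ∈ U, z ≠ x ∧ cell z = cell x).card + 2 * (U.image cell).card ≤
      2 * U.card := by
  have h1 : (U.filter fun x => ∃ z ∈ U, z ≠ x ∧ cell z = cell x).card =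
      ∑ b ∈ U.image cell, ((U.filter fun x => ∃ z ∈ U, z ≠ x ∧ cell z = cell x).filter
        fun x => cell x = b).card := by
    refine card_eq_sum_card_fiberwise fun x hx => ?_
    have hx' : x ∈ U := (mem_filter.1 hx).1
    exact mem_coe.2 (mem_image_of_mem _ hx')
  have h2 : U.card = ∑ b ∈ U.image cell, (U.filter fun x => cell x = b).card :=
    card_eq_sum_card_image cell U
  have h3 : (U.image cell).card = ∑ _b ∈ U.image cell, 1 := by simp
  rw [h1, h2, h3, mul_sum, mul_sum, ← sum_add_distrib]
  refine sum_le_sum fun b hb => ?_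
  obtain ⟨x, hx, rfl⟩ := mem_image.1 hb
  by_cases hc : ∃ z ∈ U, z ≠ x ∧ cell z = cell x
  · obtain ⟨z, hz, hzx, hzc⟩ := hc
    have h4 : 2 ≤ (U.filter fun y => cell y = cell x).card := by
      have h5 : ({z, x} : Finset V).card = 2 := card_pair hzx
      rw [← h5]
      refine card_le_card fun y hy => ?_
      rw [mem_insert, mem_singleton] at hy
      rcases hy with rfl | rfl
      · exact mem_filter.2 ⟨hz, hzc⟩
      · exact mem_filter.2 ⟨hx, rfl⟩
    have h6 : ((U.filter fun x => ∃ z ∈ U, z ≠ x ∧ cell z = cell x).filter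
        fun y => cell y = cell x).card ≤ (U.filter fun y => cell y = cell x).card :=
      card_le_card (filter_subset_filter _ (filter_subset _ _))
    omega
  · have h7 : ((U.filter fun x => ∃ z ∈ U, z ≠ x ∧ cell z = cell x).filter
        fun y => cell y = cell x) = ∅ := by
      refine filter_eq_empty_iff.2 fun y hy hyc => hc ?_
      obtain ⟨hyU, z, hz, hzy, hzc⟩ := mem_filter.1 hy
      by_cases hyx : y = x
      · subst hyx; exact ⟨z, hz, hzy, hzc⟩
      · exact ⟨y, hyU, hyx, hyc⟩
    have h8 : 1 ≤ (U.filter fun y => cell y = cell x).card :=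
      card_pos.2 ⟨x, mem_filter.2 ⟨hx, rfl⟩⟩
    rw [h7, card_empty]
    omega

/-- Elements in crowded blocks.
PROOF: a block with `c` elements contains at most `min c Lam` cells which meet `U`; if `c > 2 Lam`
then `c ≤ 2 (c - Lam)`. -/
theorem crowd_card {V : Type*} (U : Finset V) (Lam : ℕ) (bl : V → ℕ) (κ : V → ℕ)
    (hκ : ∀ x, κ x < Lam) :
    (U.filter fun x => 2 * Lam < (U.filter fun z => bl z = bl x).card).card +
      2 * (U.image fun x => (bl x, κ x)).card ≤ 2 * U.card := by
  have h1 : (U.filter fun x => 2 * Lam < (U.filter fun z => bl z = bl x).card).card =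
      ∑ b ∈ U.image bl, ((U.filter fun x => 2 * Lam < (U.filter fun z => bl z = bl x).card).filter
        fun x => bl x = b).card := by
    refine card_eq_sum_card_fiberwise fun x hx => ?_
    have hx' : x ∈ U := (mem_filter.1 hx).1
    exact mem_coe.2 (mem_image_of_mem _ hx')
  have h2 : U.card = ∑ b ∈ U.image bl, (U.filter fun x => bl x = b).card :=
    card_eq_sum_card_image bl U
  have h3 : (U.image fun x => (bl x, κ x)).card = ∑ b ∈ U.image bl,
      ((U.image fun x => (bl x, κ x)).filter fun p => p.1 = b).card := by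
    refine card_eq_sum_card_fiberwise fun p hp => ?_
    obtain ⟨x, hx, rfl⟩ := mem_image.1 (mem_coe.1 hp)
    exact mem_coe.2 (mem_image_of_mem _ hx)
  rw [h1, h2, h3, mul_sum, mul_sum, ← sum_add_distrib]
  refine sum_le_sum fun b _ => ?_
  have h4 : ((U.image fun x => (bl x, κ x)).filter fun p => p.1 = b) ⊆
      (U.filter fun x => bl x = b).image fun x => (bl x, κ x) := by
    intro p hp
    obtain ⟨hp1, hp2⟩ := mem_filter.1 hp
    obtain ⟨x, hx, rfl⟩ := mem_image.1 hp1
    exact mem_image.2 ⟨x, mem_filter.2 ⟨hx, hp2⟩, rfl⟩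
  have h5 : ((U.image fun x => (bl x, κ x)).filter fun p => p.1 = b).card ≤
      (U.filter fun x => bl x = b).card :=
    (card_le_card h4).trans card_image_le
  have h6 : ((U.image fun x => (bl x, κ x)).filter fun p => p.1 = b).card ≤ Lam := by
    have h7 : ((U.image fun x => (bl x, κ x)).filter fun p => p.1 = b) ⊆
        (range Lam).image fun c => (b, c) := by
      intro p hp
      obtain ⟨hp1, hp2⟩ := mem_filter.1 hp
      obtain ⟨x, _, rfl⟩ := mem_image.1 hp1
      exact mem_image.2 ⟨κ x, mem_range.2 (hκ x), by simpa using hp2.symm⟩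
    calc _ ≤ _ := card_le_card h7
      _ ≤ (range Lam).card := card_image_le
      _ = Lam := card_range _
  by_cases hc : 2 * Lam < (U.filter fun z => bl z = b).card
  · have h8 : ((U.filter fun x => 2 * Lam < (U.filter fun z => bl z = bl x).card).filter
        fun x => bl x = b).card ≤ (U.filter fun x => bl x = b).card :=
      card_le_card (filter_subset_filter _ (filter_subset _ _))
    omega
  · have h9 : ((U.filter fun x => 2 * Lam < (U.filter fun z => bl z = bl x).card).filter
        fun x => bl x = b) = ∅ := by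
      refine filter_eq_empty_iff.2 fun y hy hyc => hc ?_
      have := (mem_filter.1 hy).2
      rwa [hyc] at this
    rw [h9, card_empty]
    omega

end Pool.Agent.X217
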