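import Pool.Agent.X217.PhM1
import Pool.Agent.X217.PhM2
import Pool.Agent.X217.PhC4
import Pool.Agent.X217.PhA3
import Pool.Agent.X217.PhG1
import Pool.Agent.X217.PhStat

set_option autoImplicit false

namespace Pool.Agent.X217

open Finset

attribute [local instance 10] Classical.propDecidable

namespace Fam

variable {V : Type} [Fintype V] [DecidableEq V] {N Rn Lam w : ℕ} {F : Fam V N Rn Lam w}

/-- On the good event a set `S` of processors which have finished the phase, such that nobody
finishes `J` steps, is small.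
PROOF: `master`, `un_card` (`Un S r ⊆ Un C r`), the bad `p` are crowded, or share their cell, or are
unlucky and alone (`crowd_card`, `collide_card` with `cell x = (bl r x, κ r x)` and `hll`),
`stuck_arith`. -/
theorem stuck (hF : F.Ok) {D J k nb : ℕ} (hD : 1 ≤ D) (hN : N = 256 * D * w)
    (hw : 9 * D * Lam ≤ w) (hw1 : 1 ≤ w) (hL : 1 ≤ Lam) (hJ : J ≤ 4 * D * w) (hRn : 1 ≤ Rn)
    {a b : Tb V N Rn Lam w} (hE : F.Ev D J k a b) (hk : k ≤ (F.R a b).card)
    (hnb : ∀ r < Rn, ∀ S : Finset V, (S.image (F.bl r)).card ≤ nb)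
    (hll : 64 * D * (Rn * (F.R a b).card) ≤ 64 * D * ∑ r ∈ range Rn,
      ((F.R a b).image fun x => (F.bl r x, F.κ r x)).card + Rn * (F.R a b).card)
    {S : Finset V} (hS : S ⊆ F.R a b ∩ F.C0) (hJS : ∀ p ∈ S, N < (F.ph a b).tt S J p) :
    D * S.card ≤ 3 * (D * (nb * J)) + (F.R a b).card := by
  classical
  have hok := hF.ok a b
  set R := F.R a b with hRdef
  -- the three error sums
  let A1 : ℕ → ℕ := fun r => (R.filter fun x =>
    2 * Lam < (R.filter fun z => F.bl r z = F.bl r x).card).card
  let A2 : ℕ → ℕ := fun r => (R.filter fun x => ∃ z ∈ R, z ≠ x ∧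
    (F.bl r z, ((F.κ r z : Fin Lam) : ℕ)) = (F.bl r x, ((F.κ r x : Fin Lam) : ℕ))).card
  let A3 : ℕ → ℕ := fun r => (S.filter fun x =>
      (∀ z ∈ F.R a b, F.bl r z = F.bl r x → F.κ r z = F.κ r x → z = x) ∧
        (F.ph a b).Unl S J (64 * D * w) r x).card
  have himg : ∀ r, (R.image fun x => (F.bl r x, ((F.κ r x : Fin Lam) : ℕ))).card =
      (R.image fun x => (F.bl r x, F.κ r x)).card := by
    intro r
    have hinj : Function.Injective (fun q : ℕ × Fin Lam => (q.1, (q.2 : ℕ))) := by
      intro p q hpq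
      simp only [Prod.mk.injEq] at hpq
      exact Prod.ext hpq.1 (Fin.ext hpq.2)
    rw [← Finset.card_image_of_injective (R.image fun x => (F.bl r x, F.κ r x)) hinj,
      Finset.image_image]
    rfl
  have hA1 : ∀ r, A1 r + 2 * (R.image fun x => (F.bl r x, F.κ r x)).card ≤ 2 * R.card := by
    intro r
    have := crowd_card R Lam (F.bl r) (fun x => ((F.κ r x : Fin Lam) : ℕ)) (fun x => (F.κ r x).2)
    rw [← himg r]
    refine le_trans (le_of_eq ?_) this
    refine congrArg (fun t => t + _) ?_
    simp only [A1]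
  have hA2 : ∀ r, A2 r + 2 * (R.image fun x => (F.bl r x, F.κ r x)).card ≤ 2 * R.card := by
    intro r
    have := collide_card R (fun x => (F.bl r x, ((F.κ r x : Fin Lam) : ℕ)))
    rw [← himg r]
    refine le_trans (le_of_eq ?_) this
    refine congrArg (fun t => t + _) ?_
    simp only [A2]
    congr!
  have hX1 : 64 * D * (∑ r ∈ range Rn, (A1 r + A2 r)) ≤ 4 * (Rn * R.card) := by
    have hs : ∑ r ∈ range Rn, (A1 r + A2 r) +
        4 * ∑ r ∈ range Rn, (R.image fun x => (F.bl r x, F.κ r x)).card ≤ 4 * (Rn * R.card) := by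
      have : ∑ r ∈ range Rn, (A1 r + A2 r + 4 * (R.image fun x => (F.bl r x, F.κ r x)).card) ≤
          ∑ _r ∈ range Rn, 4 * R.card := by
        refine Finset.sum_le_sum fun r _ => ?_
        have h1 := hA1 r
        have h2 := hA2 r
        omega
      rw [Finset.sum_add_distrib, ← Finset.mul_sum, Finset.sum_const, Finset.card_range,
        smul_eq_mul] at this
      calc _ ≤ _ := this
        _ = 4 * (Rn * R.card) := by ring
    have hs' := Nat.mul_le_mul_left (64 * D) hs
    rw [Nat.mul_add] at hs'
    nlinarith [hs', hll]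
  have hX2 : 64 * D * (∑ r ∈ range Rn, A3 r) ≤ (Rn + 1) * R.card + k := hE.2 S hS
  have hX3 : 64 * D * Lam * (∑ r ∈ range Rn, ((F.ph a b).Un S r).card) ≤
      64 * D * Lam * (2 * w * (Rn * R.card + k)) +
      Rn * (2 * Lam * N * R.card) +
        Rn * (64 * D * Lam * (R.card * (64 * D * Lam + 8 * Lam))) := by
    have h1 : ∀ r ∈ range Rn, 64 * D * Lam * ((F.ph a b).Un S r).card ≤
        64 * D * Lam * ∑ x ∈ R, ((F.ph a b).Gs (64 * D * Lam) r x).card +
          2 * Lam * N * R.card + 64 * D * Lam * (R.card * (64 * D * Lam + 8 * Lam)) := by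
      intro r hr
      have hu := Ph.un_card hok (64 * D * Lam) (r := r) (Finset.mem_range.1 hr)
      have hsub : (F.ph a b).Un S r ⊆ (F.ph a b).Un (F.ph a b).C r := by
        intro q hq
        simp only [Ph.Un, mem_filter, mem_product] at hq ⊢
        exact ⟨⟨hS hq.1.1, hq.1.2⟩, hq.2⟩
      exact (Nat.mul_le_mul_left _ (Finset.card_le_card hsub)).trans hu
    have h2 := Finset.sum_le_sum h1
    rw [← Finset.mul_sum, Finset.sum_add_distrib, Finset.sum_add_distrib, ← Finset.mul_sum,
      Finset.sum_const, Finset.sum_const, Finset.card_range, smul_eq_mul, smul_eq_mul] at h2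
    have h3 := Nat.mul_le_mul_left (64 * D * Lam) hE.1
    refine h2.trans ?_
    exact Nat.add_le_add_right (Nat.add_le_add_right h3 _) _
  have hm : Rn * (S.card * (N - 1)) ≤
      2 * (Rn * (nb * (J * (N + 64 * D * w)) + 2 * J * S.card) +
        N * ((∑ r ∈ range Rn, (A1 r + A2 r)) + (∑ r ∈ range Rn, A3 r)) +
          (∑ r ∈ range Rn, ((F.ph a b).Un S r).card)) := by
    have hmas := Ph.master hok (S := S) hS (J := J) (e0 := 64 * D * w) hJS
    refine hmas.trans (Nat.mul_le_mul_left 2 ?_)
    have hle : ∀ r ∈ range Rn, ((S.image (F.bl r)).card * (J * (N + 64 * D * w)) +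
        2 * J * S.card +
        N * (S.filter fun p => (F.ph a b).Cr r p ∨ (F.ph a b).Unl S J (64 * D * w) r p).card +
          ((F.ph a b).Un S r).card) ≤
        (nb * (J * (N + 64 * D * w)) + 2 * J * S.card) + N * ((A1 r + A2 r) + A3 r) +
          ((F.ph a b).Un S r).card := by
      intro r hr
      have hb := hnb r (Finset.mem_range.1 hr) S
      have hc : (S.filter fun p => (F.ph a b).Cr r p ∨
          (F.ph a b).Unl S J (64 * D * w) r p).card ≤ (A1 r + A2 r) + A3 r := by
        have hsub : (S.filter fun p => (F.ph a b).Cr r p ∨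
            (F.ph a b).Unl S J (64 * D * w) r p) ⊆
            ((R.filter fun x => 2 * Lam < (R.filter fun z => F.bl r z = F.bl r x).card) ∪
            (R.filter fun x => ∃ z ∈ R, z ≠ x ∧
              (F.bl r z, ((F.κ r z : Fin Lam) : ℕ)) = (F.bl r x, ((F.κ r x : Fin Lam) : ℕ)))) ∪
            (S.filter fun x =>
              (∀ z ∈ F.R a b, F.bl r z = F.bl r x → F.κ r z = F.κ r x → z = x) ∧
              (F.ph a b).Unl S J (64 * D * w) r x) := by
          intro x hx
          rw [mem_filter] at hx
          have hxR : x ∈ R := (Finset.mem_inter.1 (hS hx.1)).1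
          rw [mem_union, mem_union]
          by_cases hcr : (F.ph a b).Cr r x
          · left; left
            rw [mem_filter]
            refine ⟨hxR, ?_⟩
            have hcr' := hcr
            unfold Ph.Cr Ph.blk at hcr'
            refine lt_of_lt_of_eq hcr' (congrArg Finset.card ?_)
            ext z
            simp only [mem_filter]
            rfl
          · have hu : (F.ph a b).Unl S J (64 * D * w) r x := hx.2.resolve_left hcr
            by_cases hal : ∀ z ∈ F.R a b, F.bl r z = F.bl r x → F.κ r z = F.κ r x → z = x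
            · right
              rw [mem_filter]
              exact ⟨hx.1, hal, hu⟩
            · left; right
              rw [mem_filter]
              refine ⟨hxR, ?_⟩
              push Not at hal
              obtain ⟨z, hz, hz1, hz2, hz3⟩ := hal
              exact ⟨z, hz, hz3, by rw [hz1, hz2]⟩
        refine (Finset.card_le_card hsub).trans ((Finset.card_union_le _ _).trans ?_)
        exact Nat.add_le_add_right (Finset.card_union_le _ _) _
      have hb' := Nat.mul_le_mul_right (J * (N + 64 * D * w)) hb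
      have hc' := Nat.mul_le_mul_left N hc
      omega
    have hsum := Finset.sum_le_sum hle
    refine hsum.trans (le_of_eq ?_)
    rw [Finset.sum_add_distrib, Finset.sum_add_distrib, Finset.sum_const, Finset.card_range,
      smul_eq_mul, ← Finset.mul_sum, Finset.sum_add_distrib (f := fun r => A1 r + A2 r)]
  exact stuck_arith hD hN hw hw1 hJ hRn hk
    (Finset.card_le_card fun x hx => (Finset.mem_inter.1 (hS hx)).1) hX1 hX2 hX3 hL hm

/-- THEOREM A.  On the good event every larger set `S` of processors which have finished the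
phase has a member which knows `2 ^ J` members of `S`. -/
theorem main (hF : F.Ok) {D J k nb : ℕ} (hD : 1 ≤ D) (hN : N = 256 * D * w)
    (hw : 9 * D * Lam ≤ w) (hw1 : 1 ≤ w) (hL : 1 ≤ Lam) (hJ : J ≤ 4 * D * w) (hRn : 1 ≤ Rn)
    {a b : Tb V N Rn Lam w} (hE : F.Ev D J k a b) (hk : k ≤ (F.R a b).card)
    (hnb : ∀ r < Rn, ∀ S : Finset V, (S.image (F.bl r)).card ≤ nb)
    (hll : 64 * D * (Rn * (F.R a b).card) ≤ 64 * D * ∑ r ∈ range Rn,
      ((F.R a b).image fun x => (F.bl r x, F.κ r x)).card + Rn * (F.R a b).card)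
    (lossless : ∀ U : Finset V, U.card ≤ 4 * 2 ^ J →
      15 * (Rn * U.card) ≤ 16 * ∑ r ∈ range Rn, (U.image (F.bl r)).card)
    {S : Finset V} (hS : S ⊆ F.R a b ∩ F.C0)
    (hc : 3 * (D * (nb * J)) + (F.R a b).card < D * S.card) :
    ∃ p ∈ S, 2 ^ J ≤ (S.filter fun q => (F.ph a b).kn p N q).card := by
  by_cases hJS : ∀ p ∈ S, N < (F.ph a b).tt S J p
  · exact absurd (stuck hF hD hN hw hw1 hL hJ hRn hE hk hnb hll hS hJS) (by omega)
  · push Not at hJS
    obtain ⟨p, hp, htp⟩ := hJS
    refine ⟨p, hp, ?_⟩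
    exact Ph.grow_card (hF.ok a b) (S := S) hS (J := J) hRn lossless hp htp

end Fam

end Pool.Agent.X217
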