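import Pool.Agent.X217.PhDefs

set_option autoImplicit false

/-!
# The tick phase with random picks
-/

namespace Pool.Agent.X217

open Finset

attribute [local instance 10] Classical.propDecidable

/-- Tables of picks: for every row (processor, pass), label and class an index in the class. -/
abbrev Tb (V : Type) (N Rn Lam w : ℕ) : Type := V × Fin (N + 1) → Fin Rn → Fin Lam → Fin w

/-- A family of tick phases, depending on the table `a` of the picks for writes and the table `b`
of the picks for reads.  The times are fixed.  `C0` are the processors which finish pass `N`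
before the horizon if they take part. -/
structure Fam (V : Type) (N Rn Lam w : ℕ) where
  bl : ℕ → V → ℕ
  κ : ℕ → V → Fin Lam
  ix : ℕ → V → Fin w
  al : V → ℕ → ℕ
  be : V → ℕ → ℕ
  /-- the horizon -/
  hz : ℕ
  C0 : Finset V
  R : Tb V N Rn Lam w → Tb V N Rn Lam w → Finset V
  K : Tb V N Rn Lam w → Tb V N Rn Lam w → V → ℕ → Finset (V × ℕ)

namespace Fam

variable {V : Type} [Fintype V] [DecidableEq V] {N Rn Lam w : ℕ} (F : Fam V N Rn Lam w)

/-- The phase for given tables. -/
noncomputable def ph (a b : Tb V N Rn Lam w) : Ph V where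
  R := F.R a b
  C := F.R a b ∩ F.C0
  CR := inter_subset_left
  N := N
  Rn := Rn
  Lam := Lam
  bl := F.bl
  al := F.al
  be := F.be
  K := F.K a b
  wp := fun y s r x => ∃ (hs : s < N + 1) (hr : r < Rn), a (y, ⟨s, hs⟩) ⟨r, hr⟩ (F.κ r x) = F.ix r x
  rp := fun y s r x => ∃ (hs : s < N + 1) (hr : r < Rn), b (y, ⟨s, hs⟩) ⟨r, hr⟩ (F.κ r x) = F.ix r x

/-- The tables `a`, `a'` of the writes agree on the entries in classes in which some participant
has started before time `τ`. -/
def AgW (a a' b : Tb V N Rn Lam w) (τ : ℕ) : Prop :=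
  ∀ q (r : Fin Rn) c, (∃ z ∈ F.R a b, F.be z 1 < τ ∧ F.bl r.val z = F.bl r.val q.1 ∧
    F.κ r.val z = c) → a q r c = a' q r c

/-- The tables `b`, `b'` of the reads agree on the rows `(y, s)` with `al y (s + 1) ≤ τ`. -/
def AgR (b b' : Tb V N Rn Lam w) (τ : ℕ) : Prop :=
  ∀ q : V × Fin (N + 1), F.al q.1 (q.2.val + 1) ≤ τ → b q = b' q

/-- The hypotheses on the family.  Times of different passes are different. -/
structure Ok : Prop where
  ok : ∀ a b, (F.ph a b).Ok
  al_inj : ∀ y s y' s', 1 ≤ s → s ≤ N + 1 → 1 ≤ s' → s' ≤ N + 1 → F.al y s = F.al y' s' →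
    y = y' ∧ s = s'
  be_inj : ∀ y y', F.be y 1 = F.be y' 1 → y = y'
  al_be : ∀ y s, 1 ≤ s → s ≤ N → F.al y s < F.be y s
  be_al : ∀ y s, 1 ≤ s → s ≤ N → F.be y s < F.al y (s + 1)
  /-- participants have begun pass `1` before the horizon -/
  hzR : ∀ a b, ∀ x ∈ F.R a b, F.al x 1 ≤ F.hz
  hzC : ∀ y ∈ F.C0, F.al y (N + 1) ≤ F.hz
  /-- a stamp of another processor is known only after it has been written -/
  caus : ∀ a b, ∀ y ∈ F.R a b ∩ F.C0, ∀ s ≤ N, ∀ z u, (z, u) ∈ F.K a b y s → z ≠ y →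
    F.al z (u + 1) < F.al y (s + 1)
  /-- a change of the picks for writes to classes without participants has no influence -/
  locW : ∀ a a' b τ, τ ≤ F.hz → F.AgW a a' b τ → (∀ x, F.al x 1 ≤ τ → x ∈ F.R a b → x ∈ F.R a' b) ∧
    ∀ y ∈ F.R a b, F.be y 1 < τ → ∀ s ≤ N, F.al y (s + 1) ≤ τ → F.K a b y s = F.K a' b y s
  /-- a change of the picks for reads in later rows has no influence -/
  locR : ∀ a b b' τ, τ ≤ F.hz → F.AgR b b' τ → (∀ x, F.al x 1 ≤ τ → x ∈ F.R a b → x ∈ F.R a b') ∧
    ∀ y ∈ F.R a b, F.be y 1 < τ → ∀ s ≤ N, F.al y (s + 1) ≤ τ → F.K a b y s = F.K a b' y s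

end Fam

end Pool.Agent.X217
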