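import Pool.Agent.X217.CWDefs

set_option autoImplicit false

namespace Pool.Agent.X217

open Finset

attribute [local instance 10] Classical.propDecidable

namespace CW

variable {V : Type} [Fintype V] [DecidableEq V] {X : CW V} {N : ℕ → ℕ}

private theorem cw1_SE (hX : X.Ok) (p : V) (ρ : ℕ) : X.S p ρ < X.E p ρ :=
  (hX.SF p ρ).trans_le (hX.FE p ρ)

/-- `S p` is increasing.  PROOF: `S < F ≤ E < S` of the next run. -/
theorem S_lt (hX : X.Ok) (p : V) {ρ ρ' : ℕ} (h : ρ < ρ') : X.E p ρ < X.S p ρ' := by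
  induction ρ', h using Nat.le_induction with
  | base => exact hX.ES p ρ
  | succ k hk ih => exact ih.trans ((cw1_SE hX p k).trans (hX.ES p k))

/-- PROOF: `go0`, `goS`, induction. -/
theorem go_lt (hX : X.Ok) {p : V} {ρ : ℕ} (h : X.go p ρ) : ρ < X.rn := by
  cases ρ with
  | zero =>
    have := hX.hr
    omega
  | succ ρ => exact ((hX.goS p ρ).1 h).2.2

/-- PROOF: `goS`, induction. -/
theorem go_mono (hX : X.Ok) {p : V} {ρ ρ' : ℕ} (h : X.go p ρ') (hρ : ρ ≤ ρ') : X.go p ρ := by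
  induction ρ', hρ using Nat.le_induction with
  | base => exact h
  | succ k hk ih => exact ih ((hX.goS p k).1 h).1

/-- A processor that takes part in run `ρ'` has not left before.  PROOF: `goS`, `go_mono`. -/
theorem not_lv (hX : X.Ok) {p : V} {ρ ρ' : ℕ} (h : X.go p ρ') (hρ : ρ < ρ') : ¬ X.lv p ρ :=
  ((hX.goS p ρ).1 (go_mono hX h hρ)).2.1

/-- Awareness is not lost.  PROOF: `aw_awf`, `awf_awe`, `awS` (`go_mono`), induction on `ρ'`. -/
theorem awe_mono (hX : X.Ok) {p : V} {ρ ρ' : ℕ} (h : X.go p ρ') (hρ : ρ ≤ ρ') (ha : X.awe p ρ) :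
    X.awe p ρ' := by
  induction ρ', hρ using Nat.le_induction with
  | base => exact ha
  | succ k hk ih =>
    have h1 := ih ((hX.goS p k).1 h).1
    exact hX.awf_awe p (k + 1) h (hX.aw_awf p (k + 1) h ((hX.awS p k h).2 (Or.inl h1)))

/-- PROOF: the filters grow with `t`. -/
theorem PUB_mono {t t' : ℕ} (h : t ≤ t') (ht : X.PUB t) : X.PUB t' := by
  obtain ⟨x, ρ, h1, h2, h3, h4⟩ := ht
  refine ⟨x, ρ, h1, h2, h3, ?_⟩
  rcases h4 with ⟨h5, h6⟩ | ⟨h5, h6⟩
  · left
    refine ⟨h5, ?_⟩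
    unfold Pub at h6 ⊢
    refine h6.trans (card_le_card ?_)
    intro b hb
    unfold DD at hb ⊢
    rw [mem_filter] at hb ⊢
    exact ⟨hb.1, hb.2.1, hb.2.2.trans h⟩
  · exact Or.inr ⟨h5, h6.trans h⟩

/-- Nobody leaves before the first publication.
PROOF: strong induction on `X.E q ρ`: suppose `lv q ρ`, `E q ρ < β`, all leaves at smaller times
excluded (if `lv q' ρ'` with `E q' ρ' < E q ρ` apply the induction hypothesis).  `W4`: if `H ≤ ρ`
and `aw q ρ` then `PUB (E q ρ)` (`FE`, `lv_go`, `go_lt`).  Otherwise `x, ρ'` and for all the `b`: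
`go b ρ'` (`go_mono`), `E b ρ' < F b (ρ' + 1) ≤ E q ρ` (`ES`, `SF`), so all leaves have
`E b ρ' ≤ E ..` and `M b ρ' = MS b ρ'` by `W6`: the set is contained in `DD x ρ' (E q ρ)`, so
`Pub x ρ' (E q ρ)` and `PUB (E q ρ)`, contradiction to `h`. -/
theorem no_leave (hX : X.Ok) {β : ℕ} (h : ∀ t < β, ¬ X.PUB t) {q : V} {ρ : ℕ} (hq : X.lv q ρ) :
    β ≤ X.E q ρ := by
  have key : ∀ T : ℕ, ∀ q ρ, X.lv q ρ → X.E q ρ = T → β ≤ T := by
    intro T
    induction T using Nat.strong_induction_on with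
    | _ T ih =>
      intro q ρ hq hT
      by_contra hlt
      rw [not_le] at hlt
      have hno : ∀ q' ρ', X.lv q' ρ' → T ≤ X.E q' ρ' := by
        intro q' ρ' hq'
        by_contra hc
        rw [not_le] at hc
        have := ih (X.E q' ρ') hc q' ρ' hq' rfl
        omega
      have hgo := hX.lv_go q ρ hq
      refine h T hlt ?_
      rcases hX.W4 q ρ hq with ⟨x, ρ', h1, h2, h3, h4, h5⟩ | ⟨h1, h2⟩
      · refine ⟨x, ρ', ?_, h3, h4, Or.inl ⟨h2, ?_⟩⟩
        · have := go_lt hX hgo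
          omega
        · unfold Pub
          refine h5.trans (card_le_card ?_)
          intro b hb
          unfold DD
          rw [mem_filter] at hb ⊢
          obtain ⟨-, hb1, hb2, hb3⟩ := hb
          have hEb : X.E b ρ' < T := by
            have e1 := hX.ES b ρ'
            have e2 := hX.SF b (ρ' + 1)
            omega
          have hM := hX.W6 b ρ' h2 (go_mono hX hb1 (Nat.le_succ _)) (fun q' ρ'' _ hl => by
            have := hno q' ρ'' hl
            omega)
          rw [← hM]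
          exact ⟨mem_univ _, hb2, by omega⟩
      · refine ⟨q, ρ, go_lt hX hgo, hgo, h2, Or.inr ⟨h1, ?_⟩⟩
        have := hX.FE q ρ
        omega
  exact key _ q ρ hq rfl

/-- Before the first publication everybody goes on.  PROOF: induction on `ρ`, `goS`: if `lv p ρ`
then `β ≤ E p ρ < S p (ρ + 1) ≤ β`. -/
theorem go_before (hX : X.Ok) {β : ℕ} (h : ∀ t < β, ¬ X.PUB t) {p : V} {ρ : ℕ} (hρ : ρ < X.rn)
    (hp : X.S p ρ ≤ β) : X.go p ρ := by
  induction ρ with
  | zero => exact hX.go0 p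
  | succ ρ ih =>
    have h1 : X.E p ρ < X.S p (ρ + 1) := S_lt hX p (Nat.lt_succ_self ρ)
    have h2 := cw1_SE hX p ρ
    refine (hX.goS p ρ).2 ⟨ih (by omega) (by omega), ?_, hρ⟩
    intro hl
    have := no_leave hX h hl
    omega

end CW

end Pool.Agent.X217
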