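import Pool.Agent.X217.CW1

set_option autoImplicit false

namespace Pool.Agent.X217

open Finset

attribute [local instance 10] Classical.propDecidable

namespace CW

variable {V : Type} [Fintype V] [DecidableEq V] {X : CW V} {N : ℕ → ℕ}

/-- The first publication is a source.
PROOF: let `x, ρ` be as in `PUB β`.  Case `ρ < H`: `ι = ρ + 1`, `A = DD x ρ β`; minimality of `β`
for `x, ρ`: `Pub x ρ t'` for `t' < β` would give `PUB t'`; so `cv` is `Cov.c1`; `card`:
`16 * 2 ^ lev ρ = 2 ^ (lev (ρ + 1) + 5)` for `ρ + 1 ≤ H`.  `mem`: `F d (ρ + 1) ≤ β` gives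
`S d (ρ + 1) ≤ β`, `go d (ρ + 1)` (`go_before`, `hr`), `E d ρ < β`, so (`no_leave`) `W6` gives
`M d ρ = MS d ρ ∋ x`, `W2` with `aw_awf`: `awe d ρ`, `awS`: `aw d (ρ + 1)`.
Case `H ≤ ρ`: `ι = ρ`, `A = {x}`; `cv`: the list is everything (`ext_bot`), there is no `ν` with
`ν0 < ν ≤ lev ρ = ν0`; `card` is void. -/
theorem src_beta (hX : X.Ok) (hc : X.Cov) {β : ℕ} (hβ : X.Beta β) :
    ∃ ι A, ι < X.rn ∧ X.Src ι A β := by
  obtain ⟨⟨x, ρ, hρ, hgo, haw, hcase⟩, hmin⟩ := hβ
  have hL := hX.hL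
  have hr := hX.hr
  rcases hcase with ⟨hH, hPub⟩ | ⟨hH, hF⟩
  · refine ⟨ρ + 1, X.DD x ρ β, by omega, ?_, ?_, ?_⟩
    · intro d hd
      obtain ⟨hd1, hd2⟩ := (mem_filter.1 hd).2
      have hSF := hX.SF d (ρ + 1)
      have hES := hX.ES d ρ
      have hg : X.go d (ρ + 1) := go_before hX hmin (by omega) (by omega)
      have hg0 : X.go d ρ := go_mono hX hg (Nat.le_succ _)
      have hM : X.M d ρ = X.MS d ρ := by
        refine hX.W6 d ρ hH hg0 fun q ρ' _ hlv => ?_
        have := no_leave hX hmin hlv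
        omega
      have h2 := (hX.W2 d ρ hH hg0 x (hM ▸ hd1)).2.2 (hX.aw_awf x ρ hgo haw)
      exact ⟨hg, (hX.awS d ρ hg).2 (Or.inl h2), hd2⟩
    · refine hc.c1 x ρ β hH hPub fun t' ht' hP => ?_
      exact hmin t' ht' ⟨x, ρ, hρ, hgo, haw, Or.inl ⟨hH, hP⟩⟩
    · intro hι
      have hlev : X.lev ρ = X.lev (ρ + 1) + 1 := by
        have hHL : X.H ≤ X.L := by unfold CW.H; omega
        unfold CW.lev
        rw [min_eq_left (by omega : ρ ≤ X.H), min_eq_left (by omega : ρ + 1 ≤ X.H)]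
        omega
      have h1 : 16 * 2 ^ X.lev ρ ≤ (X.DD x ρ β).card := hPub
      rw [hlev] at h1
      refine le_trans (le_of_eq ?_) h1
      ring
  · refine ⟨ρ, {x}, hρ, ?_, ⟨?_, ?_⟩, ?_⟩
    · intro d hd
      rw [mem_singleton] at hd
      subst hd
      exact ⟨hgo, haw, hF⟩
    · intro z
      refine ⟨x, mem_singleton_self x, ?_⟩
      rw [hX.ext_bot x ρ hH]
      exact mem_univ _
    · intro ν h1 h2
      exfalso
      have : X.lev ρ = X.ν0 := by
        unfold CW.lev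
        rw [min_eq_right hH]
        unfold CW.H
        omega
      omega
    · intro h
      omega

end CW

end Pool.Agent.X217
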