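import Pool.Agent.X217.CW1

set_option autoImplicit false

namespace Pool.Agent.X217

open Finset

attribute [local instance 10] Classical.propDecidable

namespace CW

variable {V : Type} [Fintype V] [DecidableEq V] {X : CW V} {N : ℕ → ℕ}

/-- The first leave at an index `< ρ` gives a source of index `< ρ`.
PROOF: `W4` for `q, ρq`.  Case `H ≤ ρq`, `aw q ρq`: `ι = ρq`, `A = {q}`, as in `src_beta`.  Other
case: `x`, `ρ'`, `ρ' + 1 ≤ ρq`, `ρ' < H`.  For the `b` of the set: `E b ρ' < F b (ρ' + 1) ≤ t`, so by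
`h2` and `W6` (`ρ' < ρ`) `M b ρ' = MS b ρ'`: `Pub x ρ' t`.  Let `t' ≤ t` be the smallest time with
`Pub x ρ' t'` (`Nat.find`), `ι = ρ' + 1`, `A = DD x ρ' t'` (`Cov.c1`).  `mem`: `go d (ρ' + 1)` by
induction (a leave of `d` at an index `≤ ρ'` would have time `≥ t ≥ F d (ρ' + 1)`, but it is
`< S d (ρ' + 1)`), then `M d ρ' = MS d ρ' ∋ x` (`W6`, `h2`), `W2`, `awS`. -/
theorem src_leave (hX : X.Ok) (hc : X.Cov) {ρ t : ℕ}
    (h1 : ∃ q ρq, ρq < ρ ∧ X.lv q ρq ∧ X.E q ρq = t)
    (h2 : ∀ q ρq, ρq < ρ → X.lv q ρq → t ≤ X.E q ρq) : ∃ ι A, ι < ρ ∧ X.Src ι A t := by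
  obtain ⟨q, ρq, hq, hlv, hEt⟩ := h1
  rcases hX.W4 q ρq hlv with ⟨x, ρ', hρ', hH, hgo, haw, hcard⟩ | ⟨hH, haw⟩
  · -- everybody finishing run `ρ'` before `t` knows the same in both worlds
    have hMS : ∀ b, X.go b ρ' → X.F b (ρ' + 1) ≤ t → X.M b ρ' = X.MS b ρ' := by
      intro b hgb hF
      refine hX.W6 b ρ' hH hgb ?_
      intro q' ρ'' hlt hlv'
      have e1 := h2 q' ρ'' (by omega) hlv'
      have e2 := hX.ES b ρ'
      have e3 := hX.SF b (ρ' + 1)
      omega
    have hPub : X.Pub x ρ' t := by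
      unfold Pub
      refine hcard.trans (card_le_card ?_)
      intro b hb
      simp only [mem_filter, mem_univ, true_and] at hb
      obtain ⟨hgb, hxM, hF⟩ := hb
      rw [hEt] at hF
      have hgb' : X.go b ρ' := ((hX.goS b ρ').1 hgb).1
      simp only [DD, mem_filter, mem_univ, true_and]
      exact ⟨by rw [← hMS b hgb' hF]; exact hxM, hF⟩
    have hex : ∃ t', X.Pub x ρ' t' := ⟨t, hPub⟩
    have hP' : X.Pub x ρ' (Nat.find hex) := Nat.find_spec hex
    have hmin : ∀ t' < Nat.find hex, ¬ X.Pub x ρ' t' := fun t' ht' => Nat.find_min hex ht'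
    have hle : Nat.find hex ≤ t := Nat.find_min' hex hPub
    generalize Nat.find hex = t' at hP' hmin hle
    refine ⟨ρ' + 1, X.DD x ρ' t', by omega, ?_, hc.c1 x ρ' t' hH hP' hmin, ?_⟩
    · intro d hd
      simp only [DD, mem_filter, mem_univ, true_and] at hd
      obtain ⟨hxd, hFd⟩ := hd
      have hFt : X.F d (ρ' + 1) ≤ t := hFd.trans hle
      have hgok : ∀ k, k ≤ ρ' + 1 → X.go d k := by
        intro k
        induction k with
        | zero => intro _; exact hX.go0 d
        | succ k ih =>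
          intro hk
          refine (hX.goS d k).2 ⟨ih (by omega), ?_, ?_⟩
          · intro hl
            have e1 := h2 d k (by omega) hl
            have e2 : X.E d k < X.S d (ρ' + 1) := S_lt hX d (by omega)
            have e3 := hX.SF d (ρ' + 1)
            omega
          · have := hX.hr
            omega
      have hg1 : X.go d (ρ' + 1) := hgok _ le_rfl
      have hg0 : X.go d ρ' := hgok _ (by omega)
      have hM : X.M d ρ' = X.MS d ρ' := hMS d hg0 hFt
      have hx : x ∈ X.M d ρ' := by rw [hM]; exact hxd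
      have hawe : X.awe d ρ' := (hX.W2 d ρ' hH hg0 x hx).2.2 (hX.aw_awf x ρ' hgo haw)
      exact ⟨hg1, (hX.awS d ρ' hg1).2 (Or.inl hawe), hFt⟩
    · intro hι
      refine le_trans ?_ hP'
      have e1 : X.lev ρ' = X.lev (ρ' + 1) + 1 := by
        have hL := hX.hL
        have h3 : min ρ' X.H = ρ' := min_eq_left (by omega)
        have h4 : min (ρ' + 1) X.H = ρ' + 1 := min_eq_left (by omega)
        simp only [lev, h3, h4]
        have h5 : X.H ≤ X.L := by
          unfold H
          omega
        omega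
      rw [e1, show X.lev (ρ' + 1) + 5 = X.lev (ρ' + 1) + 1 + 4 from rfl, pow_add _ _ 4]
      exact le_of_eq (by ring)
  · refine ⟨ρq, {q}, hq, ?_, ?_, ?_⟩
    · intro d hd
      rw [mem_singleton] at hd
      subst hd
      refine ⟨hX.lv_go _ _ hlv, haw, ?_⟩
      rw [← hEt]
      exact hX.FE _ _
    · constructor
      · intro x
        refine ⟨q, mem_singleton_self q, ?_⟩
        rw [hX.ext_bot q ρq hH]
        exact mem_univ x
      · intro ν hν hν'
        exfalso
        have hL := hX.hL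
        have h3 : min ρq X.H = X.H := min_eq_right hH
        simp only [lev, h3] at hν'
        unfold H at hν'
        omega
    · intro hι
      omega

end CW

end Pool.Agent.X217
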