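import Pool.Agent.X217.CWDefs

set_option autoImplicit false

namespace Pool.Agent.X217

open Finset

attribute [local instance 10] Classical.propDecidable

/-- A set in which everybody is known to few members is small, if sets in which everybody knows
few members are small.
PROOF: `A0 = {b ∈ A : |K b ∩ A| < 2 * g}` satisfies the hypothesis (`K b ∩ A0 ⊆ K b ∩ A`), so
`D * |A0| ≤ c`.  Double counting: `(|A| - |A0|) * (2 * g) ≤ ∑ b ∈ A, |K b ∩ A| =
∑ a ∈ A, #{b ∈ A : a ∈ K b} ≤ |A| * g`, and `g > 0` if `A` is not empty (`hr`), so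
`|A| ≤ 2 * |A0|`. -/
theorem reach_few {V : Type} [DecidableEq V] (K : V → Finset V) (A : Finset V) {D c g : ℕ}
    (hG : ∀ A' ⊆ A, (∀ b ∈ A', (K b ∩ A').card < 2 * g) → D * A'.card ≤ c)
    (hr : ∀ a ∈ A, (A.filter fun b => a ∈ K b).card < g) : D * A.card ≤ 2 * c := by
  rcases A.eq_empty_or_nonempty with hA | ⟨a0, ha0⟩
  · subst hA
    simp
  have hg : 0 < g := lt_of_le_of_lt (Nat.zero_le _) (hr a0 ha0)
  set A0 : Finset V := A.filter fun b => (K b ∩ A).card < 2 * g with hA0
  have h0 : D * A0.card ≤ c := by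
    refine hG A0 (filter_subset _ _) ?_
    intro b hb
    have hb2 : (K b ∩ A).card < 2 * g := (mem_filter.1 hb).2
    refine lt_of_le_of_lt (card_le_card ?_) hb2
    exact inter_subset_inter (Subset.refl _) (filter_subset _ _)
  have hsum : ∑ b ∈ A, (K b ∩ A).card = ∑ a ∈ A, (A.filter fun b => a ∈ K b).card := by
    have h1 : ∀ b ∈ A, (K b ∩ A).card = ∑ a ∈ A, if a ∈ K b then 1 else 0 := by
      intro b _
      rw [← card_filter]
      congr 1
      ext a
      simp only [mem_inter, mem_filter]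
      exact and_comm
    have h2 : ∀ a ∈ A, (A.filter fun b => a ∈ K b).card = ∑ b ∈ A, if a ∈ K b then 1 else 0 := by
      intro a _
      rw [card_filter]
    rw [sum_congr rfl h1, sum_congr rfl h2, sum_comm]
  have hup : ∑ a ∈ A, (A.filter fun b => a ∈ K b).card ≤ A.card * g := by
    calc ∑ a ∈ A, (A.filter fun b => a ∈ K b).card ≤ ∑ _a ∈ A, g :=
          sum_le_sum fun a ha => (hr a ha).le
      _ = A.card * g := by rw [sum_const, smul_eq_mul]
  have hlow : (A.filter fun b => ¬ (K b ∩ A).card < 2 * g).card * (2 * g) ≤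
      ∑ b ∈ A, (K b ∩ A).card := by
    calc (A.filter fun b => ¬ (K b ∩ A).card < 2 * g).card * (2 * g)
        = ∑ _b ∈ A.filter (fun b => ¬ (K b ∩ A).card < 2 * g), 2 * g := by
          rw [sum_const, smul_eq_mul]
      _ ≤ ∑ b ∈ A.filter (fun b => ¬ (K b ∩ A).card < 2 * g), (K b ∩ A).card :=
          sum_le_sum fun b hb => not_lt.1 (mem_filter.1 hb).2
      _ ≤ ∑ b ∈ A, (K b ∩ A).card :=
          sum_le_sum_of_subset (filter_subset _ _)
  have hsplit : A0.card + (A.filter fun b => ¬ (K b ∩ A).card < 2 * g).card = A.card :=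
    card_filter_add_card_filter_not _
  have h3 : (A.filter fun b => ¬ (K b ∩ A).card < 2 * g).card * 2 ≤ A.card := by
    have h4 : ((A.filter fun b => ¬ (K b ∩ A).card < 2 * g).card * 2) * g ≤ A.card * g := by
      calc ((A.filter fun b => ¬ (K b ∩ A).card < 2 * g).card * 2) * g
          = (A.filter fun b => ¬ (K b ∩ A).card < 2 * g).card * (2 * g) := by ring
        _ ≤ A.card * g := by
            rw [hsum] at hlow
            exact hlow.trans hup
    exact Nat.le_of_mul_le_mul_right h4 hg
  have h5 : A.card ≤ 2 * A0.card := by omega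
  calc D * A.card ≤ D * (2 * A0.card) := Nat.mul_le_mul_left _ h5
    _ = 2 * (D * A0.card) := by ring
    _ ≤ 2 * c := Nat.mul_le_mul_left _ h0

end Pool.Agent.X217
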