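import Pool.Agent.X217.CW2a
import Pool.Agent.X217.CW1c

set_option autoImplicit false

namespace Pool.Agent.X217

open Finset

attribute [local instance 10] Classical.propDecidable

namespace CW

variable {V : Type} [Fintype V] [DecidableEq V] {X : CW V} {N : ℕ → ℕ}

/-- The participants of run `ρ` which start it after the first leave at an index `< ρ`. -/
private theorem CW2b_late (hX : X.Ok) (hc : X.Cov) {ρ : ℕ} (hρ : ρ < X.H) :
    ∃ P1 : Finset V, P1.card ≤ 2 ^ (X.lev ρ + 5) ∧ ∀ b, b ∉ P1 → X.go b ρ → ¬ X.awf b ρ →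
      ∀ q ρ', ρ' < ρ → X.lv q ρ' → X.S b ρ ≤ X.E q ρ' := by
  classical
  by_cases hex : ∃ t, ∃ q ρq, ρq < ρ ∧ X.lv q ρq ∧ X.E q ρq = t
  · have h1 := Nat.find_spec hex
    obtain ⟨ι, A, hι, hs⟩ := src_leave hX hc h1 (fun q ρq hlt hq =>
      Nat.find_min' hex ⟨q, ρq, hlt, hq, rfl⟩)
    refine ⟨_, (src_cover hX hs hι.le hρ).le, ?_⟩
    intro b hb hgo haf q ρ' hρ' hq
    have h2 : Nat.find hex ≤ X.E q ρ' := Nat.find_min' hex ⟨q, ρ', hρ', hq, rfl⟩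
    refine le_trans ?_ h2
    by_contra hcon
    push Not at hcon
    exact hb (mem_filter.2 ⟨mem_univ _, hgo, hcon, haf⟩)
  · refine ⟨∅, by simp, ?_⟩
    intro b _ _ _ q ρ' hρ' hq
    exact absurd ⟨_, q, ρ', hρ', hq, rfl⟩ hex

/-- AWARENESS.
PROOF.  Let `ι, A` be the source at time `β` (`src_beta`).  `XX β ρ ⊆ P1 ∪ P2 ∪ P3`.
(1) If there is a leave at an index `< ρ`, let `t` be the smallest time of such a leave and
`P1 = {b : go b ρ, t < S b ρ, ¬ awf b ρ}`: `|P1| < 2 ^ (lev ρ + 5)` by `src_leave`, `src_cover`.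
Otherwise `P1 = ∅`.
The other `b ∈ XX β ρ`: `E b (ρ - 1) < S b ρ ≤ t` (if there is a leave; `¬ awe` implies `¬ awf`),
so `M b (ρ - 1) = MS b (ρ - 1)` by `W6`; and `¬ awe b (ρ - 1)` (`awe_mono`).
(2) If `ι ≤ ρ - 1`: all of them are in `P2 = {b : go b (ρ - 1), β < S b (ρ - 1), ¬ awf b (ρ - 1)}`,
`|P2| < 2 ^ (lev (ρ - 1) + 5)` by `src_cover`.
(3) If `ρ - 1 < ι`: let `P3` be the set of all of them; by `src_deep` every `b ∈ P3` has
`|{a ∈ MS b (ρ - 1) : β < S a (ρ - 1)}| < 64 * 2 ^ lev (ρ - 1)`, and `M b (ρ - 1) ∩ P3` is contained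
in this set: `Gr`. -/
theorem XX_card (hX : X.Ok) (hc : X.Cov) (hG : X.Gr N) {β : ℕ} (hβ : X.Beta β) {ρ : ℕ}
    (h1 : 1 ≤ ρ) (hρ : ρ < X.H) (hy : X.y (ρ - 1) ≤ (X.L + 1) ^ 3 * 2 ^ X.lev (ρ - 1)) :
    1024 * (X.XX β ρ).card ≤ 1024 * (2 ^ (X.lev ρ + 5) + 2 ^ (X.lev (ρ - 1) + 5) +
      N (ρ - 1) * 2 ^ X.lev (ρ - 1)) + X.y (ρ - 1) := by
  classical
  obtain ⟨P1, hP1c, hP1⟩ := CW2b_late hX hc (ρ := ρ) hρ
  set R : Finset V := X.XX β ρ \ P1 with hR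
  have hcard : (X.XX β ρ).card ≤ P1.card + R.card := by
    have h0 : X.XX β ρ ⊆ P1 ∪ R := by
      intro b hb
      by_cases hb1 : b ∈ P1
      · exact mem_union_left _ hb1
      · exact mem_union_right _ (mem_sdiff.2 ⟨hb, hb1⟩)
    exact (card_le_card h0).trans (card_union_le _ _)
  have hRm : ∀ b ∈ R, X.go b (ρ - 1) ∧ β < X.S b (ρ - 1) ∧ ¬ X.awe b (ρ - 1) ∧
      X.M b (ρ - 1) = X.MS b (ρ - 1) := by
    intro b hb
    obtain ⟨hbX, hb1⟩ := mem_sdiff.1 hb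
    obtain ⟨hgo, hS, hae⟩ := (mem_filter.1 hbX).2
    have hgo1 : X.go b (ρ - 1) := go_mono hX hgo (Nat.sub_le _ _)
    have haf : ¬ X.awf b ρ := fun h => hae (hX.awf_awe b ρ hgo h)
    refine ⟨hgo1, hS, fun h => hae (awe_mono hX hgo (Nat.sub_le _ _) h), ?_⟩
    refine hX.W6 b (ρ - 1) (by omega) hgo1 ?_
    intro q ρ' hρ' hq
    have h2 := hP1 b hb1 hgo haf q ρ' (by omega) hq
    have h3 := S_lt hX b (ρ := ρ - 1) (ρ' := ρ) (by omega)
    omega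
  obtain ⟨ι, A, -, hs⟩ := src_beta hX hc hβ
  rcases Nat.lt_or_ge (ρ - 1) ι with hι | hι
  · have h3 := hG (ρ - 1) (by omega) hy R (fun b hb => (hRm b hb).1) (by
      intro b hb
      obtain ⟨g1, g2, g3, g4⟩ := hRm b hb
      by_contra hcon
      push Not at hcon
      refine g3 (src_deep hX hc hs hι (by omega) g1 g4 (hcon.trans ?_))
      refine card_le_card ?_
      intro a ha
      obtain ⟨ha1, ha2⟩ := mem_inter.1 ha
      exact mem_filter.2 ⟨g4 ▸ ha1, (hRm a ha2).2.1⟩)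
    have : 1024 * (X.XX β ρ).card ≤ 1024 * P1.card + 1024 * R.card := by
      rw [← mul_add]; exact Nat.mul_le_mul_left _ hcard
    have h5 : 1024 * P1.card ≤ 1024 * 2 ^ (X.lev ρ + 5) := Nat.mul_le_mul_left _ hP1c
    have h6 : 1024 * (2 ^ (X.lev ρ + 5) + 2 ^ (X.lev (ρ - 1) + 5) +
      N (ρ - 1) * 2 ^ X.lev (ρ - 1)) = 1024 * 2 ^ (X.lev ρ + 5) +
      1024 * 2 ^ (X.lev (ρ - 1) + 5) + 1024 * (N (ρ - 1) * 2 ^ X.lev (ρ - 1)) := by ring
    omega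
  · have h3 := src_cover hX hs hι (by omega)
    have h4 : R.card ≤ 2 ^ (X.lev (ρ - 1) + 5) := by
      refine le_trans (card_le_card ?_) h3.le
      intro b hb
      obtain ⟨g1, g2, g3, g4⟩ := hRm b hb
      exact mem_filter.2 ⟨mem_univ _, g1, g2, fun h => g3 (hX.awf_awe b (ρ - 1) g1 h)⟩
    have h7 : (X.XX β ρ).card ≤ 2 ^ (X.lev ρ + 5) + 2 ^ (X.lev (ρ - 1) + 5) +
        N (ρ - 1) * 2 ^ X.lev (ρ - 1) :=
      (hcard.trans (add_le_add hP1c h4)).trans (Nat.le_add_right _ _)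
    exact (Nat.mul_le_mul_left _ h7).trans (Nat.le_add_right _ _)

end CW

end Pool.Agent.X217
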