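import Pool.Agent.X217.CW1
import Pool.Agent.X217.CW2

set_option autoImplicit false

namespace Pool.Agent.X217

open Finset

attribute [local instance 10] Classical.propDecidable

namespace CW

variable {V : Type} [Fintype V] [DecidableEq V] {X : CW V} {N : ℕ → ℕ}

/-- The members `b` of `T1` which know `x` and have published it at time `t`. -/
private noncomputable def cw2c_R (X : CW V) (k : ℕ) (x : V) (t : ℕ) : Finset V :=
  univ.filter fun b => (X.go b k ∧ X.aw b k) ∧ x ∈ X.M b k ∧ X.go b (k + 2) ∧ X.F b (k + 2) ≤ t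

private def cw2c_P (X : CW V) (k t : ℕ) : Prop :=
  ∃ x, (X.go x k ∧ X.aw x k) ∧ 17 * 2 ^ (X.lev (k + 3) + 3) ≤ (cw2c_R X k x t).card

private theorem cw2c_lev {k : ℕ} (hk : k + 3 < X.H) :
    X.lev k = X.lev (k + 3) + 3 ∧ X.lev (k + 2) = X.lev (k + 3) + 1 ∧ X.lev (k + 3) + 1 ≤ X.L := by
  have hH : X.H ≤ X.L := by unfold CW.H; omega
  unfold CW.lev
  rw [min_eq_left (by omega : k ≤ X.H), min_eq_left (by omega : k + 2 ≤ X.H),
    min_eq_left (by omega : k + 3 ≤ X.H)]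
  omega

/-- The part `A`. -/
private theorem cw2c_A (hX : X.Ok) (hG : X.Gr N) {k : ℕ} (hk : k + 3 < X.H)
    (hy1 : X.y k ≤ (X.L + 1) ^ 3 * 2 ^ X.lev k) :
    1024 * (univ.filter fun b => (X.go b k ∧ X.aw b k) ∧ X.go b (k + 2) ∧
      ∀ t, cw2c_P X k t → X.F b (k + 2) < t).card ≤
      2 * (1024 * (N k * 2 ^ X.lev k) + X.y k) := by
  have hlev := cw2c_lev (X := X) hk
  refine reach_few (fun b => X.M b k) _ (g := 32 * 2 ^ X.lev k) ?_ ?_
  · intro A' hA' hsm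
    refine hG k (by omega) hy1 A' (fun b hb => ?_) (fun b hb => ?_)
    · exact ((mem_filter.1 (hA' hb)).2).1.1
    · have h1 := hsm b hb
      calc (X.M b k ∩ A').card < 2 * (32 * 2 ^ X.lev k) := h1
        _ = 64 * 2 ^ X.lev k := by ring
  · intro a ha
    by_contra hcon
    rw [not_lt] at hcon
    set A := univ.filter fun b => (X.go b k ∧ X.aw b k) ∧ X.go b (k + 2) ∧
      ∀ t, cw2c_P X k t → X.F b (k + 2) < t with hA
    set Q := A.filter fun b => a ∈ X.M b k with hQ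
    have hne : Q.Nonempty := by
      rw [← Finset.card_pos]
      exact lt_of_lt_of_le (by positivity) hcon
    obtain ⟨b0, hb0, hmax⟩ := Finset.exists_max_image Q (fun b => X.F b (k + 2)) hne
    have hP : cw2c_P X k (X.F b0 (k + 2)) := by
      refine ⟨a, ((mem_filter.1 ha).2).1, ?_⟩
      have hsub : Q ⊆ cw2c_R X k a (X.F b0 (k + 2)) := by
        intro b hb
        have hb1 := (mem_filter.1 hb).1
        have hb2 := (mem_filter.1 hb).2
        have hb3 := (mem_filter.1 hb1).2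
        exact mem_filter.2 ⟨mem_univ _, hb3.1, hb2, hb3.2.1, hmax b hb⟩
      refine le_trans ?_ (card_le_card hsub)
      refine le_trans ?_ hcon
      rw [hlev.1]
      exact Nat.mul_le_mul_right _ (by norm_num)
    have hb1 := (mem_filter.1 hb0).1
    exact absurd ((mem_filter.1 hb1).2.2.2 _ hP) (lt_irrefl _)

/-- The part `B`. -/
private theorem cw2c_B (hX : X.Ok) (hG : X.Gr N) {k : ℕ} (hk : k + 3 < X.H)
    (hy2 : X.y (k + 3) ≤ (X.L + 1) ^ 3 * 2 ^ X.lev (k + 3)) :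
    1024 * (univ.filter fun b => X.go b (k + 3) ∧ ¬ X.lv b (k + 3) ∧
      ∃ t, cw2c_P X k t ∧ t ≤ X.F b (k + 2)).card ≤
      1024 * (N (k + 3) * 2 ^ X.lev (k + 3)) + X.y (k + 3) := by
  have hlev := cw2c_lev (X := X) hk
  set B := univ.filter fun b => X.go b (k + 3) ∧ ¬ X.lv b (k + 3) ∧
      ∃ t, cw2c_P X k t ∧ t ≤ X.F b (k + 2) with hB
  refine hG (k + 3) hk hy2 B (fun b hb => (mem_filter.1 hb).2.1) (fun q hq => ?_)
  by_contra hcon
  rw [not_lt] at hcon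
  obtain ⟨hq1, hq2, t, hPt, -⟩ := (mem_filter.1 hq).2
  have hex : ∃ t, cw2c_P X k t := ⟨t, hPt⟩
  set t0 := Nat.find hex with ht0
  obtain ⟨x, hx, hR⟩ := Nat.find_spec hex
  have hrich := hX.rich (X.lev (k + 3) + 1) hlev.2.2 (X.M q (k + 3) ∩ B)
    (le_trans (by rw [pow_succ]; nlinarith [Nat.one_le_two_pow (n := X.lev (k + 3))]) hcon)
  refine hq2 (hX.W5 q (k + 3) x k hq1 hk (by omega) hx.1 hx.2 ?_)
  have hsub : cw2c_R X k x t0 ⊆
      (univ.filter fun d => x ∈ X.M d k ∧ X.go d (k + 2) ∧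
        ∃ a ∈ X.M q (k + 3), a ∈ X.Ext d (k + 2) ∧ d ∈ X.Ext a (k + 3) ∧
          X.F d (k + 2) < X.S a (k + 3)) ∪
      (univ.filter fun d => Disjoint (X.Nb (X.lev (k + 3) + 1) d) (X.M q (k + 3) ∩ B)) := by
    intro d hd
    obtain ⟨hd1, hd2, hd3, hd4⟩ := (mem_filter.1 hd).2
    rw [mem_union]
    by_cases hdis : Disjoint (X.Nb (X.lev (k + 3) + 1) d) (X.M q (k + 3) ∩ B)
    · right
      exact mem_filter.2 ⟨mem_univ _, hdis⟩
    · left
      rw [Finset.not_disjoint_iff] at hdis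
      obtain ⟨a, ha1, ha2⟩ := hdis
      rw [mem_inter] at ha2
      refine mem_filter.2 ⟨mem_univ _, hd2, hd3, a, ha2.1, ?_, ?_, ?_⟩
      · apply hX.ext_nb d (k + 2)
        rw [hlev.2.1]
        exact ha1
      · apply hX.ext_nb a (k + 3)
        exact hX.nb_anti _ _ a (Nat.le_succ _) (hX.nb_symm _ _ _ ha1)
      · obtain ⟨-, -, t', hPt', ht'⟩ := (mem_filter.1 ha2.2).2
        have h1 : t0 ≤ t' := Nat.find_min' hex hPt'
        have h2 := hX.FE a (k + 2)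
        have h3 := hX.ES a (k + 2)
        have h4 : X.S a (k + 2 + 1) = X.S a (k + 3) := rfl
        omega
  have h1 := card_le_card hsub
  have h2 := card_union_le (univ.filter fun d => x ∈ X.M d k ∧ X.go d (k + 2) ∧
        ∃ a ∈ X.M q (k + 3), a ∈ X.Ext d (k + 2) ∧ d ∈ X.Ext a (k + 3) ∧
          X.F d (k + 2) < X.S a (k + 3))
      (univ.filter fun d => Disjoint (X.Nb (X.lev (k + 3) + 1) d) (X.M q (k + 3) ∩ B))
  have h3 : 17 * 2 ^ (X.lev (k + 3) + 3) ≤ (cw2c_R X k x t0).card := hR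
  have h5 : (2 : ℕ) ^ (X.lev (k + 3) + 3) = 4 * 2 ^ (X.lev (k + 3) + 1) := by ring
  rw [hlev.1]
  have h6 : (univ.filter fun d => Disjoint (X.Nb (X.lev (k + 3) + 1) d)
    (X.M q (k + 3) ∩ B)).card < 2 ^ (X.lev (k + 3) + 1) := hrich
  omega

/-- LEAVING.  Few processors, which are aware at the beginning of run `τ - 3`, do not leave at the
end of run `τ`.
PROOF.  `T1 = {b : go b (τ - 3), aw b (τ - 3)}`, `l = lev τ`, `lev (τ - 3) = l + 3`.  For `x`, `t`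
let `R x t = {b ∈ T1 : x ∈ M b (τ - 3), go b (τ - 1), F b (τ - 1) ≤ t}`.  Let `t0` be the smallest
time at which some `x ∈ T1` has `17 * 2 ^ (l + 3) ≤ |R x t0|` (if there is none the set `B` below is
empty and `A` is everything).
`A = {b ∈ T1 : go b (τ - 1), F b (τ - 1) < t0}`: for `a ∈ A` the set `{b ∈ A : a ∈ M b (τ - 3)}` is
contained in `R a t` with `t = max F < t0`, so it has fewer than `17 * 2 ^ (l + 3) ≤ 32 * 2 ^ (l + 3)`
members; `reach_few` with `K b = M b (τ - 3)`, `g = 32 * 2 ^ (l + 3)`, `Gr` for run `τ - 3`.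
`B = {b ∈ T1 : go b τ, ¬ lv b τ, t0 ≤ F b (τ - 1)}`: `Gr` for run `τ`: suppose `q ∈ B` has
`64 * 2 ^ l ≤ |M q τ ∩ B|`; `rich` at `ν = l + 1` for `M q τ ∩ B`: fewer than `2 ^ (l + 1)` names `d`
have `Nb (l + 1) d` disjoint from it.  For the other `d ∈ R x t0` there is `a ∈ M q τ ∩ B` with
`a ∈ Nb (l + 1) d ⊆ Ext d (τ - 1)` (`lev (τ - 1) = l + 1`), `d ∈ Nb (l + 1) a ⊆ Nb l a ⊆ Ext a τ`,
`F d (τ - 1) ≤ t0 ≤ F a (τ - 1) < S a τ`: at least `17 * 2 ^ (l + 3) - 2 ^ (l + 1) ≥ 16 * 2 ^ (l + 3)`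
of them: `W5` with `ρ' = τ - 3`: `lv q τ`, contradiction. -/
theorem stay_card (hX : X.Ok) (hG : X.Gr N) {τ : ℕ} (h3 : 3 ≤ τ) (hτ : τ < X.H)
    (hy1 : X.y (τ - 3) ≤ (X.L + 1) ^ 3 * 2 ^ X.lev (τ - 3))
    (hy2 : X.y τ ≤ (X.L + 1) ^ 3 * 2 ^ X.lev τ) :
    1024 * (univ.filter fun b => X.go b τ ∧ X.aw b (τ - 3) ∧ ¬ X.lv b τ).card ≤
      2 * (1024 * (N (τ - 3) * 2 ^ X.lev (τ - 3)) + X.y (τ - 3)) +
        (1024 * (N τ * 2 ^ X.lev τ) + X.y τ) := by
  obtain ⟨k, rfl⟩ := Nat.exists_eq_add_of_le' h3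
  simp only [Nat.add_sub_cancel] at hy1 ⊢
  have hA := cw2c_A hX hG hτ hy1
  have hB := cw2c_B hX hG hτ hy2
  have hsub : (univ.filter fun b => X.go b (k + 3) ∧ X.aw b k ∧ ¬ X.lv b (k + 3)) ⊆
      (univ.filter fun b => (X.go b k ∧ X.aw b k) ∧ X.go b (k + 2) ∧
        ∀ t, cw2c_P X k t → X.F b (k + 2) < t) ∪
      (univ.filter fun b => X.go b (k + 3) ∧ ¬ X.lv b (k + 3) ∧
        ∃ t, cw2c_P X k t ∧ t ≤ X.F b (k + 2)) := by
    intro b hb
    obtain ⟨h1, h2, h4⟩ := (mem_filter.1 hb).2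
    rw [mem_union]
    by_cases h5 : ∃ t, cw2c_P X k t ∧ t ≤ X.F b (k + 2)
    · right
      exact mem_filter.2 ⟨mem_univ _, h1, h4, h5⟩
    · left
      refine mem_filter.2 ⟨mem_univ _, ⟨go_mono hX h1 (by omega), h2⟩,
        go_mono hX h1 (by omega), fun t ht => ?_⟩
      by_contra h6
      exact h5 ⟨t, ht, not_lt.1 h6⟩
  have h1 := card_le_card hsub
  have h2 := card_union_le
    (univ.filter fun b => (X.go b k ∧ X.aw b k) ∧ X.go b (k + 2) ∧
        ∀ t, cw2c_P X k t → X.F b (k + 2) < t)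
    (univ.filter fun b => X.go b (k + 3) ∧ ¬ X.lv b (k + 3) ∧
        ∃ t, cw2c_P X k t ∧ t ≤ X.F b (k + 2))
  omega

end CW

end Pool.Agent.X217
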