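import Pool.Agent.X217.CW2b
import Pool.Agent.X217.CW2c

set_option autoImplicit false

namespace Pool.Agent.X217

open Finset

attribute [local instance 10] Classical.propDecidable

namespace CW

variable {V : Type} [Fintype V] [DecidableEq V] {X : CW V} {N : ℕ → ℕ}

/-- PROOF: `b ∈ ZZ β τ`: if `¬ awe b (τ - 4)` then `b ∈ XX β (τ - 4)` (`τ - 4 - 1 = τ - 5`), otherwise
`aw b (τ - 3)` (`awS`) and `b` is counted in `stay_card`.  Then `XX_card` for `τ - 4` (if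
`τ - 4 ≥ 1`). -/
theorem ZZ_card (hX : X.Ok) (hc : X.Cov) (hG : X.Gr N) {β : ℕ} (hβ : X.Beta β) {τ : ℕ}
    (h5 : 5 ≤ τ) (hτ : τ < X.H)
    (hy : ∀ ρ ≤ τ, X.y ρ ≤ (X.L + 1) ^ 3 * 2 ^ X.lev ρ) :
    1024 * (X.ZZ β τ).card ≤
      1024 * (2 ^ (X.lev (τ - 4) + 5) + 2 ^ (X.lev (τ - 5) + 5) + N (τ - 5) * 2 ^ X.lev (τ - 5) +
        2 * (N (τ - 3) * 2 ^ X.lev (τ - 3)) + N τ * 2 ^ X.lev τ) +
      (X.y (τ - 5) + 2 * X.y (τ - 3) + X.y τ) := by
  have e1 : τ - 4 - 1 = τ - 5 := by omega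
  have hXX := XX_card (N := N) hX hc hG hβ (ρ := τ - 4) (by omega) (by omega)
    (hy _ (by omega))
  rw [e1] at hXX
  have hst := stay_card (N := N) hX hG (τ := τ) (by omega) hτ (hy _ (by omega)) (hy _ le_rfl)
  have hsub : X.ZZ β τ ⊆ X.XX β (τ - 4) ∪
      (univ.filter fun b => X.go b τ ∧ X.aw b (τ - 3) ∧ ¬ X.lv b τ) := by
    intro b hb
    simp only [ZZ, Finset.mem_filter, Finset.mem_univ, true_and] at hb
    obtain ⟨hgo, hS, hlv⟩ := hb
    simp only [XX, Finset.mem_union, Finset.mem_filter, Finset.mem_univ, true_and, e1]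
    by_cases ha : X.awe b (τ - 4)
    · right
      refine ⟨hgo, ?_, hlv⟩
      have h3 : X.go b (τ - 4 + 1) := go_mono hX hgo (by omega)
      have h4 := (hX.awS b (τ - 4) h3).2 (Or.inl ha)
      have e2 : τ - 4 + 1 = τ - 3 := by omega
      rwa [e2] at h4
    · left
      exact ⟨go_mono hX hgo (by omega), hS, ha⟩
  have hcard := (Finset.card_le_card hsub).trans (Finset.card_union_le _ _)
  have h6 : 1024 * (X.ZZ β τ).card ≤ 1024 * (X.XX β (τ - 4)).card +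
      1024 * (univ.filter fun b => X.go b τ ∧ X.aw b (τ - 3) ∧ ¬ X.lv b τ).card := by
    rw [← Nat.mul_add]; exact Nat.mul_le_mul_left _ hcard
  linarith

end CW

end Pool.Agent.X217
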