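import Pool.Agent.X217.CW2d
import Pool.Agent.X217.CW3a
import Pool.Agent.X217.CW3b

set_option autoImplicit false

namespace Pool.Agent.X217

open Finset

attribute [local instance 10] Classical.propDecidable

namespace CW

variable {V : Type} [Fintype V] [DecidableEq V] {X : CW V} {N : ℕ → ℕ}

/-- The late class of one run. -/
private theorem CW3c_late (hX : X.Ok) (hc : X.Cov) (hG : X.Gr N) {β Nm : ℕ} (hβ : X.Beta β)
    (hN : ∀ ρ, N ρ ≤ Nm) {ρ : ℕ} (h8 : 8 ≤ ρ) (hρ : ρ < X.H)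
    (hy : ∀ ρ' < ρ, X.y ρ' ≤ (X.L + 1) ^ 3 * 2 ^ X.lev ρ') :
    1024 * (X.ZZ β (ρ - 1)).card ≤
      2 ^ X.lev ρ * (1024 * (3072 + 98 * Nm) + 98 * (X.L + 1) ^ 3) := by
  have h1 := ZZ_card hX hc hG hβ (τ := ρ - 1) (by omega) (by omega)
    fun ρ' hρ' => hy ρ' (by omega)
  have hHL : X.H ≤ X.L := Nat.sub_le _ _
  obtain ⟨s, rfl⟩ := Nat.exists_eq_add_of_le' h8
  obtain ⟨e, he⟩ := Nat.exists_eq_add_of_le (show s + 8 ≤ X.L by omega)
  have r5 : s + 8 - 1 - 5 = s + 2 := by omega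
  have r4 : s + 8 - 1 - 4 = s + 3 := by omega
  have r3 : s + 8 - 1 - 3 = s + 4 := by omega
  have r0 : s + 8 - 1 = s + 7 := by omega
  have l6 : X.lev (s + 2) = e + 6 := by unfold lev; omega
  have l5 : X.lev (s + 3) = e + 5 := by unfold lev; omega
  have l4 : X.lev (s + 4) = e + 4 := by unfold lev; omega
  have l1 : X.lev (s + 7) = e + 1 := by unfold lev; omega
  have l0 : X.lev (s + 8) = e := by unfold lev; omega
  rw [r5, r4, r3, r0, l6, l5, l4, l1] at h1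
  have y6 := hy (s + 2) (by omega)
  have y4 := hy (s + 4) (by omega)
  have y1 := hy (s + 7) (by omega)
  rw [l6] at y6
  rw [l4] at y4
  rw [l1] at y1
  rw [l0, r0]
  have n6 : N (s + 2) * 2 ^ (e + 6) ≤ Nm * 2 ^ (e + 6) := Nat.mul_le_mul_right _ (hN _)
  have n4 : N (s + 4) * 2 ^ (e + 4) ≤ Nm * 2 ^ (e + 4) := Nat.mul_le_mul_right _ (hN _)
  have n1 : N (s + 7) * 2 ^ (e + 1) ≤ Nm * 2 ^ (e + 1) := Nat.mul_le_mul_right _ (hN _)
  have q1 : 2 ^ e * (1024 * (3072 + 98 * Nm) + 98 * (X.L + 1) ^ 3) =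
      1024 * (2 ^ (e + 5 + 5) + 2 ^ (e + 6 + 5) + Nm * 2 ^ (e + 6) + 2 * (Nm * 2 ^ (e + 4)) +
        Nm * 2 ^ (e + 1)) + ((X.L + 1) ^ 3 * 2 ^ (e + 6) + 2 * ((X.L + 1) ^ 3 * 2 ^ (e + 4)) +
        (X.L + 1) ^ 3 * 2 ^ (e + 1)) := by ring
  rw [q1]
  omega

/-- Cancelling the power of two. -/
private theorem CW3c_cancel {L ρ h m c j : ℕ} (hρ : ρ ≤ L) (hj : j < ρ)
    (hm : m ≤ 64 * ((L + 1) * 2 ^ (L + h))) (hc : 2 ^ (ρ - j - 1) * c ≤ m) :
    c ≤ 64 * 2 ^ (j + 1) * (((L + 1) * 2 ^ h) * 2 ^ (L - ρ)) := by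
  have h1 : 64 * ((L + 1) * 2 ^ (L + h)) =
      2 ^ (ρ - j - 1) * (64 * 2 ^ (j + 1) * (((L + 1) * 2 ^ h) * 2 ^ (L - ρ))) := by
    have h2 : L + h = (ρ - j - 1) + (j + 1) + h + (L - ρ) := by omega
    rw [h2, pow_add, pow_add, pow_add]
    ring
  have h3 : 2 ^ (ρ - j - 1) * c ≤
      2 ^ (ρ - j - 1) * (64 * 2 ^ (j + 1) * (((L + 1) * 2 ^ h) * 2 ^ (L - ρ))) := by
    rw [← h1]
    exact hc.trans hm
  exact Nat.le_of_mul_le_mul_left h3 (Nat.two_pow_pos _)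

/-- The bound for the number of participants.
PROOF: strong induction on `ρ`.  `ρ ≤ 7`: `y ρ ≤ |V| < 2 ^ (L + 1) ≤ (L + 1) ^ 3 * 2 ^ (L - 7)`
because `(L + 1) ^ 3 ≥ 9 ^ 3 ≥ 2 ^ 8` (`hL`).  `ρ ≥ 8`: `split7`.  First term: `start_card`:
`2 ^ (ρ - 1) * .. ≤ 64 (L + 1) 2 ^ (L + h)`, so it is `≤ 128 (L + 1) 2 ^ h 2 ^ (L - ρ)`.  Class
`j ≤ 6`: `S p (ρ - j - 1) ≤ β`, `ρ - j - 1 ≥ 1`: `≤ 64 * 2 ^ (j + 2) (L + 1) 2 ^ h 2 ^ (L - ρ)`; all
together `≤ 2 ^ 15 (L + 1) 2 ^ h 2 ^ (L - ρ)` (`128 + 64 * 4 * 127 = 32640`).  Last term: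
`late_sub`, `ZZ_card` with `τ = ρ - 1`: `lev (τ - 4) = lev ρ + 5`, `lev (τ - 5) = lev ρ + 6`,
`lev (τ - 3) = lev ρ + 4`, `lev τ = lev ρ + 1`, so it is at most
`2 ^ lev ρ * (3072 + 98 * Nm) + 98 * (L + 1) ^ 3 * 2 ^ lev ρ / 1024`.  `hnum`. -/
theorem y_bound (hX : X.Ok) (hc : X.Cov) (hG : X.Gr N) {β h Nm : ℕ} (hβ : X.Beta β)
    (hm : X.m β ≤ 64 * ((X.L + 1) * 2 ^ (X.L + h))) (hN : ∀ ρ, N ρ ≤ Nm)
    (hnum : 2 * (2 ^ 15 * ((X.L + 1) * 2 ^ h) + 2 ^ 12 + 2 ^ 7 * Nm) ≤ (X.L + 1) ^ 3) :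
    ∀ ρ < X.H, X.y ρ ≤ (X.L + 1) ^ 3 * 2 ^ X.lev ρ := by
  intro ρ
  induction ρ using Nat.strong_induction_on with
  | _ ρ IH =>
    intro hρ
    have hHL : X.H ≤ X.L := Nat.sub_le _ _
    have hL8 : 8 ≤ X.L := by
      have := hX.hL
      omega
    have hlev : X.lev ρ = X.L - ρ := by
      unfold lev
      rw [min_eq_left hρ.le]
    by_cases h7 : ρ ≤ 7
    · have h1 : X.y ρ ≤ Fintype.card V := card_le_univ _
      have h2 := hX.hn
      have h3 : (9 : ℕ) ^ 3 ≤ (X.L + 1) ^ 3 := Nat.pow_le_pow_left (by omega) 3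
      have h4 : 2 ^ (X.L + 1) ≤ (X.L + 1) ^ 3 * 2 ^ X.lev ρ := by
        have h5 : X.L + 1 = (ρ + 1) + (X.L - ρ) := by omega
        calc 2 ^ (X.L + 1) = 2 ^ (ρ + 1) * 2 ^ X.lev ρ := by
              rw [hlev, ← pow_add, ← h5]
          _ ≤ (X.L + 1) ^ 3 * 2 ^ X.lev ρ := by
              refine Nat.mul_le_mul_right _ ?_
              have h6 : 2 ^ (ρ + 1) ≤ 2 ^ 8 := Nat.pow_le_pow_right (by norm_num) (by omega)
              omega
      omega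
    · have h8 : 8 ≤ ρ := by omega
      have hsp := split7 hX β ρ
      -- the first term
      have b0 : (univ.filter fun p => X.go p ρ ∧ X.S p ρ ≤ β).card ≤
          64 * 2 ^ 1 * (((X.L + 1) * 2 ^ h) * 2 ^ (X.L - ρ)) := by
        refine CW3c_cancel (j := 0) (by omega) (by omega) hm ?_
        refine le_trans (Nat.mul_le_mul_left _ (card_le_card ?_))
          (start_card hX (ρ := ρ) (t := β) (by omega) (by omega))
        exact fun p hp => mem_filter.2 ⟨mem_univ _, (mem_filter.1 hp).2.2⟩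
      -- the classes
      have bj : ∀ j ∈ range 7, (univ.filter fun p => X.go p ρ ∧ j ≤ ρ ∧ β < X.S p (ρ - j) ∧
          (ρ = j ∨ X.S p (ρ - j - 1) ≤ β)).card ≤
          64 * 2 ^ (j + 2) * (((X.L + 1) * 2 ^ h) * 2 ^ (X.L - ρ)) := by
        intro j hj
        rw [mem_range] at hj
        refine CW3c_cancel (j := j + 1) (by omega) (by omega) hm ?_
        have e1 : ρ - (j + 1) - 1 = (ρ - j - 1) - 1 := by omega
        rw [e1]
        refine le_trans (Nat.mul_le_mul_left _ (card_le_card ?_))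
          (start_card hX (ρ := ρ - j - 1) (t := β) (by omega) (by omega))
        intro p hp
        obtain ⟨-, -, -, -, h1⟩ := mem_filter.1 hp
        refine mem_filter.2 ⟨mem_univ _, ?_⟩
        rcases h1 with h1 | h1
        · omega
        · exact h1
      have bs := sum_le_sum bj
      rw [← sum_mul] at bs
      have e127 : ∑ j ∈ range 7, 64 * 2 ^ (j + 2) = 32512 := by decide
      rw [e127] at bs
      -- the late class
      have bl : 1024 * (univ.filter fun p => X.go p ρ ∧ 7 ≤ ρ ∧ β < X.S p (ρ - 7)).card ≤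
          2 ^ X.lev ρ * (1024 * (3072 + 98 * Nm) + 98 * (X.L + 1) ^ 3) :=
        (Nat.mul_le_mul_left _ (card_le_card (late_sub hX (by omega)))).trans
          (CW3c_late hX hc hG hβ hN h8 hρ fun ρ' hρ' => IH ρ' hρ' (by omega))
      rw [hlev] at bl ⊢
      set P := 2 ^ (X.L - ρ) with hP
      set x := (X.L + 1) ^ 3 with hx
      set a := (X.L + 1) * 2 ^ h with ha
      have k1 : P * (2 * (2 ^ 15 * a + 2 ^ 12 + 2 ^ 7 * Nm)) ≤ P * x := Nat.mul_le_mul_left _ hnum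
      have k2 : P * (2 * (2 ^ 15 * a + 2 ^ 12 + 2 ^ 7 * Nm)) =
          65536 * (a * P) + 8192 * P + 256 * (P * Nm) := by ring
      have k3 : P * (1024 * (3072 + 98 * Nm) + 98 * x) =
          3145728 * P + 100352 * (P * Nm) + 98 * (P * x) := by ring
      have k4 : x * P = P * x := mul_comm _ _
      have k5 : 64 * 2 ^ 1 * (a * P) = 128 * (a * P) := by norm_num
      rw [k2] at k1
      rw [k3] at bl
      rw [k5] at b0
      rw [k4]
      omega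

end CW

end Pool.Agent.X217
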