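import Pool.Agent.X217.CWF

set_option autoImplicit false

/-!
# The conciliator (MP_217fdb_lc, exact order): threshold times
-/

namespace Pool.Agent.X217

open Finset

attribute [local instance 10] Classical.propDecidable

namespace CW

variable {V : Type} [Fintype V] [DecidableEq V] {X : CW V}

theorem wt_le (X : CW V) (ρ : ℕ) : X.wt ρ ≤ 2 ^ X.H :=
  Nat.pow_le_pow_right (by norm_num) (min_le_right _ _)

theorem m_mono (X : CW V) {t t' : ℕ} (h : t ≤ t') : X.m t ≤ X.m t' := by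
  unfold CW.m
  refine sum_le_sum fun ρ _ => Nat.mul_le_mul_left _ (card_le_card ?_)
  intro p hp
  rw [mem_filter] at hp ⊢
  exact ⟨hp.1, hp.2.trans h⟩

/-- At one time at most one run is finished. -/
theorem m_step (hX : X.Ok) (t : ℕ) : X.m (t + 1) ≤ X.m t + 2 ^ X.H := by
  have hE : ∀ p ρ ρ', X.E p ρ = X.E p ρ' → ρ = ρ' := by
    intro p ρ ρ' h
    rcases lt_trichotomy ρ ρ' with h1 | h1 | h1
    · have := S_lt hX p h1
      have h2 := hX.SF p ρ'
      have h3 := hX.FE p ρ'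
      omega
    · exact h1
    · have := S_lt hX p h1
      have h2 := hX.SF p ρ
      have h3 := hX.FE p ρ
      omega
  have h1 : X.m (t + 1) ≤ X.m t +
      ∑ ρ ∈ range X.rn, X.wt ρ * (univ.filter fun p => X.E p ρ = t + 1).card := by
    unfold CW.m
    rw [← sum_add_distrib]
    refine sum_le_sum fun ρ _ => ?_
    rw [← Nat.mul_add]
    refine Nat.mul_le_mul_left _ ?_
    refine le_trans (card_le_card ?_) (card_union_le _ _)
    intro p hp
    rw [mem_union, mem_filter, mem_filter]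
    have h := (mem_filter.mp hp).2
    rcases Nat.lt_or_ge t (X.E p ρ) with h2 | h2
    · right; exact ⟨mem_univ _, by omega⟩
    · left; exact ⟨mem_univ _, h2⟩
  have h2 : ∑ ρ ∈ range X.rn, X.wt ρ * (univ.filter fun p => X.E p ρ = t + 1).card ≤ 2 ^ X.H := by
    have h3 : ∀ p ρ, X.E p ρ = t + 1 → p = X.who (t + 1) := by
      intro p ρ h; rw [← h]; exact (hX.tE p ρ).symm
    calc ∑ ρ ∈ range X.rn, X.wt ρ * (univ.filter fun p => X.E p ρ = t + 1).card
        ≤ ∑ ρ ∈ range X.rn, 2 ^ X.H * (if X.E (X.who (t + 1)) ρ = t + 1 then 1 else 0) := by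
          refine sum_le_sum fun ρ _ => Nat.mul_le_mul (wt_le X ρ) ?_
          by_cases h : X.E (X.who (t + 1)) ρ = t + 1
          · rw [if_pos h]
            refine card_le_one.mpr ?_
            intro a ha b hb
            rw [h3 a ρ (mem_filter.mp ha).2, h3 b ρ (mem_filter.mp hb).2]
          · rw [if_neg h, Nat.le_zero, card_eq_zero, filter_eq_empty_iff]
            intro p _ hp
            have := h3 p ρ hp
            rw [this] at hp
            exact h hp
      _ = 2 ^ X.H * ((range X.rn).filter fun ρ => X.E (X.who (t + 1)) ρ = t + 1).card := by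
          rw [← mul_sum, card_filter]
      _ ≤ 2 ^ X.H * 1 := by
          refine Nat.mul_le_mul_left _ (card_le_one.mpr ?_)
          intro a ha b hb
          exact hE _ a b ((mem_filter.mp ha).2.trans (mem_filter.mp hb).2.symm)
      _ = 2 ^ X.H := by rw [mul_one]
  omega

/-- Nothing is finished at time `0`. -/
theorem m_zero (hX : X.Ok) : X.m 0 = 0 := by
  unfold CW.m
  refine sum_eq_zero fun ρ _ => ?_
  rw [Nat.mul_eq_zero, card_eq_zero, filter_eq_empty_iff]
  right
  intro p _ hp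
  have h2 := hX.SF p ρ
  have h3 := hX.FE p ρ
  omega

/-- The mass becomes large. -/
theorem m_reach (hX : X.Ok) (hV : Nonempty V) : ∃ t, (X.rn - X.H) * 2 ^ X.H ≤ X.m t := by
  obtain ⟨p⟩ := hV
  refine ⟨X.E p X.rn, ?_⟩
  unfold CW.m
  have h1 : ∀ ρ ∈ (range X.rn).filter (fun ρ => X.H ≤ ρ), 2 ^ X.H ≤
      X.wt ρ * (univ.filter fun q => X.E q ρ ≤ X.E p X.rn).card := by
    intro ρ hρ
    rw [mem_filter, mem_range] at hρ
    have h2 : X.wt ρ = 2 ^ X.H := by unfold CW.wt; rw [min_eq_right hρ.2]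
    rw [h2]
    refine Nat.le_mul_of_pos_right _ (card_pos.mpr ⟨p, ?_⟩)
    rw [mem_filter]
    refine ⟨mem_univ _, ?_⟩
    have h3 := S_lt hX p hρ.1
    have h4 := hX.SF p X.rn
    have h5 := hX.FE p X.rn
    omega
  calc (X.rn - X.H) * 2 ^ X.H
      = ∑ ρ ∈ (range X.rn).filter (fun ρ => X.H ≤ ρ), 2 ^ X.H := by
        rw [sum_const, smul_eq_mul]
        congr 1
        have : (range X.rn).filter (fun ρ => X.H ≤ ρ) = Ico X.H X.rn := by
          ext ρ; simp only [mem_filter, mem_range, mem_Ico]; exact and_comm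
        rw [this, Nat.card_Ico]
    _ ≤ ∑ ρ ∈ (range X.rn).filter (fun ρ => X.H ≤ ρ),
          X.wt ρ * (univ.filter fun q => X.E q ρ ≤ X.E p X.rn).card := sum_le_sum h1
    _ ≤ _ := sum_le_sum_of_subset (filter_subset _ _)

/-- The threshold time. -/
theorem thr (hX : X.Ok) (hV : Nonempty V) {a : ℕ} (ha : a ≤ (X.rn - X.H) * 2 ^ X.H) :
    ∃ t, a ≤ X.m t ∧ X.m t ≤ a + 2 ^ X.H := by
  have hex : ∃ t, a ≤ X.m t := by
    obtain ⟨t, ht⟩ := m_reach hX hV
    exact ⟨t, ha.trans ht⟩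
  refine ⟨Nat.find hex, Nat.find_spec hex, ?_⟩
  rcases Nat.eq_zero_or_pos (Nat.find hex) with h | h
  · rw [h, m_zero hX]; exact Nat.zero_le _
  · have h1 := Nat.find_min hex (m := Nat.find hex - 1) (by omega)
    have h2 := m_step hX (Nat.find hex - 1)
    rw [Nat.sub_add_cancel h] at h2
    omega

/-- If `p` has finished run `ρ ≥ H` the mass is large. -/
theorem m_late (hX : X.Ok) {t : ℕ} {p : V} {ρ : ℕ} (hρ : ρ < X.rn) (h : X.E p ρ ≤ t) :
    (ρ + 1 - X.H) * 2 ^ X.H ≤ X.m t := by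
  unfold CW.m
  have h1 : ∀ ρ' ∈ Ico X.H (ρ + 1), 2 ^ X.H ≤
      X.wt ρ' * (univ.filter fun q => X.E q ρ' ≤ t).card := by
    intro ρ' hρ'
    rw [mem_Ico] at hρ'
    have h2 : X.wt ρ' = 2 ^ X.H := by unfold CW.wt; rw [min_eq_right hρ'.1]
    rw [h2]
    refine Nat.le_mul_of_pos_right _ (card_pos.mpr ⟨p, ?_⟩)
    rw [mem_filter]
    refine ⟨mem_univ _, ?_⟩
    rcases Nat.lt_or_ge ρ' ρ with h6 | h6
    · have h3 := S_lt hX p h6
      have h4 := hX.SF p ρ
      have h5 := hX.FE p ρ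
      omega
    · have : ρ' = ρ := by omega
      rw [this]; exact h
  calc (ρ + 1 - X.H) * 2 ^ X.H
      = ∑ ρ' ∈ Ico X.H (ρ + 1), 2 ^ X.H := by
        rw [sum_const, smul_eq_mul, Nat.card_Ico]
    _ ≤ ∑ ρ' ∈ Ico X.H (ρ + 1),
          X.wt ρ' * (univ.filter fun q => X.E q ρ' ≤ t).card := sum_le_sum h1
    _ ≤ _ := by
        refine sum_le_sum_of_subset fun ρ' hρ' => ?_
        rw [mem_Ico] at hρ'
        rw [mem_range]; omega

/-- The total mass is not too large. -/
theorem Ytot_le (X : CW V) : X.Ytot ≤ X.rn * (2 ^ X.H * Fintype.card V) := by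
  unfold CW.Ytot
  calc ∑ ρ ∈ range X.rn, X.wt ρ * X.y ρ ≤ ∑ ρ ∈ range X.rn, 2 ^ X.H * Fintype.card V := by
        refine sum_le_sum fun ρ _ => Nat.mul_le_mul (wt_le X ρ) ?_
        exact card_le_univ _
    _ = _ := by rw [sum_const, smul_eq_mul, card_range]

/-- The first publication. -/
theorem ex_beta {t : ℕ} (h : X.PUB t) : ∃ β ≤ t, X.Beta β := by
  have hex : ∃ t, X.PUB t := ⟨t, h⟩
  exact ⟨Nat.find hex, Nat.find_min' hex h, Nat.find_spec hex, fun t' ht' => Nat.find_min hex ht'⟩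

end CW

end Pool.Agent.X217
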