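import Pool.Agent.X217.CWFa

set_option autoImplicit false

/-!
# The conciliator (MP_217fdb_lc, exact order): mass and coins
-/

namespace Pool.Agent.X217

open Finset

attribute [local instance 10] Classical.propDecidable

namespace CWF

variable {V Ω : Type} [Fintype V] [DecidableEq V] {X : CWF V Ω} {Nc : ℕ → ℕ}

/-- The typical flips. -/
noncomputable def Typ (X : CWF V Ω) (t : ℕ) (ω : Ω) : Finset (V × Fin X.rn) :=
  univ.filter fun e => (X.W ω fun _ => false).Typ e.1 e.2.val t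

theorem H_le (X : CWF V Ω) : X.H ≤ X.L := Nat.sub_le _ _

theorem wt_div (X : CWF V Ω) (ω : Ω) (f : V × Fin X.rn → Bool) (e : V × Fin X.rn) :
    1 / (X.N e : ℝ) = ((X.W ω f).wt e.2.val : ℝ) / 2 ^ (X.L + X.h) := by
  have h1 : min e.2.val X.H ≤ X.L + X.h := (min_le_right _ _).trans (by have := H_le X; omega)
  have h2 : (2 : ℝ) ^ (X.L + X.h) = 2 ^ (X.L + X.h - min e.2.val X.H) * 2 ^ min e.2.val X.H := by
    rw [← pow_add]; congr 1; omega
  have h3 : ((X.W ω f).wt e.2.val : ℝ) = 2 ^ min e.2.val X.H := by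
    unfold CW.wt
    push_cast
    rfl
  rw [h3, h2]
  unfold N
  push_cast
  have h4 : (0 : ℝ) < 2 ^ min e.2.val X.H := by positivity
  have h5 : (0 : ℝ) < 2 ^ (X.L + X.h - min e.2.val X.H) := by positivity
  field_simp

theorem fmass_eq (X : CWF V Ω) (ω : Ω) (f : V × Fin X.rn → Bool) (P : V → ℕ → Prop)
    [∀ p ρ, Decidable (P p ρ)] :
    fmass X.N (univ.filter fun e : V × Fin X.rn => P e.1 e.2.val) =
      ((∑ ρ ∈ range X.rn, (X.W ω f).wt ρ * (univ.filter fun p => P p ρ).card : ℕ) : ℝ) /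
        2 ^ (X.L + X.h) := by
  unfold fmass
  rw [sum_congr rfl fun e _ => wt_div X ω f e, ← sum_div]
  congr 1
  push_cast
  rw [sum_filter, ← univ_product_univ, sum_product_right,
    ← Fin.sum_univ_eq_sum_range (fun ρ => ((X.W ω f).wt ρ : ℝ) *
      ((univ.filter fun p => P p ρ).card : ℝ)) X.rn]
  refine sum_congr rfl fun ρ _ => ?_
  rw [card_filter]
  push_cast
  rw [mul_sum]
  refine sum_congr rfl fun p _ => ?_
  by_cases h : P p ρ.val
  · simp [h]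
  · simp [h]

theorem N_two (hX : X.Ok Nc) (e : V × Fin X.rn) : 2 ≤ X.N e := by
  unfold N
  have h1 : min e.2.val X.H ≤ X.L := (min_le_right _ _).trans (H_le X)
  have h2 := hX.h4
  calc 2 = 2 ^ 1 := rfl
    _ ≤ 2 ^ (X.L + X.h - min e.2.val X.H) := Nat.pow_le_pow_right (by norm_num) (by omega)

/-- The mass of the flips made. -/
theorem fmass_mf (X : CWF V Ω) (ω : Ω) (f : V × Fin X.rn → Bool) :
    fmass X.N (X.mf ω f) = ((X.W ω f).Fm : ℝ) / 2 ^ (X.L + X.h) :=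
  fmass_eq X ω f fun p ρ => X.go ω f p ρ ∧ ¬ X.awe ω f p ρ

/-- The mass of the typical flips. -/
theorem fmass_typ (X : CWF V Ω) (t : ℕ) (ω : Ω) :
    fmass X.N (X.Typ t ω) = ((X.W ω fun _ => false).mt t : ℝ) / 2 ^ (X.L + X.h) :=
  fmass_eq X ω (fun _ => false) fun p ρ => (X.W ω fun _ => false).Typ p ρ t

theorem cov_iff (X : CWF V Ω) (ω : Ω) (f f' : V × Fin X.rn → Bool) (h : (X.W ω f).Cov) :
    (X.W ω f').Cov := ⟨h.c1, h.c2⟩

theorem grs_iff (X : CWF V Ω) (ω : Ω) (f f' : V × Fin X.rn → Bool) (t : ℕ)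
    (h : (X.W ω f).GrS Nc t) : (X.W ω f').GrS Nc t := h

theorem typ_iff (X : CWF V Ω) (ω : Ω) (f f' : V × Fin X.rn → Bool) (p : V) (ρ t : ℕ)
    (h : (X.W ω f).Typ p ρ t) : (X.W ω f').Typ p ρ t := h

/-- `Suc` and the flips made depend on the flips made only. -/
theorem mf_loc (hX : X.Ok Nc) (ω : Ω) (f f' : V × Fin X.rn → Bool)
    (h : ∀ e ∈ X.mf ω f, f e = f' e) : X.mf ω f' = X.mf ω f ∧ (X.Suc ω f → X.Suc ω f') := by
  have h1 := hX.loc ω f f' fun e h1 h2 => h e (mem_filter.mpr ⟨mem_univ _, h1, h2⟩)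
  refine ⟨?_, ?_⟩
  · unfold mf
    ext e
    rw [mem_filter, mem_filter, (h1 e.1 e.2.val).1, (h1 e.1 e.2.val).2]
  · rintro ⟨⟨e₀, h2, h3, h4, h5⟩, h6⟩
    refine ⟨⟨e₀, (h1 _ _).1.mpr h2, fun h => h3 ((h1 _ _).2.mp h), ?_, ?_⟩, ?_⟩
    · rw [← h e₀ (mem_filter.mpr ⟨mem_univ _, h2, h3⟩)]; exact h4
    · intro e h7 h8 h9
      have h7' := (h1 _ _).1.mp h7
      have h8' : ¬ X.awe ω f e.1 e.2.val := fun h => h8 ((h1 _ _).2.mpr h)
      refine h5 e h7' h8' ?_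
      rw [h e (mem_filter.mpr ⟨mem_univ _, h7', h8'⟩)]; exact h9
    · intro p hp
      exact (h1 _ _).2.mpr (h6 p ((h1 _ _).1.mp hp))

end CWF

end Pool.Agent.X217
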