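import Pool.Agent.X217.CWFb

set_option autoImplicit false

/-!
# The conciliator (MP_217fdb_lc, exact order): expectation and agreement
-/

namespace Pool.Agent.X217

open Finset

attribute [local instance 10] Classical.propDecidable

namespace CWF

variable {V Ω : Type} [Fintype V] [DecidableEq V] {X : CWF V Ω} {Nc : ℕ → ℕ}

/-- The threshold times. -/
theorem thr (hX : X.Ok Nc) (hV : Nonempty V) (ω : Ω) {a : ℕ}
    (ha : a ≤ 64 * ((X.L + 1) * 2 ^ (X.L + X.h))) :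
    ∃ t, a ≤ (X.W ω fun _ => false).m t ∧ (X.W ω fun _ => false).m t ≤ a + 2 ^ X.H :=
  CW.thr (hX.ok ω fun _ => false) hV (ha.trans hX.hcap)

theorem H_small (hX : X.Ok Nc) : 2 ^ 11 * 2 ^ X.H ≤ 2 ^ (X.L + X.h) := by
  rw [← pow_add]
  refine Nat.pow_le_pow_right (by norm_num) ?_
  have := hX.h11
  have := hX.hL
  unfold H
  omega

/-- All flips in a world which is published at time `t`. -/
theorem flips (hX : X.Ok Nc) {ω : Ω} {f : V × Fin X.rn → Bool} {t : ℕ}
    (hc : (X.W ω fun _ => false).Cov) (hG : (X.W ω f).Gr Nc)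
    (hm : (X.W ω fun _ => false).m t ≤ 64 * ((X.L + 1) * 2 ^ (X.L + X.h)))
    (hP : (X.W ω f).PUB t) :
    (X.W ω f).Fm ≤ 9 * (X.W ω fun _ => false).m t + (X.W ω f).Err Nc := by
  obtain ⟨β, hβt, hβ⟩ := CW.ex_beta hP
  obtain ⟨Nm, hN, hnum⟩ := hX.hnum
  have h1 : (X.W ω f).m β ≤ (X.W ω f).m t := CW.m_mono _ hβt
  have h2 := CW.flips_all (X := X.W ω f) (hX.ok ω f) (cov_iff X ω _ f hc) hG hβ (h1.trans hm) hN hnum
  have h3 : (X.W ω f).m t = (X.W ω fun _ => false).m t := rfl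
  omega

/-- The total mass in a world which is published at time `t`. -/
theorem total (hX : X.Ok Nc) {ω : Ω} {f : V × Fin X.rn → Bool} {t : ℕ}
    (hc : (X.W ω fun _ => false).Cov) (hG : (X.W ω f).Gr Nc)
    (hm : (X.W ω fun _ => false).m t ≤ 64 * ((X.L + 1) * 2 ^ (X.L + X.h)))
    (hP : (X.W ω f).PUB t) :
    (X.W ω f).Ytot ≤ 1024 * (X.W ω fun _ => false).m t + (X.W ω f).Err Nc := by
  obtain ⟨β, hβt, hβ⟩ := CW.ex_beta hP
  obtain ⟨Nm, hN, hnum⟩ := hX.hnum
  have h1 : (X.W ω f).m β ≤ (X.W ω f).m t := CW.m_mono _ hβt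
  have h2 := CW.mass_total (X := X.W ω f) (hX.ok ω f) (cov_iff X ω _ f hc) hG hβ (h1.trans hm) hN hnum
  have h3 : (X.W ω f).m t = (X.W ω fun _ => false).m t := rfl
  omega

/-- Most of the mass is typical. -/
theorem typm (hX : X.Ok Nc) {ω : Ω} {t : ℕ} (hG : (X.W ω fun _ => false).GrS Nc t)
    (hm : (X.W ω fun _ => false).m t ≤ 128 * ((X.L + 1) * 2 ^ (X.L + X.h))) :
    (X.W ω fun _ => false).m t ≤ 8 * (X.W ω fun _ => false).mt t +
      (X.W ω fun _ => false).Err Nc := by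
  obtain ⟨Nm, hN, hnum⟩ := hX.hnum
  exact CW.typ_mass (X := X.W ω fun _ => false) (hX.ok ω _) hG hm hN hnum

/-- The error is small. -/
theorem err (hX : X.Ok Nc) (ω : Ω) (f : V × Fin X.rn → Bool) :
    64 * (X.W ω f).Err Nc ≤ 2 ^ (X.L + X.h) := hX.herr

/-- The successful world of a typical flip. -/
theorem suc_find (hX : X.Ok Nc) {ω : Ω} {t : ℕ} (e : V × Fin X.rn)
    (hc : (X.W ω fun _ => false).Cov) 
    (hm : 16 * (X.W ω fun _ => false).m t ≤ 2 * 2 ^ (X.L + X.h))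
    (he : e ∈ X.Typ t ω) :
    (X.W ω (find e)).PUB t ∧ e ∈ X.mf ω (find e) ∧ X.Suc ω (find e) := by
  have hfl : ∀ p ρ, (X.W ω (find e)).fl p ρ ↔ p = e.1 ∧ ρ = e.2.val := by
    intro p ρ
    constructor
    · rintro ⟨hρ, h⟩
      simp only [find, decide_eq_true_eq] at h
      rw [← h]
      exact ⟨rfl, rfl⟩
    · rintro ⟨rfl, rfl⟩
      exact ⟨e.2.isLt, by simp [find]⟩
  have hok := hX.ok ω (find e)
  have hT : (X.W ω (find e)).Typ e.1 e.2.val t := typ_iff X ω _ _ _ _ _ (mem_filter.mp he).2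
  obtain ⟨h1, h2, h3⟩ := CW.only_pub hok hfl hT
  have hmem : e ∈ X.mf ω (find e) := mem_filter.mpr ⟨mem_univ _, h2, h3⟩
  refine ⟨h1, hmem, ⟨e, h2, h3, by simp [find], ?_⟩, ?_⟩
  · intro e' _ _ h
    simpa [find] using h
  · intro p hp
    obtain ⟨β, hβt, hβ⟩ := CW.ex_beta h1
    have hr := hok.hr
    have hr' : X.H + 2 ≤ X.rn := hr
    have hcap := hX.hcap
    have hlarge : t < X.E p (X.rn - 2) := by
      by_contra hcon
      push Not at hcon
      have h4 := CW.m_late (X := X.W ω (find e)) hok (p := p) (ρ := X.rn - 2) (t := t)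
        (show X.rn - 2 < X.rn by omega) hcon
      have h5 : (X.W ω (find e)).m t = (X.W ω fun _ => false).m t := rfl
      have h6 : (X.W ω (find e)).H = X.H := rfl
      rw [h5, h6] at h4
      have h7 : X.rn - 2 + 1 - X.H = X.rn - X.H - 1 := by omega
      rw [h7, Nat.sub_mul, one_mul] at h4
      have h8 := H_small hX
      have h9 : 2 ^ (X.L + X.h) ≤ (X.L + 1) * 2 ^ (X.L + X.h) :=
        Nat.le_mul_of_pos_left _ (by omega)
      have h10 : 0 < 2 ^ (X.L + X.h) := by positivity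
      omega
    have hS : β < X.S p (X.rn - 1) := by
      have h4 := CW.S_lt (X := X.W ω (find e)) hok p (ρ := X.rn - 2) (ρ' := X.rn - 1) (by omega)
      have h5 : X.E p (X.rn - 2) < X.S p (X.rn - 1) := h4
      omega
    have h6 : (X.W ω (find e)).H = X.H := rfl
    have h7 := CW.bot_awf hok (cov_iff X ω _ _ hc) hβ (b := p) (ρ := X.rn - 1)
      (by rw [h6]; omega) hp hS
    exact hok.awf_awe p _ hp h7

end CWF

end Pool.Agent.X217
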