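import Pool.Agent.X217.CWFc

set_option autoImplicit false

/-!
# The conciliator (MP_217fdb_lc, exact order): expectation of the total mass
-/

namespace Pool.Agent.X217

open Finset

attribute [local instance 10] Classical.propDecidable

namespace CWF

variable {V Ω : Type} [Fintype V] [DecidableEq V] [Fintype Ω]

/-- The probability bounds for the bad events. -/
structure Pr (X : CWF V Ω) (Nc : ℕ → ℕ) (η : ℝ) : Prop where
  η0 : 0 ≤ η
  ηs : η * 2 ^ (8 * (X.L + 1)) ≤ 1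
  cov : ((univ.filter fun ω => ¬ (X.W ω fun _ => false).Cov).card : ℝ) ≤ η * Fintype.card Ω
  grs : ∀ t, ((univ.filter fun ω => ¬ (X.W ω fun _ => false).GrS Nc t).card : ℝ) ≤
    η * Fintype.card Ω
  gr : ∀ f, ((univ.filter fun ω => ¬ (X.W ω f).Gr Nc).card : ℝ) ≤ η * Fintype.card Ω

variable {X : CWF V Ω} {Nc : ℕ → ℕ} {η : ℝ}

/-- The good other tables, for the expectation. -/
def G1 (X : CWF V Ω) (Nc : ℕ → ℕ) (K : ℕ) (τ : ℕ → ℕ) (ω : Ω) : Prop :=
  (X.W ω fun _ => false).Cov ∧ ∀ k ∈ Icc 1 K, (X.W ω fun _ => false).GrS Nc (τ k)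

/-- The good other tables, for the agreement. -/
def G2 (X : CWF V Ω) (Nc : ℕ → ℕ) (t : ℕ) (ω : Ω) : Prop :=
  (X.W ω fun _ => false).Cov ∧ (X.W ω fun _ => false).GrS Nc t ∧
      ∀ e, (X.W ω (find e)).Gr Nc

theorem bad1 (hP : X.Pr Nc η) (K : ℕ) (τ : ℕ → ℕ) :
    ((univ.filter fun ω => ¬ X.G1 Nc K τ ω).card : ℝ) ≤
      (K + 1) * (η * Fintype.card Ω) := by
  have h1 : (univ.filter fun ω => ¬ X.G1 Nc K τ ω) ⊆
      (univ.filter fun ω => ¬ (X.W ω fun _ => false).Cov) ∪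
      (Icc 1 K).biUnion fun k => univ.filter fun ω => ¬ (X.W ω fun _ => false).GrS Nc (τ k) := by
    intro ω hω
    have h := (mem_filter.mp hω).2
    rw [mem_union, mem_biUnion]
    by_cases h2 : (X.W ω fun _ => false).Cov
    · right
      have h3 : ¬ ∀ k ∈ Icc 1 K, (X.W ω fun _ => false).GrS Nc (τ k) := fun h3 => h ⟨h2, h3⟩
      push Not at h3
      obtain ⟨k, hk, h4⟩ := h3
      exact ⟨k, hk, mem_filter.mpr ⟨mem_univ _, h4⟩⟩
    · left; exact mem_filter.mpr ⟨mem_univ _, h2⟩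
  have h2 := (card_le_card h1).trans ((card_union_le _ _).trans
    (Nat.add_le_add_left card_biUnion_le _))
  calc ((univ.filter fun ω => ¬ X.G1 Nc K τ ω).card : ℝ)
      ≤ (((univ.filter fun ω => ¬ (X.W ω fun _ => false).Cov).card +
        ∑ k ∈ Icc 1 K, (univ.filter fun ω => ¬ (X.W ω fun _ => false).GrS Nc (τ k)).card : ℕ) : ℝ) := by
        exact_mod_cast h2
    _ = ((univ.filter fun ω => ¬ (X.W ω fun _ => false).Cov).card : ℝ) +
        ∑ k ∈ Icc 1 K, ((univ.filter fun ω => ¬ (X.W ω fun _ => false).GrS Nc (τ k)).card : ℝ) := by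
        push_cast; rfl
    _ ≤ η * Fintype.card Ω + ∑ k ∈ Icc 1 K, η * Fintype.card Ω :=
        add_le_add hP.cov (sum_le_sum fun k _ => hP.grs (τ k))
    _ = _ := by
        rw [sum_const, Nat.card_Icc, nsmul_eq_mul]
        have : ((K + 1 - 1 : ℕ) : ℝ) = K := by simp
        rw [this]; ring

theorem bad2 (hP : X.Pr Nc η) :
    ((univ.filter fun y : Ω × FC X.N => ¬ (X.W y.1 (flt y.2)).Gr Nc).card : ℝ) ≤
      η * Fintype.card Ω * Fintype.card (FC X.N) := by
  have h1 : ((univ.filter fun y : Ω × FC X.N => ¬ (X.W y.1 (flt y.2)).Gr Nc).card : ℝ) =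
      ∑ c : FC X.N, ((univ.filter fun ω : Ω => ¬ (X.W ω (flt c)).Gr Nc).card : ℝ) := by
    rw [← Nat.cast_sum]
    congr 1
    simp only [card_filter]
    rw [← univ_product_univ, sum_product_right]
  rw [h1]
  calc ∑ c : FC X.N, ((univ.filter fun ω : Ω => ¬ (X.W ω (flt c)).Gr Nc).card : ℝ)
      ≤ ∑ _c : FC X.N, η * Fintype.card Ω := sum_le_sum fun c _ => hP.gr (flt c)
    _ = _ := by rw [sum_const, card_univ, nsmul_eq_mul]; ring

theorem bad3 (hP : X.Pr Nc η) (t : ℕ) :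
    ((univ.filter fun ω => ¬ X.G2 Nc t ω).card : ℝ) ≤
      (Fintype.card (V × Fin X.rn) + 2) * (η * Fintype.card Ω) := by
  have h1 : (univ.filter fun ω => ¬ X.G2 Nc t ω) ⊆
      (univ.filter fun ω => ¬ (X.W ω fun _ => false).Cov) ∪
      ((univ.filter fun ω => ¬ (X.W ω fun _ => false).GrS Nc t) ∪
      univ.biUnion fun e => univ.filter fun ω => ¬ (X.W ω (find e)).Gr Nc) := by
    intro ω hω
    have h := (mem_filter.mp hω).2
    rw [mem_union, mem_union, mem_biUnion]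
    by_cases h2 : (X.W ω fun _ => false).Cov
    · right
      by_cases h3 : (X.W ω fun _ => false).GrS Nc t
      · right
        have h4 : ¬ ∀ e, (X.W ω (find e)).Gr Nc := fun h4 => h ⟨h2, h3, h4⟩
        push Not at h4
        obtain ⟨e, h5⟩ := h4
        exact ⟨e, mem_univ _, mem_filter.mpr ⟨mem_univ _, h5⟩⟩
      · left; exact mem_filter.mpr ⟨mem_univ _, h3⟩
    · left; exact mem_filter.mpr ⟨mem_univ _, h2⟩
  have h2 := (card_le_card h1).trans ((card_union_le _ _).trans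
    (Nat.add_le_add_left ((card_union_le _ _).trans (Nat.add_le_add_left card_biUnion_le _)) _))
  calc ((univ.filter fun ω => ¬ X.G2 Nc t ω).card : ℝ)
      ≤ (((univ.filter fun ω => ¬ (X.W ω fun _ => false).Cov).card +
        ((univ.filter fun ω => ¬ (X.W ω fun _ => false).GrS Nc t).card +
        ∑ e : V × Fin X.rn, (univ.filter fun ω => ¬ (X.W ω (find e)).Gr Nc).card) : ℕ) : ℝ) := by
        exact_mod_cast h2
    _ = ((univ.filter fun ω => ¬ (X.W ω fun _ => false).Cov).card : ℝ) +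
        (((univ.filter fun ω => ¬ (X.W ω fun _ => false).GrS Nc t).card : ℝ) +
        ∑ e : V × Fin X.rn, ((univ.filter fun ω => ¬ (X.W ω (find e)).Gr Nc).card : ℝ)) := by
        push_cast; rfl
    _ ≤ η * Fintype.card Ω + (η * Fintype.card Ω + ∑ _e : V × Fin X.rn, η * Fintype.card Ω) :=
        add_le_add hP.cov (add_le_add (hP.grs t) (sum_le_sum fun e _ => hP.gr (find e)))
    _ = _ := by
        rw [sum_const, card_univ, nsmul_eq_mul]
        ring

/-- The number of flips. -/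
theorem flips_card (hX : X.Ok Nc) (ω : Ω) :
    Fintype.card (V × Fin X.rn) ≤ 2 ^ (3 * (X.L + 1)) := by
  rw [Fintype.card_prod, Fintype.card_fin]
  have h1 := (hX.ok ω fun _ => false).hn
  have h2 : Fintype.card V ≤ 2 ^ (X.L + 1) := h1.le
  calc Fintype.card V * X.rn ≤ 2 ^ (X.L + 1) * 2 ^ (2 * (X.L + 1)) := Nat.mul_le_mul h2 hX.hrn
    _ = 2 ^ (3 * (X.L + 1)) := by rw [← pow_add]; congr 1; omega

theorem num1 (x : ℕ) (hx : 9 ≤ x) : 63 * x + 1 ≤ 2 ^ (5 * x) := by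
  induction x, hx using Nat.le_induction with
  | base => norm_num
  | succ n hn ih =>
    have : 2 ^ (5 * (n + 1)) = 32 * 2 ^ (5 * n) := by rw [Nat.mul_add, pow_add]; ring
    omega

/-- The expectation of the total mass. -/
theorem expect [Nonempty V] (hX : X.Ok Nc) (hP : X.Pr Nc η) :
    ∑ y : Ω × FC X.N, ((X.W y.1 (flt y.2)).Ytot : ℝ) ≤
      2 ^ 15 * 2 ^ (X.L + X.h) * ((Fintype.card Ω : ℝ) * Fintype.card (FC X.N)) := by
  rcases isEmpty_or_nonempty Ω with hΩ | ⟨⟨ω₀⟩⟩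
  · haveI : IsEmpty (Ω × FC X.N) := ⟨fun y => hΩ.elim y.1⟩
    rw [Fintype.sum_empty]
    positivity
  set U : ℕ := 2 ^ (X.L + X.h) with hU
  have hUpos : 0 < U := by positivity
  have hUr : (0 : ℝ) < (2 : ℝ) ^ (X.L + X.h) := by positivity
  have hUcast : ((U : ℕ) : ℝ) = (2 : ℝ) ^ (X.L + X.h) := by rw [hU]; push_cast; rfl
  set K : ℕ := 63 * (X.L + 1) with hK
  have hHs := H_small hX
  rw [← hU] at hHs
  have hthr : ∀ k, k ∈ Icc 1 K → ∃ t, k * U ≤ (X.W ω₀ fun _ => false).m t ∧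
      (X.W ω₀ fun _ => false).m t ≤ k * U + 2 ^ X.H := by
    intro k hk
    rw [mem_Icc] at hk
    refine thr hX inferInstance ω₀ ?_
    calc k * U ≤ (63 * (X.L + 1)) * U := Nat.mul_le_mul_right _ hk.2
      _ ≤ 64 * ((X.L + 1) * U) := by rw [← Nat.mul_assoc]; exact Nat.mul_le_mul_right _ (by omega)
  choose! τ hτ using hthr
  have hm64 : ∀ k ∈ Icc 1 K, (X.W ω₀ fun _ => false).m (τ k) ≤ 64 * ((X.L + 1) * U) := by
    intro k hk
    have h1 := (hτ k hk).2
    rw [mem_Icc] at hk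
    have h2 : k * U ≤ (63 * (X.L + 1)) * U := Nat.mul_le_mul_right _ hk.2
    have h3 : 1 * U ≤ (X.L + 1) * U := Nat.mul_le_mul_right _ (by omega)
    have h4 : (63 * (X.L + 1)) * U = 63 * ((X.L + 1) * U) := Nat.mul_assoc _ _ _
    omega
  have hYmax : ∀ ω f, ((X.W ω f).Ytot : ℝ) / 2 ^ (X.L + X.h) ≤ 2 ^ (3 * (X.L + 1)) := by
    intro ω f
    rw [div_le_iff₀ hUr]
    have h1 := CW.Ytot_le (X.W ω f)
    have h2 : X.rn * (2 ^ X.H * Fintype.card V) ≤ 2 ^ (3 * (X.L + 1)) * U := by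
      have h3 := flips_card hX ω
      rw [Fintype.card_prod, Fintype.card_fin] at h3
      calc X.rn * (2 ^ X.H * Fintype.card V) = Fintype.card V * X.rn * 2 ^ X.H := by ring
        _ ≤ 2 ^ (3 * (X.L + 1)) * U := Nat.mul_le_mul h3 (by omega)
    have h4 : (X.W ω f).Ytot ≤ 2 ^ (3 * (X.L + 1)) * U := h1.trans h2
    calc ((X.W ω f).Ytot : ℝ) ≤ ((2 ^ (3 * (X.L + 1)) * U : ℕ) : ℝ) := by exact_mod_cast h4
      _ = _ := by push_cast; rw [hUcast]
  have hmain := fl_expect (N := X.N) (Ω := Ω) (fun e => by have := N_two hX e; omega) K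
    (by omega) (1 / 8) (1 / 8) 1024 (2 ^ (3 * (X.L + 1))) (by norm_num) (by norm_num)
    (by positivity)
    (fun ω => X.G1 Nc K τ ω)
    (fun ω f => (X.W ω f).Gr Nc)
    (fun k ω => X.Typ (τ k) ω)
    (fun k ω f => ¬ (X.W ω f).PUB (τ k))
    (fun ω f => ((X.W ω f).Ytot : ℝ) / 2 ^ (X.L + X.h))
    (by
      intro ω hg k hk
      have h1 := typm hX (hg.2 k hk) (t := τ k)
        ((hm64 k hk).trans (Nat.mul_le_mul_right _ (by norm_num)))
      have h2 := err hX ω fun _ => false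
      have h3 : k * U ≤ (X.W ω fun _ => false).m (τ k) := (hτ k hk).1
      rw [fmass_typ, le_div_iff₀ hUr, ← hUcast]
      have h4 : 64 * k * U ≤ 512 * (X.W ω fun _ => false).mt (τ k) + U := by
        have : 64 * k * U = 64 * (k * U) := Nat.mul_assoc _ _ _
        rw [← hU] at h2
        omega
      have h5 : (64 : ℝ) * k * U ≤ 512 * ((X.W ω fun _ => false).mt (τ k) : ℝ) + U := by
        exact_mod_cast h4
      have h6 : (0 : ℝ) < U := by exact_mod_cast hUpos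
      linarith)
    (by
      intro ω _ k _ f hl e he
      have h1 := CW.typ_fail (X := X.W ω f) (hX.ok ω f) hl
        (typ_iff X ω _ f _ _ _ (mem_filter.mp he).2)
      have h2 : ¬ ∃ hρ : e.2.val < X.rn, f (e.1, ⟨e.2.val, hρ⟩) = true := h1.2.2
      by_contra h3
      exact h2 ⟨e.2.isLt, by simpa using h3⟩)
    (by
      intro ω f hg hf k hk hnl
      have hpub : (X.W ω f).PUB (τ k) := not_not.mp hnl
      have h1 := total hX hg.1 hf (hm64 k hk) hpub
      have h2 := err hX ω f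
      rw [← hU] at h2
      have h3 : (X.W ω fun _ => false).m (τ k) ≤ k * U + 2 ^ X.H := (hτ k hk).2
      rw [div_le_iff₀ hUr, ← hUcast]
      have h4 : (X.W ω f).Ytot ≤ 1024 * (k * U) + U := by omega
      have h5 : ((X.W ω f).Ytot : ℝ) ≤ 1024 * (k * U) + U := by exact_mod_cast h4
      linarith)
    hYmax
  have hb1 := bad1 hP K τ
  have hb2 := bad2 hP
  set T : ℝ := (Fintype.card Ω : ℝ) * Fintype.card (FC X.N) with hT
  have hT0 : 0 ≤ T := by positivity
  have hsum : ∑ y : Ω × FC X.N, ((X.W y.1 (flt y.2)).Ytot : ℝ) =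
      2 ^ (X.L + X.h) * ∑ y : Ω × FC X.N, ((X.W y.1 (flt y.2)).Ytot : ℝ) / 2 ^ (X.L + X.h) := by
    rw [← sum_div]
    field_simp
  rw [hsum]
  -- numeric facts
  set x : ℕ := X.L + 1 with hx
  have hL9 : 9 ≤ x := by have := hX.hL; omega
  have e1 : (2 : ℝ) ^ (3 * x) * Real.exp (1 / 8 - 1 / 8 * K) ≤ 1 := by
    have h1 : (2 : ℝ) ^ (3 * x) ≤ Real.exp (3 * x) := by
      have h2 : (2 : ℝ) ≤ Real.exp 1 := by
        have := Real.add_one_le_exp 1; linarith
      calc (2 : ℝ) ^ (3 * x) ≤ (Real.exp 1) ^ (3 * x) := pow_le_pow_left₀ (by norm_num) h2 _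
        _ = Real.exp (3 * x) := by rw [← Real.exp_nat_mul]; push_cast; ring_nf
    have h3 : (K : ℝ) = 63 * x := by rw [hK]; push_cast; ring
    calc (2 : ℝ) ^ (3 * x) * Real.exp (1 / 8 - 1 / 8 * K)
        ≤ Real.exp (3 * x) * Real.exp (1 / 8 - 1 / 8 * K) :=
          mul_le_mul_of_nonneg_right h1 (Real.exp_pos _).le
      _ = Real.exp (3 * x + (1 / 8 - 1 / 8 * K)) := (Real.exp_add _ _).symm
      _ ≤ Real.exp 0 := by
          apply Real.exp_le_exp.mpr
          rw [h3]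
          have : (9 : ℝ) ≤ x := by exact_mod_cast hL9
          linarith
      _ = 1 := Real.exp_zero
  have e2 : Real.exp (1 / 8 : ℝ) ≤ 2 := by
    have h1 := Real.add_one_le_exp (-(1 / 8 : ℝ))
    have h2 : Real.exp (1 / 8 : ℝ) * Real.exp (-(1 / 8 : ℝ)) = 1 := by
      rw [← Real.exp_add]; norm_num
    nlinarith [Real.exp_pos (1 / 8 : ℝ)]
  have hx3 : (2 : ℝ) ^ (3 * x) * η * (K + 1) ≤ 1 := by
    have h1 : ((K : ℝ) + 1) ≤ 2 ^ (5 * x) := by
      have := num1 x hL9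
      rw [hK]
      exact_mod_cast this
    have h2 := hP.ηs
    have h3 : (2 : ℝ) ^ (8 * x) = 2 ^ (3 * x) * 2 ^ (5 * x) := by rw [← pow_add]; congr 1; omega
    calc (2 : ℝ) ^ (3 * x) * η * (K + 1) ≤ 2 ^ (3 * x) * η * 2 ^ (5 * x) := by
          refine mul_le_mul_of_nonneg_left h1 ?_
          have := hP.η0
          positivity
      _ = η * 2 ^ (8 * x) := by rw [h3]; ring
      _ ≤ 1 := h2
  have hx4 : (2 : ℝ) ^ (3 * x) * η ≤ 1 := by
    refine le_trans ?_ hx3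
    have h0 : 0 ≤ (2 : ℝ) ^ (3 * x) * η := by have := hP.η0; positivity
    have h1 : (1 : ℝ) ≤ K + 1 := by
      have : (0 : ℝ) ≤ K := by positivity
      linarith
    nlinarith
  have f1 : (2 : ℝ) ^ (3 * x) * (((univ.filter fun ω : Ω => ¬ X.G1 Nc K τ ω).card : ℝ) * Fintype.card (FC X.N)) ≤
      T := by
    calc (2 : ℝ) ^ (3 * x) * (((univ.filter fun ω : Ω => ¬ X.G1 Nc K τ ω).card : ℝ) * Fintype.card (FC X.N))
        ≤ (2 : ℝ) ^ (3 * x) * (((K + 1) * (η * Fintype.card Ω)) * Fintype.card (FC X.N)) := by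
          refine mul_le_mul_of_nonneg_left ?_ (by positivity)
          exact mul_le_mul_of_nonneg_right hb1 (by positivity)
      _ = ((2 : ℝ) ^ (3 * x) * η * (K + 1)) * T := by rw [hT]; ring
      _ ≤ 1 * T := mul_le_mul_of_nonneg_right hx3 hT0
      _ = T := one_mul _
  have f2 : (2 : ℝ) ^ (3 * x) *
      ((univ.filter fun y : Ω × FC X.N => ¬ (X.W y.1 (flt y.2)).Gr Nc).card : ℝ) ≤ T := by
    calc (2 : ℝ) ^ (3 * x) *
      ((univ.filter fun y : Ω × FC X.N => ¬ (X.W y.1 (flt y.2)).Gr Nc).card : ℝ)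
        ≤ (2 : ℝ) ^ (3 * x) * (η * Fintype.card Ω * Fintype.card (FC X.N)) :=
          mul_le_mul_of_nonneg_left hb2 (by positivity)
      _ = ((2 : ℝ) ^ (3 * x) * η) * T := by rw [hT]; ring
      _ ≤ 1 * T := mul_le_mul_of_nonneg_right hx4 hT0
      _ = T := one_mul _
  have hfin : ∑ y : Ω × FC X.N, ((X.W y.1 (flt y.2)).Ytot : ℝ) / 2 ^ (X.L + X.h) ≤ 2 ^ 15 * T := by
    refine hmain.trans ?_
    have g1 : (1024 + 1 + 1024 * (Real.exp (1 / 8) / (1 / 8)) +
        2 ^ (3 * x) * Real.exp (1 / 8 - 1 / 8 * K)) * T ≤ (1025 + 16384 + 1) * T := by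
      refine mul_le_mul_of_nonneg_right ?_ hT0
      have : Real.exp (1 / 8 : ℝ) / (1 / 8) ≤ 16 := by
        rw [div_le_iff₀ (by norm_num)]; linarith
      linarith
    linarith
  calc 2 ^ (X.L + X.h) * ∑ y : Ω × FC X.N, ((X.W y.1 (flt y.2)).Ytot : ℝ) / 2 ^ (X.L + X.h)
      ≤ 2 ^ (X.L + X.h) * (2 ^ 15 * T) := mul_le_mul_of_nonneg_left hfin hUr.le
    _ = _ := by ring

end CWF

end Pool.Agent.X217
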