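import Pool.Agent.X217.PrSeq

set_option autoImplicit false
set_option linter.unusedSectionVars false

/-!
# Random picks revealed in a fixed order: number of failures before the first success
-/

namespace Pool.Agent.X217

open Finset

attribute [local instance 10] Classical.propDecidable

variable {ι V : Type*} [Fintype ι] [DecidableEq ι] [DecidableEq V] {Rn Lam w : ℕ}

/-- The failures of the tests of `x` before the first success; `tg ω i r = some x` says that row
`i` is a test of `x` in label `r`. -/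
noncomputable def fl (κ : Fin Rn → V → Fin Lam) (ix : Fin Rn → V → Fin w) (rv : ι → ℕ)
    (tg : (ι → Fin Rn → Fin Lam → Fin w) → ι → Fin Rn → Option V)
    (ω : ι → Fin Rn → Fin Lam → Fin w) (r : Fin Rn) (x : V) : Finset ι :=
  univ.filter fun i => tg ω i r = some x ∧ ω i r (κ r x) ≠ ix r x ∧
    ∀ i', tg ω i' r = some x → ω i' r (κ r x) = ix r x → rv i < rv i'

private noncomputable def Pr1_G (o : Option V) (E : V → Prop) (κr : V → Fin Lam) (d : V → Fin w)
    (u : Fin Lam → Fin w) : ℝ :=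
  match o with
  | none => 1
  | some x => if E x then 1 else if u (κr x) = d x then 1 / 2 else 1 + 1 / (2 * w)

/-- the factor of row `i` and label `r` -/
private noncomputable def Pr1_g (κ : Fin Rn → V → Fin Lam) (ix : Fin Rn → V → Fin w) (rv : ι → ℕ)
    (tg : (ι → Fin Rn → Fin Lam → Fin w) → ι → Fin Rn → Option V) (i : ι) (r : Fin Rn)
    (ω : ι → Fin Rn → Fin Lam → Fin w) : ℝ :=
  Pr1_G (tg ω i r) (fun x => ∃ i', rv i' < rv i ∧ tg ω i' r = some x ∧
    ω i' r (κ r x) = ix r x) (κ r) (ix r) (ω i r)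

/-- the first success -/
private noncomputable def Pr1_F (κ : Fin Rn → V → Fin Lam) (ix : Fin Rn → V → Fin w) (rv : ι → ℕ)
    (tg : (ι → Fin Rn → Fin Lam → Fin w) → ι → Fin Rn → Option V)
    (ω : ι → Fin Rn → Fin Lam → Fin w) (r : Fin Rn) (x : V) : Finset ι :=
  univ.filter fun i => tg ω i r = some x ∧ ω i r (κ r x) = ix r x ∧
    ¬ ∃ i', rv i' < rv i ∧ tg ω i' r = some x ∧ ω i' r (κ r x) = ix r x

private theorem Pr1_nn (κ : Fin Rn → V → Fin Lam) (ix : Fin Rn → V → Fin w) (rv : ι → ℕ)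
    (tg : (ι → Fin Rn → Fin Lam → Fin w) → ι → Fin Rn → Option V) (i : ι) (r : Fin Rn)
    (ω : ι → Fin Rn → Fin Lam → Fin w) : 0 ≤ Pr1_g κ ix rv tg i r ω := by
  unfold Pr1_g Pr1_G
  cases tg ω i r with
  | none => exact zero_le_one
  | some x =>
    dsimp only
    split_ifs
    · exact zero_le_one
    · norm_num
    · positivity

private theorem Pr1_F_card (κ : Fin Rn → V → Fin Lam) (ix : Fin Rn → V → Fin w) (rv : ι → ℕ)
    (hrv : Function.Injective rv)
    (tg : (ι → Fin Rn → Fin Lam → Fin w) → ι → Fin Rn → Option V)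
    (ω : ι → Fin Rn → Fin Lam → Fin w) (r : Fin Rn) (x : V) :
    (Pr1_F κ ix rv tg ω r x).card ≤ 1 := by
  rw [Finset.card_le_one]
  intro i hi j hj
  unfold Pr1_F at hi hj
  rw [Finset.mem_filter] at hi hj
  obtain ⟨-, hi1, hi2, hi3⟩ := hi
  obtain ⟨-, hj1, hj2, hj3⟩ := hj
  apply hrv
  by_contra hne
  rcases Nat.lt_or_gt_of_ne hne with h | h
  · exact hj3 ⟨i, h, hi1, hi2⟩
  · exact hi3 ⟨j, h, hj1, hj2⟩

private theorem Pr1_eq (κ : Fin Rn → V → Fin Lam) (ix : Fin Rn → V → Fin w) (rv : ι → ℕ)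
    (hrv : Function.Injective rv)
    (tg : (ι → Fin Rn → Fin Lam → Fin w) → ι → Fin Rn → Option V)
    (Rs : Finset V) (ω : ι → Fin Rn → Fin Lam → Fin w)
    (hR : ∀ i r x, tg ω i r = some x → x ∈ Rs) (i : ι) (r : Fin Rn) :
    Pr1_g κ ix rv tg i r ω = ∏ x ∈ Rs, ((if i ∈ fl κ ix rv tg ω r x then 1 + 1 / (2 * (w : ℝ)) else 1) *
      (if i ∈ Pr1_F κ ix rv tg ω r x then 1 / 2 else 1)) := by
  have hfl : ∀ x, i ∈ fl κ ix rv tg ω r x ↔ (tg ω i r = some x ∧ ω i r (κ r x) ≠ ix r x ∧
      ∀ i', tg ω i' r = some x → ω i' r (κ r x) = ix r x → rv i < rv i') := by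
    intro x
    unfold fl
    rw [Finset.mem_filter]
    exact ⟨fun h => h.2, fun h => ⟨Finset.mem_univ _, h⟩⟩
  have hF : ∀ x, i ∈ Pr1_F κ ix rv tg ω r x ↔ (tg ω i r = some x ∧ ω i r (κ r x) = ix r x ∧
      ¬ ∃ i', rv i' < rv i ∧ tg ω i' r = some x ∧ ω i' r (κ r x) = ix r x) := by
    intro x
    unfold Pr1_F
    rw [Finset.mem_filter]
    exact ⟨fun h => h.2, fun h => ⟨Finset.mem_univ _, h⟩⟩
  unfold Pr1_g Pr1_G
  cases htg : tg ω i r with
  | none =>
    symm
    refine Finset.prod_eq_one fun x _ => ?_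
    rw [if_neg, if_neg, mul_one]
    · rw [hF, htg]
      rintro ⟨h, -⟩
      cases h
    · rw [hfl, htg]
      rintro ⟨h, -⟩
      cases h
  | some x =>
    rw [Finset.prod_eq_single x]
    · dsimp only
      by_cases h1 : ∃ i', rv i' < rv i ∧ tg ω i' r = some x ∧ ω i' r (κ r x) = ix r x
      · rw [if_pos h1, if_neg, if_neg, mul_one]
        · rw [hF]
          rintro ⟨-, -, h⟩
          exact h h1
        · rw [hfl]
          rintro ⟨-, -, h⟩
          obtain ⟨i', h2, h3, h4⟩ := h1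
          exact absurd (h i' h3 h4) (by omega)
      · rw [if_neg h1]
        by_cases h2 : ω i r (κ r x) = ix r x
        · rw [if_pos h2, if_neg, if_pos, one_mul]
          · rw [hF]
            exact ⟨htg, h2, h1⟩
          · rw [hfl]
            rintro ⟨-, h, -⟩
            exact h h2
        · rw [if_neg h2, if_pos, if_neg, mul_one]
          · rw [hF]
            rintro ⟨-, h, -⟩
            exact h2 h
          · rw [hfl]
            refine ⟨htg, h2, fun i' h3 h4 => ?_⟩
            rcases Nat.lt_trichotomy (rv i) (rv i') with h | h | h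
            · exact h
            · exfalso
              have := hrv h
              subst this
              exact h2 h4
            · exact absurd ⟨i', h, h3, h4⟩ h1
    · intro y _ hy
      rw [if_neg, if_neg, mul_one]
      · rw [hF, htg]
        rintro ⟨h, -⟩
        exact hy (Option.some.inj h).symm
      · rw [hfl, htg]
        rintro ⟨h, -⟩
        exact hy (Option.some.inj h).symm
    · intro h
      exact absurd (hR i r x htg) h

/-- the product for one world -/
private theorem Pr1_prod (hw : 0 < w) (κ : Fin Rn → V → Fin Lam) (ix : Fin Rn → V → Fin w)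
    (rv : ι → ℕ) (hrv : Function.Injective rv)
    (tg : (ι → Fin Rn → Fin Lam → Fin w) → ι → Fin Rn → Option V)
    (Rs : Finset V) (ω : ι → Fin Rn → Fin Lam → Fin w)
    (hR : ∀ i r x, tg ω i r = some x → x ∈ Rs) (k : ℕ)
    (hbad : 2 * w * (Rn * Rs.card + k) < ∑ r, ∑ x ∈ Rs, (fl κ ix rv tg ω r x).card) :
    (2 : ℝ) ^ k ≤ ∏ i, ∏ r, Pr1_g κ ix rv tg i r ω := by
  set q : ℝ := 1 + 1 / (2 * (w : ℝ)) with hq
  have hw' : (0 : ℝ) < w := by exact_mod_cast hw
  have hq1 : 1 ≤ q := by
    rw [hq]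
    have : 0 ≤ 1 / (2 * (w : ℝ)) := by positivity
    linarith
  have h1 : ∏ i, ∏ r, Pr1_g κ ix rv tg i r ω =
      ∏ r, ∏ x ∈ Rs, (q ^ (fl κ ix rv tg ω r x).card *
        (1 / 2) ^ (Pr1_F κ ix rv tg ω r x).card) := by
    rw [Finset.prod_comm]
    refine Finset.prod_congr rfl fun r _ => ?_
    rw [Finset.prod_congr rfl fun i _ => Pr1_eq κ ix rv hrv tg Rs ω hR i r, Finset.prod_comm]
    refine Finset.prod_congr rfl fun x _ => ?_
    rw [Finset.prod_mul_distrib, Finset.prod_ite_mem, Finset.prod_ite_mem, Finset.univ_inter,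
      Finset.univ_inter, Finset.prod_const, Finset.prod_const]
  rw [h1]
  have h2 : ∏ r : Fin Rn, ∏ x ∈ Rs, (q ^ (fl κ ix rv tg ω r x).card * (1 / 2)) ≤
      ∏ r, ∏ x ∈ Rs, (q ^ (fl κ ix rv tg ω r x).card *
        (1 / 2) ^ (Pr1_F κ ix rv tg ω r x).card) := by
    refine Finset.prod_le_prod (fun r _ => Finset.prod_nonneg fun x _ => by positivity)
      fun r _ => Finset.prod_le_prod (fun x _ => by positivity) fun x _ => ?_
    refine mul_le_mul_of_nonneg_left ?_ (by positivity)
    have h3 := Pr1_F_card κ ix rv hrv tg ω r x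
    interval_cases (Pr1_F κ ix rv tg ω r x).card
    · norm_num
    · norm_num
  refine le_trans ?_ h2
  have h4 : ∏ r : Fin Rn, ∏ x ∈ Rs, (q ^ (fl κ ix rv tg ω r x).card * (1 / 2)) =
      q ^ (∑ r, ∑ x ∈ Rs, (fl κ ix rv tg ω r x).card) * (1 / 2) ^ (Rn * Rs.card) := by
    simp only [Finset.prod_mul_distrib, Finset.prod_pow_eq_pow_sum, Finset.prod_const,
      Finset.sum_const, Finset.card_univ, Fintype.card_fin, smul_eq_mul]
  rw [h4]
  have h5 : q ^ (2 * w * (Rn * Rs.card + k)) ≤
      q ^ (∑ r, ∑ x ∈ Rs, (fl κ ix rv tg ω r x).card) := pow_le_pow_right₀ hq1 hbad.le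
  have h6 : (2 : ℝ) ≤ q ^ (2 * w) := by
    have h7 := one_add_mul_le_pow (a := 1 / (2 * (w : ℝ)))
      (by have : 0 ≤ 1 / (2 * (w : ℝ)) := by positivity
          linarith) (2 * w)
    have h8 : 1 + ((2 * w : ℕ) : ℝ) * (1 / (2 * (w : ℝ))) = 2 := by
      push_cast
      field_simp
      norm_num
    rw [h8] at h7
    exact h7
  have h9 : (2 : ℝ) ^ (Rn * Rs.card + k) ≤ q ^ (2 * w * (Rn * Rs.card + k)) := by
    rw [pow_mul]
    exact pow_le_pow_left₀ (by norm_num) h6 _
  calc (2 : ℝ) ^ k = 2 ^ (Rn * Rs.card + k) * (1 / 2) ^ (Rn * Rs.card) := by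
        rw [pow_add, mul_assoc, mul_comm ((2 : ℝ) ^ k), ← mul_assoc, ← mul_pow]
        norm_num
    _ ≤ q ^ (∑ r, ∑ x ∈ Rs, (fl κ ix rv tg ω r x).card) * (1 / 2) ^ (Rn * Rs.card) :=
        mul_le_mul_of_nonneg_right (h9.trans h5) (by positivity)

/-- a sum over the values of a pick -/
private theorem Pr1_sum (hw : 0 < w) (d : Fin w) :
    ∑ b : Fin w, (if b = d then (1 / 2 : ℝ) else 1 + 1 / (2 * (w : ℝ))) ≤ w := by
  have hw' : (0 : ℝ) < w := by exact_mod_cast hw
  have h1 : ∀ b : Fin w, (if b = d then (1 / 2 : ℝ) else 1 + 1 / (2 * (w : ℝ))) =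
      (1 + 1 / (2 * (w : ℝ))) + if b = d then (1 / 2 - (1 + 1 / (2 * (w : ℝ)))) else 0 := by
    intro b
    split_ifs <;> ring
  rw [Finset.sum_congr rfl fun b _ => h1 b, Finset.sum_add_distrib, Finset.sum_const,
    Finset.card_univ, Fintype.card_fin, Finset.sum_ite_eq' , if_pos (Finset.mem_univ _),
    nsmul_eq_mul]
  have h2 : (w : ℝ) * (1 + 1 / (2 * (w : ℝ))) + (1 / 2 - (1 + 1 / (2 * (w : ℝ)))) =
      w - 1 / (2 * w) := by
    field_simp
    ring
  rw [h2]
  have : 0 ≤ 1 / (2 * (w : ℝ)) := by positivity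
  linarith

private noncomputable def Pr1_H (o : Option V) (E : V → Prop) (κr : V → Fin Lam) (d : V → Fin w)
    (c : Fin Lam) (b : Fin w) : ℝ :=
  match o with
  | none => 1
  | some x => if E x ∨ κr x ≠ c then 1 else if b = d x then 1 / 2 else 1 + 1 / (2 * w)

private theorem Pr1_GH (o : Option V) (E : V → Prop) (κr : V → Fin Lam) (d : V → Fin w)
    (u : Fin Lam → Fin w) : Pr1_G o E κr d u = ∏ c, Pr1_H o E κr d c (u c) := by
  cases o with
  | none => simp [Pr1_G, Pr1_H]
  | some x =>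
    unfold Pr1_G Pr1_H
    dsimp only
    by_cases h4 : E x
    · rw [if_pos h4]
      symm
      exact Finset.prod_eq_one fun c _ => if_pos (Or.inl h4)
    · rw [if_neg h4, Finset.prod_eq_single (κr x)]
      · have h5 : ¬ (E x ∨ κr x ≠ κr x) := by
          rintro (h | h)
          · exact h4 h
          · exact h rfl
        rw [if_neg h5]
      · intro c _ hc
        exact if_pos (Or.inr hc.symm)
      · intro h5
        exact absurd (Finset.mem_univ _) h5

private theorem Pr1_H_nn (o : Option V) (E : V → Prop) (κr : V → Fin Lam) (d : V → Fin w)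
    (c : Fin Lam) (b : Fin w) : 0 ≤ Pr1_H o E κr d c b := by
  unfold Pr1_H
  cases o with
  | none => exact zero_le_one
  | some x =>
    dsimp only
    split_ifs
    · exact zero_le_one
    · norm_num
    · positivity

private theorem Pr1_H_sum (hw : 0 < w) (o : Option V) (E : V → Prop) (κr : V → Fin Lam)
    (d : V → Fin w) (c : Fin Lam) : ∑ b, Pr1_H o E κr d c b ≤ w := by
  unfold Pr1_H
  cases o with
  | none => simp
  | some x =>
    dsimp only
    by_cases h5 : E x ∨ κr x ≠ c
    · simp only [if_pos h5, Finset.sum_const, Finset.card_univ, Fintype.card_fin, nsmul_eq_mul,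
        mul_one, le_refl]
    · simp only [if_neg h5]
      exact Pr1_sum hw (d x)

/-- The total number of failures is at most `2 w (Rn |R| + k)` with probability `1 - 2^-k`.
PROOF: `prod_seq` with `f i ω` = the product over `r` of: `1` if `tg ω i r = none`, or if it is
`some x` and some earlier row `i'` (`rv i' < rv i`) was a successful test of `x` in label `r`;
otherwise `1/2` if `ω i r (κ r x) = ix r x`, and `1 + 1/(2w)` if not.  The mean over the coordinate `i`
(the labels `r` are independent) is at most `(1 - 1/w)(1 + 1/(2w)) + (1/w)(1/2) ≤ 1` for every `r`.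
`∏ i, f i ω ≥ ∏ r, ∏ x ∈ Rs ω, (1 + 1/(2w)) ^ card (fl ω r x) / 2`, and
`(1 + 1/(2w)) ^ (2w) ≥ 2`. -/
theorem pr1 (hw : 0 < w) (κ : Fin Rn → V → Fin Lam) (ix : Fin Rn → V → Fin w) (rv : ι → ℕ)
    (hrv : Function.Injective rv)
    (tg : (ι → Fin Rn → Fin Lam → Fin w) → ι → Fin Rn → Option V)
    (Rs : (ι → Fin Rn → Fin Lam → Fin w) → Finset V)
    (hR : ∀ ω i r x, tg ω i r = some x → x ∈ Rs ω)
    (hloc : ∀ ω ω' i, (∀ i', rv i' < rv i → ω i' = ω' i') → tg ω i = tg ω' i) (k : ℕ) :
    (univ.filter fun ω => 2 * w * (Rn * (Rs ω).card + k) <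
      ∑ r, ∑ x ∈ Rs ω, (fl κ ix rv tg ω r x).card).card * 2 ^ k ≤
      Fintype.card (ι → Fin Rn → Fin Lam → Fin w) := by
  have hne : Nonempty (Fin w) := ⟨⟨0, hw⟩⟩
  set f : ι → (ι → Fin Rn → Fin Lam → Fin w) → ℝ := fun i ω => ∏ r, Pr1_g κ ix rv tg i r ω with hf
  have h0 : ∀ i ω, 0 ≤ f i ω := fun i ω => Finset.prod_nonneg fun r _ => Pr1_nn κ ix rv tg i r ω
  have hdep : ∀ i ω ω', (∀ i', rv i' ≤ rv i → ω i' = ω' i') → f i ω = f i ω' := by
    intro i ω ω' h
    refine Finset.prod_congr rfl fun r _ => ?_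
    have h1 : ∀ i', rv i' ≤ rv i → tg ω i' = tg ω' i' := fun i' hi' =>
      hloc ω ω' i' fun i'' hi'' => h i'' (by omega)
    have h3 : (fun x => ∃ i', rv i' < rv i ∧ tg ω i' r = some x ∧ ω i' r (κ r x) = ix r x) =
        (fun x => ∃ i', rv i' < rv i ∧ tg ω' i' r = some x ∧ ω' i' r (κ r x) = ix r x) := by
      funext x
      apply propext
      constructor
      · rintro ⟨i', a, b, c⟩
        rw [h1 i' a.le] at b
        rw [h i' a.le] at c
        exact ⟨i', a, b, c⟩
      · rintro ⟨i', a, b, c⟩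
        rw [← h1 i' a.le] at b
        rw [← h i' a.le] at c
        exact ⟨i', a, b, c⟩
    unfold Pr1_g
    rw [h3, h1 i le_rfl, h i le_rfl]
  have hmean : ∀ i ω, ∑ v : Fin Rn → Fin Lam → Fin w, f i (Function.update ω i v) ≤
      Fintype.card (Fin Rn → Fin Lam → Fin w) := by
    intro i ω
    set E : Fin Rn → V → Prop := fun r x =>
      ∃ i', rv i' < rv i ∧ tg ω i' r = some x ∧ ω i' r (κ r x) = ix r x with hE
    set H : Fin Rn → Fin Lam → Fin w → ℝ := fun r c b =>
      Pr1_H (tg ω i r) (E r) (κ r) (ix r) c b with hH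
    have e1 : ∀ v : Fin Rn → Fin Lam → Fin w, f i (Function.update ω i v) =
        ∏ r, ∏ c, H r c (v r c) := by
      intro v
      refine Finset.prod_congr rfl fun r _ => ?_
      have h1 : ∀ i', rv i' ≤ rv i → tg (Function.update ω i v) i' = tg ω i' := fun i' hi' =>
        hloc _ _ i' fun i'' hi'' => by
          rw [Function.update_of_ne]
          rintro rfl
          omega
      have h3 : (fun x => ∃ i', rv i' < rv i ∧ tg (Function.update ω i v) i' r = some x ∧
          (Function.update ω i v) i' r (κ r x) = ix r x) = E r := by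
        funext x
        rw [hE]
        apply propext
        constructor
        · rintro ⟨i', a, b, c⟩
          rw [h1 i' a.le] at b
          rw [Function.update_of_ne (by rintro rfl; omega)] at c
          exact ⟨i', a, b, c⟩
        · rintro ⟨i', a, b, c⟩
          rw [← h1 i' a.le] at b
          refine ⟨i', a, b, ?_⟩
          rw [Function.update_of_ne (by rintro rfl; omega)]
          exact c
      have h6 : Pr1_g κ ix rv tg i r (Function.update ω i v) =
          Pr1_G (tg (Function.update ω i v) i r) (fun x => ∃ i', rv i' < rv i ∧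
            tg (Function.update ω i v) i' r = some x ∧
            (Function.update ω i v) i' r (κ r x) = ix r x) (κ r) (ix r)
            ((Function.update ω i v) i r) := rfl
      rw [h6, h3, h1 i le_rfl, Function.update_self, Pr1_GH]
    have e2 : ∀ r c, ∑ b, H r c b ≤ w := fun r c => Pr1_H_sum hw _ _ _ _ _
    have e3 : ∀ r c b, 0 ≤ H r c b := fun r c b => Pr1_H_nn _ _ _ _ _ _
    rw [Finset.sum_congr rfl fun v _ => e1 v]
    have e4 : ∑ v : Fin Rn → Fin Lam → Fin w, ∏ r, ∏ c, H r c (v r c) =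
        ∏ r, ∏ c, ∑ b, H r c b := by
      have e5 : ∀ r, ∏ c, ∑ b, H r c b = ∑ u : Fin Lam → Fin w, ∏ c, H r c (u c) := by
        intro r
        rw [Finset.prod_univ_sum, Fintype.piFinset_univ]
      rw [Finset.prod_congr rfl fun r _ => e5 r, Finset.prod_univ_sum, Fintype.piFinset_univ]
    rw [e4]
    calc ∏ r, ∏ c, ∑ b, H r c b ≤ ∏ _r : Fin Rn, ∏ _c : Fin Lam, (w : ℝ) :=
          Finset.prod_le_prod
            (fun r _ => Finset.prod_nonneg fun c _ => Finset.sum_nonneg fun b _ => e3 r c b)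
            fun r _ => Finset.prod_le_prod (fun c _ => Finset.sum_nonneg fun b _ => e3 r c b)
              fun c _ => e2 r c
      _ = Fintype.card (Fin Rn → Fin Lam → Fin w) := by
          simp [Fintype.card_pi]
  have hseq := prod_seq (Ω := fun _ : ι => Fin Rn → Fin Lam → Fin w) rv hrv f h0 hdep hmean
  set B := univ.filter fun ω => 2 * w * (Rn * (Rs ω).card + k) <
      ∑ r, ∑ x ∈ Rs ω, (fl κ ix rv tg ω r x).card with hB
  have h1 : (B.card : ℝ) * 2 ^ k ≤ ∑ ω ∈ B, ∏ i, f i ω := by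
    rw [← nsmul_eq_mul, ← Finset.sum_const]
    refine Finset.sum_le_sum fun ω hω => ?_
    rw [hB, Finset.mem_filter] at hω
    exact Pr1_prod hw κ ix rv hrv tg (Rs ω) ω (hR ω) k hω.2
  have h2 : ∑ ω ∈ B, ∏ i, f i ω ≤ ∑ ω, ∏ i, f i ω :=
    Finset.sum_le_sum_of_subset_of_nonneg (Finset.subset_univ _)
      fun ω _ _ => Finset.prod_nonneg fun i _ => h0 i ω
  have h3 : (B.card : ℝ) * 2 ^ k ≤ Fintype.card (ι → Fin Rn → Fin Lam → Fin w) :=
    h1.trans (h2.trans hseq)
  exact_mod_cast h3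

end Pool.Agent.X217
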