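import Pool.Agent.X217.FamDefs
import Pool.Agent.X217.Pr1

set_option autoImplicit false

namespace Pool.Agent.X217

open Finset

attribute [local instance 10] Classical.propDecidable

private theorem Fam1_mem_Gs {V : Type} (X : Ph V) (g0 r : ℕ) (x : V) (q : V × ℕ) :
    q ∈ X.Gs g0 r x ↔ (q.1 ∈ X.C ∧ 2 ≤ q.2 ∧ q.2 ≤ X.N) ∧ X.Test g0 r x q.1 q.2 ∧
      ¬ X.rp q.1 q.2 r x ∧
      ∀ y s, X.Test g0 r x y s → X.rp y s r x → X.al q.1 (q.2 + 1) < X.al y (s + 1) := by
  unfold Ph.Gs
  rw [mem_filter, mem_product, mem_Icc]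

private theorem Fam1_mem_dur {V : Type} (X : Ph V) (r : ℕ) (x y : V) (s : ℕ) (q : V × ℕ) :
    q ∈ X.dur r x y s ↔ (q.1 ∈ X.C ∧ 2 ≤ q.2 ∧ q.2 ≤ X.N) ∧ X.bl r q.1 = X.bl r x ∧
      X.be q.1 1 < X.be x 1 ∧ X.al y (s + 1) ≤ X.al q.1 q.2 ∧ X.al q.1 q.2 ≤ X.be y (s + 1) := by
  unfold Ph.dur
  rw [mem_filter, mem_product, mem_Icc]

private theorem Fam1_Cr {V : Type} (X : Ph V) (r : ℕ) (x y : V) (h : X.bl r x = X.bl r y) :
    X.Cr r x → X.Cr r y := by
  unfold Ph.Cr Ph.blk
  rw [h]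
  exact id

private noncomputable def Fam1_pick {V : Type} (P : V → Prop) : Option V :=
  if h : ∃ x, P x then some h.choose else none

private theorem Fam1_pick_spec {V : Type} {P : V → Prop} {x : V} (h : Fam1_pick P = some x) :
    P x := by
  unfold Fam1_pick at h
  split at h
  · rename_i h'
    have := Option.some.inj h
    rw [← this]
    exact h'.choose_spec
  · exact absurd h (by simp)

private theorem Fam1_pick_eq {V : Type} {P : V → Prop} {x : V} (hx : P x)
    (hu : ∀ y, P y → y = x) : Fam1_pick P = some x := by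
  have h' : ∃ x, P x := ⟨x, hx⟩
  unfold Fam1_pick
  rw [dif_pos h']
  exact congrArg some (hu _ h'.choose_spec)

namespace Fam

variable {V : Type} [Fintype V] [DecidableEq V] {N Rn Lam w : ℕ} {F : Fam V N Rn Lam w}

/-- The relaxed test. -/
private def Fam1_RT (F : Fam V N Rn Lam w) (a b : Tb V N Rn Lam w) (g0 r : ℕ) (y : V) (s : ℕ)
    (x : V) : Prop :=
  y ∈ (F.ph a b).C ∧ 2 ≤ s ∧ s < N ∧ (F.ph a b).Tgt r y s x ∧
    ((F.ph a b).dur r x y s).card ≤ g0

private theorem Fam1_al_lt (hF : F.Ok) (y : V) : ∀ d s, 1 ≤ s → s + d ≤ N + 1 →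
    F.al y s ≤ F.al y (s + d) := by
  intro d
  induction d with
  | zero => intro s _ _; exact le_rfl
  | succ d ih =>
    intro s hs hd
    have h1 := ih s hs (by omega)
    have h2 := hF.al_be y (s + d) (by omega) (by omega)
    have h3 := hF.be_al y (s + d) (by omega) (by omega)
    have h4 : s + (d + 1) = s + d + 1 := by ring
    rw [h4]
    omega

private theorem Fam1_al_mono (hF : F.Ok) (y : V) {s t : ℕ} (hs : 1 ≤ s) (hst : s ≤ t)
    (ht : t ≤ N + 1) : F.al y s ≤ F.al y t := by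
  have := Fam1_al_lt hF y (t - s) s hs (by omega)
  have h : s + (t - s) = t := by omega
  rwa [h] at this

private theorem Fam1_tgt_unique (hF : F.Ok) {a b : Tb V N Rn Lam w} {r s : ℕ} {y x x' : V}
    (h : (F.ph a b).Tgt r y s x) (h' : (F.ph a b).Tgt r y s x') : x = x' := by
  rcases lt_trichotomy (F.be x 1) (F.be x' 1) with hlt | heq | hgt
  · exact absurd (h'.old x h.xR h.bl hlt) h.nk
  · exact hF.be_inj _ _ heq
  · exact absurd (h.old x' h'.xR h'.bl hgt) h'.nk

private theorem Fam1_loc (hF : F.Ok) (g0 : ℕ) {a b b' : Tb V N Rn Lam w} {y : V} {s : ℕ}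
    (hag : F.AgR b b' (F.al y s)) (r : ℕ) (x : V) (h : Fam1_RT F a b g0 r y s x) :
    Fam1_RT F a b' g0 r y s x := by
  obtain ⟨hyC, h2, hN, ht, hd⟩ := h
  have hag' : F.AgR b' b (F.al y s) := fun q hq => (hag q hq).symm
  have hyC' : y ∈ F.R a b ∩ F.C0 := hyC
  have hyR : y ∈ F.R a b := (mem_inter.1 hyC').1
  have hy0 : y ∈ F.C0 := (mem_inter.1 hyC').2
  have hτ : F.al y s ≤ F.hz :=
    le_trans (Fam1_al_mono hF y (by omega) (by omega) le_rfl) (hF.hzC y hy0)
  obtain ⟨hl1, hl2⟩ := hF.locR a b b' _ hτ hag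
  obtain ⟨hl1', hl2'⟩ := hF.locR a b' b _ hτ hag'
  have hbe : F.be y 1 < F.al y s := by
    have h1 := hF.be_al y 1 le_rfl (by omega)
    have h3 := Fam1_al_mono hF y (s := 2) (t := s) (by omega) h2 (by omega)
    exact lt_of_lt_of_le h1 h3
  have hK : F.K a b y (s - 1) = F.K a b' y (s - 1) := by
    refine hl2 y hyR hbe (s - 1) (by omega) ?_
    have : s - 1 + 1 = s := by omega
    rw [this]
  have hkn : ∀ z, (F.ph a b).kn y (s - 1) z ↔ (F.ph a b').kn y (s - 1) z := by
    intro z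
    show (∃ u, (z, u) ∈ F.K a b y (s - 1)) ↔ (∃ u, (z, u) ∈ F.K a b' y (s - 1))
    rw [hK]
  have hal1 : ∀ z, F.al z 1 < F.be z 1 := fun z => hF.al_be z 1 le_rfl (by omega)
  have hmem : ∀ z, F.be z 1 ≤ F.al y s → (z ∈ F.R a b ↔ z ∈ F.R a b') := by
    intro z hz
    have h1 := hal1 z
    exact ⟨hl1 z (by omega), hl1' z (by omega)⟩
  have hxt : F.be x 1 < F.al y s := ht.st
  have hyR' : y ∈ F.R a b' := (hmem y hbe.le).1 hyR
  have ht' : (F.ph a b').Tgt r y s x := by
    refine ⟨(hmem x hxt.le).1 ht.xR, ht.bl, ht.st, ?_, ?_⟩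
    · rw [← hkn]; exact ht.nk
    · intro z hz hb hlt
      rw [← hkn]
      have hlt' : F.be z 1 < F.be x 1 := hlt
      exact ht.old z ((hmem z (by omega)).2 hz) hb hlt
  have hdur : (F.ph a b').dur r x y s ⊆ (F.ph a b).dur r x y s := by
    intro q hq
    rw [Fam1_mem_dur] at hq ⊢
    obtain ⟨⟨hq1, hq2⟩, hq3, hq4, hq5⟩ := hq
    have hq1' : q.1 ∈ F.R a b' ∩ F.C0 := hq1
    have hq4' : F.be q.1 1 < F.be x 1 := hq4
    have : q.1 ∈ F.R a b := (hmem q.1 (by omega)).2 (mem_inter.1 hq1').1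
    exact ⟨⟨mem_inter.2 ⟨this, (mem_inter.1 hq1').2⟩, hq2⟩, hq3, hq4, hq5⟩
  refine ⟨?_, h2, hN, ht', le_trans (card_le_card hdur) hd⟩
  exact mem_inter.2 ⟨hyR', hy0⟩

/-- The number of failed tests.
PROOF (`al y s ≤ hz` for `y ∈ C0`, `s ≤ N`): `pr1` for fixed `a`, rows `q = (y, s)`, `rv q = al y (s + 1)` (injective by `al_inj`),
`tg b q r = some x` iff the RELAXED test `y ∈ C`, `2 ≤ s < N`, `Tgt r y s x`, `card (dur r x y s) ≤ g0`
holds (`Test` WITHOUT `¬ Cr r y`, which is not local since it looks at all participants; the target is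
unique by `be_inj`), `R b = F.R a b`.  `Gs g0 r x ⊆ fl`: `Cr` depends only on the block, all tests of `x`
have `bl r y = bl r x`, so if the block of `x` is crowded then `Gs` is empty, and otherwise the relaxed
tests of `x` are the tests of `x`.  Locality: if `b`, `b'` agree on all rows with
`al y' (s' + 1) < al y (s + 1)` then
`AgR b b' (al y s)` (a row with `al y' (s'+1) ≤ al y s < al y (s + 1)`); now the relaxed test at `(y, s)` depends
only on the participants `x` with `be x 1 < al y s` and on `K y (s - 1)` (`locR`, both directions). -/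
theorem gs_sum (hF : F.Ok) (hw : 0 < w) (g0 k : ℕ) (a : Tb V N Rn Lam w) :
    (univ.filter fun b => 2 * w * (Rn * (F.R a b).card + k) <
      ∑ r ∈ range Rn, ∑ x ∈ F.R a b, ((F.ph a b).Gs g0 r x).card).card * 2 ^ k ≤
      Fintype.card (Tb V N Rn Lam w) := by
  classical
  set rv : V × Fin (N + 1) → ℕ := fun q => F.al q.1 (q.2.val + 1) with hrv
  set κ' : Fin Rn → V → Fin Lam := fun r x => F.κ r.val x with hκ
  set ix' : Fin Rn → V → Fin w := fun r x => F.ix r.val x with hix
  set tg : Tb V N Rn Lam w → V × Fin (N + 1) → Fin Rn → Option V :=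
    fun b q r => Fam1_pick fun x => Fam1_RT F a b g0 r.val q.1 q.2.val x with htg
  have hspec : ∀ b q (r : Fin Rn) x, tg b q r = some x → Fam1_RT F a b g0 r.val q.1 q.2.val x :=
    fun b q r x h => Fam1_pick_spec h
  have hinj : Function.Injective rv := by
    intro q q' h
    have h1 := hF.al_inj q.1 (q.2.val + 1) q'.1 (q'.2.val + 1) (by omega)
      (by have := q.2.isLt; omega) (by omega) (by have := q'.2.isLt; omega) h
    refine Prod.ext h1.1 (Fin.ext ?_)
    have := h1.2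
    omega
  have hR : ∀ b q (r : Fin Rn) x, tg b q r = some x → x ∈ F.R a b :=
    fun b q r x h => (hspec b q r x h).2.2.2.1.xR
  have hloc : ∀ b b' q, (∀ q', rv q' < rv q → b q' = b' q') → tg b q = tg b' q := by
    intro b b' q hq
    funext r
    show Fam1_pick _ = Fam1_pick _
    congr 1
    funext x
    apply propext
    have key : ∀ c c' : Tb V N Rn Lam w, (∀ q', rv q' < rv q → c q' = c' q') →
        Fam1_RT F a c g0 r.val q.1 q.2.val x → Fam1_RT F a c' g0 r.val q.1 q.2.val x := by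
      intro c c' hc h
      refine Fam1_loc hF g0 ?_ _ _ h
      intro q' hq'
      apply hc
      have h2 := h.2.1
      have h3 := h.2.2.1
      have h4 := hF.al_be q.1 q.2.val (by omega) (by omega)
      have h5 := hF.be_al q.1 q.2.val (by omega) (by omega)
      show F.al q'.1 (q'.2.val + 1) < F.al q.1 (q.2.val + 1)
      omega
    exact ⟨key b b' hq, key b' b fun q' h => (hq q' h).symm⟩
  have hmain := pr1 (ι := V × Fin (N + 1)) hw κ' ix' rv hinj tg (fun b => F.R a b) hR hloc k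
  refine le_trans (Nat.mul_le_mul_right _ (card_le_card ?_)) hmain
  intro b hb
  rw [mem_filter] at hb ⊢
  refine ⟨mem_univ _, lt_of_lt_of_le hb.2 ?_⟩
  rw [Finset.sum_range]
  refine sum_le_sum fun r _ => sum_le_sum fun x _ => ?_
  -- the failed tests are failures
  refine card_le_card_of_injOn
    (fun q => ((q.1, ⟨min q.2 N, by omega⟩) : V × Fin (N + 1))) ?_ ?_
  · intro q hq
    have hq' : q ∈ (F.ph a b).Gs g0 r.val x := hq
    rw [Fam1_mem_Gs] at hq'
    obtain ⟨⟨hqC, hq2, hqN⟩, hT, hnr, hall⟩ := hq'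
    have hqN' : q.2 ≤ N := hqN
    have hmin : min q.2 N = q.2 := min_eq_left hqN'
    obtain ⟨hyC, h2, hsN, hCr, htgt, hdur⟩ := hT
    have hsN' : q.2 < N := hsN
    show ((q.1, ⟨min q.2 N, by omega⟩) : V × Fin (N + 1)) ∈
      (fl κ' ix' rv tg b r x : Finset (V × Fin (N + 1)))
    unfold fl
    rw [mem_filter]
    refine ⟨mem_univ _, ?_, ?_, ?_⟩
    · refine Fam1_pick_eq ?_ ?_
      · show Fam1_RT F a b g0 r.val q.1 (min q.2 N) x
        rw [hmin]
        exact ⟨hyC, h2, hsN', htgt, hdur⟩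
      · intro x' hx'
        have hx'' : Fam1_RT F a b g0 r.val q.1 (min q.2 N) x' := hx'
        rw [hmin] at hx''
        exact Fam1_tgt_unique hF hx''.2.2.2.1 htgt
    · intro heq
      apply hnr
      refine ⟨by omega, r.isLt, ?_⟩
      have e1 : (⟨q.2, by omega⟩ : Fin (N + 1)) = ⟨min q.2 N, by omega⟩ := by
        apply Fin.ext
        show q.2 = min q.2 N
        exact hmin.symm
      rw [e1]
      exact heq
    · intro i' hi' hhit
      have hRT := hspec b i' r x hi'
      obtain ⟨g1, g2, g3, g4, g5⟩ := hRT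
      have hT' : (F.ph a b).Test g0 r.val x i'.1 i'.2.val := by
        refine ⟨g1, g2, g3, ?_, g4, g5⟩
        have e1 : F.bl r.val x = F.bl r.val i'.1 := g4.bl
        have e2 : F.bl r.val x = F.bl r.val q.1 := htgt.bl
        intro hc
        apply hCr
        exact Fam1_Cr (F.ph a b) r.val i'.1 q.1 (e1.symm.trans e2) hc
      have hrp : (F.ph a b).rp i'.1 i'.2.val r.val x := by
        refine ⟨i'.2.isLt, r.isLt, ?_⟩
        exact hhit
      have := hall i'.1 i'.2.val hT' hrp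
      show F.al q.1 (min q.2 N + 1) < F.al i'.1 (i'.2.val + 1)
      rw [hmin]
      exact this
  · intro q hq q' hq' h
    have hq1 : q ∈ (F.ph a b).Gs g0 r.val x := hq
    have hq1' : q' ∈ (F.ph a b).Gs g0 r.val x := hq'
    rw [Fam1_mem_Gs] at hq1 hq1'
    have hN1 : q.2 ≤ N := hq1.1.2.2
    have hN2 : q'.2 ≤ N := hq1'.1.2.2
    have h1 := congrArg Prod.fst h
    have h2 := congrArg (fun z : V × Fin (N + 1) => z.2.val) h
    have h2' : min q.2 N = min q'.2 N := h2
    rw [min_eq_left hN1, min_eq_left hN2] at h2'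
    exact Prod.ext h1 h2'


end Fam

end Pool.Agent.X217
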