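import Pool.Agent.X217.PhDefs

set_option autoImplicit false

namespace Pool.Agent.X217

open Finset

attribute [local instance 10] Classical.propDecidable

namespace Ph

variable {V : Type*} {X : Ph V}

theorem le_ev (S : Finset V) (s : V → ℕ) (r : ℕ) (p : V) : s p ≤ X.ev S s r p :=
  (Nat.find_spec (X.ev_ex S s r p)).1

theorem ev_spec {S : Finset V} {s : V → ℕ} {r : ℕ} {p : V} (h : X.ev S s r p ≤ X.N) :
    X.Hd S s r p (X.ev S s r p) := by
  rcases (Nat.find_spec (X.ev_ex S s r p)).2 with h' | h'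
  · exact absurd h (not_le.mpr h')
  · exact h'

theorem ev_le {S : Finset V} {s : V → ℕ} {r : ℕ} {p : V} {t : ℕ} (h1 : s p ≤ t)
    (h2 : X.Hd S s r p t) : X.ev S s r p ≤ t := Nat.find_min' _ ⟨h1, Or.inr h2⟩

theorem le_md (S : Finset V) (s : V → ℕ) (p : V) : s p ≤ X.md S s p :=
  (Nat.find_spec (X.md_ex S s p)).1

theorem tt_mono (S : Finset V) (j : ℕ) (p : V) : X.tt S j p ≤ X.tt S (j + 1) p :=
  X.le_md _ _ _

theorem one_le_tt (S : Finset V) (j : ℕ) (p : V) : 1 ≤ X.tt S j p := by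
  induction j with
  | zero => exact le_rfl
  | succ j ih => exact ih.trans (X.tt_mono _ _ _)

private theorem phC1_mono (h : X.Ok) {y : V} (hy : y ∈ X.C) {s t : ℕ} (hst : s ≤ t)
    (ht : t ≤ X.N) : X.K y s ⊆ X.K y t := by
  induction t, hst using Nat.le_induction with
  | base => exact Subset.rfl
  | succ t hst ih => exact (ih (by omega)).trans (h.mono y hy t (by omega))

private theorem phC1_al (h : X.Ok) {y : V} (hy : y ∈ X.C) {s : ℕ} (h2 : 2 ≤ s)
    (hs : s ≤ X.N) : X.be y 1 < X.al y s := by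
  induction s, h2 using Nat.le_induction with
  | base => exact h.be_al y hy 1 le_rfl (by omega)
  | succ s h2 ih =>
    exact (ih (by omega)).trans ((h.al_be y hy s (by omega) (by omega)).trans
      (h.be_al y hy s (by omega) (by omega)))

private theorem phC1_cr {r : ℕ} {p x : V} (hb : X.bl r p = X.bl r x) (hc : ¬ X.Cr r p) :
    ¬ X.Cr r x := by
  have : X.blk r x = X.blk r p := by
    unfold blk
    rw [hb]
  unfold Cr at hc ⊢
  rw [this]
  exact hc

/-- knowledge of a pass after the end of the step ends the waiting -/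
private theorem phC1_end (h : X.Ok) {S : Finset V} (hS : S ⊆ X.C) {r j : ℕ} {p x : V}
    (hp : p ∈ S) (hx : x ∈ S) (hb : X.bl r p = X.bl r x) (hne : p ≠ x) {u t : ℕ}
    (hu : X.tt S j p ≤ u) (hu' : u ≤ X.N) (ht : X.tt S j x ≤ t) (htN : t ≤ X.N)
    (hk : (p, u) ∈ X.K x t) : X.ev S (X.tt S j) r x ≤ t := by
  refine ev_le ht ⟨p, hp, hne, hb, hu.trans hu', ?_⟩
  exact h.trans x (hS hx) t htN p (hS hp) u hk
    (phC1_mono h (hS hp) hu hu' (h.own p (hS hp) _ (hu.trans hu')))

/-- Two aware ticks in which different processors of a block wait in the same step: the younger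
processor has started after the tick of the older one.
PROOF: otherwise `x` is known to `p` in the tick `s` (aware), `p` is known to `x` in the tick `t`
(aware), so by `light` (compare `be p s` with `be x t`; the block is not crowded)
`(p, s - 1) ∈ K x t` or `(x, t - 1) ∈ K p s`; as `tt j p ≤ s - 1` and `trans`, `own`, `mono` this
gives `(p, tt j p) ∈ K x t`, so `ev x ≤ t` (`ev_le`), or `ev p ≤ s`: contradiction. -/
theorem wait_wait (h : X.Ok) {S : Finset V} (hS : S ⊆ X.C) {r j : ℕ} (hr : r < X.Rn) {p x : V}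
    (hp : p ∈ S) (hx : x ∈ S) (hb : X.bl r p = X.bl r x) (hc : ¬ X.Cr r p)
    (hst : X.be p 1 < X.be x 1) {s t : ℕ} (hs : s ∈ X.Ws S r j p) (ht : t ∈ X.Ws S r j x)
    (as : X.Aw r p s) (at' : X.Aw r x t) : X.al p s ≤ X.be x 1 := by
  by_contra hlt
  rw [not_le] at hlt
  have hne : p ≠ x := by
    rintro rfl
    exact lt_irrefl _ hst
  simp only [Ws, mem_filter, mem_Icc] at hs ht
  obtain ⟨⟨hs2, hsN⟩, hs1, hs3, -⟩ := hs
  obtain ⟨⟨ht2, htN⟩, ht1, ht3, -⟩ := ht
  have k1 : X.kn p (s - 1) x := as x (X.CR (hS hx)) hb.symm hlt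
  have k2 : X.kn x (t - 1) p :=
    at' p (X.CR (hS hp)) hb (hst.trans (phC1_al h (hS hx) ht2 htN))
  rcases le_total (X.be p s) (X.be x t) with hle | hle
  · have hk := h.light p (hS hp) x (hS hx) r hr hne hb hc s t hs2 hsN ht2 htN k1 k2 hle
    exact absurd (phC1_end h hS hp hx hb hne (by omega) (by omega) ht1.le htN hk)
      (not_le.mpr ht3)
  · have hk := h.light x (hS hx) p (hS hp) r hr hne.symm hb.symm (phC1_cr hb hc) t s ht2 htN
      hs2 hsN k2 k1 hle
    exact absurd (phC1_end h hS hx hp hb.symm hne.symm (by omega) (by omega) hs1.le hsN hk)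
      (not_le.mpr hs3)

/-- A lucky processor which waits in step `j + 1` has few older ticks.
PROOF: otherwise (`Unl` is false) some `(y, s) ∈ Ys S r j x` has `wp y s r x`, by `whit`
`(y, s - 1) ∈ K x 1`, so `(y, tt j y) ∈ K x (tt j x)` and `ev x ≤ tt j x`, no tick of `x` waits. -/
theorem lucky (h : X.Ok) {S : Finset V} (hS : S ⊆ X.C) {r j J e0 : ℕ} (hr : r < X.Rn)
    (hj : j < J) {x : V} (hx : x ∈ S) (hl : ¬ X.Unl S J e0 r x)
    (hne : (X.Ws S r j x).Nonempty) : (X.Ys S r j x).card < e0 := by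
  by_contra hlt
  rw [not_lt] at hlt
  obtain ⟨t, ht⟩ := hne
  simp only [Ws, mem_filter, mem_Icc] at ht
  obtain ⟨⟨ht2, htN⟩, ht1, ht3, -⟩ := ht
  have hex : ∃ q ∈ X.Ys S r j x, X.wp q.1 q.2 r x := by
    by_contra hno
    push Not at hno
    exact hl ⟨j, hj, hlt, hno⟩
  obtain ⟨⟨y, s⟩, hq, hw⟩ := hex
  simp only [Ys, mem_filter, mem_product, mem_Icc] at hq
  obtain ⟨⟨hyS, hs2, hsN⟩, hyx, hb, hts, hbe⟩ := hq
  have hk : (y, s - 1) ∈ X.K x 1 :=
    h.whit x (hS hx) y (hS hyS) r hr (Ne.symm hyx) hb.symm s hs2 hsN hw hbe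
  have hk' : (y, s - 1) ∈ X.K x (X.tt S j x) :=
    phC1_mono h (hS hx) (X.one_le_tt S j x) (by omega) hk
  have := phC1_end h hS hyS hx hb hyx (by omega) (by omega) le_rfl (by omega) hk'
  omega


end Ph

end Pool.Agent.X217
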