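import Pool.Agent.X217.FamDefs
import Pool.Agent.X217.PhC1

set_option autoImplicit false

namespace Pool.Agent.X217

open Finset

attribute [local instance 10] Classical.propDecidable

namespace Fam

variable {V : Type} [Fintype V] [DecidableEq V] {N Rn Lam w : ℕ} {F : Fam V N Rn Lam w}

/-! ### private helpers -/

private theorem fam2_tt_pos {W : Type} (X : Ph W) (S : Finset W) :
    ∀ (j : ℕ) (y : W), 1 ≤ X.tt S j y := by
  intro j
  induction j with
  | zero => intro y; exact le_rfl
  | succ j ih =>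
    intro y
    exact (ih y).trans (Nat.find_spec (X.md_ex S (X.tt S j) y)).1

private theorem fam2_al_mono (hF : F.Ok) (y : V) {u v : ℕ} (hu : 1 ≤ u) (huv : u ≤ v)
    (hv : v ≤ N + 1) : F.al y u ≤ F.al y v := by
  induction v, huv using Nat.le_induction with
  | base => exact le_rfl
  | succ v h ih =>
    have h1 := hF.al_be y v (hu.trans h) (by omega)
    have h2 := hF.be_al y v (hu.trans h) (by omega)
    exact (ih (by omega)).trans (h1.trans h2).le

private theorem fam2_be_lt (hF : F.Ok) (y : V) {u : ℕ} (hu : 1 ≤ u) (hv : u ≤ N) :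
    F.be y 1 < F.al y (u + 1) := by
  have h1 := hF.be_al y 1 le_rfl (by omega)
  exact lt_of_lt_of_le h1 (fam2_al_mono hF y (by omega) (by omega) (by omega))

/-- The steps before time `τ` depend only on the members of `S` which have started before `τ`, and
on the knowledge before `τ`.
PROOF: induction on `j`: for `y ∈ S`, `be y 1 < τ`, and `s` with `al y (s + 1) ≤ τ`:
`(F.ph a b).tt S j y ≤ s ↔ (F.ph a' b).tt S' j y ≤ s`.  For the step: `tt S (j + 1) y ≤ s` iff
`tt S j y ≤ s` and at least half of the labels have `ev ≤ s`; `ev ≤ s` iff for some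
`t`, `tt S j y ≤ t ≤ s`, some `q ∈ S`, `q ≠ y`, of the block has `(q, tt S j q) ∈ K y t`, and then by
`caus` `al q (tt S j q + 1) < al y (t + 1) ≤ τ` (so `be q 1 < τ`). -/
theorem tt_loc (hF : F.Ok) {a a' b : Tb V N Rn Lam w} {τ : ℕ} (hτ : τ ≤ F.hz)
    (hag : F.AgW a a' b τ)
    {S S' : Finset V} (hS : S ⊆ F.R a b ∩ F.C0) (hS' : S' ⊆ F.R a' b ∩ F.C0)
    (hSS : ∀ z, F.be z 1 < τ → (z ∈ S ↔ z ∈ S')) (j : ℕ) :
    ∀ y ∈ S, F.be y 1 < τ → ∀ s ≤ N, F.al y (s + 1) ≤ τ →
      ((F.ph a b).tt S j y ≤ s ↔ (F.ph a' b).tt S' j y ≤ s) := by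
  induction j with
  | zero =>
    intro y _ _ s _ _
    exact Iff.rfl
  | succ j ih =>
    intro y hy hby s hs hal
    have hyR : y ∈ F.R a b := (mem_inter.1 (hS hy)).1
    have hK : ∀ t ≤ s, F.K a b y t = F.K a' b y t := by
      intro t ht
      refine (hF.locW a a' b τ hτ hag).2 y hyR hby t (ht.trans hs) ?_
      exact (fam2_al_mono hF y (by omega) (by omega) (by omega)).trans hal
    have hty : ∀ t ≤ s, ((F.ph a b).tt S j y ≤ t ↔ (F.ph a' b).tt S' j y ≤ t) := by
      intro t ht
      refine ih y hy hby t (ht.trans hs) ?_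
      exact (fam2_al_mono hF y (by omega) (by omega) (by omega)).trans hal
    -- the values agree for the others
    have heq : ∀ q, q ∈ S → F.be q 1 < τ → ∀ u, 1 ≤ u → u ≤ N → F.al q (u + 1) ≤ τ →
        ((F.ph a b).tt S j q = u ↔ (F.ph a' b).tt S' j q = u) := by
      intro q hq hbq u hu1 huN halu
      have h1 := ih q hq hbq u huN halu
      have h2 := ih q hq hbq (u - 1) (by omega)
        ((fam2_al_mono hF q (by omega) (by omega) (by omega)).trans halu)
      omega
    have hHd : ∀ r, ∀ t ≤ s, ((F.ph a b).Hd S ((F.ph a b).tt S j) r y t ↔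
        (F.ph a' b).Hd S' ((F.ph a' b).tt S' j) r y t) := by
      intro r t ht
      have hlt : F.al y (t + 1) ≤ τ :=
        (fam2_al_mono hF y (by omega) (by omega) (by omega)).trans hal
      constructor
      · rintro ⟨q, hq, hne, hbl, hqN, hqK⟩
        have hqN' : (F.ph a b).tt S j q ≤ N := hqN
        have hqK' : (q, (F.ph a b).tt S j q) ∈ F.K a b y t := hqK
        have hp := fam2_tt_pos (F.ph a b) S j q
        have hc := hF.caus a b y (hS hy) t (ht.trans hs) q _ hqK' hne
        have hbq : F.be q 1 < τ :=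
          (fam2_be_lt hF q hp hqN').trans_le (hc.le.trans hlt)
        have e := (heq q hq hbq _ hp hqN' (hc.le.trans hlt)).1 rfl
        refine ⟨q, (hSS q hbq).1 hq, hne, hbl, ?_, ?_⟩
        · show (F.ph a' b).tt S' j q ≤ N
          rw [e]
          exact hqN'
        · show (q, (F.ph a' b).tt S' j q) ∈ F.K a' b y t
          rw [e, ← hK t ht]
          exact hqK'
      · rintro ⟨q, hq, hne, hbl, hqN, hqK⟩
        have hqN' : (F.ph a' b).tt S' j q ≤ N := hqN
        have hqK' : (q, (F.ph a' b).tt S' j q) ∈ F.K a b y t := by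
          rw [hK t ht]
          exact hqK
        have hp := fam2_tt_pos (F.ph a' b) S' j q
        have hc := hF.caus a b y (hS hy) t (ht.trans hs) q _ hqK' hne
        have hbq : F.be q 1 < τ :=
          (fam2_be_lt hF q hp hqN').trans_le (hc.le.trans hlt)
        have hqS := (hSS q hbq).2 hq
        have e := (heq q hqS hbq _ hp hqN' (hc.le.trans hlt)).2 rfl
        refine ⟨q, hqS, hne, hbl, ?_, ?_⟩
        · show (F.ph a b).tt S j q ≤ N
          rw [e]
          exact hqN'
        · show (q, (F.ph a b).tt S j q) ∈ F.K a b y t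
          rw [e]
          exact hqK'
    have hev : ∀ r, ∀ t ≤ s, ((F.ph a b).ev S ((F.ph a b).tt S j) r y ≤ t ↔
        (F.ph a' b).ev S' ((F.ph a' b).tt S' j) r y ≤ t) := by
      intro r t ht
      unfold Ph.ev
      rw [Nat.find_le_iff, Nat.find_le_iff]
      constructor
      · rintro ⟨m, hm, h1, h2⟩
        have hms : m ≤ s := hm.trans ht
        refine ⟨m, hm, (hty m hms).1 h1, ?_⟩
        rcases h2 with h2 | h2
        · exact absurd h2 (not_lt.2 (hms.trans hs))
        · exact Or.inr ((hHd r m hms).1 h2)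
      · rintro ⟨m, hm, h1, h2⟩
        have hms : m ≤ s := hm.trans ht
        refine ⟨m, hm, (hty m hms).2 h1, ?_⟩
        rcases h2 with h2 | h2
        · exact absurd h2 (not_lt.2 (hms.trans hs))
        · exact Or.inr ((hHd r m hms).2 h2)
    have hcard : ∀ t ≤ s, ((range Rn).filter fun r =>
          (F.ph a b).ev S ((F.ph a b).tt S j) r y ≤ t) =
        ((range Rn).filter fun r => (F.ph a' b).ev S' ((F.ph a' b).tt S' j) r y ≤ t) := by
      intro t ht
      exact filter_congr fun r _ => hev r t ht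
    show Nat.find _ ≤ s ↔ Nat.find _ ≤ s
    rw [Nat.find_le_iff, Nat.find_le_iff]
    constructor
    · rintro ⟨m, hm, h1, h2⟩
      refine ⟨m, hm, (hty m hm).1 h1, ?_⟩
      rcases h2 with h2 | h2
      · exact absurd h2 (not_lt.2 (hm.trans hs))
      · right
        have h3 : Rn ≤ 2 * ((range Rn).filter fun r =>
          (F.ph a b).ev S ((F.ph a b).tt S j) r y ≤ m).card := h2
        rw [hcard m hm] at h3
        exact h3
    · rintro ⟨m, hm, h1, h2⟩
      refine ⟨m, hm, (hty m hm).2 h1, ?_⟩
      rcases h2 with h2 | h2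
      · exact absurd h2 (not_lt.2 (hm.trans hs))
      · right
        have h3 : Rn ≤ 2 * ((range Rn).filter fun r =>
          (F.ph a' b).ev S' ((F.ph a' b).tt S' j) r y ≤ m).card := h2
        rw [← hcard m hm] at h3
        exact h3


end Fam

end Pool.Agent.X217
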