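import Pool.Agent.X217.PhDefs

set_option autoImplicit false

namespace Pool.Agent.X217

open Finset

attribute [local instance 10] Classical.propDecidable

namespace Ph

variable {V : Type*} {X : Ph V}

/-- Every tick which is not aware has a target.
PROOF: minimize `be x 1` over the `x` which contradict `Aw`. -/
theorem exists_tgt {r : ℕ} {y : V} {s : ℕ} (hn : ¬ X.Aw r y s) : ∃ x, X.Tgt r y s x := by
  classical
  unfold Aw at hn
  push Not at hn
  obtain ⟨x0, hx0, hb0, ht0, hk0⟩ := hn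
  let A : Finset V := X.R.filter fun x => X.bl r x = X.bl r y ∧ X.be x 1 < X.al y s ∧
    ¬ X.kn y (s - 1) x
  have hA : A.Nonempty := ⟨x0, by
    simp only [A, mem_filter]
    exact ⟨hx0, hb0, ht0, hk0⟩⟩
  obtain ⟨x, hx, hmin⟩ := A.exists_min_image (fun x => X.be x 1) hA
  simp only [A, mem_filter] at hx
  refine ⟨x, hx.1, hx.2.1, hx.2.2.1, hx.2.2.2, fun z hz hbz hlt => ?_⟩
  by_contra hk
  have hzA : z ∈ A := by
    simp only [A, mem_filter]
    exact ⟨hz, hbz, hlt.trans hx.2.2.1, hk⟩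
  have := hmin z hzA
  omega

/-- The ticks with target `x`. -/
noncomputable def Ux (X : Ph V) (r : ℕ) (x : V) : Finset (V × ℕ) :=
  (X.C ×ˢ Icc 2 X.N).filter fun q => ¬ X.Cr r q.1 ∧ X.Tgt r q.1 q.2 x

private theorem phA1_mono (h : X.Ok) {y : V} (hy : y ∈ X.C) {s t : ℕ} (hst : s ≤ t)
    (ht : t ≤ X.N) : X.K y s ⊆ X.K y t := by
  induction t, hst using Nat.le_induction with
  | base => exact Subset.rfl
  | succ t hst ih => exact (ih (by omega)).trans (h.mono y hy t (by omega))

/-- The ticking processor is older than the target.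
PROOF: `y = x` is impossible (`own`, `mono`: `(x, s - 1) ∈ K x (s - 1)`); if `be x 1 < be y 1`
then `start` gives `kn y 1 x`, hence `kn y (s - 1) x` (`mono`, `2 ≤ s`). -/
theorem tgt_older (h : X.Ok) {r : ℕ} (hr : r < X.Rn) {y : V} (hy : y ∈ X.C) {s : ℕ} (h2 : 2 ≤ s)
    (hs : s ≤ X.N) {x : V} (ht : X.Tgt r y s x) : y ≠ x ∧ X.be y 1 < X.be x 1 := by
  have hne : y ≠ x := by
    rintro rfl
    exact ht.nk ⟨s - 1, h.own y hy (s - 1) (by omega)⟩
  refine ⟨hne, ?_⟩
  rcases lt_trichotomy (X.be y 1) (X.be x 1) with h1 | h1 | h1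
  · exact h1
  · exact absurd (h.inj y (X.CR hy) x ht.xR h1) hne
  · exfalso
    obtain ⟨u, hu⟩ := h.start x ht.xR y hy r hr (Ne.symm hne) ht.bl h1
    exact ht.nk ⟨u, phA1_mono h hy (s := 1) (t := s - 1) (by omega) (by omega) hu⟩

private theorem phA1_be_al (h : X.Ok) {y : V} (hy : y ∈ X.C) {s t : ℕ} (h1 : 1 ≤ s) (hst : s < t)
    (ht : t ≤ X.N) : X.be y s < X.al y t := by
  induction t, hst using Nat.le_induction with
  | base => exact h.be_al y hy s h1 (by omega)
  | succ t hst ih =>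
    have h2 := ih (by omega)
    have h3 := h.al_be y hy t (by omega) (by omega)
    have h4 := h.be_al y hy t (by omega) (by omega)
    omega

/-- Publication.  If `y0` has target `x` in pass `s0` and knows `x` after it, and `y` has target
`x` in a pass `s` which begins after the writes of pass `s0 + 1` of `y0`, then `y` knows `x` after
pass `s`.
PROOF: `y = y0`: `s0 < s` as `al y s > be y (s0 + 1)` (the passes are ordered), so `kn y (s - 1) x`,
contradiction (so everything holds).  Otherwise both are older than `x` (`tgt_older`), so they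
know each other (`Tgt.old`), `light` with the passes `s0 + 1`, `s` gives `(y0, s0) ∈ K y s`, and
`trans`. -/
theorem publish (h : X.Ok) {r : ℕ} (hr : r < X.Rn) {y0 y : V} (hy0 : y0 ∈ X.C) (hy : y ∈ X.C)
    {s0 s : ℕ} (h0 : 2 ≤ s0) (h0' : s0 < X.N) (h2 : 2 ≤ s) (hs : s ≤ X.N) {x : V}
    (hc : ¬ X.Cr r y0) (ht0 : X.Tgt r y0 s0 x) (ht : X.Tgt r y s x) (hk : X.kn y0 s0 x)
    (hl : X.be y0 (s0 + 1) < X.al y s) : X.kn y s x := by
  obtain ⟨hne0, ho0⟩ := tgt_older h hr hy0 h0 h0'.le ht0
  obtain ⟨hne, ho⟩ := tgt_older h hr hy h2 hs ht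
  by_cases he : y = y0
  · subst he
    have hlt : s0 < s := by
      by_contra hcon
      push Not at hcon
      -- `al y s ≤ be y s < al y (s0 + 1) < be y (s0 + 1)`
      have a1 := h.al_be y hy s (by omega) hs
      have a2 := phA1_be_al h hy (s := s) (t := s0 + 1) (by omega) (by omega) (by omega)
      have a3 := h.al_be y hy (s0 + 1) (by omega) (by omega)
      omega
    obtain ⟨u, hu⟩ := hk
    exact absurd ⟨u, phA1_mono h hy (s := s0) (t := s - 1) (by omega) (by omega) hu⟩ ht.nk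
  · have hb : X.bl r y0 = X.bl r y := by rw [← ht0.bl, ht.bl]
    have hk1 : X.kn y0 (s0 - 1) y := ht0.old y (X.CR hy) hb.symm ho
    have hk2 : X.kn y (s - 1) y0 := ht.old y0 (X.CR hy0) hb ho0
    have hk1' : X.kn y0 (s0 + 1 - 1) y := by
      obtain ⟨u, hu⟩ := hk1
      exact ⟨u, phA1_mono h hy0 (s := s0 - 1) (t := s0 + 1 - 1) (by omega) (by omega) hu⟩
    have hbe : X.be y0 (s0 + 1) ≤ X.be y s := by
      have := h.al_be y hy s (by omega) hs
      omega
    have hin := h.light y0 hy0 y hy r hr (Ne.symm he) hb hc (s0 + 1) s (by omega) (by omega) h2 hs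
      hk1' hk2 hbe
    have hin' : (y0, s0) ∈ X.K y s := by simpa using hin
    obtain ⟨u, hu⟩ := hk
    exact ⟨u, h.trans y hy s hs y0 hy0 s0 hin' hu⟩

end Ph

end Pool.Agent.X217
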