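import Pool.Agent.X217.PhA1

set_option autoImplicit false

namespace Pool.Agent.X217

open Finset

attribute [local instance 10] Classical.propDecidable

namespace Ph

variable {V : Type*} {X : Ph V}

private theorem phA2_mono (h : X.Ok) {y : V} (hy : y ∈ X.C) {s t : ℕ} (hst : s ≤ t)
    (ht : t ≤ X.N) : X.K y s ⊆ X.K y t := by
  induction t, hst using Nat.le_induction with
  | base => exact Subset.rfl
  | succ t hst ih => exact (ih (by omega)).trans (h.mono y hy t (by omega))

private theorem phA2_al (h : X.Ok) {y : V} (hy : y ∈ X.C) {s t : ℕ} (hs : 1 ≤ s) (hst : s ≤ t)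
    (ht : t ≤ X.N) : X.al y s ≤ X.al y t := by
  induction t, hst using Nat.le_induction with
  | base => exact le_rfl
  | succ t hst ih =>
    have h1 := h.al_be y hy t (by omega) (by omega)
    have h2 := h.be_al y hy t (by omega) (by omega)
    exact (ih (by omega)).trans (h1.le.trans h2.le)

/-- a set of ticks with at most one element for every processor of the block -/
private theorem phA2_inj {r : ℕ} {x : V} {T : Finset (V × ℕ)}
    (h1 : ∀ q ∈ T, q ∈ X.Ux r x) (h2 : ∀ y s t, (y, s) ∈ T → (y, t) ∈ T → s < t → False) :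
    T.card ≤ (X.blk r x).card := by
  refine card_le_card_of_injOn Prod.fst (fun q hq => ?_) ?_
  · have h3 := h1 q hq
    unfold Ux at h3
    rw [mem_filter, mem_product] at h3
    show q.1 ∈ X.blk r x
    unfold blk
    rw [mem_filter]
    exact ⟨X.CR h3.1.1, h3.2.2.bl.symm⟩
  · rintro ⟨y, s⟩ hs ⟨y', t⟩ ht he
    have he' : y = y' := he
    subst he'
    rcases lt_trichotomy s t with hst | hst | hst
    · exact (h2 y s t hs ht hst).elim
    · rw [hst]
    · exact (h2 y t s ht hs hst).elim

/-- The ticks with target `x`: failed tests before the first successful one, exposed ones, and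
few others.
PROOF: `c = card (blk r x)`, all ticks of `Ux r x` belong to members of `C ∩ blk r x`.
Elements `(y, s)` with `s = N`: at most `c`.  Elements with `g0 < card (dur r x y s)`: exposed.
The others are tests.  If no test of `x` succeeds (`rp`) they are all in `Gs`.  Otherwise let
`(y0, s0)` be the successful test with the smallest `a0 = al y0 (s0 + 1)`; by `rhit` `kn y0 s0 x`.
Tests `(y, s)` with `al y (s + 1) < a0`: in `Gs` (`rp` is false by minimality; and `al y (s+1)`
is smaller than that of every successful test).  Tests with `al y s ≤ a0 ≤ al y (s + 1)`: at most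
two per `y`.  Tests with `a0 ≤ al y s ≤ be y0 (s0 + 1)`: in `dur r x y0 s0`, at most `g0`.  Tests with
`be y0 (s0 + 1) < al y s`: by `publish` `kn y s x`, so there is at most one such `s` per `y` (a later
one would have `kn y (s' - 1) x`).  Together `c + 2 c + g0 + c`. -/
theorem ux_card (h : X.Ok) (g0 : ℕ) {r : ℕ} (hr : r < X.Rn) {x : V} (hx : x ∈ X.R) :
    (X.Ux r x).card ≤ (X.Gs g0 r x).card +
      ((X.Ux r x).filter fun q => q.2 < X.N ∧ g0 < (X.dur r x q.1 q.2).card).card + g0 +
      4 * (X.blk r x).card := by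
  -- the last passes
  have hA : ((X.Ux r x).filter fun q => q.2 = X.N).card ≤ (X.blk r x).card := by
    refine phA2_inj (fun q hq => (mem_filter.1 hq).1) ?_
    intro y s t hs ht hst
    have h1 : s = X.N := (mem_filter.1 hs).2
    have h2 : t = X.N := (mem_filter.1 ht).2
    omega
  obtain ⟨A, hAd⟩ : ∃ A : Finset (V × ℕ), A = (X.Ux r x).filter fun q => q.2 = X.N := ⟨_, rfl⟩
  obtain ⟨B, hBd⟩ : ∃ B : Finset (V × ℕ), B = (X.Ux r x).filter fun q => q.2 < X.N ∧
    g0 < (X.dur r x q.1 q.2).card := ⟨_, rfl⟩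
  rw [← hAd] at hA
  rw [← hBd]
  -- the others are tests
  have htest : ∀ y s, (y, s) ∈ X.Ux r x → (y, s) ∉ A → (y, s) ∉ B → X.Test g0 r x y s := by
    intro y s hq hqA hqB
    have h3 := hq
    unfold Ux at h3
    rw [mem_filter, mem_product, mem_Icc] at h3
    obtain ⟨⟨hyC, hs2, hsN⟩, hcr, htg⟩ := h3
    have h4 : s ≠ X.N := fun e => hqA (by rw [hAd, mem_filter]; exact ⟨hq, e⟩)
    have h5 : s < X.N := lt_of_le_of_ne hsN h4
    refine ⟨hyC, hs2, h5, hcr, htg, ?_⟩
    by_contra hlt
    rw [not_le] at hlt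
    exact hqB (by rw [hBd, mem_filter]; exact ⟨hq, h5, hlt⟩)
  obtain ⟨Su, hSu⟩ : ∃ Su : Finset (V × ℕ), Su = (X.C ×ˢ Icc 2 X.N).filter fun q =>
    X.Test g0 r x q.1 q.2 ∧ X.rp q.1 q.2 r x := ⟨_, rfl⟩
  have hmem : ∀ y s, X.Test g0 r x y s → (y, s) ∈ X.C ×ˢ Icc 2 X.N := by
    intro y s ht
    rw [mem_product, mem_Icc]
    exact ⟨ht.1, ht.2.1, ht.2.2.1.le⟩
  rcases Su.eq_empty_or_nonempty with hemp | hne
  · -- no successful test
    have hno : ∀ y s, X.Test g0 r x y s → ¬ X.rp y s r x := by
      intro y s ht hrp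
      have h3 : (y, s) ∈ Su := by
        rw [hSu, mem_filter]
        exact ⟨hmem y s ht, ht, hrp⟩
      rw [hemp] at h3
      exact notMem_empty _ h3
    have hsub : X.Ux r x ⊆ A ∪ B ∪ X.Gs g0 r x := by
      rintro ⟨y, s⟩ hq
      by_cases hqA : (y, s) ∈ A
      · exact mem_union_left _ (mem_union_left _ hqA)
      by_cases hqB : (y, s) ∈ B
      · exact mem_union_left _ (mem_union_right _ hqB)
      apply mem_union_right
      have ht := htest y s hq hqA hqB
      unfold Gs
      rw [mem_filter]
      exact ⟨hmem y s ht, ht, hno y s ht, fun y' s' ht' hrp => absurd hrp (hno y' s' ht')⟩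
    have h6 := (card_le_card hsub).trans (card_union_le _ _)
    have h7 := card_union_le A B
    omega
  · obtain ⟨⟨y0, s0⟩, h0, hmin⟩ := exists_min_image Su (fun q => X.al q.1 (q.2 + 1)) hne
    rw [hSu, mem_filter] at h0
    obtain ⟨-, ht0, hrp0⟩ := h0
    have hmin' : ∀ y s, X.Test g0 r x y s → X.rp y s r x → X.al y0 (s0 + 1) ≤ X.al y (s + 1) := by
      intro y s ht hrp
      exact hmin (y, s) (by rw [hSu, mem_filter]; exact ⟨hmem y s ht, ht, hrp⟩)
    obtain ⟨hy0, hs02, hs0N, hcr0, htg0, hdur0⟩ := ht0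
    have hold0 := tgt_older h hr hy0 hs02 hs0N.le htg0
    have hkn0 : X.kn y0 s0 x := h.rhit x hx y0 hy0 r hr hold0.1.symm htg0.bl s0 hs02 hs0N.le
      hrp0 htg0.st
    obtain ⟨I, hI⟩ : ∃ I : Finset (V × ℕ), I = (X.Ux r x).filter fun q => q.2 < X.N ∧
      X.al q.1 q.2 < X.al y0 (s0 + 1) ∧ X.al y0 (s0 + 1) ≤ X.al q.1 (q.2 + 1) := ⟨_, rfl⟩
    obtain ⟨Pu, hPu⟩ : ∃ Pu : Finset (V × ℕ), Pu = (X.Ux r x).filter fun q =>
      X.be y0 (s0 + 1) < X.al q.1 q.2 := ⟨_, rfl⟩
    have hIc : I.card ≤ (X.blk r x).card := by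
      refine phA2_inj (fun q hq => ?_) ?_
      · rw [hI, mem_filter] at hq
        exact hq.1
      · intro y s t hs ht hst
        rw [hI, mem_filter] at hs ht
        have h3 := ht.1
        unfold Ux at h3
        rw [mem_filter, mem_product, mem_Icc] at h3
        have h5 := hs.1
        unfold Ux at h5
        rw [mem_filter, mem_product, mem_Icc] at h5
        have h4 := phA2_al h h3.1.1 (s := s + 1) (t := t) (by omega) (by omega) h3.1.2.2
        have h6 := hs.2.2.2
        have h7 := ht.2.2.1
        simp only at h4 h6 h7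
        omega
    have hPc : Pu.card ≤ (X.blk r x).card := by
      refine phA2_inj (fun q hq => ?_) ?_
      · rw [hPu, mem_filter] at hq
        exact hq.1
      · intro y s t hs ht hst
        rw [hPu, mem_filter] at hs ht
        have h3 := ht.1
        unfold Ux at h3
        rw [mem_filter, mem_product, mem_Icc] at h3
        have h5 := hs.1
        unfold Ux at h5
        rw [mem_filter, mem_product, mem_Icc] at h5
        obtain ⟨⟨hyC, hs2, hsN⟩, -, htgs⟩ := h5
        obtain ⟨⟨-, ht2, htN⟩, -, htgt⟩ := h3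
        have h4 := publish h hr hy0 hyC hs02 hs0N hs2 hsN hcr0 htg0 htgs hkn0 hs.2
        obtain ⟨u, hu⟩ := h4
        have hst' : s ≤ t - 1 := by omega
        have htN' : t - 1 ≤ X.N := by
          have htN2 : t ≤ X.N := htN
          omega
        exact htgt.nk ⟨u, phA2_mono h hyC hst' htN' hu⟩
    have hsub : X.Ux r x ⊆ A ∪ B ∪ (X.Gs g0 r x ∪ X.dur r x y0 s0) ∪ (I ∪ Pu) := by
      rintro ⟨y, s⟩ hq
      by_cases hqA : (y, s) ∈ A
      · exact mem_union_left _ (mem_union_left _ (mem_union_left _ hqA))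
      by_cases hqB : (y, s) ∈ B
      · exact mem_union_left _ (mem_union_left _ (mem_union_right _ hqB))
      have ht := htest y s hq hqA hqB
      have hq' := ht
      obtain ⟨hyC, hs2, hsN, hcr, htg, hdur⟩ := hq'
      have hold := tgt_older h hr hyC hs2 hsN.le htg
      rcases lt_or_ge (X.al y (s + 1)) (X.al y0 (s0 + 1)) with h1 | h1
      · apply mem_union_left
        apply mem_union_right
        apply mem_union_left
        unfold Gs
        rw [mem_filter]
        refine ⟨hmem y s ht, ht, fun hrp => ?_, fun y' s' ht' hrp' => ?_⟩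
        · have h3 := hmin' y s ht hrp
          exact absurd h1 (not_lt.2 h3)
        · exact lt_of_lt_of_le h1 (hmin' y' s' ht' hrp')
      rcases lt_or_ge (X.al y s) (X.al y0 (s0 + 1)) with h2 | h2
      · apply mem_union_right
        apply mem_union_left
        rw [hI, mem_filter]
        exact ⟨hq, hsN, h2, h1⟩
      rcases lt_or_ge (X.be y0 (s0 + 1)) (X.al y s) with h3 | h3
      · apply mem_union_right
        apply mem_union_right
        rw [hPu, mem_filter]
        exact ⟨hq, h3⟩
      · apply mem_union_left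
        apply mem_union_right
        apply mem_union_right
        unfold dur
        rw [mem_filter]
        exact ⟨hmem y s ht, htg.bl.symm, hold.2, h2, h3⟩
    have e1 := (card_le_card hsub).trans (card_union_le _ _)
    have e2 := card_union_le (A ∪ B) (X.Gs g0 r x ∪ X.dur r x y0 s0)
    have e3 := card_union_le A B
    have e4 := card_union_le (X.Gs g0 r x) (X.dur r x y0 s0)
    have e5 := card_union_le I Pu
    have e6 : (X.dur r x y0 s0).card ≤ g0 := hdur0
    omega


end Ph

end Pool.Agent.X217
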