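import Pool.Agent.X217.PhC1

set_option autoImplicit false

namespace Pool.Agent.X217

open Finset

attribute [local instance 10] Classical.propDecidable

namespace Ph

variable {V : Type*} {X : Ph V}

private theorem PhC2_al_mono (h : X.Ok) {y : V} (hy : y ∈ X.C) {s : ℕ} (hs : 1 ≤ s) (t : ℕ)
    (hst : s ≤ t) (ht : t ≤ X.N) : X.al y s ≤ X.al y t := by
  induction t with
  | zero => omega
  | succ t ih =>
    rcases Nat.lt_or_ge t s with h1 | h1
    · have h2 : s = t + 1 := by omega
      rw [h2]
    · have h2 := ih h1 (by omega)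
      have h3 := h.al_be y hy t (by omega) (by omega)
      have h4 := h.be_al y hy t (by omega) (by omega)
      omega

private theorem PhC2_fib (E : Finset V) (Y : Finset (V × ℕ)) :
    ∑ p ∈ E, (Y.filter fun q => q.1 = p).card ≤ Y.card := by
  simp only [Finset.card_filter]
  rw [Finset.sum_comm, Finset.card_eq_sum_ones]
  refine Finset.sum_le_sum fun q _ => ?_
  rw [Finset.sum_ite_eq]
  split_ifs <;> simp

/-- The aware waiting ticks of one step in one block.
PROOF: let `E` be the set of the `p` in the sum with a nonempty set; if `E` is not empty let `k`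
be the element with maximal `be k 1` (`inj`).  For `p ∈ E`, `p ≠ k` all elements `s` of its set
have `al p s ≤ be k 1` (`wait_wait`), so all but the last one (`be p s < al p (s + 1) ≤ al p s'`)
are in `Ys S r j k`; sum over `p`: at most `card Ys + card E`, and `card Ys < e0` (`lucky`).  The
set of `k` has at most `N` elements. -/
theorem step_block (h : X.Ok) {S : Finset V} (hS : S ⊆ X.C) {r j J e0 : ℕ} (hr : r < X.Rn)
    (hj : j < J) (v : ℕ) :
    ∑ p ∈ S.filter (fun p => X.bl r p = v ∧ ¬ X.Cr r p ∧ ¬ X.Unl S J e0 r p),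
      ((X.Ws S r j p).filter fun s => X.Aw r p s).card ≤
      X.N + e0 + (S.filter fun p => X.bl r p = v).card := by
  obtain ⟨P, hP⟩ : ∃ P, P = S.filter (fun p => X.bl r p = v ∧ ¬ X.Cr r p ∧
    ¬ X.Unl S J e0 r p) := ⟨_, rfl⟩
  obtain ⟨A, hA⟩ : ∃ A : V → Finset ℕ, A = fun p => (X.Ws S r j p).filter fun s => X.Aw r p s :=
    ⟨_, rfl⟩
  have hAmem : ∀ p s, s ∈ A p ↔ s ∈ X.Ws S r j p ∧ X.Aw r p s := by
    intro p s
    rw [hA]
    exact Finset.mem_filter
  have hgoal : ∑ p ∈ P, (A p).card ≤ X.N + e0 + (S.filter fun p => X.bl r p = v).card := by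
    obtain ⟨E, hE⟩ : ∃ E, E = P.filter fun p => (A p).Nonempty := ⟨_, rfl⟩
    have hEmem : ∀ p, p ∈ E ↔ (p ∈ S ∧ X.bl r p = v ∧ ¬ X.Cr r p ∧ ¬ X.Unl S J e0 r p) ∧
        (A p).Nonempty := by
      intro p
      rw [hE, Finset.mem_filter, hP, Finset.mem_filter]
    have hsum : ∑ p ∈ P, (A p).card = ∑ p ∈ E, (A p).card := by
      rw [hE, Finset.sum_filter]
      refine Finset.sum_congr rfl fun p _ => ?_
      split_ifs with h1
      · rfl
      · rw [Finset.not_nonempty_iff_eq_empty.1 h1, Finset.card_empty]
    rw [hsum]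
    rcases E.eq_empty_or_nonempty with h0 | h0
    · rw [h0, Finset.sum_empty]
      exact Nat.zero_le _
    · obtain ⟨k, hk, hkmax⟩ := Finset.exists_max_image E (fun p => X.be p 1) h0
      have hkE := (hEmem k).1 hk
      obtain ⟨t, ht⟩ := hkE.2
      have ht' := (hAmem k t).1 ht
      have hYs : (X.Ys S r j k).card < e0 :=
        lucky h hS hr hj hkE.1.1 hkE.1.2.2.2 ⟨t, ht'.1⟩
      have hAk : (A k).card ≤ X.N := by
        have h1 : A k ⊆ Finset.Icc 2 X.N := by
          intro s hs
          have h2 := ((hAmem k s).1 hs).1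
          exact (Finset.mem_filter.1 h2).1
        have h2 := Finset.card_le_card h1
        rw [Nat.card_Icc] at h2
        omega
      have hAp : ∀ p ∈ E.filter (fun p => p ≠ k),
          (A p).card ≤ 1 + ((X.Ys S r j k).filter fun q => q.1 = p).card := by
        intro p hp
        obtain ⟨hpE, hpk⟩ := Finset.mem_filter.1 hp
        have hpE' := (hEmem p).1 hpE
        have hpS := hpE'.1.1
        have hbl : X.bl r p = X.bl r k := hpE'.1.2.1.trans hkE.1.2.1.symm
        have hlt : X.be p 1 < X.be k 1 := by
          rcases lt_or_eq_of_le (hkmax p hpE) with h1 | h1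
          · exact h1
          · exact absurd (h.inj p (X.CR (hS hpS)) k (X.CR (hS hkE.1.1)) h1) hpk
        obtain ⟨m, hm, hmmax⟩ := Finset.exists_max_image (A p) id hpE'.2
        have hm' := (hAmem p m).1 hm
        have hmle : X.al p m ≤ X.be k 1 :=
          wait_wait h hS hr hpS hkE.1.1 hbl hpE'.1.2.2.1 hlt hm'.1 ht'.1 hm'.2 ht'.2
        have hmN : m ≤ X.N := (Finset.mem_Icc.1 (Finset.mem_filter.1 hm'.1).1).2
        have hcard : ((A p).erase m).card ≤
            ((X.Ys S r j k).filter fun q => q.1 = p).card := by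
          refine Finset.card_le_card_of_injOn (fun s => (p, s)) ?_ ?_
          · intro s hs
            have hs1 := Finset.mem_erase.1 (Finset.mem_coe.1 hs)
            have hs2 := (hAmem p s).1 hs1.2
            have hs3 : s ≤ m := hmmax s hs1.2
            have hs4 : s < m := lt_of_le_of_ne hs3 hs1.1
            have hs5 := Finset.mem_filter.1 hs2.1
            have hs6 := Finset.mem_Icc.1 hs5.1
            have h1 := h.be_al p (hS hpS) s (by omega) (by omega)
            have h2 := PhC2_al_mono h (hS hpS) (s := s + 1) (by omega) m (by omega) hmN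
            have h3 : X.be p s < X.be k 1 := by omega
            refine Finset.mem_coe.2 (Finset.mem_filter.2 ⟨?_, rfl⟩)
            exact Finset.mem_filter.2 ⟨Finset.mem_product.2 ⟨hpS, hs5.1⟩, hpk, hbl, hs5.2.1, h3⟩
          · intro s _ s' _ hss
            exact (Prod.mk.inj hss).2
        have h2 := Finset.card_erase_of_mem hm
        have h3 : 0 < (A p).card := Finset.card_pos.2 hpE'.2
        omega
      have hsplit : ∑ p ∈ E, (A p).card =
          (A k).card + ∑ p ∈ E.filter (fun p => p ≠ k), (A p).card := by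
        rw [← Finset.sum_filter_add_sum_filter_not E (fun p => p = k),
          Finset.filter_eq' E k, if_pos hk, Finset.sum_singleton]
      have hE' : (E.filter (fun p => p ≠ k)).card ≤ (S.filter fun p => X.bl r p = v).card := by
        refine Finset.card_le_card fun p hp => ?_
        have h1 := ((hEmem p).1 (Finset.mem_filter.1 hp).1).1
        exact Finset.mem_filter.2 ⟨h1.1, h1.2.1⟩
      have hle := Finset.sum_le_sum hAp
      rw [Finset.sum_add_distrib, Finset.sum_const, smul_eq_mul, mul_one] at hle
      have hfib := PhC2_fib (E.filter fun p => p ≠ k) (X.Ys S r j k)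
      rw [hsplit]
      omega
  rw [hP, hA] at hgoal
  exact hgoal


end Ph

end Pool.Agent.X217
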