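import Pool.Agent.X217.PhC2

set_option autoImplicit false

namespace Pool.Agent.X217

open Finset

attribute [local instance 10] Classical.propDecidable

namespace Ph

variable {V : Type*} {X : Ph V}

private theorem phC3_mono (S : Finset V) (p : V) : Monotone fun j => X.tt S j p :=
  monotone_nat_of_le_succ fun j => X.tt_mono S j p

private theorem phC3_sum (S : Finset V) (r J : ℕ) (p : V) (q : ℕ → Prop) :
    ∑ j ∈ range J, ((X.Ws S r j p).filter q).card ≤ ((Icc 2 X.N).filter q).card := by
  classical
  rw [← card_biUnion]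
  · refine card_le_card ?_
    intro s hs
    rw [mem_biUnion] at hs
    obtain ⟨j, -, hj⟩ := hs
    rw [mem_filter] at hj ⊢
    have h1 := hj.1
    unfold Ws at h1
    rw [mem_filter] at h1
    exact ⟨h1.1, hj.2⟩
  · have key : ∀ i j : ℕ, i < j → ∀ s, s ∈ X.Ws S r i p → s ∈ X.Ws S r j p → False := by
      intro i j hij s h1 h2
      unfold Ws at h1 h2
      rw [mem_filter] at h1 h2
      have h3 : X.tt S (i + 1) p ≤ X.tt S j p := phC3_mono S p hij
      have h4 := h1.2.2.2
      have h5 := h2.2.1
      omega
    intro i _ j _ hij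
    rw [Function.onFun, Finset.disjoint_left]
    intro s h1 h2
    rw [mem_filter] at h1 h2
    rcases lt_or_gt_of_ne hij with h | h
    · exact key i j h s h1.1 h2.1
    · exact key j i h s h2.1 h1.1

/-- The sets `Ws S r j p` are disjoint for different `j`: elements are in
`(tt j p, tt (j + 1) p]`.  So their cardinalities have sum at most `N`. -/
theorem ws_sum (S : Finset V) (r J : ℕ) (p : V) : ∑ j ∈ range J, (X.Ws S r j p).card ≤ X.N := by
  classical
  have h := phC3_sum (X := X) S r J p (fun _ => True)
  simp only [filter_true] at h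
  refine h.trans ?_
  rw [Nat.card_Icc]
  omega

/-- All waiting ticks in one label.
PROOF: for the bad `p` (crowded or unlucky) use `ws_sum`.  For the others split `Ws` in aware
ticks (`step_block`; sum over `j < J` and `v ∈ S.image (bl r)`) and the other ones; the latter, for
all `j` together (disjointness as in `ws_sum`), are in `Un S r`. -/
theorem wait_label (h : X.Ok) {S : Finset V} (hS : S ⊆ X.C) {r J e0 : ℕ} (hr : r < X.Rn) :
    ∑ p ∈ S, ∑ j ∈ range J, (X.Ws S r j p).card ≤
      (S.image (X.bl r)).card * (J * (X.N + e0)) + J * S.card +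
      X.N * (S.filter fun p => X.Cr r p ∨ X.Unl S J e0 r p).card + (X.Un S r).card := by
  classical
  let bad : V → Prop := fun p => X.Cr r p ∨ X.Unl S J e0 r p
  -- the bad ones
  have hbad : ∑ p ∈ S.filter bad, ∑ j ∈ range J, (X.Ws S r j p).card ≤
      X.N * (S.filter bad).card := by
    rw [mul_comm, ← smul_eq_mul, ← sum_const]
    exact sum_le_sum fun p _ => ws_sum S r J p
  -- the aware ticks
  have haw : ∑ p ∈ S.filter (fun p => ¬ bad p), ∑ j ∈ range J,
      ((X.Ws S r j p).filter fun s => X.Aw r p s).card ≤
      (S.image (X.bl r)).card * (J * (X.N + e0)) + J * S.card := by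
    rw [sum_comm]
    have h1 : ∀ j ∈ range J, ∑ p ∈ S.filter (fun p => ¬ bad p),
        ((X.Ws S r j p).filter fun s => X.Aw r p s).card ≤
        (S.image (X.bl r)).card * (X.N + e0) + S.card := by
      intro j hj
      have h2 : ∑ p ∈ S.filter (fun p => ¬ bad p),
          ((X.Ws S r j p).filter fun s => X.Aw r p s).card =
          ∑ v ∈ S.image (X.bl r), ∑ p ∈ (S.filter (fun p => ¬ bad p)).filter
            (fun p => X.bl r p = v), ((X.Ws S r j p).filter fun s => X.Aw r p s).card := by
        refine (sum_fiberwise_of_maps_to ?_ _).symm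
        intro p hp
        exact mem_image_of_mem _ (mem_filter.1 hp).1
      rw [h2]
      have h3 : ∀ v ∈ S.image (X.bl r), ∑ p ∈ (S.filter (fun p => ¬ bad p)).filter
            (fun p => X.bl r p = v), ((X.Ws S r j p).filter fun s => X.Aw r p s).card ≤
          X.N + e0 + (S.filter fun p => X.bl r p = v).card := by
        intro v _
        have h4 := step_block h hS (r := r) (j := j) (J := J) (e0 := e0) hr (mem_range.1 hj) v
        refine le_trans (le_of_eq ?_) h4
        refine sum_congr ?_ fun _ _ => rfl
        ext p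
        simp only [mem_filter, bad, not_or]
        tauto
      refine (sum_le_sum h3).trans ?_
      rw [sum_add_distrib, sum_const, smul_eq_mul]
      have h5 : ∑ v ∈ S.image (X.bl r), (S.filter fun p => X.bl r p = v).card = S.card :=
        (card_eq_sum_card_fiberwise fun p hp => mem_image_of_mem _ hp).symm
      rw [h5]
    refine (sum_le_sum h1).trans ?_
    rw [sum_const, card_range, smul_eq_mul]
    exact le_of_eq (by ring)
  -- the other ticks
  have hun : ∑ p ∈ S.filter (fun p => ¬ bad p), ∑ j ∈ range J,
      ((X.Ws S r j p).filter fun s => ¬ X.Aw r p s).card ≤ (X.Un S r).card := by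
    have h1 : ∀ p ∈ S.filter (fun p => ¬ bad p), ∑ j ∈ range J,
        ((X.Ws S r j p).filter fun s => ¬ X.Aw r p s).card ≤
        ((Icc 2 X.N).filter fun s => ¬ X.Cr r p ∧ ¬ X.Aw r p s).card := by
      intro p hp
      have h0 : ∑ j ∈ range J, ((X.Ws S r j p).filter fun s => ¬ X.Aw r p s).card ≤
          ((Icc 2 X.N).filter fun s => ¬ X.Aw r p s).card := by
        convert phC3_sum (X := X) S r J p fun s => ¬ X.Aw r p s
      refine h0.trans (card_le_card ?_)
      intro s hs
      rw [mem_filter] at hs hp ⊢
      exact ⟨hs.1, fun hc => hp.2 (Or.inl hc), hs.2⟩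
    refine (sum_le_sum h1).trans ?_
    have h2 : ∑ p ∈ S, ((Icc 2 X.N).filter fun s => ¬ X.Cr r p ∧ ¬ X.Aw r p s).card =
        (X.Un S r).card := by
      unfold Un
      simp only [card_filter, sum_product]
    rw [← h2]
    exact sum_le_sum_of_subset (filter_subset _ _)
  -- together
  have hsplit : ∑ p ∈ S, ∑ j ∈ range J, (X.Ws S r j p).card =
      ∑ p ∈ S.filter bad, ∑ j ∈ range J, (X.Ws S r j p).card +
      ∑ p ∈ S.filter (fun p => ¬ bad p), ∑ j ∈ range J, (X.Ws S r j p).card :=
    (sum_filter_add_sum_filter_not S bad _).symm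
  have hgood : ∑ p ∈ S.filter (fun p => ¬ bad p), ∑ j ∈ range J, (X.Ws S r j p).card =
      ∑ p ∈ S.filter (fun p => ¬ bad p), ∑ j ∈ range J,
        ((X.Ws S r j p).filter fun s => X.Aw r p s).card +
      ∑ p ∈ S.filter (fun p => ¬ bad p), ∑ j ∈ range J,
        ((X.Ws S r j p).filter fun s => ¬ X.Aw r p s).card := by
    rw [← sum_add_distrib]
    refine sum_congr rfl fun p _ => ?_
    rw [← sum_add_distrib]
    refine sum_congr rfl fun j _ => ?_
    exact (card_filter_add_card_filter_not _).symm
  rw [hsplit, hgood]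
  have hb' : (S.filter fun p => X.Cr r p ∨ X.Unl S J e0 r p).card = (S.filter bad).card := rfl
  rw [hb']
  omega


end Ph

end Pool.Agent.X217
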