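import Mathlib

set_option autoImplicit false

/-!
# The tick phase (MP_217fdb_lc, exact order): definitions

One world, seen up to some time (the horizon).  A phase consists of the passes `1, …, N`: pass
`1` writes to all and then reads all members of the blocks, the passes `2, …, N` are ticks.
`K y s` is the knowledge of `y` after pass `s`: `(z, u) ∈ K y s` means that `y` knows everything
which `z` knew after its pass `u`.
-/

namespace Pool.Agent.X217

open Finset

attribute [local instance 10] Classical.propDecidable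

/-- A tick phase. -/
structure Ph (V : Type*) where
  /-- the participants which have begun pass `1` -/
  R : Finset V
  /-- the participants which have finished pass `N` -/
  C : Finset V
  CR : C ⊆ R
  N : ℕ
  /-- number of labels -/
  Rn : ℕ
  /-- number of classes of a block -/
  Lam : ℕ
  /-- the block of a processor in a label -/
  bl : ℕ → V → ℕ
  /-- `al y s` is the beginning of pass `s`, `be y s` the end of its writes -/
  al : V → ℕ → ℕ
  be : V → ℕ → ℕ
  K : V → ℕ → Finset (V × ℕ)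
  /-- `wp y s r x`: in label `r` of pass `s` the processor `y` writes to `x` by chance -/
  wp : V → ℕ → ℕ → V → Prop
  /-- `rp y s r x`: in label `r` of pass `s` the processor `y` reads from `x` by chance -/
  rp : V → ℕ → ℕ → V → Prop

namespace Ph

variable {V : Type*} (X : Ph V)

/-- `y` knows after pass `s` that `x` takes part. -/
def kn (y : V) (s : ℕ) (x : V) : Prop := ∃ u, (x, u) ∈ X.K y s

/-- The participants in the block of `x` in label `r`. -/
noncomputable def blk (r : ℕ) (x : V) : Finset V := X.R.filter fun z => X.bl r z = X.bl r x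

/-- The block of `x` in label `r` is crowded. -/
def Cr (r : ℕ) (x : V) : Prop := 2 * X.Lam < (X.blk r x).card

/-- The facts about a tick phase. -/
structure Ok : Prop where
  own : ∀ y ∈ X.C, ∀ s ≤ X.N, (y, s) ∈ X.K y s
  mono : ∀ y ∈ X.C, ∀ s < X.N, X.K y s ⊆ X.K y (s + 1)
  trans : ∀ y ∈ X.C, ∀ s ≤ X.N, ∀ z ∈ X.C, ∀ u, (z, u) ∈ X.K y s → X.K z u ⊆ X.K y s
  nm : ∀ y ∈ X.C, ∀ s ≤ X.N, ∀ z u, (z, u) ∈ X.K y s → z ∈ X.R
  al_be : ∀ y ∈ X.C, ∀ s, 1 ≤ s → s ≤ X.N → X.al y s < X.be y s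
  be_al : ∀ y ∈ X.C, ∀ s, 1 ≤ s → s < X.N → X.be y s < X.al y (s + 1)
  inj : ∀ x ∈ X.R, ∀ y ∈ X.R, X.be x 1 = X.be y 1 → x = y
  start : ∀ x ∈ X.R, ∀ y ∈ X.C, ∀ r < X.Rn, x ≠ y → X.bl r x = X.bl r y →
    X.be x 1 < X.be y 1 → X.kn y 1 x
  light : ∀ x ∈ X.C, ∀ y ∈ X.C, ∀ r < X.Rn, x ≠ y → X.bl r x = X.bl r y → ¬ X.Cr r x →
    ∀ s t, 2 ≤ s → s ≤ X.N → 2 ≤ t → t ≤ X.N → X.kn x (s - 1) y → X.kn y (t - 1) x →
    X.be x s ≤ X.be y t → (x, s - 1) ∈ X.K y t
  rhit : ∀ x ∈ X.R, ∀ y ∈ X.C, ∀ r < X.Rn, x ≠ y → X.bl r x = X.bl r y →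
    ∀ s, 2 ≤ s → s ≤ X.N → X.rp y s r x → X.be x 1 < X.al y s → X.kn y s x
  whit : ∀ x ∈ X.C, ∀ y ∈ X.C, ∀ r < X.Rn, x ≠ y → X.bl r x = X.bl r y →
    ∀ s, 2 ≤ s → s ≤ X.N → X.wp y s r x → X.be y s < X.be x 1 → (y, s - 1) ∈ X.K x 1

/-! ### Awareness -/

/-- In pass `s` the processor `y` is aware of its block in label `r`. -/
def Aw (r : ℕ) (y : V) (s : ℕ) : Prop :=
  ∀ x ∈ X.R, X.bl r x = X.bl r y → X.be x 1 < X.al y s → X.kn y (s - 1) x

/-- The target of a tick which is not aware: the oldest participant which is not known. -/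
structure Tgt (r : ℕ) (y : V) (s : ℕ) (x : V) : Prop where
  xR : x ∈ X.R
  bl : X.bl r x = X.bl r y
  st : X.be x 1 < X.al y s
  nk : ¬ X.kn y (s - 1) x
  old : ∀ z ∈ X.R, X.bl r z = X.bl r y → X.be z 1 < X.be x 1 → X.kn y (s - 1) z

/-- The ticks of participants older than `x` which begin during the writes of pass `s + 1` of
`y`. -/
noncomputable def dur (r : ℕ) (x y : V) (s : ℕ) : Finset (V × ℕ) :=
  (X.C ×ˢ Icc 2 X.N).filter fun q => X.bl r q.1 = X.bl r x ∧ X.be q.1 1 < X.be x 1 ∧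
    X.al y (s + 1) ≤ X.al q.1 q.2 ∧ X.al q.1 q.2 ≤ X.be y (s + 1)

/-- A test of `x`: a tick with target `x` for which pass `s + 1` has short writes. -/
def Test (g0 r : ℕ) (x y : V) (s : ℕ) : Prop :=
  y ∈ X.C ∧ 2 ≤ s ∧ s < X.N ∧ ¬ X.Cr r y ∧ X.Tgt r y s x ∧ (X.dur r x y s).card ≤ g0

/-- The failed tests of `x` before the first successful one. -/
noncomputable def Gs (g0 r : ℕ) (x : V) : Finset (V × ℕ) :=
  (X.C ×ˢ Icc 2 X.N).filter fun q => X.Test g0 r x q.1 q.2 ∧ ¬ X.rp q.1 q.2 r x ∧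
    ∀ y s, X.Test g0 r x y s → X.rp y s r x → X.al q.1 (q.2 + 1) < X.al y (s + 1)

/-- The ticks of members of `S` in blocks which are not crowded, which are not aware. -/
noncomputable def Un (S : Finset V) (r : ℕ) : Finset (V × ℕ) :=
  (S ×ˢ Icc 2 X.N).filter fun q => ¬ X.Cr r q.1 ∧ ¬ X.Aw r q.1 q.2

/-! ### The steps of the peeling -/

/-- `p` has heard from another member of `S` of its block, which has finished the last step. -/
def Hd (S : Finset V) (s : V → ℕ) (r : ℕ) (p : V) (t : ℕ) : Prop :=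
  ∃ q ∈ S, q ≠ p ∧ X.bl r q = X.bl r p ∧ s q ≤ X.N ∧ (q, s q) ∈ X.K p t

theorem ev_ex (S : Finset V) (s : V → ℕ) (r : ℕ) (p : V) :
    ∃ t, s p ≤ t ∧ (X.N < t ∨ X.Hd S s r p t) := ⟨s p + X.N + 1, by omega, Or.inl (by omega)⟩

/-- The pass at which `p` hears (larger than `N` if there is none). -/
noncomputable def ev (S : Finset V) (s : V → ℕ) (r : ℕ) (p : V) : ℕ :=
  Nat.find (X.ev_ex S s r p)

theorem md_ex (S : Finset V) (s : V → ℕ) (p : V) :
    ∃ t, s p ≤ t ∧ (X.N < t ∨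
      X.Rn ≤ 2 * ((range X.Rn).filter fun r => X.ev S s r p ≤ t).card) :=
  ⟨s p + X.N + 1, by omega, Or.inl (by omega)⟩

/-- The median over the labels. -/
noncomputable def md (S : Finset V) (s : V → ℕ) (p : V) : ℕ := Nat.find (X.md_ex S s p)

/-- `tt S j p` is the pass at which `p` finishes step `j`. -/
noncomputable def tt (S : Finset V) : ℕ → V → ℕ
  | 0 => fun _ => 1
  | j + 1 => X.md S (tt S j)

/-- The ticks of `p` in which `p` waits in step `j + 1` and label `r`; only up to the pass at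
which `p` finishes the step, so these sets are disjoint for different `j`. -/
noncomputable def Ws (S : Finset V) (r j : ℕ) (p : V) : Finset ℕ :=
  (Icc 2 X.N).filter fun s => X.tt S j p < s ∧ s < X.ev S (X.tt S j) r p ∧ s ≤ X.tt S (j + 1) p

/-- The ticks before the start of `x` of members of `S` which have finished step `j`. -/
noncomputable def Ys (S : Finset V) (r j : ℕ) (x : V) : Finset (V × ℕ) :=
  (S ×ˢ Icc 2 X.N).filter fun q => q.1 ≠ x ∧ X.bl r q.1 = X.bl r x ∧ X.tt S j q.1 < q.2 ∧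
    X.be q.1 q.2 < X.be x 1

/-- `x` is unlucky in label `r`: many such ticks have missed `x`. -/
def Unl (S : Finset V) (J e0 r : ℕ) (x : V) : Prop :=
  ∃ j < J, e0 ≤ (X.Ys S r j x).card ∧ ∀ q ∈ X.Ys S r j x, ¬ X.wp q.1 q.2 r x

end Ph

end Pool.Agent.X217
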