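import Mathlib

set_option autoImplicit false

namespace Pool.Agent.X217

open Finset

attribute [local instance 10] Classical.propDecidable

/-- Arithmetic of `stuck`. -/
theorem stuck_arith {D w Lam N J Rn nb S R k X1 X2 X3 : ℕ} (hD : 1 ≤ D) (hN : N = 256 * D * w)
    (hw : 9 * D * Lam ≤ w) (hw1 : 1 ≤ w) (hJ : J ≤ 4 * D * w) (hRn : 1 ≤ Rn) (hk : k ≤ R)
    (hSR : S ≤ R)
    (h1 : 64 * D * X1 ≤ 4 * (Rn * R)) (h2 : 64 * D * X2 ≤ (Rn + 1) * R + k)
    (h3 : 64 * D * Lam * X3 ≤ 64 * D * Lam * (2 * w * (Rn * R + k)) +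
      Rn * (2 * Lam * N * R) + Rn * (64 * D * Lam * (R * (64 * D * Lam + 8 * Lam))))
    (hL : 1 ≤ Lam)
    (hm : Rn * (S * (N - 1)) ≤ 2 * (Rn * (nb * (J * (N + 64 * D * w)) + 2 * J * S) +
      N * (X1 + X2) + X3)) :
    D * S ≤ 3 * (D * (nb * J)) + R := by
  have hDw : 1 ≤ D * w := Nat.mul_pos hD hw1
  have hN1 : 256 ≤ N := by rw [hN, mul_assoc]; omega
  have hRP : R ≤ Rn * R := Nat.le_mul_of_pos_left R hRn
  -- `X1`, `X2`
  have e1 : 64 * D * X1 ≤ 4 * (Rn * R) := h1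
  have e2 : 64 * D * X2 ≤ 3 * (Rn * R) := by
    have : (Rn + 1) * R = Rn * R + R := by ring
    omega
  -- `X3`
  have e3 : 64 * D * X3 ≤ 5 * (N * (Rn * R)) := by
    have a1 : 64 * D * Lam * (2 * w * (Rn * R + k)) ≤ 64 * D * Lam * (2 * w * (Rn * R + Rn * R)) := by
      gcongr
      exact hk.trans hRP
    have a2 : Rn * (64 * D * Lam * (R * (64 * D * Lam + 8 * Lam))) ≤
        Rn * (64 * D * Lam * (R * (8 * w))) := by
      gcongr
      have b1 : 8 * Lam ≤ 8 * D * Lam := by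
        have : 1 * Lam ≤ D * Lam := Nat.mul_le_mul_right _ hD
        have h8 : 8 * D * Lam = 8 * (D * Lam) := by ring
        omega
      have b2 : 64 * D * Lam + 8 * D * Lam = 8 * (9 * D * Lam) := by ring
      omega
    have a3 : Lam * (64 * D * X3) ≤ Lam * (5 * (N * (Rn * R))) := by
      calc Lam * (64 * D * X3) = 64 * D * Lam * X3 := by ring
        _ ≤ 64 * D * Lam * (2 * w * (Rn * R + Rn * R)) + Rn * (2 * Lam * N * R) +
            Rn * (64 * D * Lam * (R * (8 * w))) := by omega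
        _ = Lam * (3 * ((256 * D * w) * (Rn * R)) + 2 * (N * (Rn * R))) := by ring
        _ = Lam * (5 * (N * (Rn * R))) := by rw [← hN]; ring
    exact Nat.le_of_mul_le_mul_left a3 hL
  -- the main inequality times `32 D`
  have e4 : 32 * D * (Rn * (S * (N - 1))) ≤
      80 * (D * (nb * J)) * (Rn * N) + 2 * (D * S) * (Rn * N) + 12 * R * (Rn * N) := by
    calc 32 * D * (Rn * (S * (N - 1))) ≤ 32 * D * (2 * (Rn * (nb * (J * (N + 64 * D * w)) + 2 * J * S) +
          N * (X1 + X2) + X3)) := Nat.mul_le_mul_left _ hm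
      _ = 64 * (D * (nb * J)) * (Rn * N) + 16 * (D * (nb * J)) * (Rn * (256 * D * w)) +
          2 * D * (Rn * (64 * J * S)) + N * (64 * D * X1 + 64 * D * X2) + 64 * D * X3 := by ring
      _ ≤ 64 * (D * (nb * J)) * (Rn * N) + 16 * (D * (nb * J)) * (Rn * N) +
          2 * D * (Rn * (N * S)) + N * (4 * (Rn * R) + 3 * (Rn * R)) + 5 * (N * (Rn * R)) := by
          rw [← hN]
          gcongr
          rw [hN]
          have : 64 * (4 * D * w) = 256 * D * w := by ring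
          omega
      _ = _ := by ring
  obtain ⟨n, rfl⟩ : ∃ n, N = n + 1 := ⟨N - 1, by omega⟩
  rw [Nat.add_sub_cancel] at e4
  have e5 : 31 * (D * S) * (Rn * (n + 1)) ≤ 32 * D * (Rn * (S * n)) := by
    have h31 : 31 * (n + 1) ≤ 32 * n := by omega
    calc 31 * (D * S) * (Rn * (n + 1)) = (D * S) * Rn * (31 * (n + 1)) := by ring
      _ ≤ (D * S) * Rn * (32 * n) := Nat.mul_le_mul_left _ h31
      _ = 32 * D * (Rn * (S * n)) := by ring
  have e6 : (29 * (D * S)) * (Rn * (n + 1)) ≤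
      (80 * (D * (nb * J)) + 12 * R) * (Rn * (n + 1)) := by
    have c1 : (29 * (D * S)) * (Rn * (n + 1)) + 2 * (D * S) * (Rn * (n + 1)) =
      31 * (D * S) * (Rn * (n + 1)) := by ring
    have c2 : (80 * (D * (nb * J)) + 12 * R) * (Rn * (n + 1)) =
      80 * (D * (nb * J)) * (Rn * (n + 1)) + 12 * R * (Rn * (n + 1)) := by ring
    omega
  have e7 : 29 * (D * S) ≤ 80 * (D * (nb * J)) + 12 * R :=
    Nat.le_of_mul_le_mul_right e6 (Nat.mul_pos hRn (Nat.succ_pos n))
  omega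

end Pool.Agent.X217
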