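import Mathlib

set_option autoImplicit false

/-!
# Random picks revealed in a fixed order: number of failures before the first success
-/

namespace Pool.Agent.X217

open Finset

attribute [local instance 10] Classical.propDecidable

private theorem sq_swap {ι : Type*} [Fintype ι] [DecidableEq ι] {Ω : ι → Type*}
    [∀ i, Fintype (Ω i)] (a : ι) (g : (∀ i, Ω i) → ℝ) :
    ∑ ω : (∀ i, Ω i), ∑ v : Ω a, g (Function.update ω a v) =
      (Fintype.card (Ω a) : ℝ) * ∑ ω : (∀ i, Ω i), g ω := by
  classical
  have h1 : ∑ ω : (∀ i, Ω i), ∑ v : Ω a, g (Function.update ω a v) =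
      ∑ p : (∀ i, Ω i) × Ω a, g (Function.update p.1 a p.2) := by
    rw [Fintype.sum_prod_type]
  have h2 : ∑ p : (∀ i, Ω i) × Ω a, g (Function.update p.1 a p.2) =
      ∑ p : (∀ i, Ω i) × Ω a, g p.1 := by
    refine Finset.sum_nbij' (fun p => (Function.update p.1 a p.2, p.1 a))
      (fun p => (Function.update p.1 a p.2, p.1 a)) ?_ ?_ ?_ ?_ ?_
    · intro p _; exact mem_univ _
    · intro p _; exact mem_univ _
    · rintro ⟨ω, v⟩ _; simp
    · rintro ⟨ω, v⟩ _; simp
    · rintro ⟨ω, v⟩ _; rfl
  rw [h1, h2, Fintype.sum_prod_type]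
  simp [Finset.mul_sum]

/-- A product of factors of which the `i`-th depends on the coordinates `j ≤ i` only and has mean
at most one in the coordinate `i` (order given by `rv`).
PROOF: induction on the set `s` of the indices which are already integrated, largest index
first. -/
theorem prod_seq {ι : Type*} [Fintype ι] [DecidableEq ι] {Ω : ι → Type*} [∀ i, Fintype (Ω i)]
    [∀ i, Nonempty (Ω i)] (rv : ι → ℕ) (hrv : Function.Injective rv)
    (f : ι → (∀ i, Ω i) → ℝ) (h0 : ∀ i ω, 0 ≤ f i ω)
    (hdep : ∀ i ω ω', (∀ i', rv i' ≤ rv i → ω i' = ω' i') → f i ω = f i ω')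
    (hmean : ∀ i ω, ∑ v : Ω i, f i (Function.update ω i v) ≤ Fintype.card (Ω i)) :
    ∑ ω : (∀ i, Ω i), ∏ i, f i ω ≤ Fintype.card (∀ i, Ω i) := by
  classical
  have key : ∀ s : Finset ι, ∑ ω : (∀ i, Ω i), ∏ i ∈ s, f i ω ≤ Fintype.card (∀ i, Ω i) := by
    intro s
    induction s using Finset.induction_on_max_value rv with
    | empty => simp
    | insert a s has hmax ih =>
      have hpos : (0 : ℝ) < Fintype.card (Ω a) := by exact_mod_cast Fintype.card_pos
      have hsw := sq_swap a (fun ω : (∀ i, Ω i) => ∏ i ∈ insert a s, f i ω)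
      have hle : ∑ ω : (∀ i, Ω i), ∑ v : Ω a, ∏ i ∈ insert a s, f i (Function.update ω a v) ≤
          ∑ ω : (∀ i, Ω i), (Fintype.card (Ω a) : ℝ) * ∏ i ∈ s, f i ω := by
        refine Finset.sum_le_sum fun ω _ => ?_
        have hs : ∀ v : Ω a, ∏ i ∈ insert a s, f i (Function.update ω a v) =
            f a (Function.update ω a v) * ∏ i ∈ s, f i ω := by
          intro v
          rw [Finset.prod_insert has]
          congr 1
          refine Finset.prod_congr rfl fun i hi => ?_
          refine hdep i _ _ fun i' hi' => ?_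
          have hne : i' ≠ a := by
            rintro rfl
            have h3 := hmax i hi
            have h4 : rv i' = rv i := le_antisymm hi' h3
            exact has ((hrv h4) ▸ hi)
          simp [hne]
        rw [Finset.sum_congr rfl fun v _ => hs v, ← Finset.sum_mul]
        exact mul_le_mul_of_nonneg_right (hmean a ω) (Finset.prod_nonneg fun i _ => h0 i ω)
      rw [hsw, ← Finset.mul_sum] at hle
      exact (le_of_mul_le_mul_left hle hpos).trans ih
  simpa using key univ

end Pool.Agent.X217
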