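import Pool.Agent.X217.S2Join

set_option autoImplicit false

/-!
# S2 (MP_217fdb_lc, exact order): clusters and landmarks

`A`: late processors, `B`: early processors, `K1`: knowledge after phase 1 (used in `B`), `K3`:
knowledge of phase 3 (used in `A`), `Kf`: final knowledge.  If the labels `g` of list 0 are not
`S2Bad` then some `p ∈ A` finally knows `gg` members of `B` (theorem `s2_main`).
-/

namespace Pool.Agent.X217

open Finset

attribute [local instance 10] Classical.propDecidable

variable {V : Type} [DecidableEq V]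

/-- Greedy choice of clusters. -/
theorem s2_clusters (A : Finset V) (K3 : V → V → Prop) (h N1 J : ℕ)
    (hA3 : ∀ S ⊆ A, N1 ≤ S.card → ∃ p ∈ S, h ≤ (S.filter fun q => K3 p q).card)
    (sA : N1 + J * h ≤ A.card) :
    ∃ (p : ℕ → V) (X : ℕ → Finset V),
      (∀ i < J, p i ∈ A) ∧ (∀ i < J, X i ⊆ A) ∧ (∀ i < J, ∀ q ∈ X i, K3 (p i) q) ∧
      (∀ i < J, (X i).card = h) ∧ (∀ i < J, ∀ j < i, Disjoint (X i) (X j)) := by
  induction J with
  | zero =>
    have hA : N1 ≤ A.card := by omega
    obtain ⟨x, _, _⟩ := hA3 A subset_rfl hA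
    exact ⟨fun _ => x, fun _ => ∅, by simp, by simp, by simp, by simp, by simp⟩
  | succ J ih =>
    have hJ1 : (J + 1) * h = J * h + h := by ring
    obtain ⟨p, X, h1, h2, h3, h4, h5⟩ := ih (by omega)
    set U : Finset V := (range J).biUnion X with hU
    have hUc : U.card ≤ J * h := by
      refine le_trans card_biUnion_le ?_
      refine le_trans (sum_le_card_nsmul _ _ h ?_) ?_
      · intro i hi
        rw [mem_range] at hi
        exact (h4 i hi).le
      · simp
    have hS : N1 ≤ (A \ U).card := by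
      have := le_card_sdiff U A
      omega
    obtain ⟨q, hq, hq2⟩ := hA3 (A \ U) sdiff_subset hS
    obtain ⟨Y, hY1, hY2⟩ := exists_subset_card_eq hq2
    refine ⟨fun i => if i < J then p i else q, fun i => if i < J then X i else Y, ?_, ?_, ?_, ?_, ?_⟩
    · intro i hi
      by_cases hi' : i < J
      · simp only [hi', if_true]; exact h1 i hi'
      · simp only [hi', if_false]; exact (mem_sdiff.mp hq).1
    · intro i hi
      by_cases hi' : i < J
      · simp only [hi', if_true]; exact h2 i hi'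
      · simp only [hi', if_false]
        exact (hY1.trans (filter_subset _ _)).trans sdiff_subset
    · intro i hi
      by_cases hi' : i < J
      · simp only [hi', if_true]; exact h3 i hi'
      · simp only [hi', if_false]
        intro v hv
        exact (mem_filter.mp (hY1 hv)).2
    · intro i hi
      by_cases hi' : i < J
      · simp only [hi', if_true]; exact h4 i hi'
      · simp only [hi', if_false]; exact hY2
    · intro i hi j hj
      by_cases hi' : i < J
      · have hj' : j < J := by omega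
        simp only [hi', hj', if_true]
        exact h5 i hi' j hj
      · have hij : j < J := by omega
        simp only [hi', hij, if_true, if_false]
        rw [disjoint_left]
        intro x hx hxj
        have hx2 := (mem_filter.mp (hY1 hx)).1
        rw [mem_sdiff] at hx2
        exact hx2.2 (mem_biUnion.mpr ⟨j, mem_range.mpr hij, hxj⟩)

/-- One landmark. -/
theorem s2_landmark (B S : Finset V) (K1 : V → V → Prop) (h2 N1 : ℕ)
    (hA1 : ∀ S ⊆ B, N1 ≤ S.card → ∃ p ∈ S, 2 * h2 ≤ (S.filter fun q => K1 p q).card)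
    (hSB : S ⊆ B) (hS : 2 * N1 ≤ S.card) :
    ∃ w ∈ S, ∃ Y ⊆ S, Y.card = h2 ∧ ∀ b ∈ Y, K1 b w := by
  classical
  have hN1 : N1 ≠ 0 := by
    intro h0
    obtain ⟨p, hp, _⟩ := hA1 ∅ (empty_subset _) (by simp [h0])
    simp at hp
  set Bad := S.filter (fun p => (S.filter fun q => K1 p q).card < 2 * h2) with hBad
  by_cases hh : h2 = 0
  · obtain ⟨w, hw⟩ := card_pos.mp (show 0 < S.card by omega)
    exact ⟨w, hw, ∅, by simp, by simp [hh], by simp⟩
  have hbad : Bad.card < N1 := by
    by_contra hcon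
    obtain ⟨p, hp, hp2⟩ := hA1 Bad ((filter_subset _ _).trans hSB) (not_lt.mp hcon)
    have hp3 := (mem_filter.mp hp).2
    have : (Bad.filter fun q => K1 p q).card ≤ (S.filter fun q => K1 p q).card :=
      card_le_card (filter_subset_filter _ (filter_subset _ _))
    omega
  -- double counting
  by_contra hcon
  have key : ∀ w ∈ S, (S.filter (fun b => K1 b w)).card < h2 := by
    intro w hw
    by_contra hc
    obtain ⟨Y, hY1, hY2⟩ := exists_subset_card_eq (not_lt.mp hc)
    exact hcon ⟨w, hw, Y, hY1.trans (filter_subset _ _), hY2,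
      fun b hb => (mem_filter.mp (hY1 hb)).2⟩
  have hsum : ∑ b ∈ S, (S.filter fun q => K1 b q).card = ∑ w ∈ S, (S.filter (fun b => K1 b w)).card := by
    simp only [card_filter]
    rw [sum_comm]
  have hlow : (S.card - N1 + 1) * (2 * h2) ≤ ∑ b ∈ S, (S.filter fun q => K1 b q).card := by
    have hg : S.card - N1 + 1 ≤ (S \ Bad).card := by
      have := le_card_sdiff Bad S
      omega
    calc (S.card - N1 + 1) * (2 * h2) ≤ (S \ Bad).card * (2 * h2) := Nat.mul_le_mul_right _ hg
      _ = ∑ b ∈ S \ Bad, 2 * h2 := by rw [sum_const, smul_eq_mul]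
      _ ≤ ∑ b ∈ S \ Bad, (S.filter fun q => K1 b q).card := by
          refine sum_le_sum (fun b hb => ?_)
          rw [mem_sdiff] at hb
          by_contra hc
          exact hb.2 (mem_filter.mpr ⟨hb.1, not_le.mp hc⟩)
      _ ≤ ∑ b ∈ S, (S.filter fun q => K1 b q).card :=
          sum_le_sum_of_subset sdiff_subset
  have hup : ∑ w ∈ S, (S.filter (fun b => K1 b w)).card ≤ S.card * h2 := by
    refine le_trans (sum_le_card_nsmul _ _ h2 (fun w hw => (key w hw).le)) ?_
    simp
  rw [hsum] at hlow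
  have h3 : (S.card - N1 + 1) * (2 * h2) ≤ S.card * h2 := hlow.trans hup
  have h4 : (S.card - N1 + 1) * 2 ≤ S.card := by
    have : ((S.card - N1 + 1) * 2) * h2 ≤ S.card * h2 := by
      calc ((S.card - N1 + 1) * 2) * h2 = (S.card - N1 + 1) * (2 * h2) := by ring
        _ ≤ _ := h3
    exact Nat.le_of_mul_le_mul_right this (Nat.pos_of_ne_zero hh)
  omega

/-- All landmarks: `F` families of `J2` landmarks with groups of size `h2`, disjoint inside each
family; the landmarks are all different. -/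
theorem s2_landmarks (B : Finset V) (K1 : V → V → Prop) (h2 N1 J2 F : ℕ) (hJ2 : 1 ≤ J2)
    (hA1 : ∀ S ⊆ B, N1 ≤ S.card → ∃ p ∈ S, 2 * h2 ≤ (S.filter fun q => K1 p q).card)
    (sB : 2 * N1 + J2 * h2 + F * J2 ≤ B.card) :
    ∀ T ≤ F * J2, ∃ (w : ℕ → V) (Y : ℕ → Finset V),
      (∀ t < T, w t ∈ B) ∧ (∀ t < T, Y t ⊆ B) ∧ (∀ t < T, (Y t).card = h2) ∧
      (∀ t < T, ∀ b ∈ Y t, K1 b (w t)) ∧ (∀ t < T, ∀ t' < t, w t' ≠ w t) ∧
      (∀ t < T, ∀ t' < t, t' / J2 = t / J2 → Disjoint (Y t') (Y t)) := by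
  intro T
  induction T with
  | zero =>
    intro _
    obtain ⟨x, _, _⟩ := hA1 B subset_rfl (by omega)
    exact ⟨fun _ => x, fun _ => ∅, by simp, by simp, by simp, by simp, by simp, by simp⟩
  | succ T ih =>
    intro hT
    obtain ⟨w, Y, a1, a2, a3, a4, a5, a6⟩ := ih (by omega)
    set U1 : Finset V := ((range T).filter fun t => t / J2 = T / J2).biUnion Y with hU1
    set U2 : Finset V := (range T).image w with hU2
    have c1 : U1.card ≤ J2 * h2 := by
      refine card_biUnion_le.trans ?_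
      have hsub : ((range T).filter fun t => t / J2 = T / J2) ⊆ Ico (J2 * (T / J2)) T := by
        intro t ht
        rw [mem_filter, mem_range] at ht
        rw [mem_Ico]
        refine ⟨?_, ht.1⟩
        rw [← ht.2]
        exact Nat.mul_div_le t J2
      have hc : ((range T).filter fun t => t / J2 = T / J2).card ≤ J2 := by
        refine (card_le_card hsub).trans ?_
        rw [Nat.card_Ico]
        have h1 := Nat.div_add_mod T J2
        have h3 := Nat.mod_lt T (show 0 < J2 by omega)
        omega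
      calc ∑ t ∈ (range T).filter (fun t => t / J2 = T / J2), (Y t).card
          ≤ ∑ _t ∈ (range T).filter (fun t => t / J2 = T / J2), h2 := by
            refine sum_le_sum fun t ht => ?_
            rw [mem_filter, mem_range] at ht
            exact (a3 t ht.1).le
        _ = _ * h2 := by rw [sum_const, smul_eq_mul]
        _ ≤ J2 * h2 := Nat.mul_le_mul_right _ hc
    have c2 : U2.card ≤ F * J2 := by
      refine card_image_le.trans ?_
      rw [card_range]; omega
    set S := (B \ U1) \ U2 with hS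
    have hSB : S ⊆ B := sdiff_subset.trans sdiff_subset
    have hSc : 2 * N1 ≤ S.card := by
      have h1 : B.card - U1.card ≤ (B \ U1).card := le_card_sdiff U1 B
      have h3 : (B \ U1).card - U2.card ≤ S.card := le_card_sdiff U2 (B \ U1)
      omega
    obtain ⟨v, hv, Z, hZ1, hZ2, hZ3⟩ := s2_landmark B S K1 h2 N1 hA1 hSB hSc
    refine ⟨fun t => if t < T then w t else v, fun t => if t < T then Y t else Z,
      ?_, ?_, ?_, ?_, ?_, ?_⟩
    · intro t ht
      by_cases h' : t < T
      · simp only [h', if_true]; exact a1 t h'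
      · simp only [h', if_false]; exact hSB hv
    · intro t ht
      by_cases h' : t < T
      · simp only [h', if_true]; exact a2 t h'
      · simp only [h', if_false]; exact hZ1.trans hSB
    · intro t ht
      by_cases h' : t < T
      · simp only [h', if_true]; exact a3 t h'
      · simp only [h', if_false]; exact hZ2
    · intro t ht
      by_cases h' : t < T
      · simp only [h', if_true]; exact a4 t h'
      · simp only [h', if_false]; exact hZ3
    · intro t ht t' ht'
      by_cases h' : t < T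
      · have h'' : t' < T := by omega
        simp only [h', h'', if_true]; exact a5 t h' t' ht'
      · have h'' : t' < T := by omega
        simp only [h', h'', if_true, if_false]
        intro heq
        rw [hS, mem_sdiff] at hv
        exact hv.2 (heq ▸ mem_image_of_mem w (mem_range.mpr h''))
    · intro t ht t' ht' hdiv
      by_cases h' : t < T
      · have h'' : t' < T := by omega
        simp only [h', h'', if_true]; exact a6 t h' t' ht' hdiv
      · have h'' : t' < T := by omega
        have htT : t = T := by omega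
        subst htT
        simp only [h'', if_true, lt_irrefl, if_false]
        rw [disjoint_left]
        intro x hx hxZ
        have h9 := hZ1 hxZ
        rw [hS, mem_sdiff, mem_sdiff] at h9
        exact h9.1.2 (mem_biUnion.mpr ⟨t', mem_filter.mpr ⟨mem_range.mpr h'', hdiv⟩, hx⟩)

/-- The core of S2: small final knowledge gives a configuration forbidden by `JOIN*`. -/
theorem s2_bad {Rn Q : ℕ} (g : Fin Rn → V → Fin Q) (A B : Finset V) (hAB : Disjoint A B)
    (K1 K3 Kf : V → V → Prop) {h2 N1 gg j1 J2 F : ℕ}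
    (hA1 : ∀ S ⊆ B, N1 ≤ S.card → ∃ p ∈ S, 2 * h2 ≤ (S.filter fun q => K1 p q).card)
    (hA3 : ∀ S ⊆ A, N1 ≤ S.card → ∃ p ∈ S, 2 * h2 ≤ (S.filter fun q => K3 p q).card)
    (hH : ∀ p ∈ A, ∀ q ∈ A, K3 p q → ∀ b ∈ B, (∃ r, g r q = g r b) → ∀ w ∈ B, K1 b w → Kf p w)
    (hS : ∀ p ∈ A, (B.filter fun q => Kf p q).card < gg)
    (sA : N1 + (2 * j1) * (2 * h2) ≤ A.card) (sB : 2 * N1 + J2 * h2 + F * J2 ≤ B.card)
    (hF : 4 * gg ≤ F * J2) (hj : 1 ≤ j1) (hJ : 1 ≤ J2) :
    S2Bad j1 J2 (2 * h2) h2 g := by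
  classical
  obtain ⟨p, X, x1, x2, x3, x4, x5⟩ := s2_clusters A K3 (2 * h2) N1 (2 * j1) hA3 sA
  obtain ⟨w, Y, a1, a2, a3, a4, a5, a6⟩ :=
    s2_landmarks B K1 h2 N1 J2 F hJ hA1 sB (F * J2) le_rfl
  have hgg : 1 ≤ gg := by
    have := hS (p 0) (x1 0 (by omega))
    omega
  have hFpos : 1 ≤ F := by
    rcases Nat.eq_zero_or_pos F with h | h
    · subst h; omega
    · exact h
  -- the known landmarks
  set Qs : ℕ → ℕ → Finset ℕ := fun i f => (range J2).filter fun u => Kf (p i) (w (f * J2 + u))
    with hQs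
  have hrow : ∀ i < 2 * j1, ∑ f ∈ range F, (Qs i f).card < gg := by
    intro i hi
    have h1 : ∑ f ∈ range F, (Qs i f).card =
        ((range F ×ˢ range J2).filter fun q => Kf (p i) (w (q.1 * J2 + q.2))).card := by
      rw [card_filter, sum_product]
      refine sum_congr rfl fun f _ => ?_
      rw [hQs, card_filter]
    rw [h1]
    refine lt_of_le_of_lt ?_ (hS (p i) (x1 i hi))
    refine card_le_card_of_injOn (fun q => w (q.1 * J2 + q.2)) ?_ ?_
    · intro q hq
      rw [mem_coe, mem_filter, mem_product, mem_range, mem_range] at hq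
      rw [mem_coe, mem_filter]
      refine ⟨a1 _ ?_, hq.2⟩
      calc q.1 * J2 + q.2 < q.1 * J2 + J2 := by omega
        _ = (q.1 + 1) * J2 := by ring
        _ ≤ F * J2 := Nat.mul_le_mul_right _ (by omega)
    · intro q hq q' hq' heq
      rw [mem_coe, mem_filter, mem_product, mem_range, mem_range] at hq hq'
      have l1 : q.1 * J2 + q.2 < F * J2 := by
        calc q.1 * J2 + q.2 < q.1 * J2 + J2 := by omega
          _ = (q.1 + 1) * J2 := by ring
          _ ≤ F * J2 := Nat.mul_le_mul_right _ (by omega)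
      have l2 : q'.1 * J2 + q'.2 < F * J2 := by
        calc q'.1 * J2 + q'.2 < q'.1 * J2 + J2 := by omega
          _ = (q'.1 + 1) * J2 := by ring
          _ ≤ F * J2 := Nat.mul_le_mul_right _ (by omega)
      have he : q.1 * J2 + q.2 = q'.1 * J2 + q'.2 := by
        by_contra hne
        rcases Nat.lt_or_gt_of_ne hne with h | h
        · exact a5 _ l2 _ h heq
        · exact a5 _ l1 _ h heq.symm
      have e1 : q.1 = q'.1 := by
        have h3 : (q.1 * J2 + q.2) / J2 = q.1 := by
          rw [Nat.mul_comm, Nat.mul_add_div (by omega), Nat.div_eq_of_lt hq.1.2, Nat.add_zero]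
        have h4 : (q'.1 * J2 + q'.2) / J2 = q'.1 := by
          rw [Nat.mul_comm, Nat.mul_add_div (by omega), Nat.div_eq_of_lt hq'.1.2, Nat.add_zero]
        rw [← h3, ← h4, he]
      have e2 : q.2 = q'.2 := by rw [e1] at he; omega
      exact Prod.ext e1 e2
  -- a good family
  obtain ⟨f, hf, hfs⟩ : ∃ f < F, F * ∑ i ∈ range (2 * j1), (Qs i f).card < 2 * j1 * gg := by
    by_contra hcon
    have hall : ∀ f < F, 2 * j1 * gg ≤ F * ∑ i ∈ range (2 * j1), (Qs i f).card := by
      intro f hf
      by_contra hc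
      exact hcon ⟨f, hf, not_le.mp hc⟩
    have h1 : F * (2 * j1 * gg) ≤ F * ∑ f ∈ range F, ∑ i ∈ range (2 * j1), (Qs i f).card := by
      rw [mul_sum]
      calc F * (2 * j1 * gg) = ∑ _f ∈ range F, 2 * j1 * gg := by
            rw [sum_const, card_range, smul_eq_mul]
        _ ≤ _ := sum_le_sum fun f hf => hall f (mem_range.mp hf)
    have h3 : 2 * j1 * gg ≤ ∑ f ∈ range F, ∑ i ∈ range (2 * j1), (Qs i f).card :=
      Nat.le_of_mul_le_mul_left h1 (by omega)
    rw [sum_comm] at h3
    have h4 : ∑ i ∈ range (2 * j1), ∑ f ∈ range F, (Qs i f).card < ∑ _i ∈ range (2 * j1), gg :=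
      sum_lt_sum_of_nonempty ⟨0, mem_range.mpr (by omega)⟩
        (fun i hi => hrow i (mem_range.mp hi))
    rw [sum_const, card_range, smul_eq_mul] at h4
    omega
  -- good clusters
  set Gd := (range (2 * j1)).filter fun i => 2 * (Qs i f).card ≤ J2 with hGd
  have hGc : j1 ≤ Gd.card := by
    by_contra hcon
    have hsp : Gd.card + ((range (2 * j1)).filter fun i => ¬ 2 * (Qs i f).card ≤ J2).card
        = 2 * j1 := by
      rw [hGd, card_filter_add_card_filter_not, card_range]
    set Bd := (range (2 * j1)).filter fun i => ¬ 2 * (Qs i f).card ≤ J2 with hBd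
    have hb : j1 ≤ Bd.card := by omega
    have h1 : Bd.card * J2 ≤ 2 * ∑ i ∈ range (2 * j1), (Qs i f).card := by
      calc Bd.card * J2 = ∑ _i ∈ Bd, J2 := by rw [sum_const, smul_eq_mul]
        _ ≤ ∑ i ∈ Bd, 2 * (Qs i f).card := by
            refine sum_le_sum fun i hi => ?_
            have := (mem_filter.mp hi).2
            omega
        _ ≤ ∑ i ∈ range (2 * j1), 2 * (Qs i f).card :=
            sum_le_sum_of_subset (filter_subset _ _)
        _ = _ := by rw [mul_sum]
    have h3 : F * (j1 * J2) < 4 * j1 * gg := by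
      calc F * (j1 * J2) ≤ F * (Bd.card * J2) :=
            Nat.mul_le_mul_left _ (Nat.mul_le_mul_right _ hb)
        _ ≤ F * (2 * ∑ i ∈ range (2 * j1), (Qs i f).card) := Nat.mul_le_mul_left _ h1
        _ = 2 * (F * ∑ i ∈ range (2 * j1), (Qs i f).card) := by ring
        _ < 2 * (2 * j1 * gg) := by omega
        _ = 4 * j1 * gg := by ring
    have h4 : 4 * j1 * gg ≤ F * (j1 * J2) := by
      calc 4 * j1 * gg = j1 * (4 * gg) := by ring
        _ ≤ j1 * (F * J2) := Nat.mul_le_mul_left _ hF
        _ = F * (j1 * J2) := by ring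
    omega
  obtain ⟨G', hG1, hG2⟩ := exists_subset_card_eq hGc
  set ι : Fin j1 → ℕ := fun i => ((G'.equivFinOfCardEq hG2).symm i).1 with hι
  have hιm : ∀ i, ι i ∈ G' := fun i => ((G'.equivFinOfCardEq hG2).symm i).2
  have hιinj : Function.Injective ι := by
    intro i i' h
    exact (G'.equivFinOfCardEq hG2).symm.injective (Subtype.ext h)
  have hιlt : ∀ i, ι i < 2 * j1 := fun i => mem_range.mp (mem_filter.mp (hG1 (hιm i))).1
  have hιg : ∀ i, 2 * (Qs (ι i) f).card ≤ J2 := fun i => (mem_filter.mp (hG1 (hιm i))).2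
  have hfu : ∀ u : Fin J2, f * J2 + u.val < F * J2 := by
    intro u
    have := u.2
    calc f * J2 + u.val < f * J2 + J2 := by omega
      _ = (f + 1) * J2 := by ring
      _ ≤ F * J2 := Nat.mul_le_mul_right _ (by omega)
  refine ⟨fun q => (((X (ι q.1)).equivFinOfCardEq (x4 _ (hιlt q.1))).symm q.2).1,
    fun q => (((Y (f * J2 + q.1.val)).equivFinOfCardEq (a3 _ (hfu q.1))).symm q.2).1,
    fun i => univ.filter fun u : Fin J2 => Kf (p (ι i)) (w (f * J2 + u.val)),
    ?_, ?_, ?_, ?_, ?_⟩
  · rintro ⟨i, k⟩ ⟨i', k'⟩ h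
    simp only at h
    have m1 := (((X (ι i)).equivFinOfCardEq (x4 _ (hιlt i))).symm k).2
    have m2 := (((X (ι i')).equivFinOfCardEq (x4 _ (hιlt i'))).symm k').2
    have hii : i = i' := by
      by_contra hne
      have hne' : ι i ≠ ι i' := fun h' => hne (hιinj h')
      rcases Nat.lt_or_gt_of_ne hne' with h' | h'
      · exact (disjoint_left.mp (x5 _ (hιlt i') _ h')) m2 (h ▸ m1)
      · exact (disjoint_left.mp (x5 _ (hιlt i) _ h')) m1 (h ▸ m2)
    subst hii
    have := ((X (ι i)).equivFinOfCardEq (x4 _ (hιlt i))).symm.injective (Subtype.ext h)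
    rw [this]
  · rintro ⟨i, k⟩ ⟨i', k'⟩ h
    simp only at h
    have m1 := (((Y (f * J2 + i.val)).equivFinOfCardEq (a3 _ (hfu i))).symm k).2
    have m2 := (((Y (f * J2 + i'.val)).equivFinOfCardEq (a3 _ (hfu i'))).symm k').2
    have hii : i = i' := by
      by_contra hne
      have hne' : i.val ≠ i'.val := fun h' => hne (Fin.ext h')
      have hd : ∀ u : Fin J2, (f * J2 + u.val) / J2 = f := by
        intro u
        rw [Nat.mul_comm, Nat.mul_add_div (by omega), Nat.div_eq_of_lt u.2, Nat.add_zero]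
      rcases Nat.lt_or_gt_of_ne hne' with h' | h'
      · exact (disjoint_left.mp (a6 _ (hfu i') (f * J2 + i.val) (by omega)
          (by rw [hd, hd]))) m1 (h ▸ m2)
      · exact (disjoint_left.mp (a6 _ (hfu i) (f * J2 + i'.val) (by omega)
          (by rw [hd, hd]))) m2 (h ▸ m1)
    subst hii
    have := ((Y (f * J2 + i.val)).equivFinOfCardEq (a3 _ (hfu i))).symm.injective (Subtype.ext h)
    rw [this]
  · rintro ⟨i, k⟩ ⟨i', k'⟩ h
    simp only at h
    have m1 := x2 _ (hιlt i) (((X (ι i)).equivFinOfCardEq (x4 _ (hιlt i))).symm k).2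
    have m2 := a2 _ (hfu i') (((Y (f * J2 + i'.val)).equivFinOfCardEq (a3 _ (hfu i'))).symm k').2
    exact (disjoint_left.mp hAB) m1 (h ▸ m2)
  · intro i
    refine le_trans (Nat.mul_le_mul_left 2 ?_) (hιg i)
    refine card_le_card_of_injOn (fun u => u.val) ?_ (fun u _ u' _ h => Fin.ext h)
    intro u hu
    rw [mem_coe, mem_filter] at hu
    rw [mem_coe, hQs, mem_filter, mem_range]
    exact ⟨u.2, hu.2⟩
  · rintro ⟨i, k⟩ ⟨u, k'⟩ hu r hr
    simp only at hu hr
    have m1 := (((X (ι i)).equivFinOfCardEq (x4 _ (hιlt i))).symm k).2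
    have m2 := (((Y (f * J2 + u.val)).equivFinOfCardEq (a3 _ (hfu u))).symm k').2
    refine hu ?_
    rw [mem_filter]
    refine ⟨mem_univ _, ?_⟩
    exact hH (p (ι i)) (x1 _ (hιlt i)) _ (x2 _ (hιlt i) m1) (x3 _ (hιlt i) _ m1) _
      (a2 _ (hfu u) m2) ⟨r, hr⟩ _ (a1 _ (hfu u)) (a4 _ (hfu u) _ m2)

/-- S2: if the labels of list 0 are not bad, some late processor finally knows `gg` early ones. -/
theorem s2_main {Rn Q : ℕ} (g : Fin Rn → V → Fin Q) (A B : Finset V) (hAB : Disjoint A B)
    (K1 K3 Kf : V → V → Prop) {h2 N1 gg j1 J2 F : ℕ}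
    (hA1 : ∀ S ⊆ B, N1 ≤ S.card → ∃ p ∈ S, 2 * h2 ≤ (S.filter fun q => K1 p q).card)
    (hA3 : ∀ S ⊆ A, N1 ≤ S.card → ∃ p ∈ S, 2 * h2 ≤ (S.filter fun q => K3 p q).card)
    (hH : ∀ p ∈ A, ∀ q ∈ A, K3 p q → ∀ b ∈ B, (∃ r, g r q = g r b) → ∀ w ∈ B, K1 b w → Kf p w)
    (sA : N1 + (2 * j1) * (2 * h2) ≤ A.card) (sB : 2 * N1 + J2 * h2 + F * J2 ≤ B.card)
    (hF : 4 * gg ≤ F * J2) (hj : 1 ≤ j1) (hJ : 1 ≤ J2)
    (hg : ¬ S2Bad j1 J2 (2 * h2) h2 g) :
    ∃ p ∈ A, gg ≤ (B.filter fun q => Kf p q).card := by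
  by_contra hcon
  refine hg (s2_bad g A B hAB K1 K3 Kf hA1 hA3 hH (fun p hp => ?_) sA sB hF hj hJ)
  by_contra hc
  exact hcon ⟨p, hp, not_lt.mp hc⟩

end Pool.Agent.X217
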