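import Mathlib

set_option autoImplicit false

/-!
# S2 (MP_217fdb_lc, exact order): the static property `JOIN*` of the labels of list 0
-/

namespace Pool.Agent.X217

open Finset

attribute [local instance 10] Classical.propDecidable

variable {V : Type} [Fintype V] [DecidableEq V]

/-- Functions with values in `H` on `F`. -/
theorem s2j_card_pi {Q : ℕ} (F : Finset V) (H : Finset (Fin Q)) :
    (univ.filter fun f : V → Fin Q => ∀ v ∈ F, f v ∈ H).card
      = H.card ^ F.card * Q ^ (Fintype.card V - F.card) := by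
  have h1 : (univ.filter fun f : V → Fin Q => ∀ v ∈ F, f v ∈ H)
      = Fintype.piFinset (fun v => if v ∈ F then H else univ) := by
    ext f
    simp only [mem_filter, mem_univ, true_and, Fintype.mem_piFinset]
    constructor
    · intro h v
      by_cases hv : v ∈ F
      · simp only [hv, if_true]; exact h v hv
      · simp only [hv, if_false]; exact mem_univ _
    · intro h v hv
      have := h v
      simpa only [hv, if_true] using this
  rw [h1, Fintype.card_piFinset]
  have h2 : ∀ v : V, (if v ∈ F then H else (univ : Finset (Fin Q))).card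
      = if v ∈ F then H.card else Q := by
    intro v
    by_cases hv : v ∈ F <;> simp [hv]
  rw [prod_congr rfl (fun v _ => h2 v), prod_ite, prod_const, prod_const]
  have h3 : (univ.filter fun v : V => v ∈ F) = F := by ext v; simp
  have h4 : (univ.filter fun v : V => ¬ v ∈ F) = Fᶜ := by ext v; simp
  rw [h3, h4, card_compl]

/-- Few functions have a small image of `F`. -/
theorem s2j_count1 {Q2 : ℕ} (F : Finset V) :
    2 ^ F.card * (univ.filter fun f : V → Fin (2 * Q2) => (F.image f).card ≤ Q2).card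
      ≤ 2 ^ (2 * Q2) * (2 * Q2) ^ Fintype.card V := by
  have hsub : (univ.filter fun f : V → Fin (2 * Q2) => (F.image f).card ≤ Q2) ⊆
      (powersetCard Q2 (univ : Finset (Fin (2 * Q2)))).biUnion
        (fun H => univ.filter fun f : V → Fin (2 * Q2) => ∀ v ∈ F, f v ∈ H) := by
    intro f hf
    rw [mem_filter] at hf
    obtain ⟨H, hH1, _, hH2⟩ := exists_subsuperset_card_eq (subset_univ (F.image f)) hf.2
      (by simp; omega)
    rw [mem_biUnion]
    refine ⟨H, mem_powersetCard.mpr ⟨subset_univ _, hH2⟩, ?_⟩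
    rw [mem_filter]
    exact ⟨mem_univ _, fun v hv => hH1 (mem_image_of_mem f hv)⟩
  have hF : F.card ≤ Fintype.card V := card_le_univ F
  have hle : (univ.filter fun f : V → Fin (2 * Q2) => (F.image f).card ≤ Q2).card
      ≤ 2 ^ (2 * Q2) * (Q2 ^ F.card * (2 * Q2) ^ (Fintype.card V - F.card)) := by
    refine (card_le_card hsub).trans (card_biUnion_le.trans ?_)
    have : ∀ H ∈ powersetCard Q2 (univ : Finset (Fin (2 * Q2))),
        (univ.filter fun f : V → Fin (2 * Q2) => ∀ v ∈ F, f v ∈ H).card
          = Q2 ^ F.card * (2 * Q2) ^ (Fintype.card V - F.card) := by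
      intro H hH
      rw [s2j_card_pi, (mem_powersetCard.mp hH).2]
    rw [sum_congr rfl this, sum_const, smul_eq_mul]
    refine Nat.mul_le_mul_right _ ?_
    rw [card_powersetCard, card_univ, Fintype.card_fin]
    exact Nat.choose_le_two_pow _ _
  calc 2 ^ F.card * (univ.filter fun f : V → Fin (2 * Q2) => (F.image f).card ≤ Q2).card
      ≤ 2 ^ F.card * (2 ^ (2 * Q2) * (Q2 ^ F.card * (2 * Q2) ^ (Fintype.card V - F.card))) :=
        Nat.mul_le_mul_left _ hle
    _ = 2 ^ (2 * Q2) * ((2 * Q2) ^ F.card * (2 * Q2) ^ (Fintype.card V - F.card)) := by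
        rw [mul_pow]; ring
    _ = 2 ^ (2 * Q2) * (2 * Q2) ^ Fintype.card V := by
        rw [← pow_add, Nat.add_sub_cancel' hF]

/-- Few functions avoid the (large) images of the forbidden sets. -/
theorem s2j_count2 {Q2 : ℕ} {ι κ : Type} [Fintype ι] [Fintype κ] (x : ι × κ → V)
    (hx : Function.Injective x) (F : ι → Finset V) (hd : ∀ i p, x p ∉ F i) :
    2 ^ (Fintype.card ι * Fintype.card κ) *
      (univ.filter fun f : V → Fin (2 * Q2) => (∀ i, Q2 ≤ ((F i).image f).card) ∧
        ∀ p, f (x p) ∉ (F p.1).image f).card ≤ (2 * Q2) ^ Fintype.card V := by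
  classical
  by_cases hQ : Q2 = 0
  · subst hQ
    have hE : IsEmpty (Fin (2 * 0)) := by simpa using Fin.isEmpty
    by_cases hV : Nonempty V
    · have : (univ.filter fun f : V → Fin (2 * 0) => (∀ i, 0 ≤ ((F i).image f).card) ∧
        ∀ p, f (x p) ∉ (F p.1).image f) = ∅ := by
        ext f
        exact (hE.false (f hV.some)).elim
      rw [this]; simp
    · have hV' : IsEmpty V := not_nonempty_iff.mp hV
      have hι : Fintype.card ι * Fintype.card κ = 0 := by
        rw [← Fintype.card_prod, Fintype.card_eq_zero_iff]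
        exact ⟨fun p => hV'.false (x p)⟩
      rw [hι, Fintype.card_eq_zero (α := V)]
      simp only [pow_zero, one_mul]
      refine (card_le_univ _).trans ?_
      simp
  have hQ' : 0 < 2 * Q2 := by omega
  set o : Fin (2 * Q2) := ⟨0, hQ'⟩
  set A : Finset V := univ.image x with hA
  have hAc : A.card = Fintype.card ι * Fintype.card κ := by
    rw [hA, card_image_of_injective _ hx, card_univ, Fintype.card_prod]
  set S := (univ.filter fun f : V → Fin (2 * Q2) => (∀ i, Q2 ≤ ((F i).image f).card) ∧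
        ∀ p, f (x p) ∉ (F p.1).image f) with hS
  -- overwrite
  set ow : (V → Fin (2 * Q2)) → (V → Fin (2 * Q2)) := fun f v => if v ∈ A then o else f v with how
  have himg : ∀ (f : V → Fin (2 * Q2)) (i : ι), (F i).image (ow f) = (F i).image f := by
    intro f i
    refine image_congr ?_
    intro v hv
    have : v ∉ A := by
      intro hvA
      rw [hA, mem_image] at hvA
      obtain ⟨p, _, rfl⟩ := hvA
      exact hd i p hv
    simp only [how, this, if_false]
  set T : Finset (V → Fin (2 * Q2)) :=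
    univ.filter fun g : V → Fin (2 * Q2) => ∀ v ∈ A, g v ∈ ({o} : Finset _) with hT
  have hTc : T.card = (2 * Q2) ^ (Fintype.card V - A.card) := by
    rw [hT, s2j_card_pi]; simp
  have hmaps : ∀ f ∈ S, ow f ∈ T := by
    intro f _
    rw [hT, mem_filter]
    refine ⟨mem_univ _, fun v hv => ?_⟩
    simp only [how, hv, if_true, mem_singleton]
  have hfib : ∀ g ∈ T, (S.filter fun f => ow f = g).card ≤ Q2 ^ A.card := by
    intro g _
    have hsub : (S.filter fun f => ow f = g) ⊆ Fintype.piFinset (fun v : V =>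
        if v ∈ A then (univ.filter fun c : Fin (2 * Q2) =>
          (∀ i, Q2 ≤ ((F i).image g).card) ∧ ∀ p, x p = v → c ∉ (F p.1).image g)
        else {g v}) := by
      intro f hf
      rw [mem_filter] at hf
      obtain ⟨hfS, hfg⟩ := hf
      rw [hS, mem_filter] at hfS
      rw [Fintype.mem_piFinset]
      intro v
      by_cases hv : v ∈ A
      · simp only [hv, if_true, mem_filter, mem_univ, true_and]
        refine ⟨fun i => ?_, fun p hp => ?_⟩
        · rw [← hfg, himg]; exact hfS.2.1 i
        · rw [← hfg, himg, ← hp]; exact hfS.2.2 p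
      · simp only [hv, if_false, mem_singleton]
        rw [← hfg]
        simp only [how, hv, if_false]
    refine (card_le_card hsub).trans ?_
    rw [Fintype.card_piFinset]
    calc ∏ v : V, (if v ∈ A then (univ.filter fun c : Fin (2 * Q2) =>
          (∀ i, Q2 ≤ ((F i).image g).card) ∧ ∀ p, x p = v → c ∉ (F p.1).image g)
        else {g v}).card ≤ ∏ v : V, (if v ∈ A then Q2 else 1) := by
          refine prod_le_prod' (fun v _ => ?_)
          by_cases hv : v ∈ A
          · simp only [hv, if_true]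
            have hv' := hv
            rw [hA, mem_image] at hv'
            obtain ⟨p, _, hp⟩ := hv'
            by_cases hgood : ∀ i, Q2 ≤ ((F i).image g).card
            · have h1 : (univ.filter fun c : Fin (2 * Q2) =>
                  (∀ i, Q2 ≤ ((F i).image g).card) ∧ ∀ p, x p = v → c ∉ (F p.1).image g)
                  ⊆ ((F p.1).image g)ᶜ := by
                intro c hc
                rw [mem_filter] at hc
                rw [mem_compl]
                exact hc.2.2 p hp
              refine (card_le_card h1).trans ?_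
              rw [card_compl, Fintype.card_fin]
              have := hgood p.1
              omega
            · have h1 : (univ.filter fun c : Fin (2 * Q2) =>
                  (∀ i, Q2 ≤ ((F i).image g).card) ∧ ∀ p, x p = v → c ∉ (F p.1).image g) = ∅ := by
                ext c
                simp only [mem_filter, mem_univ, true_and, notMem_empty, iff_false]
                exact fun h => hgood h.1
              rw [h1]; simp
          · simp only [hv, if_false, card_singleton, le_refl]
      _ = Q2 ^ A.card := by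
          rw [prod_ite, prod_const_one, mul_one, prod_const]
          congr 2
          ext v; simp
  have hcard : S.card ≤ Q2 ^ A.card * T.card :=
    card_le_mul_card_image_of_maps_to hmaps _ hfib
  have hAV : A.card ≤ Fintype.card V := card_le_univ A
  calc 2 ^ (Fintype.card ι * Fintype.card κ) * S.card
      ≤ 2 ^ A.card * (Q2 ^ A.card * T.card) := by
        rw [← hAc]; exact Nat.mul_le_mul_left _ hcard
    _ = (2 * Q2) ^ A.card * (2 * Q2) ^ (Fintype.card V - A.card) := by
        rw [hTc, mul_pow]; ring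
    _ = (2 * Q2) ^ Fintype.card V := by rw [← pow_add, Nat.add_sub_cancel' hAV]

/-- The set of names which are forbidden for cluster `i`: the members of the sets `Y u` with
`u ∉ D i`. -/
noncomputable def s2Fb {ι υ κ : Type} [Fintype υ] [Fintype κ] (y : υ × κ → V)
    (D : ι → Finset υ) (i : ι) : Finset V :=
  (univ.filter fun p : υ × κ => p.1 ∉ D i).image y

/-- One label: few functions are bad for a given structure. -/
theorem s2j_one {Q2 e : ℕ} {ι υ κ κ' : Type} [Fintype ι] [Fintype υ] [Fintype κ] [Fintype κ']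
    (x : ι × κ → V) (hx : Function.Injective x) (y : υ × κ' → V) (hy : Function.Injective y)
    (hxy : ∀ p q, x p ≠ y q) (D : ι → Finset υ) (hD : ∀ i, 2 * (D i).card ≤ Fintype.card υ)
    (hQ : 2 * Q2 + 2 * e ≤ (Fintype.card υ * Fintype.card κ' + 1) / 2)
    (hA : 2 * e ≤ Fintype.card ι * Fintype.card κ)
    (hι : Fintype.card ι + 1 ≤ 2 ^ e) :
    2 ^ e * (univ.filter fun f : V → Fin (2 * Q2) =>
      ∀ p, f (x p) ∉ (s2Fb y D p.1).image f).card ≤ (2 * Q2) ^ Fintype.card V := by
  classical
  set N := (2 * Q2) ^ Fintype.card V with hN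
  -- sizes of the forbidden sets
  have hFc : ∀ i, (Fintype.card υ * Fintype.card κ' + 1) / 2 ≤ (s2Fb y D i).card := by
    intro i
    unfold s2Fb
    rw [card_image_of_injective _ hy]
    have h1 : (univ.filter fun p : υ × κ' => p.1 ∉ D i) = (D i)ᶜ ×ˢ (univ : Finset κ') := by
      ext p; simp
    rw [h1, card_product, card_compl, card_univ]
    have h2 := hD i
    have h3 : Fintype.card υ ≤ 2 * (Fintype.card υ - (D i).card) := by omega
    have h4 : Fintype.card υ * Fintype.card κ' ≤ 2 * ((Fintype.card υ - (D i).card) *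
        Fintype.card κ') := by
      calc Fintype.card υ * Fintype.card κ' ≤ (2 * (Fintype.card υ - (D i).card)) *
          Fintype.card κ' := Nat.mul_le_mul_right _ h3
        _ = _ := by ring
    omega
  have hsub : (univ.filter fun f : V → Fin (2 * Q2) =>
      ∀ p, f (x p) ∉ (s2Fb y D p.1).image f) ⊆
      ((univ : Finset ι).biUnion fun i => univ.filter fun f : V → Fin (2 * Q2) =>
        ((s2Fb y D i).image f).card ≤ Q2) ∪
      (univ.filter fun f : V → Fin (2 * Q2) => (∀ i, Q2 ≤ ((s2Fb y D i).image f).card) ∧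
        ∀ p, f (x p) ∉ (s2Fb y D p.1).image f) := by
    intro f hf
    rw [mem_filter] at hf
    rw [mem_union]
    by_cases h : ∃ i, ((s2Fb y D i).image f).card ≤ Q2
    · obtain ⟨i, hi⟩ := h
      left
      rw [mem_biUnion]
      exact ⟨i, mem_univ _, mem_filter.mpr ⟨mem_univ _, hi⟩⟩
    · right
      rw [mem_filter]
      refine ⟨mem_univ _, fun i => ?_, hf.2⟩
      by_contra hc
      exact h ⟨i, by omega⟩
  have h1 : ∀ i : ι, 2 ^ (2 * e) * (univ.filter fun f : V → Fin (2 * Q2) =>
        ((s2Fb y D i).image f).card ≤ Q2).card ≤ N := by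
    intro i
    have h := s2j_count1 (Q2 := Q2) (s2Fb y D i)
    have h5 : 2 * Q2 + 2 * e ≤ (s2Fb y D i).card := hQ.trans (hFc i)
    have h6 : 2 ^ (2 * Q2) * (2 ^ (2 * e) * (univ.filter fun f : V → Fin (2 * Q2) =>
        ((s2Fb y D i).image f).card ≤ Q2).card) ≤ 2 ^ (2 * Q2) * N := by
      calc 2 ^ (2 * Q2) * (2 ^ (2 * e) * (univ.filter fun f : V → Fin (2 * Q2) =>
            ((s2Fb y D i).image f).card ≤ Q2).card)
          = 2 ^ (2 * Q2 + 2 * e) * (univ.filter fun f : V → Fin (2 * Q2) =>
            ((s2Fb y D i).image f).card ≤ Q2).card := by rw [pow_add]; ring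
        _ ≤ 2 ^ (s2Fb y D i).card * (univ.filter fun f : V → Fin (2 * Q2) =>
            ((s2Fb y D i).image f).card ≤ Q2).card :=
            Nat.mul_le_mul_right _ (Nat.pow_le_pow_right (by norm_num) h5)
        _ ≤ 2 ^ (2 * Q2) * N := h
    exact Nat.le_of_mul_le_mul_left h6 (by positivity)
  have hd : ∀ i p, x p ∉ s2Fb y D i := by
    intro i p hp
    unfold s2Fb at hp
    rw [mem_image] at hp
    obtain ⟨q, _, hq⟩ := hp
    exact hxy p q hq.symm
  have h2 := s2j_count2 (Q2 := Q2) x hx (fun i => s2Fb y D i) hd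
  have h2' : 2 ^ (2 * e) * (univ.filter fun f : V → Fin (2 * Q2) =>
      (∀ i, Q2 ≤ ((s2Fb y D i).image f).card) ∧
        ∀ p, f (x p) ∉ (s2Fb y D p.1).image f).card ≤ N :=
    le_trans (Nat.mul_le_mul_right _ (Nat.pow_le_pow_right (by norm_num) hA)) h2
  have h3 : 2 ^ (2 * e) * (univ.filter fun f : V → Fin (2 * Q2) =>
      ∀ p, f (x p) ∉ (s2Fb y D p.1).image f).card ≤ (Fintype.card ι + 1) * N := by
    calc 2 ^ (2 * e) * (univ.filter fun f : V → Fin (2 * Q2) =>
          ∀ p, f (x p) ∉ (s2Fb y D p.1).image f).card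
        ≤ 2 ^ (2 * e) * ((∑ i : ι, (univ.filter fun f : V → Fin (2 * Q2) =>
            ((s2Fb y D i).image f).card ≤ Q2).card) +
          (univ.filter fun f : V → Fin (2 * Q2) =>
            (∀ i, Q2 ≤ ((s2Fb y D i).image f).card) ∧
            ∀ p, f (x p) ∉ (s2Fb y D p.1).image f).card) := by
          refine Nat.mul_le_mul_left _ ?_
          refine (card_le_card hsub).trans ((card_union_le _ _).trans ?_)
          exact Nat.add_le_add_right card_biUnion_le _
      _ = (∑ i : ι, 2 ^ (2 * e) * (univ.filter fun f : V → Fin (2 * Q2) =>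
            ((s2Fb y D i).image f).card ≤ Q2).card) +
          2 ^ (2 * e) * (univ.filter fun f : V → Fin (2 * Q2) =>
            (∀ i, Q2 ≤ ((s2Fb y D i).image f).card) ∧
            ∀ p, f (x p) ∉ (s2Fb y D p.1).image f).card := by rw [mul_add, mul_sum]
      _ ≤ (∑ _i : ι, N) + N := Nat.add_le_add (sum_le_sum fun i _ => h1 i) h2'
      _ = (Fintype.card ι + 1) * N := by rw [sum_const, card_univ, smul_eq_mul]; ring
  have h4 : 2 ^ e * (2 ^ e * (univ.filter fun f : V → Fin (2 * Q2) =>
      ∀ p, f (x p) ∉ (s2Fb y D p.1).image f).card) ≤ 2 ^ e * N := by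
    calc 2 ^ e * (2 ^ e * (univ.filter fun f : V → Fin (2 * Q2) =>
          ∀ p, f (x p) ∉ (s2Fb y D p.1).image f).card)
        = 2 ^ (2 * e) * (univ.filter fun f : V → Fin (2 * Q2) =>
          ∀ p, f (x p) ∉ (s2Fb y D p.1).image f).card := by
          rw [show 2 ^ (2 * e) = 2 ^ e * 2 ^ e from by rw [← pow_add]; congr 1; ring]; ring
      _ ≤ (Fintype.card ι + 1) * N := h3
      _ ≤ 2 ^ e * N := Nat.mul_le_mul_right _ hι
  exact Nat.le_of_mul_le_mul_left h4 (by positivity)

/-- A configuration which `JOIN*` forbids: `j1` clusters of `hx` names, `J2` groups of `hy` names,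
all disjoint, such that no member of a cluster has a common label with a member of a group which is
not excused. -/
def S2Bad {Rn Q : ℕ} (j1 J2 hx hy : ℕ) (g : Fin Rn → V → Fin Q) : Prop :=
  ∃ (x : Fin j1 × Fin hx → V) (y : Fin J2 × Fin hy → V) (D : Fin j1 → Finset (Fin J2)),
    Function.Injective x ∧ Function.Injective y ∧ (∀ p q, x p ≠ y q) ∧
    (∀ i, 2 * (D i).card ≤ J2) ∧
    ∀ p : Fin j1 × Fin hx, ∀ q : Fin J2 × Fin hy, q.1 ∉ D p.1 → ∀ r, g r (x p) ≠ g r (y q)

/-- `JOIN*`: few tables of labels are bad. -/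
theorem s2j_join {Rn Q2 j1 J2 hx hy e ν k : ℕ} (hV : Fintype.card V ≤ 2 ^ ν)
    (hQ : 2 * Q2 + 2 * e ≤ (J2 * hy + 1) / 2) (hA : 2 * e ≤ j1 * hx) (hj : j1 + 1 ≤ 2 ^ e)
    (hbits : ν * (j1 * hx + J2 * hy) + j1 * J2 + k ≤ e * Rn) :
    2 ^ k * (univ.filter fun g : Fin Rn → V → Fin (2 * Q2) => S2Bad j1 J2 hx hy g).card
      ≤ ((2 * Q2) ^ Fintype.card V) ^ Rn := by
  classical
  set N := (2 * Q2) ^ Fintype.card V with hN
  -- the structures
  set St : Finset ((Fin j1 × Fin hx → V) × (Fin J2 × Fin hy → V) × (Fin j1 → Finset (Fin J2))) :=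
    univ.filter fun s => Function.Injective s.1 ∧ Function.Injective s.2.1 ∧
      (∀ p q, s.1 p ≠ s.2.1 q) ∧ (∀ i, 2 * (s.2.2 i).card ≤ J2) with hSt
  have hStc : St.card ≤ 2 ^ (ν * (j1 * hx + J2 * hy) + j1 * J2) := by
    refine (card_le_univ _).trans ?_
    rw [Fintype.card_prod, Fintype.card_prod]
    simp only [Fintype.card_fun, Fintype.card_prod, Fintype.card_fin, Fintype.card_finset]
    calc Fintype.card V ^ (j1 * hx) * (Fintype.card V ^ (J2 * hy) * (2 ^ J2) ^ j1)
        ≤ (2 ^ ν) ^ (j1 * hx) * ((2 ^ ν) ^ (J2 * hy) * (2 ^ J2) ^ j1) := by gcongr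
      _ = 2 ^ (ν * (j1 * hx + J2 * hy) + j1 * J2) := by
          rw [← pow_mul, ← pow_mul, ← pow_mul, ← pow_add, ← pow_add]
          congr 1; ring
  set B : ((Fin j1 × Fin hx → V) × (Fin J2 × Fin hy → V) × (Fin j1 → Finset (Fin J2))) →
      Finset (V → Fin (2 * Q2)) := fun s => univ.filter fun f : V → Fin (2 * Q2) =>
        ∀ p, f (s.1 p) ∉ (s2Fb s.2.1 s.2.2 p.1).image f with hB
  have hBc : ∀ s ∈ St, 2 ^ e * (B s).card ≤ N := by
    intro s hs
    rw [hSt, mem_filter] at hs
    obtain ⟨_, h1, h2, h3, h4⟩ := hs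
    refine s2j_one (e := e) s.1 h1 s.2.1 h2 h3 s.2.2 ?_ ?_ ?_ ?_
    · intro i; rw [Fintype.card_fin]; exact h4 i
    · rw [Fintype.card_fin, Fintype.card_fin]; exact hQ
    · rw [Fintype.card_fin, Fintype.card_fin]; exact hA
    · rw [Fintype.card_fin]; exact hj
  have hsub : (univ.filter fun g : Fin Rn → V → Fin (2 * Q2) => S2Bad j1 J2 hx hy g) ⊆
      St.biUnion fun s => Fintype.piFinset fun _ : Fin Rn => B s := by
    intro g hg
    rw [mem_filter] at hg
    obtain ⟨_, x, y, D, h1, h2, h3, h4, h5⟩ := hg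
    rw [mem_biUnion]
    refine ⟨(x, y, D), ?_, ?_⟩
    · rw [hSt, mem_filter]
      exact ⟨mem_univ _, h1, h2, h3, h4⟩
    · rw [Fintype.mem_piFinset]
      intro r
      rw [hB]
      simp only [mem_filter, mem_univ, true_and]
      intro p hp
      rw [mem_image] at hp
      obtain ⟨v, hv, hv2⟩ := hp
      unfold s2Fb at hv
      rw [mem_image] at hv
      obtain ⟨q, hq, rfl⟩ := hv
      exact h5 p q (by simpa using hq) r hv2.symm
  have h1 : (univ.filter fun g : Fin Rn → V → Fin (2 * Q2) => S2Bad j1 J2 hx hy g).card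
      ≤ ∑ s ∈ St, (B s).card ^ Rn := by
    refine (card_le_card hsub).trans (card_biUnion_le.trans ?_)
    refine sum_le_sum fun s _ => ?_
    rw [Fintype.card_piFinset, prod_const, card_univ, Fintype.card_fin]
  have h2 : 2 ^ (e * Rn) * ∑ s ∈ St, (B s).card ^ Rn ≤
      2 ^ (ν * (j1 * hx + J2 * hy) + j1 * J2) * N ^ Rn := by
    rw [mul_sum]
    calc ∑ s ∈ St, 2 ^ (e * Rn) * (B s).card ^ Rn ≤ ∑ _s ∈ St, N ^ Rn := by
          refine sum_le_sum fun s hs => ?_
          rw [pow_mul, ← mul_pow]
          exact Nat.pow_le_pow_left (hBc s hs) Rn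
      _ = St.card * N ^ Rn := by rw [sum_const, smul_eq_mul]
      _ ≤ _ := Nat.mul_le_mul_right _ hStc
  set c := (univ.filter fun g : Fin Rn → V → Fin (2 * Q2) => S2Bad j1 J2 hx hy g).card
  set b := ν * (j1 * hx + J2 * hy) + j1 * J2 with hb
  have h3 : 2 ^ b * (2 ^ k * c) ≤ 2 ^ b * N ^ Rn := by
    calc 2 ^ b * (2 ^ k * c) = 2 ^ (b + k) * c := by rw [pow_add]; ring
      _ ≤ 2 ^ (e * Rn) * c := Nat.mul_le_mul_right _ (Nat.pow_le_pow_right (by norm_num) hbits)
      _ ≤ 2 ^ (e * Rn) * ∑ s ∈ St, (B s).card ^ Rn := Nat.mul_le_mul_left _ h1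
      _ ≤ _ := h2
  exact Nat.le_of_mul_le_mul_left h3 (by positivity)

end Pool.Agent.X217
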