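import Pool.Agent.X217.St1

set_option autoImplicit false

/-!
# Tick labels (MP_217fdb_lc, exact order): all sets of a range of sizes
-/

namespace Pool.Agent.X217

open Finset

open Classical in
/-- All sets `U` with `M ≤ U.card ≤ u`. -/
theorem st_loss_all (K n A R' a y u M z : ℕ) (hK : 1 ≤ K) (hM : 1 ≤ M) (haA : a ≤ A)
    (hu : 3 * K * u * 2 ^ y ≤ 2 ^ a) (hz : 3 * n ≤ M * 2 ^ z) (hy : z + 5 ≤ y * R') :
    16 * ((univ : Finset (Fin (K * R') → Fin n → Fin (2 ^ A))).filter fun g =>
      ∃ U : Finset (Fin n), M ≤ U.card ∧ U.card ≤ u ∧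
        K * ∑ r, (U.image fun x => (g r x).val % 2 ^ a).card < (K - 1) * (K * R' * U.card)).card ≤
      (2 ^ A) ^ (K * R' * n) := by
  set X : ℕ := (2 ^ A) ^ (K * R' * n) with hX
  let Bad : Finset (Fin n) → Finset (Fin (K * R') → Fin n → Fin (2 ^ A)) := fun U =>
    univ.filter fun g =>
      K * ∑ r, (U.image fun x => (g r x).val % 2 ^ a).card < (K - 1) * (K * R' * U.card)
  let S : ℕ → Finset (Finset (Fin n)) := fun v =>
    if M ≤ v + 1 ∧ v + 1 ≤ u then powersetCard (v + 1) univ else ∅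
  have hcov : ((univ : Finset (Fin (K * R') → Fin n → Fin (2 ^ A))).filter fun g =>
      ∃ U : Finset (Fin n), M ≤ U.card ∧ U.card ≤ u ∧
        K * ∑ r, (U.image fun x => (g r x).val % 2 ^ a).card < (K - 1) * (K * R' * U.card)) ⊆
      (range n).biUnion fun v => (S v).biUnion Bad := by
    intro g hg
    rw [mem_filter] at hg
    obtain ⟨-, U, hUM, hUu, hU⟩ := hg
    have hUn : U.card ≤ n := by
      have := card_le_univ U
      rwa [Fintype.card_fin] at this
    obtain ⟨v, hv⟩ : ∃ v, U.card = v + 1 := ⟨U.card - 1, by omega⟩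
    rw [mem_biUnion]
    refine ⟨v, mem_range.2 (by omega), ?_⟩
    rw [mem_biUnion]
    refine ⟨U, ?_, ?_⟩
    · have h1 : M ≤ v + 1 ∧ v + 1 ≤ u := by omega
      simp only [S, if_pos h1]
      exact mem_powersetCard.2 ⟨subset_univ _, hv⟩
    · simp only [Bad, mem_filter, mem_univ, true_and]
      exact hU
  have hbad : ∀ v, (((S v).biUnion Bad).card : ℝ) ≤ X * ((1 / 16) * (1 / 2 : ℝ) ^ (v + 1)) := by
    intro v
    by_cases hv : M ≤ v + 1 ∧ v + 1 ≤ u
    · have hS : S v = powersetCard (v + 1) univ := by simp only [S, if_pos hv]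
      have h1 : ∀ U ∈ S v, (Bad U).card * 2 ^ (y * (R' * (v + 1))) ≤ X := by
        intro U hU
        rw [hS, mem_powersetCard] at hU
        have hUa : 3 * K * U.card * 2 ^ y ≤ 2 ^ a :=
          (Nat.mul_le_mul_right _ (Nat.mul_le_mul_left _ (by omega))).trans hu
        have := st_loss_one K n A R' a y hK haA U hUa
        rw [hU.2] at this
        simpa only [Bad, hU.2] using this
      have h2 : ((S v).biUnion Bad).card * 2 ^ (y * (R' * (v + 1))) ≤ n.choose (v + 1) * X := by
        calc ((S v).biUnion Bad).card * 2 ^ (y * (R' * (v + 1)))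
            ≤ (∑ U ∈ S v, (Bad U).card) * 2 ^ (y * (R' * (v + 1))) :=
              Nat.mul_le_mul_right _ card_biUnion_le
          _ = ∑ U ∈ S v, (Bad U).card * 2 ^ (y * (R' * (v + 1))) := by rw [sum_mul]
          _ ≤ ∑ _U ∈ S v, X := sum_le_sum h1
          _ = n.choose (v + 1) * X := by
              rw [sum_const, smul_eq_mul, hS, card_powersetCard, card_univ, Fintype.card_fin]
      have h3 : n.choose (v + 1) ≤ 2 ^ (z * (v + 1)) := by
        have h4 := st_choose_ge (n := n) hv.1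
        have h5 : (3 * n) ^ (v + 1) ≤ M ^ (v + 1) * 2 ^ (z * (v + 1)) := by
          rw [pow_mul, ← mul_pow]
          exact Nat.pow_le_pow_left hz _
        have h6 : 0 < M ^ (v + 1) := by positivity
        have h7 : M ^ (v + 1) * n.choose (v + 1) ≤ M ^ (v + 1) * 2 ^ (z * (v + 1)) := by
          calc M ^ (v + 1) * n.choose (v + 1) = n.choose (v + 1) * M ^ (v + 1) := Nat.mul_comm _ _
            _ ≤ _ := h4.trans h5
        exact Nat.le_of_mul_le_mul_left h7 h6
      have h8 : ((S v).biUnion Bad).card * 2 ^ (5 * (v + 1)) ≤ X := by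
        have h9 : 2 ^ (z * (v + 1)) * (((S v).biUnion Bad).card * 2 ^ (5 * (v + 1))) ≤
            2 ^ (z * (v + 1)) * X := by
          calc 2 ^ (z * (v + 1)) * (((S v).biUnion Bad).card * 2 ^ (5 * (v + 1)))
              = ((S v).biUnion Bad).card * 2 ^ ((z + 5) * (v + 1)) := by
                rw [show (z + 5) * (v + 1) = z * (v + 1) + 5 * (v + 1) by ring, pow_add]; ring
            _ ≤ ((S v).biUnion Bad).card * 2 ^ (y * (R' * (v + 1))) := by
                refine Nat.mul_le_mul_left _ (Nat.pow_le_pow_right (by norm_num) ?_)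
                rw [← mul_assoc]
                exact Nat.mul_le_mul_right _ hy
            _ ≤ n.choose (v + 1) * X := h2
            _ ≤ 2 ^ (z * (v + 1)) * X := Nat.mul_le_mul_right _ h3
        exact Nat.le_of_mul_le_mul_left h9 (by positivity)
      have h10 : (((S v).biUnion Bad).card : ℝ) * 2 ^ (5 * (v + 1)) ≤ X := by exact_mod_cast h8
      have h11 : (1 : ℝ) ≤ 2 ^ (5 * (v + 1)) * ((1 / 16) * (1 / 2 : ℝ) ^ (v + 1)) := by
        have h12 : (2 : ℝ) ^ (5 * (v + 1)) = 2 ^ (v + 1) * 16 * 16 ^ v := by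
          rw [show 5 * (v + 1) = (v + 1) + 4 * (v + 1) by ring, pow_add, pow_mul]
          norm_num
          rw [pow_succ 16 v]
          ring
        rw [h12]
        have h13 : (2 : ℝ) ^ (v + 1) * (1 / 2) ^ (v + 1) = 1 := by
          rw [← mul_pow]; norm_num
        calc (1 : ℝ) ≤ 16 ^ v := one_le_pow₀ (by norm_num)
          _ = (2 ^ (v + 1) * (1 / 2) ^ (v + 1)) * 16 ^ v := by rw [h13, one_mul]
          _ = _ := by ring
      calc (((S v).biUnion Bad).card : ℝ) ≤ ((S v).biUnion Bad).card *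
            (2 ^ (5 * (v + 1)) * ((1 / 16) * (1 / 2 : ℝ) ^ (v + 1))) :=
            le_mul_of_one_le_right (Nat.cast_nonneg _) h11
        _ = (((S v).biUnion Bad).card * 2 ^ (5 * (v + 1))) * ((1 / 16) * (1 / 2 : ℝ) ^ (v + 1)) := by
            ring
        _ ≤ X * ((1 / 16) * (1 / 2 : ℝ) ^ (v + 1)) := mul_le_mul_of_nonneg_right h10 (by positivity)
    · have hS : S v = ∅ := by simp only [S, if_neg hv]
      rw [hS, biUnion_empty, card_empty, Nat.cast_zero]
      have : (0 : ℝ) ≤ X := Nat.cast_nonneg _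
      positivity
  have hsum : (∑ v ∈ range n, (1 / 2 : ℝ) ^ (v + 1)) ≤ 1 := by
    have h1 : (∑ v ∈ range n, (1 / 2 : ℝ) ^ (v + 1)) = (1 / 2) * ∑ v ∈ range n, (1 / 2 : ℝ) ^ v := by
      rw [mul_sum]
      exact sum_congr rfl fun v _ => by rw [pow_succ]; ring
    rw [h1]
    have := sum_geometric_two_le n
    linarith
  have hfin : ((((univ : Finset (Fin (K * R') → Fin n → Fin (2 ^ A))).filter fun g =>
      ∃ U : Finset (Fin n), M ≤ U.card ∧ U.card ≤ u ∧
        K * ∑ r, (U.image fun x => (g r x).val % 2 ^ a).card < (K - 1) * (K * R' * U.card)).card : ℕ)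
        : ℝ) ≤ X * (1 / 16) := by
    calc _ ≤ ((∑ v ∈ range n, ((S v).biUnion Bad).card : ℕ) : ℝ) := by
          exact_mod_cast (card_le_card hcov).trans card_biUnion_le
      _ = ∑ v ∈ range n, (((S v).biUnion Bad).card : ℝ) := by push_cast; rfl
      _ ≤ ∑ v ∈ range n, X * ((1 / 16) * (1 / 2 : ℝ) ^ (v + 1)) := sum_le_sum fun v _ => hbad v
      _ = X * (1 / 16) * ∑ v ∈ range n, (1 / 2 : ℝ) ^ (v + 1) := by
          rw [mul_sum]
          exact sum_congr rfl fun v _ => by ring
      _ ≤ X * (1 / 16) * 1 := mul_le_mul_of_nonneg_left hsum (by positivity)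
      _ = X * (1 / 16) := mul_one _
  have : (16 : ℝ) * ((((univ : Finset (Fin (K * R') → Fin n → Fin (2 ^ A))).filter fun g =>
      ∃ U : Finset (Fin n), M ≤ U.card ∧ U.card ≤ u ∧
        K * ∑ r, (U.image fun x => (g r x).val % 2 ^ a).card < (K - 1) * (K * R' * U.card)).card : ℕ)
        : ℝ) ≤ X := by linarith
  exact_mod_cast this

end Pool.Agent.X217
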