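import Pool.Agent.X217.St1

set_option autoImplicit false

/-!
# Tick labels (MP_217fdb_lc, exact order): the cells are small
-/

namespace Pool.Agent.X217

open Finset

/-- Prescribed values. -/
theorem st_val_count {ι : Type*} [Fintype ι] [DecidableEq ι] (M : ℕ) (C : Finset ι) (c : Fin M) :
    ((univ : Finset (ι → Fin M)).filter fun f => ∀ i ∈ C, f i = c).card * M ^ C.card ≤
      M ^ Fintype.card ι := by
  set F := ((univ : Finset (ι → Fin M)).filter fun f => ∀ i ∈ C, f i = c) with hF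
  have hc1 : (F ×ˢ (univ : Finset ({x // x ∈ C} → Fin M))).card = F.card * M ^ C.card := by
    rw [card_product, card_univ, Fintype.card_fun, Fintype.card_fin, Fintype.card_coe]
  have hc2 : (univ : Finset (ι → Fin M)).card = M ^ Fintype.card ι := by
    rw [card_univ, Fintype.card_fun, Fintype.card_fin]
  rw [← hc1, ← hc2]
  refine card_le_card_of_injOn
    (fun x : (ι → Fin M) × ({x // x ∈ C} → Fin M) => fun i =>
      if h : i ∈ C then x.2 ⟨i, h⟩ else x.1 i) (fun _ _ => mem_coe.mpr (mem_univ _)) ?_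
  rintro ⟨f, z⟩ hx ⟨f', z'⟩ hx' heq
  have hf := (mem_filter.mp (mem_product.mp (mem_coe.mp hx)).1).2
  have hf' := (mem_filter.mp (mem_product.mp (mem_coe.mp hx')).1).2
  refine Prod.ext ?_ ?_
  · funext i
    by_cases hi : i ∈ C
    · exact (hf i hi).trans (hf' i hi).symm
    · have := congrFun heq i
      simpa [hi] using this
  · funext i
    have := congrFun heq i.1
    simpa [i.2] using this

open Classical in
/-- One cell. -/
theorem st_cell_one (n A R w : ℕ) (r : Fin R) (c : Fin (2 ^ A)) :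
    ((univ : Finset (Fin R → Fin n → Fin (2 ^ A))).filter fun g =>
      w ≤ (univ.filter fun x => g r x = c).card).card * (2 ^ A) ^ w ≤
      n.choose w * (2 ^ A) ^ (R * n) := by
  set X : ℕ := (2 ^ A) ^ (R * n) with hX
  let Bad : Finset (Fin n) → Finset (Fin R → Fin n → Fin (2 ^ A)) := fun U =>
    univ.filter fun g => ∀ x ∈ U, g r x = c
  have hcov : ((univ : Finset (Fin R → Fin n → Fin (2 ^ A))).filter fun g =>
      w ≤ (univ.filter fun x => g r x = c).card) ⊆ (powersetCard w univ).biUnion Bad := by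
    intro g hg
    rw [mem_filter] at hg
    obtain ⟨U, hU, hUc⟩ := exists_subset_card_eq hg.2
    rw [mem_biUnion]
    refine ⟨U, mem_powersetCard.2 ⟨subset_univ _, hUc⟩, ?_⟩
    simp only [Bad, mem_filter, mem_univ, true_and]
    intro x hx
    exact (mem_filter.1 (hU hx)).2
  have hb : ∀ U ∈ powersetCard w (univ : Finset (Fin n)), (Bad U).card * (2 ^ A) ^ w ≤ X := by
    intro U hU
    rw [mem_powersetCard] at hU
    have h1 := st_val_count (ι := Fin R × Fin n) (2 ^ A) (U.map ⟨fun x => (r, x), fun x y h => by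
      simpa using h⟩) c
    rw [card_map, hU.2, Fintype.card_prod, Fintype.card_fin, Fintype.card_fin] at h1
    refine le_trans (Nat.mul_le_mul_right _ ?_) h1
    refine card_le_card_of_injOn (fun g => Function.uncurry g) ?_ ?_
    · intro g hg
      have hg' := (mem_filter.mp (mem_coe.mp hg)).2
      refine mem_coe.mpr (mem_filter.mpr ⟨mem_univ _, ?_⟩)
      intro i hi
      rw [mem_map] at hi
      obtain ⟨x, hx, rfl⟩ := hi
      exact hg' x hx
    · intro g _ g' _ heq
      funext r y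
      exact congrFun heq (r, y)
  calc _ ≤ (∑ U ∈ powersetCard w (univ : Finset (Fin n)), (Bad U).card) * (2 ^ A) ^ w :=
        Nat.mul_le_mul_right _ ((card_le_card hcov).trans card_biUnion_le)
    _ = ∑ U ∈ powersetCard w (univ : Finset (Fin n)), (Bad U).card * (2 ^ A) ^ w := by rw [sum_mul]
    _ ≤ ∑ _U ∈ powersetCard w (univ : Finset (Fin n)), X := sum_le_sum hb
    _ = n.choose w * X := by
        rw [sum_const, smul_eq_mul, card_powersetCard, card_univ, Fintype.card_fin]

open Classical in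
/-- All cells. -/
theorem st_cell_all (n A R w : ℕ) (hn : 8 * n ≤ w * 2 ^ A) (hw : 16 * (R * 2 ^ A) ≤ 2 ^ w) :
    16 * ((univ : Finset (Fin R → Fin n → Fin (2 ^ A))).filter fun g =>
      ∃ r c, w ≤ (univ.filter fun x => g r x = c).card).card ≤ (2 ^ A) ^ (R * n) := by
  set X : ℕ := (2 ^ A) ^ (R * n) with hX
  let Bad : Fin R × Fin (2 ^ A) → Finset (Fin R → Fin n → Fin (2 ^ A)) := fun q =>
    univ.filter fun g => w ≤ (univ.filter fun x => g q.1 x = q.2).card
  have hcov : ((univ : Finset (Fin R → Fin n → Fin (2 ^ A))).filter fun g =>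
      ∃ r c, w ≤ (univ.filter fun x => g r x = c).card) ⊆ univ.biUnion Bad := by
    intro g hg
    rw [mem_filter] at hg
    obtain ⟨-, r, c, h⟩ := hg
    rw [mem_biUnion]
    exact ⟨(r, c), mem_univ _, mem_filter.2 ⟨mem_univ _, h⟩⟩
  have hch : n.choose w * 2 ^ w ≤ (2 ^ A) ^ w := by
    rcases Nat.eq_zero_or_pos w with hw0 | hw0
    · subst hw0; simp
    have h1 := st_choose_ge (n := n) (le_refl w)
    have h2 : w ^ w * (n.choose w * 8 ^ w) ≤ w ^ w * (3 ^ w * (2 ^ A) ^ w) := by
      calc w ^ w * (n.choose w * 8 ^ w) = (n.choose w * w ^ w) * 8 ^ w := by ring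
        _ ≤ (3 * n) ^ w * 8 ^ w := Nat.mul_le_mul_right _ h1
        _ = 3 ^ w * (8 * n) ^ w := by rw [mul_pow, mul_pow]; ring
        _ ≤ 3 ^ w * (w * 2 ^ A) ^ w := Nat.mul_le_mul_left _ (Nat.pow_le_pow_left hn _)
        _ = w ^ w * (3 ^ w * (2 ^ A) ^ w) := by rw [mul_pow]; ring
    have h3 : n.choose w * 8 ^ w ≤ 3 ^ w * (2 ^ A) ^ w :=
      Nat.le_of_mul_le_mul_left h2 (by positivity)
    have h4 : 4 ^ w * (n.choose w * 2 ^ w) ≤ 4 ^ w * (2 ^ A) ^ w := by
      calc 4 ^ w * (n.choose w * 2 ^ w) = n.choose w * 8 ^ w := by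
            rw [show (8 : ℕ) = 4 * 2 by norm_num, mul_pow]; ring
        _ ≤ 3 ^ w * (2 ^ A) ^ w := h3
        _ ≤ 4 ^ w * (2 ^ A) ^ w := Nat.mul_le_mul_right _ (Nat.pow_le_pow_left (by norm_num) _)
    exact Nat.le_of_mul_le_mul_left h4 (by positivity)
  have hb : ∀ q, (Bad q).card * 2 ^ w ≤ X := by
    intro q
    have h1 := st_cell_one n A R w q.1 q.2
    have h2 : (2 ^ A) ^ w * ((Bad q).card * 2 ^ w) ≤ (2 ^ A) ^ w * X := by
      calc (2 ^ A) ^ w * ((Bad q).card * 2 ^ w) = ((Bad q).card * (2 ^ A) ^ w) * 2 ^ w := by ring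
        _ ≤ (n.choose w * X) * 2 ^ w := Nat.mul_le_mul_right _ h1
        _ = (n.choose w * 2 ^ w) * X := by ring
        _ ≤ (2 ^ A) ^ w * X := Nat.mul_le_mul_right _ hch
    exact Nat.le_of_mul_le_mul_left h2 (by positivity)
  have hsum : (∑ q, (Bad q).card) * 2 ^ w ≤ R * 2 ^ A * X := by
    calc (∑ q, (Bad q).card) * 2 ^ w = ∑ q, (Bad q).card * 2 ^ w := by rw [sum_mul]
      _ ≤ ∑ _q : Fin R × Fin (2 ^ A), X := sum_le_sum fun q _ => hb q
      _ = R * 2 ^ A * X := by
          rw [sum_const, card_univ, Fintype.card_prod, Fintype.card_fin, Fintype.card_fin,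
            smul_eq_mul]
  have hfin : 16 * (∑ q, (Bad q).card) ≤ X := by
    have h1 : (16 * ∑ q, (Bad q).card) * 2 ^ w ≤ X * 2 ^ w := by
      calc (16 * ∑ q, (Bad q).card) * 2 ^ w = 16 * ((∑ q, (Bad q).card) * 2 ^ w) := by ring
        _ ≤ 16 * (R * 2 ^ A * X) := Nat.mul_le_mul_left _ hsum
        _ = 16 * (R * 2 ^ A) * X := by ring
        _ ≤ 2 ^ w * X := Nat.mul_le_mul_right _ hw
        _ = X * 2 ^ w := Nat.mul_comm _ _
    exact Nat.le_of_mul_le_mul_right h1 (by positivity)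
  exact (Nat.mul_le_mul_left _ ((card_le_card hcov).trans card_biUnion_le)).trans hfin

end Pool.Agent.X217
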