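import Pool.Agent.X217.St2
import Pool.Agent.X217.St3
import Pool.Agent.MP217Area.LabAll

set_option autoImplicit false

/-!
# Tick labels (MP_217fdb_lc, exact order): existence
-/

namespace Pool.Agent.X217

open Finset

open Classical in
/-- The combination of `loss_all`, `st_loss_all` and `st_cell_all`, with `16 * R1 = K * R2`
labels, blocks `mod 2 ^ a` and cells in `Fin (2 ^ A)`. -/
theorem st_exists (n L K R1 R2 a A y1 y2 u1 u2 M z w : ℕ) (hR : 16 * R1 = K * R2) (hK : 1 ≤ K)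
    (hM : 1 ≤ M) (haA : a ≤ A) (hn : n < 2 ^ (L + 1))
    (hu1 : 44 * u1 * 2 ^ y1 ≤ 2 ^ a) (hy1 : L + 5 ≤ y1 * R1)
    (hu2 : 3 * K * u2 * 2 ^ y2 ≤ 2 ^ A) (hz : 3 * n ≤ M * 2 ^ z) (hy2 : z + 5 ≤ y2 * R2)
    (hw : 8 * n ≤ w * 2 ^ A) (hw2 : 16 * (K * R2 * 2 ^ A) ≤ 2 ^ w) :
    ∃ g : Fin (K * R2) → Fin n → Fin (2 ^ A),
      (∀ r c, (univ.filter fun x => g r x = c).card < w) ∧
      (∀ U : Finset (Fin n), U.card ≤ u1 →
        15 * (K * R2 * U.card) ≤ 16 * ∑ r, (U.image fun x => (g r x).val % 2 ^ a).card) ∧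
      ∀ U : Finset (Fin n), M ≤ U.card → U.card ≤ u2 →
        (K - 1) * (K * R2 * U.card) ≤ K * ∑ r, (U.image fun x => g r x).card := by
  set T : ℕ := (2 ^ A) ^ (K * R2 * n) with hT
  have hTc : (univ : Finset (Fin (K * R2) → Fin n → Fin (2 ^ A))).card = T := by
    rw [card_univ, Fintype.card_fun, Fintype.card_fun, Fintype.card_fin, Fintype.card_fin,
      Fintype.card_fin, ← pow_mul, Nat.mul_comm n, hT]
  have hT0 : 0 < T := by positivity
  set B1 := (univ : Finset (Fin (K * R2) → Fin n → Fin (2 ^ A))).filter fun g =>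
    ∃ r c, w ≤ (univ.filter fun x => g r x = c).card with hB1
  set B2 := (univ : Finset (Fin (K * R2) → Fin n → Fin (2 ^ A))).filter fun g =>
    ∃ U : Finset (Fin n), U.card ≤ u1 ∧
      16 * ∑ r, (U.image fun x => (g r x).val % 2 ^ a).card < 15 * (K * R2 * U.card) with hB2
  set B3 := (univ : Finset (Fin (K * R2) → Fin n → Fin (2 ^ A))).filter fun g =>
    ∃ U : Finset (Fin n), M ≤ U.card ∧ U.card ≤ u2 ∧
      K * ∑ r, (U.image fun x => (g r x).val % 2 ^ A).card < (K - 1) * (K * R2 * U.card) with hB3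
  have h1 : 16 * B1.card ≤ T := st_cell_all n A (K * R2) w hw hw2
  have h2 : 8 * B2.card ≤ T := by
    have h := Pool.Agent.A217.loss_all n A R1 a y1 u1 L haA hn hu1 hy1
    rw [hR] at h
    exact h
  have h3 : 16 * B3.card ≤ T :=
    st_loss_all K n A R2 A y2 u2 M z hK hM le_rfl hu2 hz hy2
  have hex : ∃ g, g ∉ B1 ∪ B2 ∪ B3 := by
    by_contra hcon
    push Not at hcon
    have h4 : T ≤ (B1 ∪ B2 ∪ B3).card := by
      rw [← hTc]
      exact card_le_card fun g _ => hcon g
    have h5 : (B1 ∪ B2 ∪ B3).card ≤ B1.card + B2.card + B3.card :=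
      (card_union_le _ _).trans (Nat.add_le_add_right (card_union_le _ _) _)
    omega
  obtain ⟨g, hg⟩ := hex
  simp only [mem_union, not_or] at hg
  refine ⟨g, ?_, ?_, ?_⟩
  · intro r c
    by_contra hlt
    exact hg.1.1 (mem_filter.2 ⟨mem_univ _, r, c, not_lt.1 hlt⟩)
  · intro U hU
    by_contra hlt
    exact hg.1.2 (mem_filter.2 ⟨mem_univ _, U, hU, not_le.1 hlt⟩)
  · intro U hU1 hU2
    by_contra hlt
    refine hg.2 (mem_filter.2 ⟨mem_univ _, U, hU1, hU2, ?_⟩)
    have h4 : ∀ r, (U.image fun x => (g r x).val % 2 ^ A).card = (U.image fun x => g r x).card := by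
      intro r
      have h5 : (U.image fun x => (g r x).val % 2 ^ A) = (U.image fun x => g r x).image Fin.val := by
        rw [image_image]
        refine image_congr fun x _ => ?_
        exact Nat.mod_eq_of_lt (g r x).isLt
      rw [h5, card_image_of_injective _ Fin.val_injective]
    rw [sum_congr rfl fun r _ => h4 r]
    exact not_le.1 hlt

end Pool.Agent.X217
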