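import Pool.Agent.X217.St4

set_option autoImplicit false

/-!
# Tick labels (MP_217fdb_lc, exact order): the numbers of the middle levels

Level `l`, `16 ≤ l`, `l + 30 log (L + 1) ≤ L`, `D = 2 ^ q`.
-/

namespace Pool.Agent.X217

open Finset

/-- There are `2 ^ stA l` blocks. -/
def stA (l : ℕ) : ℕ := l + 20 - Nat.log 2 l

/-- There are `2 ^ stLam L l` classes in a block. -/
def stLam (L l : ℕ) : ℕ := (L - l) / 3

/-- A cell has less than `2 ^ stWe L l` names. -/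
def stWe (L l : ℕ) : ℕ := L + 4 - (stA l + stLam L l)

/-- A number of labels, before the factor `64 D`. -/
def stR0 (L l : ℕ) : ℕ := (L + 5) / l + 20

/-- The number of labels. -/
def stR (q L l : ℕ) : ℕ := 2 ^ (q + 6) * stR0 L l

theorem st_log_le {l : ℕ} (hl : 16 ≤ l) : Nat.log 2 l ≤ l / 4 := by
  have h1 : l < 2 ^ (l / 4 + 1) := by
    obtain ⟨m, hm⟩ : ∃ m, l / 4 = m + 4 := ⟨l / 4 - 4, by omega⟩
    have h2 : l < 4 * (m + 5) := by omega
    rw [hm]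
    have h3 : ∀ k : ℕ, 4 * (k + 5) ≤ 2 ^ (k + 4 + 1) := by
      intro k
      induction k with
      | zero => norm_num
      | succ k ih =>
        have : 2 ^ (k + 1 + 4 + 1) = 2 * 2 ^ (k + 4 + 1) := by
          rw [show k + 1 + 4 + 1 = (k + 4 + 1) + 1 by ring, pow_succ]; ring
        omega
    exact h2.trans_le (h3 m)
  have h2 : Nat.log 2 l < l / 4 + 1 := Nat.log_lt_of_lt_pow (by omega) h1
  omega

/-- The facts about the exponents. -/
private theorem st5_exp {q L l : ℕ} (hq : q + 10 ≤ Nat.log 2 (L + 1)) (hl : 16 ≤ l)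
    (h30 : l + 30 * Nat.log 2 (L + 1) ≤ L) :
    Nat.log 2 l ≤ l / 4 ∧ Nat.log 2 l ≤ Nat.log 2 (L + 1) ∧
      stA l + stLam L l + stWe L l = L + 4 ∧ stLam L l + q + 4 ≤ stWe L l ∧
      Nat.log 2 (L + 1) + q + 4 ≤ stWe L l := by
  have h1 := st_log_le hl
  have h2 : Nat.log 2 l ≤ Nat.log 2 (L + 1) := Nat.log_mono_right (by omega)
  unfold stA stLam stWe stA stLam
  refine ⟨h1, h2, ?_, ?_, ?_⟩ <;> omega

theorem st_nb {l : ℕ} (hl : 16 ≤ l) : 2 ^ stA l * l ≤ 2 ^ 21 * 2 ^ l := by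
  have h1 := st_log_le hl
  have h2 : l < 2 ^ (Nat.log 2 l + 1) := Nat.lt_pow_succ_log_self (by norm_num) l
  calc 2 ^ stA l * l ≤ 2 ^ stA l * 2 ^ (Nat.log 2 l + 1) := Nat.mul_le_mul_left _ h2.le
    _ = 2 ^ 21 * 2 ^ l := by
        rw [← pow_add, ← pow_add]
        congr 1
        unfold stA
        omega

theorem st_w9 {q L l : ℕ} (hq : q + 10 ≤ Nat.log 2 (L + 1)) (hl : 16 ≤ l)
    (h30 : l + 30 * Nat.log 2 (L + 1) ≤ L) : 9 * 2 ^ q * 2 ^ stLam L l ≤ 2 ^ stWe L l := by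
  obtain ⟨-, -, -, h4, -⟩ := st5_exp hq hl h30
  calc 9 * 2 ^ q * 2 ^ stLam L l ≤ 16 * 2 ^ q * 2 ^ stLam L l :=
        Nat.mul_le_mul_right _ (Nat.mul_le_mul_right _ (by norm_num))
    _ = 2 ^ (4 + q + stLam L l) := by rw [pow_add, pow_add]; norm_num
    _ ≤ 2 ^ stWe L l := Nat.pow_le_pow_right (by norm_num) (by omega)

theorem st_J {q L l : ℕ} (hq : q + 10 ≤ Nat.log 2 (L + 1)) (hl : 16 ≤ l)
    (h30 : l + 30 * Nat.log 2 (L + 1) ≤ L) : l / 2 + 10 ≤ 4 * 2 ^ q * 2 ^ stWe L l := by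
  obtain ⟨-, -, -, -, h5⟩ := st5_exp hq hl h30
  have h1 : L + 1 < 2 ^ (Nat.log 2 (L + 1) + 1) := Nat.lt_pow_succ_log_self (by norm_num) _
  have h2 : 2 ^ (Nat.log 2 (L + 1) + 1) ≤ 2 ^ stWe L l :=
    Nat.pow_le_pow_right (by norm_num) (by omega)
  have h3 : 1 ≤ 2 ^ q := Nat.one_le_two_pow
  have h4 : 4 * 2 ^ stWe L l ≤ 4 * 2 ^ q * 2 ^ stWe L l := by
    calc 4 * 2 ^ stWe L l = 4 * 1 * 2 ^ stWe L l := by ring
      _ ≤ 4 * 2 ^ q * 2 ^ stWe L l := Nat.mul_le_mul_right _ (Nat.mul_le_mul_left _ h3)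
  have h6 : 4 ≤ 2 ^ stWe L l := by
    calc 4 = 2 ^ 2 := by norm_num
      _ ≤ 2 ^ stWe L l := Nat.pow_le_pow_right (by norm_num) (by omega)
  omega

/-- The cost of a pass over the blocks of all labels. -/
theorem st_cost {q L l : ℕ} (hq : q + 10 ≤ Nat.log 2 (L + 1)) (hl : 16 ≤ l)
    (h30 : l + 30 * Nat.log 2 (L + 1) ≤ L) :
    2 ^ 10 * (stR q L l * (2 ^ stLam L l * 2 ^ stWe L l)) ≤ 21 * 2 ^ q * (L + 5) * 2 ^ (L - l) := by
  obtain ⟨h1, h2, h3, h4, -⟩ := st5_exp hq hl h30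
  have hk : 2 ^ Nat.log 2 l ≤ l := Nat.pow_log_le_self 2 (by omega)
  have h5 : 2 ^ 10 * (2 ^ stLam L l * 2 ^ stWe L l) * 2 ^ 6 = 2 ^ Nat.log 2 l * 2 ^ (L - l) := by
    rw [← pow_add, ← pow_add, ← pow_add, ← pow_add]
    congr 1
    have : stA l = l + 20 - Nat.log 2 l := rfl
    omega
  have h6 : stR0 L l * l ≤ 21 * (L + 5) := by
    unfold stR0
    have h7 : (L + 5) / l * l ≤ L + 5 := Nat.div_mul_le_self _ _
    rw [Nat.add_mul]
    omega
  calc 2 ^ 10 * (stR q L l * (2 ^ stLam L l * 2 ^ stWe L l))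
      = 2 ^ q * stR0 L l * (2 ^ 10 * (2 ^ stLam L l * 2 ^ stWe L l) * 2 ^ 6) := by
        unfold stR
        rw [pow_add]
        ring
    _ = 2 ^ q * stR0 L l * (2 ^ Nat.log 2 l * 2 ^ (L - l)) := by rw [h5]
    _ = 2 ^ q * (stR0 L l * 2 ^ Nat.log 2 l) * 2 ^ (L - l) := by ring
    _ ≤ 2 ^ q * (stR0 L l * l) * 2 ^ (L - l) :=
        Nat.mul_le_mul_right _ (Nat.mul_le_mul_left _ (Nat.mul_le_mul_left _ hk))
    _ ≤ 2 ^ q * (21 * (L + 5)) * 2 ^ (L - l) :=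
        Nat.mul_le_mul_right _ (Nat.mul_le_mul_left _ h6)
    _ = 21 * 2 ^ q * (L + 5) * 2 ^ (L - l) := by ring

theorem st_R_pos (q L l : ℕ) : 1 ≤ stR q L l := by
  unfold stR stR0
  have : 0 < 2 ^ (q + 6) * ((L + 5) / l + 20) := by positivity
  exact this

open Classical in
/-- The tick labels of a middle level. -/
theorem st_mid0 {q n L l : ℕ} (hn : n < 2 ^ (L + 1)) (hq : q + 10 ≤ Nat.log 2 (L + 1))
    (hl : 16 ≤ l) (h30 : l + 30 * Nat.log 2 (L + 1) ≤ L) :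
    ∃ g : Fin (stR q L l) → Fin n → Fin (2 ^ (stA l + stLam L l)),
      (∀ r c, (univ.filter fun x => g r x = c).card < 2 ^ stWe L l) ∧
      (∀ U : Finset (Fin n), U.card ≤ 4 * 2 ^ (l / 2 + 10) →
        15 * (stR q L l * U.card) ≤
          16 * ∑ r, (U.image fun x => (g r x).val % 2 ^ stA l).card) ∧
      ∀ U : Finset (Fin n), 2 ^ l ≤ U.card → U.card ≤ (L + 1) ^ 3 * 2 ^ l →
        64 * 2 ^ q * (stR q L l * U.card) ≤
          64 * 2 ^ q * ∑ r, (U.image fun x => g r x).card + stR q L l * U.card := by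
  obtain ⟨h1, h2, h3, h4, h5⟩ := st5_exp hq hl h30
  set ℓ := Nat.log 2 (L + 1) with hℓ
  set k := Nat.log 2 l with hk
  set lam := stLam L l with hlam
  have hA : stA l = l + 20 - k := rfl
  have hlam' : lam = (L - l) / 3 := rfl
  have hLℓ : L + 1 < 2 ^ (ℓ + 1) := Nat.lt_pow_succ_log_self (by norm_num) _
  have hLL : L + 1 ≤ 2 ^ ℓ * 2 := by rw [← pow_succ]; exact hLℓ.le
  have hR0 : stR0 L l = (L + 5) / l + 20 := rfl
  obtain ⟨g, hg1, hg2, hg3⟩ := st_exists n L (2 ^ (q + 6)) (4 * 2 ^ q * stR0 L l) (stR0 L l)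
    (stA l) (stA l + lam) (l - l / 2 + 2 - k) (lam + 9 - (4 * ℓ + q)) (4 * 2 ^ (l / 2 + 10))
    ((L + 1) ^ 3 * 2 ^ l) (2 ^ l) (L + 3 - l) (2 ^ stWe L l)
    (by rw [pow_add]; ring) Nat.one_le_two_pow Nat.one_le_two_pow (by omega) hn
    (by
      -- blocks
      calc 44 * (4 * 2 ^ (l / 2 + 10)) * 2 ^ (l - l / 2 + 2 - k)
          = 176 * (2 ^ (l / 2 + 10) * 2 ^ (l - l / 2 + 2 - k)) := by ring
        _ ≤ 2 ^ 8 * (2 ^ (l / 2 + 10) * 2 ^ (l - l / 2 + 2 - k)) :=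
            Nat.mul_le_mul_right _ (by norm_num)
        _ = 2 ^ stA l := by
            rw [← pow_add, ← pow_add]
            congr 1
            omega)
    (by
      -- L + 5 ≤ y1 * R1
      have hlt : L + 5 < ((L + 5) / l + 1) * l := by
        have := Nat.lt_div_mul_add (a := L + 5) (b := l) (by omega)
        rw [Nat.add_mul, one_mul]
        exact this
      have hq1 : 1 ≤ 2 ^ q := Nat.one_le_two_pow
      have hy : l ≤ 4 * (l - l / 2 + 2 - k) := by omega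
      calc L + 5 ≤ ((L + 5) / l + 1) * l := hlt.le
        _ ≤ stR0 L l * (4 * (l - l / 2 + 2 - k)) := Nat.mul_le_mul (by rw [hR0]; omega) hy
        _ = (l - l / 2 + 2 - k) * (4 * 1 * stR0 L l) := by ring
        _ ≤ (l - l / 2 + 2 - k) * (4 * 2 ^ q * stR0 L l) :=
            Nat.mul_le_mul_left _ (Nat.mul_le_mul_right _ (Nat.mul_le_mul_left _ hq1)))
    (by
      -- cells
      have hL3 : (L + 1) ^ 3 ≤ 2 ^ (3 * ℓ + 3) := by
        calc (L + 1) ^ 3 ≤ (2 ^ (ℓ + 1)) ^ 3 := Nat.pow_le_pow_left hLℓ.le 3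
          _ = 2 ^ (3 * ℓ + 3) := by rw [← pow_mul]; congr 1; ring
      calc 3 * 2 ^ (q + 6) * ((L + 1) ^ 3 * 2 ^ l) * 2 ^ (lam + 9 - (4 * ℓ + q))
          ≤ 2 ^ 2 * 2 ^ (q + 6) * (2 ^ (3 * ℓ + 3) * 2 ^ l) * 2 ^ (lam + 9 - (4 * ℓ + q)) := by
            refine Nat.mul_le_mul_right _ (Nat.mul_le_mul (Nat.mul_le_mul_right _ (by norm_num))
              (Nat.mul_le_mul_right _ hL3))
        _ = 2 ^ (2 + (q + 6) + (3 * ℓ + 3 + l) + (lam + 9 - (4 * ℓ + q))) := by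
            simp only [← pow_add]
        _ ≤ 2 ^ (stA l + lam) := Nat.pow_le_pow_right (by norm_num) (by omega))
    (by
      -- 3 n ≤ 2 ^ l * 2 ^ z
      rw [← pow_add]
      have e1 : l + (L + 3 - l) = (L + 1) + 2 := by omega
      rw [e1, pow_add]
      omega)
    (by
      -- z + 5 ≤ y2 * R2
      have h20 : 20 ≤ stR0 L l := by rw [hR0]; exact Nat.le_add_left _ _
      calc L + 3 - l + 5 ≤ (lam + 9 - (4 * ℓ + q)) * 20 := by omega
        _ ≤ (lam + 9 - (4 * ℓ + q)) * stR0 L l := Nat.mul_le_mul_left _ h20)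
    (by
      rw [← pow_add]
      have e1 : stWe L l + (stA l + lam) = 3 + (L + 1) := by omega
      rw [e1, pow_add]
      omega)
    (by
      have e2 : stR0 L l ≤ 2 ^ (L + 5) := by
        have h6 : (L + 5) / l ≤ L + 5 := Nat.div_le_self _ _
        have h7 : L + 1 ≤ 2 ^ L := Nat.lt_two_pow_self
        have h8 : 2 ^ (L + 5) = 32 * 2 ^ L := by rw [pow_add]; ring
        rw [hR0, h8]
        omega
      calc 16 * (2 ^ (q + 6) * stR0 L l * 2 ^ (stA l + lam))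
          ≤ 2 ^ 4 * (2 ^ (q + 6) * 2 ^ (L + 5) * 2 ^ (stA l + lam)) :=
            Nat.mul_le_mul (by norm_num) (Nat.mul_le_mul_right _ (Nat.mul_le_mul_left _ e2))
        _ = 2 ^ (4 + ((q + 6) + (L + 5) + (stA l + lam))) := by
            simp only [← pow_add]
        _ ≤ 2 ^ 2 ^ stWe L l := by
            refine Nat.pow_le_pow_right (by norm_num) ?_
            have h6 : 2 ^ (ℓ + 14) ≤ 2 ^ stWe L l :=
              Nat.pow_le_pow_right (by norm_num) (by omega)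
            have h7 : 2 ^ (ℓ + 14) = 2 ^ (ℓ + 1) * 2 ^ 13 := by rw [← pow_add]
            have h8 : ℓ < 2 ^ ℓ := Nat.lt_two_pow_self
            have h9 : 2 ^ ℓ ≤ L + 1 := Nat.pow_log_le_self 2 (by omega)
            omega)
  refine ⟨g, hg1, hg2, ?_⟩
  intro U hU1 hU2
  have h6 := hg3 U hU1 hU2
  have h7 : 64 * 2 ^ q = 2 ^ (q + 6) := by rw [pow_add]; ring
  have h8 : 1 ≤ 2 ^ (q + 6) := Nat.one_le_two_pow
  rw [h7]
  obtain ⟨K', hK'⟩ : ∃ K', 2 ^ (q + 6) = K' + 1 := ⟨2 ^ (q + 6) - 1, by omega⟩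
  have h9 : (2 ^ (q + 6) - 1) * (stR q L l * U.card) + stR q L l * U.card =
      2 ^ (q + 6) * (stR q L l * U.card) := by
    rw [hK', Nat.add_sub_cancel]; ring
  rw [← h9]
  exact Nat.add_le_add_right h6 _

end Pool.Agent.X217
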