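import Pool.Agent.MP217Area.LabAll
import Pool.Agent.MP217Area.LabMom

set_option autoImplicit false

/-!
# Top levels (MP_217fdb_lc, exact order): degrees outside a small set of names
-/

namespace Pool.Agent.X217

open Finset

open Pool.Agent.A217 (deg_moment)

/-- The pointwise bound behind Markov. -/
private theorem tt_deg_pt (z : ℝ) (hz : 0 ≤ z) (S K : ℕ) (h : 2 * z + K < S) :
    Real.exp z * (2 : ℝ) ^ K ≤ (2 : ℝ) ^ S := by
  have hlog : (1 : ℝ) / 2 < Real.log 2 := by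
    have := Real.log_two_gt_d9
    linarith
  have h2 : ∀ m : ℕ, (2 : ℝ) ^ m = Real.exp (m * Real.log 2) := by
    intro m
    rw [Real.exp_nat_mul, Real.exp_log (by norm_num)]
  rw [h2 K, h2 S, ← Real.exp_add]
  apply Real.exp_le_exp.mpr
  have h3 : 2 * z ≤ (S : ℝ) - K := by linarith
  have h4 : z ≤ ((S : ℝ) - K) * Real.log 2 := by nlinarith
  nlinarith

open Classical in
/-- PROOF: Markov with `deg_moment`: on the set in question
`2 ^ (∑ ..) ≥ 2 ^ (2 R n / 2 ^ b + 8 (L + 1))` (real powers), and `exp z ≤ 4 ^ z`. -/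
theorem tt_deg_one (n A R b z0 : ℕ) (hb : b ≤ A) (x : Fin n) :
    ((univ : Finset (Fin R → Fin n → Fin (2 ^ A))).filter fun g =>
      2 * (R * n) + 2 ^ b * z0 <
        2 ^ b * ∑ r, (univ.filter fun y => y ≠ x ∧ (g r y).val % 2 ^ b = (g r x).val % 2 ^ b).card).card *
      2 ^ z0 ≤ (2 ^ A) ^ (R * n) := by
  have hm := deg_moment n A R b hb x
  set z : ℝ := (R : ℝ) * n / 2 ^ b with hzdef
  have hz : 0 ≤ z := by positivity
  set B : Finset (Fin R → Fin n → Fin (2 ^ A)) := univ.filter fun g =>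
      2 * (R * n) + 2 ^ b * z0 <
        2 ^ b * ∑ r, (univ.filter fun y => y ≠ x ∧ (g r y).val % 2 ^ b = (g r x).val % 2 ^ b).card
    with hB
  have hpt : ∀ g ∈ B, Real.exp z * (2 : ℝ) ^ z0 ≤
      (2 : ℝ) ^ (∑ r, (univ.filter fun y => y ≠ x ∧
        (g r y).val % 2 ^ b = (g r x).val % 2 ^ b).card) := by
    intro g hg
    rw [hB, mem_filter] at hg
    apply tt_deg_pt z hz
    have h1 := hg.2
    generalize (∑ r, (univ.filter fun y => y ≠ x ∧
        (g r y).val % 2 ^ b = (g r x).val % 2 ^ b).card) = S at h1 ⊢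
    have h2 : (2 : ℝ) * (R * n) + 2 ^ b * ((z0 : ℕ) : ℝ) < 2 ^ b * (S : ℝ) := by
      exact_mod_cast h1
    have hbp : (0 : ℝ) < 2 ^ b := by positivity
    have h3 : (R : ℝ) * n = z * 2 ^ b := by
      rw [hzdef, div_mul_cancel₀ _ hbp.ne']
    rw [h3] at h2
    have h4 : (2 : ℝ) ^ b * (2 * z + ((z0 : ℕ) : ℝ)) < 2 ^ b * (S : ℝ) := by
      linarith
    exact lt_of_mul_lt_mul_left h4 hbp.le
  have hsum : (B.card : ℝ) * (Real.exp z * (2 : ℝ) ^ z0) ≤
      ((2 : ℝ) ^ A) ^ (R * n) * Real.exp z := by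
    calc (B.card : ℝ) * (Real.exp z * (2 : ℝ) ^ z0)
        = ∑ _g ∈ B, Real.exp z * (2 : ℝ) ^ z0 := by
          rw [sum_const, nsmul_eq_mul]
      _ ≤ ∑ g ∈ B, (2 : ℝ) ^ (∑ r, (univ.filter fun y => y ≠ x ∧
            (g r y).val % 2 ^ b = (g r x).val % 2 ^ b).card) := sum_le_sum hpt
      _ ≤ ∑ g : Fin R → Fin n → Fin (2 ^ A), (2 : ℝ) ^ (∑ r, (univ.filter fun y => y ≠ x ∧
            (g r y).val % 2 ^ b = (g r x).val % 2 ^ b).card) :=
          sum_le_sum_of_subset_of_nonneg (subset_univ _) (fun _ _ _ => by positivity)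
      _ ≤ _ := hm
  have hfin : (B.card : ℝ) * (2 : ℝ) ^ z0 ≤ ((2 : ℝ) ^ A) ^ (R * n) := by
    have he : 0 < Real.exp z := Real.exp_pos z
    have h5 : ((B.card : ℝ) * (2 : ℝ) ^ z0) * Real.exp z ≤
        ((2 : ℝ) ^ A) ^ (R * n) * Real.exp z := by
      calc ((B.card : ℝ) * (2 : ℝ) ^ z0) * Real.exp z
          = (B.card : ℝ) * (Real.exp z * (2 : ℝ) ^ z0) := by ring
        _ ≤ _ := hsum
    exact le_of_mul_le_mul_right h5 he
  exact_mod_cast hfin


open Classical in
/-- The names with a large degree for some window. -/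
private noncomputable def tt_bad {n R A : ℕ} (a I z0 : ℕ) (g : Fin R → Fin n → Fin (2 ^ A)) :
    Finset (Fin n) :=
  univ.filter fun x => ∃ i : Fin (I + 1), 2 * (R * n) + 2 ^ (a + i.val) * z0 <
    2 ^ (a + i.val) * ∑ r, (univ.filter fun y => y ≠ x ∧
      (g r y).val % 2 ^ (a + i.val) = (g r x).val % 2 ^ (a + i.val)).card

open Classical in
private theorem tt_bad_sum (n R a I z0 : ℕ) :
    (∑ g : Fin R → Fin n → Fin (2 ^ (a + I)), (tt_bad a I z0 g).card) * 2 ^ z0 ≤
      n * (I + 1) * (2 ^ (a + I)) ^ (R * n) := by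
  set T := (2 ^ (a + I)) ^ (R * n) with hT
  let E : Fin n × Fin (I + 1) → Finset (Fin R → Fin n → Fin (2 ^ (a + I))) := fun q =>
    univ.filter fun g => 2 * (R * n) + 2 ^ (a + q.2.val) * z0 <
      2 ^ (a + q.2.val) * ∑ r, (univ.filter fun y => y ≠ q.1 ∧
        (g r y).val % 2 ^ (a + q.2.val) = (g r q.1).val % 2 ^ (a + q.2.val)).card
  have h1 : ∀ g : Fin R → Fin n → Fin (2 ^ (a + I)), (tt_bad a I z0 g).card ≤
      ∑ q : Fin n × Fin (I + 1), if g ∈ E q then 1 else 0 := by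
    intro g
    rw [Fintype.sum_prod_type]
    unfold tt_bad
    rw [card_filter]
    refine sum_le_sum fun x _ => ?_
    split_ifs with h
    · obtain ⟨i, hi⟩ := h
      have h2 : g ∈ E (x, i) := mem_filter.2 ⟨mem_univ _, hi⟩
      calc 1 = if g ∈ E (x, i) then 1 else 0 := by rw [if_pos h2]
        _ ≤ _ := single_le_sum (f := fun i => if g ∈ E (x, i) then 1 else 0)
            (fun _ _ => Nat.zero_le _) (mem_univ i)
    · exact Nat.zero_le _
  have h2 : ∀ q, (E q).card * 2 ^ z0 ≤ T := fun q =>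
    tt_deg_one n (a + I) R (a + q.2.val) z0 (by have := q.2.isLt; omega) q.1
  calc (∑ g : Fin R → Fin n → Fin (2 ^ (a + I)), (tt_bad a I z0 g).card) * 2 ^ z0
      ≤ (∑ g : Fin R → Fin n → Fin (2 ^ (a + I)), ∑ q : Fin n × Fin (I + 1),
          if g ∈ E q then 1 else 0) * 2 ^ z0 :=
        Nat.mul_le_mul_right _ (sum_le_sum fun g _ => h1 g)
    _ = (∑ q : Fin n × Fin (I + 1), (E q).card) * 2 ^ z0 := by
        rw [sum_comm]
        congr 1
        refine sum_congr rfl fun q _ => ?_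
        rw [sum_ite_mem, univ_inter, sum_const, smul_eq_mul, mul_one]
    _ = ∑ q : Fin n × Fin (I + 1), (E q).card * 2 ^ z0 := by rw [sum_mul]
    _ ≤ ∑ _q : Fin n × Fin (I + 1), T := sum_le_sum fun q _ => h2 q
    _ = n * (I + 1) * T := by
        rw [sum_const, card_univ, Fintype.card_prod, Fintype.card_fin, Fintype.card_fin,
          smul_eq_mul]

/-- Labels which are lossless, with small degrees outside a set of at most `B` names. -/
theorem tt_design (n L R' a y u I z0 B : ℕ) (hn : n < 2 ^ (L + 1))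
    (hu : 44 * u * 2 ^ y ≤ 2 ^ a) (hy : L + 5 ≤ y * R')
    (hB : 4 * (n * (I + 1)) ≤ B * 2 ^ z0) :
    ∃ g : ℕ → Fin n → ℕ,
      (∀ U : Finset (Fin n), U.card ≤ u →
        15 * (16 * R' * U.card) ≤
          16 * ∑ r ∈ range (16 * R'), (U.image fun x => g r x % 2 ^ a).card) ∧
      ∃ Bad : Finset (Fin n), Bad.card ≤ B ∧ ∀ x, x ∉ Bad → ∀ i ≤ I,
        2 ^ (a + i) * ∑ r ∈ range (16 * R'),
          (univ.filter fun y => y ≠ x ∧ g r y % 2 ^ (a + i) = g r x % 2 ^ (a + i)).card ≤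
        2 * (16 * R' * n) + 2 ^ (a + i) * z0 := by
  classical
  set T : ℕ := (2 ^ (a + I)) ^ (16 * R' * n) with hT
  have hcard : (univ : Finset (Fin (16 * R') → Fin n → Fin (2 ^ (a + I)))).card = T := by
    rw [card_univ, Fintype.card_fun, Fintype.card_fun, Fintype.card_fin, Fintype.card_fin,
      Fintype.card_fin, ← pow_mul, Nat.mul_comm n]
  have hT0 : 0 < T := by positivity
  set B1 := (univ : Finset (Fin (16 * R') → Fin n → Fin (2 ^ (a + I)))).filter fun g =>
    ∃ U : Finset (Fin n), U.card ≤ u ∧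
      16 * ∑ r, (U.image fun x => (g r x).val % 2 ^ a).card < 15 * (16 * R' * U.card) with hB1
  set B2 := (univ : Finset (Fin (16 * R') → Fin n → Fin (2 ^ (a + I)))).filter fun g =>
    B < (tt_bad a I z0 g).card with hB2
  have h1 : 8 * B1.card ≤ T := by
    have := Pool.Agent.A217.loss_all n (a + I) R' a y u L (by omega) hn hu hy
    convert this using 2
  have h2 : 4 * B2.card ≤ T := by
    have h3 : B2.card * (B + 1) ≤
        ∑ g : Fin (16 * R') → Fin n → Fin (2 ^ (a + I)), (tt_bad a I z0 g).card := by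
      calc B2.card * (B + 1) = ∑ _g ∈ B2, (B + 1) := by rw [sum_const, smul_eq_mul]
        _ ≤ ∑ g ∈ B2, (tt_bad a I z0 g).card :=
            sum_le_sum fun g hg => (mem_filter.1 hg).2
        _ ≤ _ := sum_le_sum_of_subset (subset_univ _)
    have h4 := tt_bad_sum n (16 * R') a I z0
    rw [← hT] at h4
    have h5 : (B + 1) * 2 ^ z0 * (4 * B2.card) ≤ (B + 1) * 2 ^ z0 * T := by
      calc (B + 1) * 2 ^ z0 * (4 * B2.card) = 4 * (B2.card * (B + 1) * 2 ^ z0) := by ring
        _ ≤ 4 * (n * (I + 1) * T) :=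
            Nat.mul_le_mul_left _ ((Nat.mul_le_mul_right _ h3).trans h4)
        _ = 4 * (n * (I + 1)) * T := by ring
        _ ≤ B * 2 ^ z0 * T := Nat.mul_le_mul_right _ hB
        _ ≤ (B + 1) * 2 ^ z0 * T :=
            Nat.mul_le_mul_right _ (Nat.mul_le_mul_right _ (Nat.le_succ _))
    exact Nat.le_of_mul_le_mul_left h5 (by positivity)
  obtain ⟨g, hg⟩ : ∃ g, g ∉ B1 ∪ B2 := by
    by_contra hcon
    push Not at hcon
    have h4 : T ≤ (B1 ∪ B2).card := by
      rw [← hcard]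
      exact card_le_card fun g _ => hcon g
    have h5 := card_union_le B1 B2
    omega
  simp only [mem_union, not_or] at hg
  have hg2 : (tt_bad a I z0 g).card ≤ B := by
    by_contra hlt
    exact hg.2 (mem_filter.2 ⟨mem_univ _, not_le.1 hlt⟩)
  refine ⟨fun r x => if h : r < 16 * R' then (g ⟨r, h⟩ x).val else 0, ?_, tt_bad a I z0 g, hg2, ?_⟩
  · intro U hU
    have h3 : ¬ 16 * ∑ r, (U.image fun x => (g r x).val % 2 ^ a).card <
        15 * (16 * R' * U.card) := by
      intro hlt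
      exact hg.1 (mem_filter.2 ⟨mem_univ _, U, hU, hlt⟩)
    have h4 : ∑ r ∈ range (16 * R'), (U.image fun x =>
        (if h : r < 16 * R' then (g ⟨r, h⟩ x).val else 0) % 2 ^ a).card =
        ∑ r, (U.image fun x => (g r x).val % 2 ^ a).card := by
      rw [Finset.sum_range]
      refine sum_congr rfl fun r _ => ?_
      simp only [r.isLt, dif_pos]
    rw [h4]
    exact not_lt.1 h3
  · intro x hx i hi
    have h3 : ¬ ∃ i : Fin (I + 1), 2 * (16 * R' * n) + 2 ^ (a + i.val) * z0 <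
        2 ^ (a + i.val) * ∑ r, (univ.filter fun y => y ≠ x ∧
          (g r y).val % 2 ^ (a + i.val) = (g r x).val % 2 ^ (a + i.val)).card := by
      intro h
      exact hx (mem_filter.2 ⟨mem_univ _, h⟩)
    have h4 := not_lt.1 (not_exists.1 h3 ⟨i, by omega⟩)
    have h5 : ∑ r ∈ range (16 * R'), (univ.filter fun y => y ≠ x ∧
        (if h : r < 16 * R' then (g ⟨r, h⟩ y).val else 0) % 2 ^ (a + i) =
          (if h : r < 16 * R' then (g ⟨r, h⟩ x).val else 0) % 2 ^ (a + i)).card =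
        ∑ r, (univ.filter fun y => y ≠ x ∧
          (g r y).val % 2 ^ (a + i) = (g r x).val % 2 ^ (a + i)).card := by
      rw [Finset.sum_range]
      refine sum_congr rfl fun r _ => ?_
      simp only [r.isLt, dif_pos]
    rw [h5]
    exact h4

end Pool.Agent.X217
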