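import Pool.Agent.X217.Tt1
import Pool.Agent.MP217Area.Labels
import Pool.Agent.MP217Area.Peel
import Pool.Agent.MP217Peel.Defs

set_option autoImplicit false

/-!
# Top levels (MP_217fdb_lc, exact order): static lists of the ticks
-/

namespace Pool.Agent.X217

open Finset
open Pool.Agent.P217 (typ Lvl)
open Pool.Agent.A217 (peel)

attribute [local instance 10] Classical.propDecidable

private theorem tt_pow (k : ℕ) : 2 * k ≤ 2 ^ k + 2 := by
  induction k with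
  | zero => norm_num
  | succ k ih =>
    have h1 : 1 ≤ 2 ^ k := Nat.one_le_two_pow
    rcases Nat.lt_or_ge k 1 with h | h
    · interval_cases k; norm_num
    · have h2 : 2 ≤ 2 ^ k := by
        calc 2 = 2 ^ 1 := rfl
          _ ≤ 2 ^ k := Nat.pow_le_pow_right (by norm_num) h
      rw [pow_succ]
      omega


/-- The labels of the family `k` for level `l`, with small degrees outside `B` names. -/
theorem tt_labels (n L I l k z0 B : ℕ) (hn : n < 2 ^ (L + 1)) (hl : l ≤ L)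
    (hk : k ≤ Nat.log 2 (l + 5)) (hI : 4 * (L + 5) ≤ 2 ^ I)
    (hB : 4 * (n * (I + 1)) ≤ B * 2 ^ z0) :
    ∃ lb : ℕ → Fin n → ℕ,
      (∀ U : Finset (Fin n), U.card ≤ 4 * 2 ^ (l + 5 - 2 ^ k) →
        15 * (2 ^ (I + 3 - k) * U.card) ≤
          16 * ∑ r ∈ range (2 ^ (I + 3 - k)), (U.image fun y => lb r y % 2 ^ (l + 14 - k)).card) ∧
      ∃ Bad : Finset (Fin n), Bad.card ≤ B ∧ ∀ x, x ∉ Bad → ∀ i ≤ I,
        ∑ r ∈ range (2 ^ (I + 3 - k)), (univ.filter fun y =>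
          y ≠ x ∧ lb r y % 2 ^ (l + 14 - k + i) = lb r x % 2 ^ (l + 14 - k + i)).card ≤
        2 ^ (I + 4) * n / 2 ^ (l + 14 + i) + z0 := by
  have hkl : 2 ^ k ≤ l + 5 :=
    (Nat.pow_le_pow_right (by norm_num) hk).trans (Nat.pow_log_le_self 2 (by omega))
  have hk1 : k + 1 ≤ 2 ^ k := Nat.lt_two_pow_self
  have hkI : k + 2 ≤ I := by
    have h1 : 2 ^ (k + 2) ≤ 2 ^ I := by
      calc 2 ^ (k + 2) = 4 * 2 ^ k := by rw [pow_add]; ring
        _ ≤ 4 * (L + 5) := by omega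
        _ ≤ 2 ^ I := hI
    exact (Nat.pow_le_pow_iff_right (by norm_num)).1 h1
  have hR : 16 * 2 ^ (I - 1 - k) = 2 ^ (I + 3 - k) := by
    have : I + 3 - k = 4 + (I - 1 - k) := by omega
    rw [this, pow_add]
    norm_num
  have hu : 44 * (4 * 2 ^ (l + 5 - 2 ^ k)) * 2 ^ (2 ^ k + 1 - k) ≤ 2 ^ (l + 14 - k) := by
    have h1 : 2 ^ (l + 5 - 2 ^ k) * 2 ^ (2 ^ k + 1 - k) = 2 ^ (l + 6 - k) := by
      rw [← pow_add]
      congr 1
      omega
    have h2 : 2 ^ (l + 14 - k) = 256 * 2 ^ (l + 6 - k) := by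
      have : l + 14 - k = 8 + (l + 6 - k) := by omega
      rw [this, pow_add]
      norm_num
    calc 44 * (4 * 2 ^ (l + 5 - 2 ^ k)) * 2 ^ (2 ^ k + 1 - k)
        = 176 * (2 ^ (l + 5 - 2 ^ k) * 2 ^ (2 ^ k + 1 - k)) := by ring
      _ = 176 * 2 ^ (l + 6 - k) := by rw [h1]
      _ ≤ 256 * 2 ^ (l + 6 - k) := Nat.mul_le_mul_right _ (by norm_num)
      _ = 2 ^ (l + 14 - k) := h2.symm
  have hy : L + 5 ≤ (2 ^ k + 1 - k) * 2 ^ (I - 1 - k) := by
    have h1 : 2 ^ k ≤ 2 * (2 ^ k + 1 - k) := by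
      have := tt_pow k
      omega
    have h2 : 2 ^ k * 2 ^ (I - 1 - k) = 2 ^ (I - 1) := by
      rw [← pow_add]
      congr 1
      omega
    have h3 : 2 ^ I = 2 * 2 ^ (I - 1) := by
      have : I = (I - 1) + 1 := by omega
      conv_lhs => rw [this]
      rw [pow_succ]
      ring
    have h4 : 2 ^ (I - 1) ≤ 2 * ((2 ^ k + 1 - k) * 2 ^ (I - 1 - k)) := by
      calc 2 ^ (I - 1) = 2 ^ k * 2 ^ (I - 1 - k) := h2.symm
        _ ≤ 2 * (2 ^ k + 1 - k) * 2 ^ (I - 1 - k) := Nat.mul_le_mul_right _ h1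
        _ = 2 * ((2 ^ k + 1 - k) * 2 ^ (I - 1 - k)) := by ring
    omega
  obtain ⟨g, hg1, Bad, hBad, hg2⟩ := tt_design n L (2 ^ (I - 1 - k)) (l + 14 - k) (2 ^ k + 1 - k)
    (4 * 2 ^ (l + 5 - 2 ^ k)) I z0 B hn hu hy hB
  rw [hR] at hg1 hg2
  refine ⟨g, ?_, Bad, hBad, ?_⟩
  · intro U hU
    convert hg1 U hU
  intro x hx i hi
  have h1 := hg2 x hx i hi
  have h1' : 2 ^ (l + 14 - k + i) * (∑ r ∈ range (2 ^ (I + 3 - k)), (univ.filter fun y =>
          y ≠ x ∧ g r y % 2 ^ (l + 14 - k + i) = g r x % 2 ^ (l + 14 - k + i)).card) ≤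
      2 * (2 ^ (I + 3 - k) * n) + 2 ^ (l + 14 - k + i) * z0 := by
    convert h1
  clear h1
  generalize (∑ r ∈ range (2 ^ (I + 3 - k)), (univ.filter fun y =>
          y ≠ x ∧ g r y % 2 ^ (l + 14 - k + i) = g r x % 2 ^ (l + 14 - k + i)).card) = S at h1' ⊢
  rcases Nat.lt_or_ge S z0 with h | h
  · exact h.le.trans (Nat.le_add_left _ _)
  · have h2 : (S - z0) * 2 ^ (l + 14 - k + i) ≤ 2 * (2 ^ (I + 3 - k) * n) := by
      have h3 : (S - z0) * 2 ^ (l + 14 - k + i) + 2 ^ (l + 14 - k + i) * z0 =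
          2 ^ (l + 14 - k + i) * S := by
        rw [Nat.mul_comm (S - z0), ← Nat.mul_add, Nat.sub_add_cancel h]
      omega
    have h4 : (S - z0) * 2 ^ (l + 14 + i) ≤ 2 ^ (I + 4) * n := by
      have h5 : 2 ^ (l + 14 + i) = 2 ^ (l + 14 - k + i) * 2 ^ k := by
        rw [← pow_add]
        congr 1
        omega
      have h6 : 2 ^ (I + 4) = 2 * 2 ^ (I + 3 - k) * 2 ^ k := by
        have : I + 4 = 1 + (I + 3 - k) + k := by omega
        rw [this, pow_add, pow_add]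
        norm_num
      calc (S - z0) * 2 ^ (l + 14 + i)
          = (S - z0) * 2 ^ (l + 14 - k + i) * 2 ^ k := by rw [h5]; ring
        _ ≤ 2 * (2 ^ (I + 3 - k) * n) * 2 ^ k := Nat.mul_le_mul_right _ h2
        _ = 2 ^ (I + 4) * n := by rw [h6]; ring
    have h7 : S - z0 ≤ 2 ^ (I + 4) * n / 2 ^ (l + 14 + i) :=
      (Nat.le_div_iff_mul_le (by positivity)).2 h4
    omega

/-- The length of a list of type `i`. -/
def ttLen (n I l z0 i : ℕ) : ℕ := (1 + I * z0) + I * (2 ^ (I + 4) * n / 2 ^ (l + 14 + i))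

/-- The lists given by the labels `lb k r`, `k ≤ log (l + 5)`, `r < 2 ^ (I + 3 - k)`. -/
def ttAll {n : ℕ} (I l : ℕ) (lb : ℕ → ℕ → Fin n → ℕ) (i : ℕ) (p : Fin n) : Finset (Fin n) :=
  insert p ((range (Nat.log 2 (l + 5) + 1)).biUnion fun k =>
    (range (2 ^ (I + 3 - k))).biUnion fun r => univ.filter fun y =>
      lb k r y % 2 ^ (l + 14 - k + i) = lb k r p % 2 ^ (l + 14 - k + i))

/-- The lists without the bad names. -/
noncomputable def ttFin {n : ℕ} (I l : ℕ) (lb : ℕ → ℕ → Fin n → ℕ) (Bad : Finset (Fin n)) (i : ℕ)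
    (p : Fin n) : Finset (Fin n) :=
  if p ∈ Bad then {p} else ttAll I l lb i p \ Bad

private theorem tt_size {n I l z0 : ℕ} (hK : Nat.log 2 (l + 5) + 1 ≤ I) (lb : ℕ → ℕ → Fin n → ℕ)
    (p : Fin n) {i : ℕ}
    (hdeg : ∀ k ≤ Nat.log 2 (l + 5), ∑ r ∈ range (2 ^ (I + 3 - k)),
      (univ.filter fun y => y ≠ p ∧
        lb k r y % 2 ^ (l + 14 - k + i) = lb k r p % 2 ^ (l + 14 - k + i)).card ≤
      2 ^ (I + 4) * n / 2 ^ (l + 14 + i) + z0) :
    (ttAll I l lb i p).card ≤ ttLen n I l z0 i := by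
  have hsub : ttAll I l lb i p ⊆
      insert p ((range (Nat.log 2 (l + 5) + 1)).biUnion fun k =>
        (range (2 ^ (I + 3 - k))).biUnion fun r => univ.filter fun y => y ≠ p ∧
          lb k r y % 2 ^ (l + 14 - k + i) = lb k r p % 2 ^ (l + 14 - k + i)) := by
    intro y hy
    unfold ttAll at hy
    rw [mem_insert] at hy ⊢
    by_cases hyp : y = p
    · exact Or.inl hyp
    · rcases hy with h | h
      · exact Or.inl h
      · right
        simp only [mem_biUnion, mem_filter, mem_univ, true_and] at h ⊢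
        obtain ⟨k, hk, r, hr, h⟩ := h
        exact ⟨k, hk, r, hr, hyp, h⟩
  have h1 : (ttAll I l lb i p).card ≤ 1 + ∑ _k ∈ range (Nat.log 2 (l + 5) + 1),
      (2 ^ (I + 4) * n / 2 ^ (l + 14 + i) + z0) := by
    refine (card_le_card hsub).trans ((card_insert_le _ _).trans ?_)
    rw [add_comm]
    apply Nat.add_le_add_left
    refine card_biUnion_le.trans (sum_le_sum fun k hk => ?_)
    rw [mem_range] at hk
    exact card_biUnion_le.trans (hdeg k (by omega))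
  rw [sum_const, card_range, smul_eq_mul] at h1
  have h2 := Nat.mul_le_mul_right (2 ^ (I + 4) * n / 2 ^ (l + 14 + i) + z0) hK
  unfold ttLen
  calc _ ≤ 1 + I * (2 ^ (I + 4) * n / 2 ^ (l + 14 + i) + z0) := by omega
    _ = _ := by ring

/-- The tick lists of a top level. -/
theorem tt_ticks (n L I l z0 B : ℕ) (hn : n < 2 ^ (L + 1)) (hl : l ≤ L)
    (hI : 4 * (L + 5) ≤ 2 ^ I) (hB : 4 * (n * (I + 1)) ≤ B * 2 ^ z0) :
    ∃ TL : ℕ → Fin n → Finset (Fin n),
      (∀ i p, p ∈ TL i p) ∧ (∀ i p q, q ∈ TL i p → p ∈ TL i q) ∧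
      (∀ i j p, i ≤ j → TL j p ⊆ TL i p) ∧
      (∀ i ≤ I, ∀ p, (TL i p).card ≤ ttLen n I l z0 i) ∧
      ∀ X : Lvl (Fin n), X.I = I → X.TL = TL →
        (∀ p ∈ X.S, (X.M p (2 ^ I)).card < 2 ^ (l + 5)) →
        X.S.card ≤ 2 ^ 16 * I ^ 2 * 2 ^ l + I * B := by
  have hK : Nat.log 2 (l + 5) + 1 ≤ I := by
    have h1 : 2 ^ Nat.log 2 (l + 5) ≤ l + 5 := Nat.pow_log_le_self 2 (by omega)
    have h2 : 2 ^ (Nat.log 2 (l + 5) + 2) ≤ 2 ^ I := by
      rw [pow_add]
      omega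
    have h3 := (Nat.pow_le_pow_iff_right (by norm_num : 1 < 2)).1 h2
    omega
  have hex : ∀ k, ∃ (lb : ℕ → Fin n → ℕ) (Bad : Finset (Fin n)), k ≤ Nat.log 2 (l + 5) →
      (∀ U : Finset (Fin n), U.card ≤ 4 * 2 ^ (l + 5 - 2 ^ k) →
        15 * (2 ^ (I + 3 - k) * U.card) ≤
          16 * ∑ r ∈ range (2 ^ (I + 3 - k)), (U.image fun y => lb r y % 2 ^ (l + 14 - k)).card) ∧
      Bad.card ≤ B ∧ ∀ x, x ∉ Bad → ∀ i ≤ I,
        ∑ r ∈ range (2 ^ (I + 3 - k)), (univ.filter fun y =>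
          y ≠ x ∧ lb r y % 2 ^ (l + 14 - k + i) = lb r x % 2 ^ (l + 14 - k + i)).card ≤
        2 ^ (I + 4) * n / 2 ^ (l + 14 + i) + z0 := by
    intro k
    by_cases hk : k ≤ Nat.log 2 (l + 5)
    · obtain ⟨lb, h1, Bad, h2, h3⟩ := tt_labels n L I l k z0 B hn hl hk hI hB
      exact ⟨lb, Bad, fun _ => ⟨h1, h2, h3⟩⟩
    · exact ⟨fun _ _ => 0, ∅, fun h => absurd h hk⟩
  choose lb Bd hlb using hex
  set Bad : Finset (Fin n) := (range (Nat.log 2 (l + 5) + 1)).biUnion Bd with hBad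
  have hBadc : Bad.card ≤ I * B := by
    calc Bad.card ≤ ∑ k ∈ range (Nat.log 2 (l + 5) + 1), (Bd k).card := card_biUnion_le
      _ ≤ ∑ _k ∈ range (Nat.log 2 (l + 5) + 1), B :=
          sum_le_sum fun k hk => (hlb k (by rw [mem_range] at hk; omega)).2.1
      _ = (Nat.log 2 (l + 5) + 1) * B := by rw [sum_const, card_range, smul_eq_mul]
      _ ≤ I * B := Nat.mul_le_mul_right _ hK
  have hsubB : ∀ k ≤ Nat.log 2 (l + 5), Bd k ⊆ Bad := by
    intro k hk x hx
    rw [hBad]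
    exact mem_biUnion.2 ⟨k, mem_range.2 (by omega), hx⟩
  have hsymm : ∀ i p q, q ∈ ttAll I l lb i p → p ∈ ttAll I l lb i q := by
    intro i p q hq
    unfold ttAll at hq ⊢
    rw [mem_insert] at hq ⊢
    rcases hq with h | h
    · exact Or.inl h.symm
    · right
      simp only [mem_biUnion, mem_filter, mem_univ, true_and] at h ⊢
      obtain ⟨k, hk, r, hr, h⟩ := h
      exact ⟨k, hk, r, hr, h.symm⟩
  have hanti : ∀ i j p, i ≤ j → ttAll I l lb j p ⊆ ttAll I l lb i p := by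
    intro i j p hij q hq
    unfold ttAll at hq ⊢
    rw [mem_insert] at hq ⊢
    rcases hq with h | h
    · exact Or.inl h
    · right
      simp only [mem_biUnion, mem_filter, mem_univ, true_and] at h ⊢
      obtain ⟨k, hk, r, hr, h⟩ := h
      refine ⟨k, hk, r, hr, ?_⟩
      have hd : 2 ^ (l + 14 - k + i) ∣ 2 ^ (l + 14 - k + j) := pow_dvd_pow 2 (by omega)
      exact (Nat.ModEq.of_dvd hd h : Nat.ModEq _ _ _)
  clear_value Bad
  refine ⟨ttFin I l lb Bad, ?_, ?_, ?_, ?_, ?_⟩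
  · intro i p
    unfold ttFin
    by_cases hp : p ∈ Bad
    · rw [if_pos hp]; exact mem_singleton_self p
    · rw [if_neg hp]
      exact mem_sdiff.2 ⟨mem_insert_self _ _, hp⟩
  · intro i p q hq
    unfold ttFin at hq ⊢
    by_cases hp : p ∈ Bad
    · rw [if_pos hp, mem_singleton] at hq
      subst hq
      rw [if_pos hp]
      exact mem_singleton_self q
    · rw [if_neg hp, mem_sdiff] at hq
      rw [if_neg hq.2, mem_sdiff]
      exact ⟨hsymm i p q hq.1, hp⟩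
  · intro i j p hij q hq
    unfold ttFin at hq ⊢
    by_cases hp : p ∈ Bad
    · rw [if_pos hp] at hq ⊢
      exact hq
    · rw [if_neg hp, mem_sdiff] at hq ⊢
      exact ⟨hanti i j p hij hq.1, hq.2⟩
  · intro i hi p
    unfold ttFin
    by_cases hp : p ∈ Bad
    · rw [if_pos hp, card_singleton]
      unfold ttLen
      omega
    · rw [if_neg hp]
      refine (card_le_card sdiff_subset).trans (tt_size hK lb p ?_)
      intro k hk
      refine (hlb k hk).2.2 p ?_ i hi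
      intro hpk
      exact hp (hsubB k hk hpk)
  · intro X hXI hXTL hX
    subst hXI
    by_contra hc
    rw [not_le] at hc
    have hTL : ∀ i p, p ∉ Bad → X.TL i p = ttAll X.I l lb i p \ Bad := by
      intro i p hp
      rw [hXTL]
      unfold ttFin
      rw [if_neg hp]
    have hSc : 2 ^ 16 * X.I ^ 2 * 2 ^ l < (X.S \ Bad).card := by
      have h1 := le_card_sdiff Bad X.S
      omega
    have key := peel (X.S \ Bad) (fun p t => X.M p (min t (2 ^ X.I))) (ttAll X.I l lb) X.I (l + 5)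
      (X.I + 3) lb (by omega) (by omega) ?_ ?_ ?_ ?_ ?_ ?_
    · obtain ⟨p, hp, hpc⟩ := key
      have h := hX p (mem_sdiff.1 hp).1
      rw [min_self] at hpc
      omega
    · intro p hp t
      have hp' := (mem_sdiff.1 hp).1
      rcases Nat.lt_or_ge t (2 ^ X.I) with h | h
      · have e1 : min t (2 ^ X.I) = t := min_eq_left h.le
        have e2 : min (t + 1) (2 ^ X.I) = t + 1 := min_eq_left h
        show X.M p (min t (2 ^ X.I)) ⊆ X.M p (min (t + 1) (2 ^ X.I))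
        rw [e1, e2]
        exact X.mono p hp' t h
      · have e1 : min t (2 ^ X.I) = 2 ^ X.I := min_eq_right h
        have e2 : min (t + 1) (2 ^ X.I) = 2 ^ X.I := min_eq_right (by omega)
        show X.M p (min t (2 ^ X.I)) ⊆ X.M p (min (t + 1) (2 ^ X.I))
        rw [e1, e2]
    · intro p hp
      show p ∈ X.M p (min 0 (2 ^ X.I))
      rw [Nat.zero_min]
      exact X.self p (mem_sdiff.1 hp).1
    · intro p hp q hq hpq t t' h1 h2 h1' h2' h3 h4
      have hp' := mem_sdiff.1 hp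
      have hq' := mem_sdiff.1 hq
      have h := X.dekker p hp'.1 q hq'.1 hpq t t' h1 h2 h1' h2'
        (by rw [hTL _ p hp'.2]; exact mem_sdiff.2 ⟨h3, hq'.2⟩)
        (by rw [hTL _ q hq'.2]; exact mem_sdiff.2 ⟨h4, hp'.2⟩)
      show X.M p (min (t - 1) (2 ^ X.I)) ⊆ X.M q (min t' (2 ^ X.I)) ∨
        X.M q (min (t' - 1) (2 ^ X.I)) ⊆ X.M p (min t (2 ^ X.I))
      rw [min_eq_left (by omega : t - 1 ≤ 2 ^ X.I), min_eq_left h2', min_eq_left h2,
        min_eq_left (by omega : t' - 1 ≤ 2 ^ X.I)]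
      exact h
    · intro k hk r hr i hi i' hi' p q h
      unfold ttAll
      rw [mem_insert]
      right
      simp only [mem_biUnion, mem_filter, mem_univ, true_and, mem_range]
      refine ⟨k, by omega, r, hr, ?_⟩
      have hd : 2 ^ (l + 14 - k + i') ∣ 2 ^ (l + 5 + 9 - k + i) := pow_dvd_pow 2 (by omega)
      exact (Nat.ModEq.of_dvd hd h : Nat.ModEq _ _ _)
    · intro k hk U hU
      exact (hlb k hk).1 U hU
    · refine lt_of_le_of_lt ?_ hSc
      calc 4 * X.I * (Nat.log 2 (l + 5) + 1) * 2 ^ (l + 5 + 9)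
          ≤ 4 * X.I * X.I * 2 ^ (l + 5 + 9) :=
            Nat.mul_le_mul_right _ (Nat.mul_le_mul_left _ hK)
        _ = 2 ^ 16 * X.I ^ 2 * 2 ^ l := by
            have e : l + 5 + 9 = l + 14 := by omega
            rw [e, pow_add]
            ring

end Pool.Agent.X217
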